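import Pool.Agent.MUM.Targets

set_option autoImplicit false

/-! # MUM-OREF: all reflections are in the stabiliser -/

namespace Pool.Agent.MUM

open Finset Pool.Agent.LEG Pool.Agent.HEP
open scoped BigOperators Topology

namespace OREF_

variable {m : ℕ}

/-- the bilinear form -/
noncomputable def B (J : Mat m) (a b : Fin m → ℂ) : ℂ := a ⬝ᵥ J.mulVec b

theorem B_symm {J : Mat m} (hJ : J.transpose = J) (a b : Fin m → ℂ) : B J a b = B J b a := by
  unfold B
  rw [Matrix.dotProduct_mulVec, ← Matrix.mulVec_transpose, hJ, dotProduct_comm]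

theorem B_add_left (J : Mat m) (a b c : Fin m → ℂ) : B J (a + b) c = B J a c + B J b c := by
  simp [B, add_dotProduct]

theorem B_add_right (J : Mat m) (a b c : Fin m → ℂ) : B J a (b + c) = B J a b + B J a c := by
  simp [B, Matrix.mulVec_add, dotProduct_add]

theorem B_smul_left (J : Mat m) (s : ℂ) (a c : Fin m → ℂ) : B J (s • a) c = s * B J a c := by
  simp [B, smul_dotProduct]

theorem B_smul_right (J : Mat m) (s : ℂ) (a c : Fin m → ℂ) : B J a (s • c) = s * B J a c := by
  simp [B, Matrix.mulVec_smul, dotProduct_smul]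

/-- `γ(t)` -/
noncomputable def gam (A : Mat m) (t : ℂ) : Mat m :=
  1 + Complex.sin t • A + (1 - Complex.cos t) • (A * A)

theorem gam_zero (A : Mat m) : gam A 0 = 1 := by simp [gam]

theorem gam_mul_A {A : Mat m} (hA : A * A * A = -A) (t : ℂ) :
    gam A t * A = Complex.cos t • A + Complex.sin t • (A * A) := by
  unfold gam
  rw [add_mul, add_mul, one_mul, smul_mul_assoc, smul_mul_assoc, hA]
  module

theorem gam_deriv {A : Mat m} (hA : A * A * A = -A) (t : ℂ) (i j : Fin m) :
    HasDerivAt (fun s => gam A s i j) ((gam A t * A) i j) t := by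
  rw [gam_mul_A hA]
  have h1 : HasDerivAt (fun s : ℂ => (1 : Mat m) i j + Complex.sin s * A i j +
      (1 - Complex.cos s) * (A * A) i j)
      (0 + Complex.cos t * A i j + (0 - (-Complex.sin t)) * (A * A) i j) t := by
    apply HasDerivAt.add
    · apply HasDerivAt.add
      · exact hasDerivAt_const _ _
      · exact (Complex.hasDerivAt_sin t).mul_const _
    · exact ((hasDerivAt_const _ _).sub (Complex.hasDerivAt_cos t)).mul_const _
  have h2 : (fun s => gam A s i j) = (fun s : ℂ => (1 : Mat m) i j + Complex.sin s * A i j +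
      (1 - Complex.cos s) * (A * A) i j) := by
    funext s
    simp [gam]
  rw [h2]
  convert h1 using 1
  simp

theorem gam_inv {A : Mat m} (hA : A * A * A = -A) (t : ℂ) : gam A t * gam A (-t) = 1 := by
  have h4 : A * A * (A * A) = -(A * A) := by
    rw [← mul_assoc, hA, neg_mul]
  have h3 : A * (A * A) = -A := by rw [← mul_assoc, hA]
  have hcs : Complex.sin t ^ 2 + Complex.cos t ^ 2 = 1 := Complex.sin_sq_add_cos_sq t
  unfold gam
  rw [Complex.sin_neg, Complex.cos_neg]
  simp only [add_mul, mul_add, smul_mul_assoc, mul_smul_comm, one_mul, mul_one, hA, h3, h4]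
  generalize Complex.sin t = s at *
  generalize Complex.cos t = c at *
  match_scalars <;> first | ring1 | linear_combination hcs |
    linear_combination (-1 : ℂ) * hcs

theorem rf_smul (J : Mat m) {s : ℂ} (hs : s ≠ 0) (u : Fin m → ℂ) : rf J (s • u) = rf J u := by
  unfold rf
  have h1 : (s • u) ⬝ᵥ J.mulVec (s • u) = s * s * (u ⬝ᵥ J.mulVec u) := by
    rw [Matrix.mulVec_smul, smul_dotProduct, dotProduct_smul, smul_eq_mul, smul_eq_mul]
    ring
  rw [h1, Matrix.smul_vecMulVec, Matrix.vecMulVec_smul, smul_mul_assoc, smul_mul_assoc,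
    smul_smul, smul_smul]
  congr 2
  by_cases hu : u ⬝ᵥ J.mulVec u = 0
  · rw [hu]; simp
  · field_simp

theorem wd_mulVec (J : Mat m) (a b x : Fin m → ℂ) :
    (wd J a b).mulVec x = B J b x • a - B J a x • b := by
  unfold wd B
  rw [← Matrix.mulVec_mulVec, Matrix.sub_mulVec, Matrix.vecMulVec_mulVec, Matrix.vecMulVec_mulVec,
    op_smul_eq_smul, op_smul_eq_smul]

theorem wd_transpose_mul {J : Mat m} (hJ : J.transpose = J) (a b : Fin m → ℂ) :
    (wd J a b).transpose * J = -(J * wd J a b) := by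
  unfold wd
  rw [Matrix.transpose_mul, hJ, Matrix.transpose_sub, Matrix.transpose_vecMulVec,
    Matrix.transpose_vecMulVec]
  noncomm_ring

theorem ext_mulVec {M N : Mat m} (h : ∀ x, M.mulVec x = N.mulVec x) : M = N :=
  Matrix.ext_of_mulVec_single fun _ => h _

theorem wd_cube {J : Mat m} (hJ : J.transpose = J) {v b : Fin m → ℂ} (hv : B J v v = 1)
    (hb : B J b b = 1) (hvb : B J v b = 0) :
    wd J v b * wd J v b * wd J v b = -(wd J v b) := by
  have hbv : B J b v = 0 := by rw [B_symm hJ]; exact hvb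
  apply ext_mulVec
  intro x
  rw [← Matrix.mulVec_mulVec, ← Matrix.mulVec_mulVec, Matrix.neg_mulVec]
  simp only [wd_mulVec, Matrix.mulVec_sub, Matrix.mulVec_smul, hv, hb, hvb, hbv]
  module

theorem gam_v {J : Mat m} (hJ : J.transpose = J) {v b : Fin m → ℂ} (hv : B J v v = 1)
    (hb : B J b b = 1) (hvb : B J v b = 0) (t : ℂ) :
    (gam (wd J v b) t).mulVec v = Complex.cos t • v - Complex.sin t • b := by
  have hbv : B J b v = 0 := by rw [B_symm hJ]; exact hvb
  unfold gam
  rw [Matrix.add_mulVec, Matrix.add_mulVec, Matrix.smul_mulVec, Matrix.smul_mulVec,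
    ← Matrix.mulVec_mulVec, Matrix.one_mulVec]
  simp only [wd_mulVec, Matrix.mulVec_sub, Matrix.mulVec_smul, hv, hb, hvb, hbv]
  module

theorem gam_transpose_mul {J : Mat m} (hJ : J.transpose = J) (v b : Fin m → ℂ) (t : ℂ) :
    (gam (wd J v b) t).transpose * J = J * gam (wd J v b) (-t) := by
  have h1 := wd_transpose_mul hJ v b
  have h2 : (wd J v b).transpose * (wd J v b).transpose * J = J * (wd J v b * wd J v b) := by
    rw [mul_assoc, h1, mul_neg, ← mul_assoc, h1]
    noncomm_ring
  unfold gam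
  rw [Matrix.transpose_add, Matrix.transpose_add, Matrix.transpose_smul, Matrix.transpose_smul,
    Matrix.transpose_mul, Matrix.transpose_one, add_mul, add_mul, smul_mul_assoc, smul_mul_assoc,
    h2, h1, Complex.sin_neg, Complex.cos_neg, mul_add, mul_add, mul_smul_comm, mul_smul_comm,
    one_mul, mul_one]
  module

theorem rf_conj {J G H : Mat m} {v u : Fin m → ℂ} (hv : B J v v = 1) (hu : B J u u = 1)
    (hGH : G * H = 1) (hGu : G.mulVec v = u) (hJH : G.transpose * J = J * H) :
    G * rf J v * H = rf J u := by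
  have hv' : v ⬝ᵥ J.mulVec v = 1 := hv
  have hu' : u ⬝ᵥ J.mulVec u = 1 := hu
  unfold rf
  rw [hv', hu', mul_sub, sub_mul, mul_one, hGH, mul_smul_comm, smul_mul_assoc]
  congr 2
  rw [mul_assoc, mul_assoc, ← hJH, ← mul_assoc, ← mul_assoc]
  congr 1
  rw [Matrix.mul_vecMulVec, Matrix.vecMulVec_mul, Matrix.vecMul_transpose, hGu]

theorem step1 (h1 : T_ST1) (h4 : T_ST4) {V : Set (ℂ × Mat m)} {J : Mat m}
    (hJ : J.transpose = J) (hL : ∀ a b, wd J a b ∈ LieS V) {v u : Fin m → ℂ}
    (hv : B J v v = 1) (hu : B J u u = 1) (huv : B J u v ^ 2 ≠ 1) (hs : rf J v ∈ Stab V) :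
    rf J u ∈ Stab V := by
  obtain ⟨t, ht⟩ := Complex.cos_surjective (B J u v)
  have hcs : Complex.sin t ^ 2 + Complex.cos t ^ 2 = 1 := Complex.sin_sq_add_cos_sq t
  have hd : Complex.sin t ≠ 0 := by
    intro h0
    apply huv
    rw [← ht]
    rw [h0] at hcs
    linear_combination hcs
  set c := Complex.cos t with hc
  set d := Complex.sin t with hdd
  set b : Fin m → ℂ := (-d⁻¹) • (u + (-c) • v) with hbdef
  have hvu : B J v u = c := by rw [B_symm hJ]; exact ht.symm
  have hvb : B J v b = 0 := by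
    rw [hbdef, B_smul_right, B_add_right, B_smul_right, hv, hvu]
    ring
  have hb : B J b b = 1 := by
    have : B J (u + (-c) • v) b = -d⁻¹ * d ^ 2 := by
      rw [hbdef, B_smul_right, B_add_left, B_add_right, B_add_right, B_smul_left, B_smul_left,
        B_smul_right, B_smul_right, hv, hvu, hu, ← ht]
      linear_combination (-d⁻¹) * (-hcs)
    rw [show B J b b = -d⁻¹ * B J (u + (-c) • v) b by
      conv_lhs => rw [hbdef, B_smul_left]
      , this]
    field_simp
  have hA := wd_cube hJ hv hb hvb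
  have hg : ∀ s, gam (wd J v b) s ∈ Stab V :=
    h4 m V _ _ (hL v b) (gam_zero _) (fun s i j => gam_deriv hA s i j)
  have hgu : (gam (wd J v b) t).mulVec v = u := by
    rw [gam_v hJ hv hb hvb, hbdef, smul_smul, ← hdd, ← hc]
    have : d * -d⁻¹ = -1 := by field_simp
    rw [this]
    module
  have := rf_conj hv hu (gam_inv hA t) hgu (gam_transpose_mul hJ v b t)
  rw [← this]
  exact (h1 m V).2.1 _ ((h1 m V).2.1 _ (hg t) _ hs) _ (hg (-t))

theorem step2 (h1 : T_ST1) (h4 : T_ST4) {V : Set (ℂ × Mat m)} {J : Mat m}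
    (hJ : J.transpose = J) (hL : ∀ a b, wd J a b ∈ LieS V) {v u : Fin m → ℂ}
    (hv : B J v v ≠ 0) (hu : B J u u ≠ 0) (huv : B J u v ^ 2 ≠ B J u u * B J v v)
    (hs : rf J v ∈ Stab V) : rf J u ∈ Stab V := by
  obtain ⟨x, hx⟩ := IsAlgClosed.exists_pow_nat_eq (B J v v) (n := 2) (by norm_num)
  obtain ⟨y, hy⟩ := IsAlgClosed.exists_pow_nat_eq (B J u u) (n := 2) (by norm_num)
  have hx0 : x ≠ 0 := by rintro rfl; apply hv; rw [← hx]; norm_num
  have hy0 : y ≠ 0 := by rintro rfl; apply hu; rw [← hy]; norm_num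
  rw [← rf_smul J (inv_ne_zero hy0) u]
  rw [← rf_smul J (inv_ne_zero hx0) v] at hs
  refine step1 h1 h4 hJ hL ?_ ?_ ?_ hs
  · rw [B_smul_left, B_smul_right, ← hx]; field_simp
  · rw [B_smul_left, B_smul_right, ← hy]; field_simp
  · rw [B_smul_left, B_smul_right]
    intro h
    apply huv
    rw [← hx, ← hy]
    field_simp at h
    linear_combination h

end OREF_

open OREF_ in
theorem p_OREF (h1 : T_ST1) (h4 : T_ST4) : T_OREF := by
  intro m V J v _ hJ hdet hv hs hL u hu
  change B J v v ≠ 0 at hv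
  change B J u u ≠ 0 at hu
  by_cases huv : B J u v ^ 2 = B J u u * B J v v
  swap
  · exact step2 h1 h4 hJ hL hv hu huv hs
  set l := B J u v / B J v v with hl
  set u' : Fin m → ℂ := u + (-l) • v with hu'
  have hlv : l * B J v v = B J u v := by rw [hl]; field_simp
  have hvu : B J v u = B J u v := B_symm hJ _ _
  have e1 : B J u' v = 0 := by
    rw [hu', B_add_left, B_smul_left]
    linear_combination (-1 : ℂ) * hlv
  have e2 : B J u' u = 0 := by
    rw [hu', B_add_left, B_smul_left, hvu]
    apply mul_right_cancel₀ hv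
    linear_combination (-1 : ℂ) * huv - B J u v * hlv
  have e3 : B J u' u' = 0 := by
    have : B J u' u' = B J u' u + (-l) * B J u' v := by
      conv_lhs => rw [hu', B_add_right, B_smul_right, ← hu']
    rw [this, e1, e2]
    ring
  have hu2 : u = u' + l • v := by rw [hu']; module
  by_cases h0 : u' = 0
  · -- `u` is proportional to `v`
    have hl0 : l ≠ 0 := by
      intro hl0
      apply hu
      rw [hu2, h0, hl0]
      simp [B]
    rw [hu2, h0, zero_add, rf_smul J hl0]
    exact hs
  -- an auxiliary vector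
  obtain ⟨w0, hw0⟩ : ∃ w0, B J w0 u' ≠ 0 := by
    by_contra hcon
    push Not at hcon
    apply h0
    have h5 : J.mulVec u' = 0 := by
      funext i
      have := hcon (Pi.single i 1)
      simpa [B] using this
    exact Matrix.eq_zero_of_mulVec_eq_zero hdet h5
  have e4 : B J v u' = 0 := by rw [B_symm hJ]; exact e1
  obtain ⟨w1, e5, e6⟩ : ∃ w1, B J w1 u' = 1 ∧ B J w1 v = 0 := by
    refine ⟨(B J w0 u')⁻¹ • (w0 + (-(B J w0 v / B J v v)) • v), ?_, ?_⟩
    · rw [B_smul_left, B_add_left, B_smul_left, e4, mul_zero, add_zero]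
      exact inv_mul_cancel₀ hw0
    · rw [B_smul_left, B_add_left, B_smul_left]
      have : B J w0 v + -(B J w0 v / B J v v) * B J v v = 0 := by
        field_simp
        ring
      rw [this, mul_zero]
  set k : ℂ := 2 / B J u u with hk
  set s : ℂ := (k - B J w1 w1) / 2 with hs'
  obtain ⟨w, hw⟩ : ∃ w, w = w1 + s • u' := ⟨_, rfl⟩
  have e7 : B J w v = 0 := by
    rw [hw, B_add_left, B_smul_left, e6, e1]
    ring
  have e8 : B J w w = k := by
    rw [hw, B_add_left, B_add_right, B_smul_left, B_add_right, B_smul_right, B_smul_right, e3, e5,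
      B_symm hJ u' w1, e5, hs']
    ring
  have e9 : B J w u = 1 := by
    have : B J w u' = 1 := by
      rw [hw, B_add_left, B_smul_left, e5, e3]
      ring
    rw [hu2, B_add_right, B_smul_right, e7, this]
    ring
  have hk0 : k ≠ 0 := by
    rw [hk]
    exact div_ne_zero two_ne_zero hu
  have hku : B J u u * k = 2 := by
    rw [hk]
    field_simp
  have hw1 : rf J w ∈ Stab V := by
    refine step2 h1 h4 hJ hL hv (by rw [e8]; exact hk0) ?_ hs
    rw [e7, e8]
    intro h
    have : k * B J v v = 0 := by rw [← h]; ring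
    exact (mul_ne_zero hk0 hv) this
  refine step2 h1 h4 hJ hL (by rw [e8]; exact hk0) hu ?_ hw1
  rw [e8, hku, B_symm hJ u w, e9]
  norm_num

end Pool.Agent.MUM
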