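import Pool.Agent.MUM.Targets

set_option autoImplicit false

/-!
# The fundamental matrix: differential equation and bilinear relations
-/

namespace Pool.Agent.MUM

open Finset Pool.Agent.LEG Pool.Agent.HEP
open scoped BigOperators Topology

/-- the bilinear relations for `Yv` -/
theorem Yv_bil (h1 : T_AN) (h2 : T_NJ) {m : ℕ} (α : Fin m → ℚ) (hα : Sym m α) {z : ℂ}
    (hz : ‖z‖ < 1) : (Yv α z).transpose * Bz α z * Yv α z = Jm m := by
  have h := (h1 m α hα).2.2.1 z (by simpa using hz)
  have h' := (h2 m).2.2.2.2.1 (Complex.log z)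
  unfold Yv
  rw [Matrix.transpose_mul]
  calc (eN m (Complex.log z)).transpose * (Sv α z).transpose * Bz α z *
        (Sv α z * eN m (Complex.log z))
      = (eN m (Complex.log z)).transpose * ((Sv α z).transpose * Bz α z * Sv α z) *
        eN m (Complex.log z) := by simp only [Matrix.mul_assoc]
    _ = Jm m := by rw [h, h']

/-- the system for `Yv` -/
theorem Yv_ode (h1 : T_AN) (h2 : T_NJ) {m : ℕ} (α : Fin m → ℚ) (hα : Sym m α) {z : ℂ}
    (hz : ‖z‖ < 1) (hs : z ∈ Complex.slitPlane) : ∃ Y' : Mat m,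
    (∀ a j : Fin m, HasDerivAt (fun z => Yv α z a j) (Y' a j) z) ∧
    (z * (1 - z)) • Y' = ((1 - z) • Nm m + z • Em α) * Yv α z := by
  obtain ⟨S', hS', hSeq⟩ := (h1 m α hα).2.2.2.2 z (by simpa using hz)
  have hz0 : z ≠ 0 := Complex.slitPlane_ne_zero hs
  refine ⟨S' * eN m (Complex.log z) + z⁻¹ • (Sv α z * (Nm m * eN m (Complex.log z))), ?_, ?_⟩
  · intro a j
    have hl : HasDerivAt Complex.log z⁻¹ z := Complex.hasDerivAt_log hs
    have he : ∀ i : Fin m, HasDerivAt (fun z => eN m (Complex.log z) i j)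
        ((Nm m * eN m (Complex.log z)) i j * z⁻¹) z := fun i =>
      HasDerivAt.comp z ((h2 m).2.2.1 (Complex.log z) i j) hl
    have hsum : HasDerivAt (fun z => ∑ i, Sv α z a i * eN m (Complex.log z) i j)
        (∑ i, (S' a i * eN m (Complex.log z) i j +
          Sv α z a i * ((Nm m * eN m (Complex.log z)) i j * z⁻¹))) z :=
      HasDerivAt.fun_sum fun i _ => (hS' a i).mul (he i)
    have hfun : (fun z => Yv α z a j) = fun z => ∑ i, Sv α z a i * eN m (Complex.log z) i j := by
      funext z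
      rfl
    rw [hfun]
    refine hsum.congr_deriv ?_
    rw [Finset.sum_add_distrib, Matrix.add_apply, Matrix.smul_apply, Matrix.mul_apply,
      Matrix.mul_apply, smul_eq_mul, Finset.mul_sum]
    congr 1
    refine Finset.sum_congr rfl fun i _ => ?_
    ring
  · have hc := (h2 m).2.2.2.1 (Complex.log z)
    rw [smul_add, smul_smul, ← Matrix.smul_mul, hSeq]
    have h3 : z * (1 - z) * z⁻¹ = 1 - z := by field_simp
    rw [h3]
    unfold Yv
    rw [sub_mul, Matrix.smul_mul, Matrix.mul_assoc, Matrix.mul_assoc (Sv α z)]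
    abel

end Pool.Agent.MUM
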