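import Pool.Agent.MUM.Targets
import Mathlib

set_option autoImplicit false

namespace Pool.Agent.MUM

namespace OGEN_

open Matrix

/-- bilinear pairing -/
noncomputable def bl {m : ℕ} (J : Mat m) (x y : Fin m → ℂ) : ℂ := x ⬝ᵥ J.mulVec y

theorem bl_add_left {m : ℕ} (J : Mat m) (x y z : Fin m → ℂ) :
    bl J (x + y) z = bl J x z + bl J y z := by
  simp [bl, add_dotProduct]

theorem bl_sub_left {m : ℕ} (J : Mat m) (x y z : Fin m → ℂ) :
    bl J (x - y) z = bl J x z - bl J y z := by
  simp [bl, sub_dotProduct]

theorem bl_add_right {m : ℕ} (J : Mat m) (x y z : Fin m → ℂ) :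
    bl J x (y + z) = bl J x y + bl J x z := by
  simp [bl, mulVec_add, dotProduct_add]

theorem bl_sub_right {m : ℕ} (J : Mat m) (x y z : Fin m → ℂ) :
    bl J x (y - z) = bl J x y - bl J x z := by
  simp [bl, mulVec_sub, dotProduct_sub]

theorem bl_symm {m : ℕ} (J : Mat m) (hJ : J.transpose = J) (x y : Fin m → ℂ) :
    bl J x y = bl J y x := by
  unfold bl
  rw [dotProduct_mulVec, ← mulVec_transpose, hJ, dotProduct_comm]

theorem bl_g {m : ℕ} (J g : Mat m) (hg : g.transpose * J * g = J) (x y : Fin m → ℂ) :
    bl J (g.mulVec x) (g.mulVec y) = bl J x y := by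
  unfold bl
  have : g.mulVec x ⬝ᵥ J.mulVec (g.mulVec y) = x ⬝ᵥ (g.transpose * J * g).mulVec y := by
    rw [Matrix.mul_assoc, ← Matrix.mulVec_mulVec, ← Matrix.mulVec_mulVec, dotProduct_mulVec x,
      vecMul_transpose]
  rw [this, hg]

theorem rf_mulVec {m : ℕ} (J : Mat m) (u x : Fin m → ℂ) :
    (rf J u).mulVec x = x - (2 * bl J u x / bl J u u) • u := by
  unfold rf
  rw [sub_mulVec, one_mulVec, smul_mulVec, ← Matrix.mulVec_mulVec, vecMulVec_mulVec]
  congr 1
  ext i
  simp only [Pi.smul_apply, smul_eq_mul, bl, MulOpposite.smul_eq_mul_unop,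
    MulOpposite.unop_op]
  ring

theorem rf_isom {m : ℕ} (J : Mat m) (hJ : J.transpose = J) (u : Fin m → ℂ)
    (hu : bl J u u ≠ 0) (x y : Fin m → ℂ) :
    bl J ((rf J u).mulVec x) ((rf J u).mulVec y) = bl J x y := by
  rw [rf_mulVec, rf_mulVec, bl_sub_left, bl_sub_right, bl_sub_right]
  have h1 : ∀ (c : ℂ) (a b : Fin m → ℂ), bl J a (c • b) = c * bl J a b := by
    intro c a b; simp [bl, mulVec_smul]
  have h2 : ∀ (c : ℂ) (a b : Fin m → ℂ), bl J (c • a) b = c * bl J a b := by
    intro c a b; simp [bl]
  rw [h1, h2, h1, h2, bl_symm J hJ x u]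
  field_simp
  ring

theorem form_ext {m : ℕ} (A B : Mat m) (h : ∀ x y, x ⬝ᵥ A.mulVec y = x ⬝ᵥ B.mulVec y) : A = B := by
  ext i j
  have := h (Pi.single i 1) (Pi.single j 1)
  simpa using this

theorem rf_form {m : ℕ} (J : Mat m) (hJ : J.transpose = J) (u : Fin m → ℂ)
    (hu : bl J u u ≠ 0) : (rf J u).transpose * J * (rf J u) = J := by
  apply form_ext
  intro x y
  have := rf_isom J hJ u hu x y
  unfold bl at this
  rw [← this, Matrix.mul_assoc, ← Matrix.mulVec_mulVec, ← Matrix.mulVec_mulVec,
    dotProduct_mulVec x, vecMul_transpose]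

theorem rf_sq {m : ℕ} (J : Mat m) (u : Fin m → ℂ)
    (hu : bl J u u ≠ 0) : rf J u * rf J u = 1 := by
  apply Matrix.ext_of_mulVec_single
  intro i
  have h1 : ∀ (c : ℂ) (a b : Fin m → ℂ), bl J a (c • b) = c * bl J a b := by
    intro c a b; simp [bl, mulVec_smul]
  rw [← Matrix.mulVec_mulVec, rf_mulVec, rf_mulVec, bl_sub_right, h1, one_mulVec]
  have : 2 * (bl J u (Pi.single i 1) - 2 * bl J u (Pi.single i 1) / bl J u u * bl J u u) /
      bl J u u = - (2 * bl J u (Pi.single i 1) / bl J u u) := by
    field_simp
    ring
  rw [this]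
  simp

end OGEN_

open OGEN_ Matrix in
theorem p_OGEN : T_OGEN := by
  intro m J g hJ hdet hg
  set B : LinearMap.BilinForm ℂ (Fin m → ℂ) := Matrix.toBilin' J with hB
  have hBb : ∀ x y, B x y = bl J x y := by
    intro x y
    rw [hB, Matrix.toBilin'_apply']
    rfl
  have hsymm : LinearMap.IsSymm B := by
    constructor
    intro x y
    simp only [hBb, RingHom.id_apply]
    exact bl_symm J hJ _ _
  have hnd : B.Nondegenerate := by
    rw [hB]
    exact (LinearMap.BilinForm.nondegenerate_toBilin'_iff_det_ne_zero).2 hdet
  obtain ⟨v, hv⟩ := LinearMap.BilinForm.exists_orthogonal_basis hsymm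
  have hvv : ∀ i, bl J (v i) (v i) ≠ 0 := by
    intro i
    rw [← hBb]
    exact hv.not_isOrtho_basis_self_of_separatingLeft hnd.1 i
  have hvo : ∀ i j, i ≠ j → bl J (v i) (v j) = 0 := by
    intro i j hij
    rw [← hBb]
    exact hv hij
  have key : ∀ k : ℕ, ∀ g : Mat m, g.transpose * J * g = J →
      (∀ i : Fin (Module.finrank ℂ (Fin m → ℂ)), k ≤ (i : ℕ) → g.mulVec (v i) = v i) →
      g ∈ Submonoid.closure {T | ∃ u : Fin m → ℂ, u ⬝ᵥ J.mulVec u ≠ 0 ∧ T = rf J u} := by
    intro k
    induction k with
    | zero =>
      intro g _ hfix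
      have : g = 1 := by
        apply Matrix.toLin'.injective
        apply v.ext
        intro i
        rw [Matrix.toLin'_apply, Matrix.toLin'_apply, Matrix.one_mulVec]
        exact hfix i (Nat.zero_le _)
      rw [this]
      exact Submonoid.one_mem _
    | succ k ih =>
      intro g hg hfix
      by_cases hk : k < Module.finrank ℂ (Fin m → ℂ)
      · set e := v ⟨k, hk⟩ with he
        set u := g.mulVec e with hu
        have hue : bl J u u = bl J e e := bl_g J g hg e e
        have hee : bl J e e ≠ 0 := hvv _
        have heo : ∀ i : Fin (Module.finrank ℂ (Fin m → ℂ)), k + 1 ≤ (i : ℕ) → bl J e (v i) = 0 := by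
          intro i hi
          apply hvo
          intro h
          rw [← h] at hi
          simp at hi
        have huo : ∀ i : Fin (Module.finrank ℂ (Fin m → ℂ)), k + 1 ≤ (i : ℕ) → bl J u (v i) = 0 := by
          intro i hi
          have := bl_g J g hg e (v i)
          rw [hfix i hi] at this
          rw [hu, this, heo i hi]
        have hgen : ∀ w : Fin m → ℂ, bl J w w ≠ 0 →
            rf J w ∈ Submonoid.closure
              {T | ∃ u : Fin m → ℂ, u ⬝ᵥ J.mulVec u ≠ 0 ∧ T = rf J u} := by
          intro w hw
          exact Submonoid.subset_closure ⟨w, hw, rfl⟩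
        have hmul : ∀ (a h : Mat m), a.transpose * J * a = J → h.transpose * J * h = J →
            (a * h).transpose * J * (a * h) = J := by
          intro a h ha hh
          rw [transpose_mul]
          calc h.transpose * a.transpose * J * (a * h)
              = h.transpose * (a.transpose * J * a) * h := by simp only [Matrix.mul_assoc]
            _ = J := by rw [ha, hh]
        by_cases hne : bl J (u - e) (u - e) ≠ 0
        · have h1 : rf J (u - e) * g ∈ Submonoid.closure
              {T | ∃ u : Fin m → ℂ, u ⬝ᵥ J.mulVec u ≠ 0 ∧ T = rf J u} := by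
            apply ih
            · exact hmul _ _ (rf_form J hJ _ hne) hg
            · intro i hi
              rcases Nat.lt_or_ge k i with hlt | hge
              · rw [← Matrix.mulVec_mulVec, hfix i hlt, rf_mulVec, bl_sub_left, huo i hlt,
                  heo i hlt]
                simp
              · have hik : i = ⟨k, hk⟩ := Fin.ext (le_antisymm hge hi)
                rw [hik, ← he, ← Matrix.mulVec_mulVec, ← hu, rf_mulVec]
                have h2 : 2 * bl J (u - e) u / bl J (u - e) (u - e) = 1 := by
                  rw [div_eq_one_iff_eq hne]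
                  simp only [bl_sub_left, bl_sub_right]
                  rw [hue, bl_symm J hJ e u]
                  ring
                rw [h2]
                simp
          have h3 : g = rf J (u - e) * (rf J (u - e) * g) := by
            rw [← Matrix.mul_assoc, rf_sq J _ hne, Matrix.one_mul]
          rw [h3]
          exact Submonoid.mul_mem _ (hgen _ hne) h1
        · push Not at hne
          have hc : bl J u e = bl J e e := by
            rw [bl_sub_left, bl_sub_right, bl_sub_right, hue, bl_symm J hJ e u] at hne
            linear_combination (-1/2) * hne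
          have h4 : bl J (u + e) (u + e) ≠ 0 := by
            have : bl J (u + e) (u + e) = 4 * bl J e e := by
              rw [bl_add_left, bl_add_right, bl_add_right, hue, bl_symm J hJ e u, hc]
              ring
            rw [this]
            exact mul_ne_zero (by norm_num) hee
          have h1 : rf J e * (rf J (u + e) * g) ∈ Submonoid.closure
              {T | ∃ u : Fin m → ℂ, u ⬝ᵥ J.mulVec u ≠ 0 ∧ T = rf J u} := by
            apply ih
            · exact hmul _ _ (rf_form J hJ _ hee) (hmul _ _ (rf_form J hJ _ h4) hg)
            · intro i hi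
              rcases Nat.lt_or_ge k i with hlt | hge
              · rw [← Matrix.mulVec_mulVec, ← Matrix.mulVec_mulVec, hfix i hlt,
                  rf_mulVec J (u + e), bl_add_left, huo i hlt, heo i hlt]
                simp only [add_zero, mul_zero, zero_div, zero_smul, sub_zero]
                rw [rf_mulVec, heo i hlt]
                simp
              · have hik : i = ⟨k, hk⟩ := Fin.ext (le_antisymm hge hi)
                rw [hik, ← he, ← Matrix.mulVec_mulVec, ← Matrix.mulVec_mulVec, ← hu,
                  rf_mulVec J (u + e)]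
                have h2 : 2 * bl J (u + e) u / bl J (u + e) (u + e) = 1 := by
                  rw [div_eq_one_iff_eq h4]
                  simp only [bl_add_left, bl_add_right]
                  rw [hue, bl_symm J hJ e u, hc]
                  ring
                rw [h2, one_smul, rf_mulVec]
                have h5 : bl J e (u - (u + e)) = - bl J e e := by
                  rw [bl_sub_right, bl_add_right]; ring
                rw [h5]
                have h6 : 2 * -bl J e e / bl J e e = -2 := by
                  field_simp
                rw [h6]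
                ext j
                simp
                ring
          have h3 : g = rf J (u + e) * (rf J e * (rf J e * (rf J (u + e) * g))) := by
            rw [← Matrix.mul_assoc (rf J e), rf_sq J _ hee, Matrix.one_mul,
              ← Matrix.mul_assoc, rf_sq J _ h4, Matrix.one_mul]
          rw [h3]
          exact Submonoid.mul_mem _ (hgen _ h4) (Submonoid.mul_mem _ (hgen _ hee) h1)
      · apply ih g hg
        intro i hi
        exact absurd (lt_of_le_of_lt hi i.isLt) hk
  exact key (Module.finrank ℂ (Fin m → ℂ)) g hg (fun i hi => absurd i.isLt (not_lt.2 hi))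

end Pool.Agent.MUM
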