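import Pool.Agent.MUM.Targets
import Pool.Agent.HEP.EVCC

set_option autoImplicit false

/-! MUM-AN: the analytic properties of `S`. -/

namespace Pool.Agent.MUM

open Finset Pool.Agent.LEG Pool.Agent.HEP
open scoped BigOperators Topology

namespace AN_

open EVCC_

/-- convergence in the unit disc -/
def VV (f : PowerSeries ℚ) : Prop := ∀ x : ℂ, ‖x‖ < 1 → CV f x

lemma VV.add {f g : PowerSeries ℚ} (hf : VV f) (hg : VV g) : VV (f + g) := by
  intro x hx
  have h := (hf x hx).add (hg x hx)
  refine Summable.of_nonneg_of_le (fun n => norm_nonneg _) (fun n => ?_) h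
  rw [co_add, add_mul]
  exact norm_add_le _ _

lemma VV.mul {f g : PowerSeries ℚ} (hf : VV f) (hg : VV g) : VV (f * g) := by
  intro x hx
  have h := summable_norm_sum_mul_antidiagonal_of_summable_norm (hf x hx) (hg x hx)
  unfold CV
  refine h.congr fun n => ?_
  rw [co_mul, sum_mul]
  congr 1
  refine sum_congr rfl fun p hp => ?_
  rw [← mem_antidiagonal.1 hp, pow_add]
  ring

lemma VV.poly (p : Polynomial ℚ) : VV (p : PowerSeries ℚ) := by
  intro x hx
  refine summable_of_ne_finset_zero (s := range (p.natDegree + 1)) fun n hn => ?_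
  have : co (p : PowerSeries ℚ) n = 0 := by
    unfold co
    rw [Polynomial.coeff_coe, Polynomial.coeff_eq_zero_of_natDegree_lt, Rat.cast_zero]
    simpa [mem_range, not_lt] using hn
  rw [this, zero_mul, norm_zero]

lemma VV.C (q : ℚ) : VV (PowerSeries.C q) := by
  have := VV.poly (Polynomial.C q)
  rwa [Polynomial.coe_C] at this

lemma VV.X : VV (PowerSeries.X : PowerSeries ℚ) := by
  have := VV.poly Polynomial.X
  rwa [Polynomial.coe_X] at this

lemma VV.zero : VV 0 := by
  have := VV.poly 0
  rwa [Polynomial.coe_zero] at this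

lemma VV.one : VV 1 := by
  have := VV.poly 1
  rwa [Polynomial.coe_one] at this

lemma VV.neg {f : PowerSeries ℚ} (hf : VV f) : VV (-f) := by
  have := (VV.C (-1)).mul hf
  have e : PowerSeries.C (-1 : ℚ) * f = -f := by
    rw [map_neg, map_one, neg_one_mul]
  rwa [e] at this

lemma VV.sub {f g : PowerSeries ℚ} (hf : VV f) (hg : VV g) : VV (f - g) := by
  rw [sub_eq_add_neg]
  exact hf.add hg.neg

lemma VV.sum {ι : Type} (s : Finset ι) {f : ι → PowerSeries ℚ} (hf : ∀ i ∈ s, VV (f i)) :
    VV (∑ i ∈ s, f i) := by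
  classical
  induction s using Finset.induction_on with
  | empty => simpa using VV.zero
  | insert a s ha ih =>
    rw [sum_insert ha]
    exact (hf a (mem_insert_self a s)).add (ih fun i hi => hf i (mem_insert_of_mem hi))

variable {z : ℂ}

lemma eC (q : ℚ) : evC (PowerSeries.C q) z = (q : ℂ) := by
  have := poly_case (Polynomial.C q) z
  rw [Polynomial.coe_C] at this
  rw [this, Polynomial.aeval_C]
  rfl

lemma eX : evC PowerSeries.X z = z := by
  have := poly_case Polynomial.X z
  rw [Polynomial.coe_X] at this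
  rw [this, Polynomial.aeval_X]

lemma e0 : evC 0 z = 0 := by
  have := poly_case 0 z
  rw [Polynomial.coe_zero] at this
  rw [this, map_zero]

lemma e1 : evC 1 z = 1 := by
  have := poly_case 1 z
  rw [Polynomial.coe_one] at this
  rw [this, map_one]

lemma eadd (hz : ‖z‖ < 1) {f g : PowerSeries ℚ} (hf : VV f) (hg : VV g) :
    evC (f + g) z = evC f z + evC g z := add_case (hf z hz) (hg z hz)

lemma emul (hz : ‖z‖ < 1) {f g : PowerSeries ℚ} (hf : VV f) (hg : VV g) :
    evC (f * g) z = evC f z * evC g z := mul_case (hf z hz) (hg z hz)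

lemma eneg (hz : ‖z‖ < 1) {f : PowerSeries ℚ} (hf : VV f) : evC (-f) z = -evC f z := by
  have e : PowerSeries.C (-1 : ℚ) * f = -f := by
    rw [map_neg, map_one, neg_one_mul]
  rw [← e, emul hz (VV.C _) hf, eC]
  push_cast
  ring

lemma esub (hz : ‖z‖ < 1) {f g : PowerSeries ℚ} (hf : VV f) (hg : VV g) :
    evC (f - g) z = evC f z - evC g z := by
  rw [sub_eq_add_neg, eadd hz hf hg.neg, eneg hz hg, sub_eq_add_neg]

lemma esum (hz : ‖z‖ < 1) {ι : Type} (s : Finset ι) {f : ι → PowerSeries ℚ}
    (hf : ∀ i ∈ s, VV (f i)) : evC (∑ i ∈ s, f i) z = ∑ i ∈ s, evC (f i) z := by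
  classical
  induction s using Finset.induction_on with
  | empty => simpa using e0
  | insert a s ha ih =>
    rw [sum_insert ha, sum_insert ha, eadd hz (hf a (mem_insert_self a s))
      (VV.sum s fun i hi => hf i (mem_insert_of_mem hi)), ih fun i hi => hf i (mem_insert_of_mem hi)]

/-- polynomial growth -/
lemma VV_of_bd {f : PowerSeries ℚ} {C : ℕ} {a : ℕ}
    (h : ∀ n, |PowerSeries.coeff n f| ≤ (C : ℚ) * ((n : ℚ) + 1) ^ a) : VV f := by
  intro x hx
  obtain ⟨r, hr1, hr2⟩ := exists_between hx
  have hr0 : 0 < r := lt_of_le_of_lt (norm_nonneg _) hr1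
  have h1 : Summable fun n : ℕ => (n : ℝ) ^ a * r ^ n :=
    summable_pow_mul_geometric_of_norm_lt_one a (by rwa [Real.norm_eq_abs, abs_of_pos hr0])
  have h2 : Summable fun n : ℕ => ((n + 1 : ℕ) : ℝ) ^ a * r ^ (n + 1) :=
    (summable_nat_add_iff 1).2 h1
  have h3 := h2.mul_left ((C : ℝ) / r)
  unfold CV
  refine Summable.of_nonneg_of_le (fun n => norm_nonneg _) (fun n => ?_) h3
  have h4 : ‖co f n‖ ≤ (C : ℝ) * ((n : ℝ) + 1) ^ a := by
    have h5 : |((PowerSeries.coeff n f : ℚ) : ℝ)| ≤ (C : ℝ) * ((n : ℝ) + 1) ^ a := by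
      exact_mod_cast h n
    unfold co
    have h6 : ((PowerSeries.coeff n f : ℚ) : ℂ) = (((PowerSeries.coeff n f : ℚ) : ℝ) : ℂ) := by
      push_cast
      rfl
    rw [h6, Complex.norm_real, Real.norm_eq_abs]
    exact h5
  rw [norm_mul, norm_pow]
  calc ‖co f n‖ * ‖x‖ ^ n ≤ ((C : ℝ) * ((n : ℝ) + 1) ^ a) * r ^ n := by gcongr
    _ = (C : ℝ) / r * (((n + 1 : ℕ) : ℝ) ^ a * r ^ (n + 1)) := by
      push_cast
      field_simp
      ring

lemma VV.deriv {f : PowerSeries ℚ} (hf : VV f) : VV (PowerSeries.derivative ℚ f) := by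
  intro x hx
  obtain ⟨r, hr1, hr2⟩ := exists_between hx
  have hr0 : 0 < r := lt_of_le_of_lt (norm_nonneg _) hr1
  have h1 := summ_deriv hf hr0 hr2
  have h2 := (summable_nat_add_iff 1).2 h1
  unfold CV
  refine Summable.of_nonneg_of_le (fun n => norm_nonneg _) (fun n => ?_) h2
  rw [co_deriv, norm_mul, norm_mul, norm_pow, Nat.add_sub_cancel]
  have h3 : ‖((n : ℂ) + 1)‖ = ((n + 1 : ℕ) : ℝ) := by
    rw [← Complex.norm_natCast]
    push_cast
    rfl
  rw [h3, mul_assoc]
  gcongr

end AN_

open EVCC_ AN_ in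
theorem p_AN (h1 : T_BD) (h2 : T_REC) (h3 : T_SB) : T_AN := by
  intro m α hα
  obtain ⟨C, hC⟩ := h1 m α fun i => ⟨hα.pos i, hα.lt i⟩
  obtain ⟨r1, r2, r3⟩ := h2 m α
  have hV : ∀ a j : ℕ, a ≤ m → j ≤ m → VV (Sf α a j) := fun a j ha hj =>
    VV_of_bd fun n => hC n a j ha hj
  refine ⟨?_, ?_, ?_, ?_, ?_⟩
  · ext a j
    have e : evC (Sf α a j) 0 = ((PowerSeries.coeff 0 (Sf α a j) : ℚ) : ℂ) := by
      unfold evC
      rw [tsum_eq_single 0 fun n hn => by rw [zero_pow hn, mul_zero], pow_zero, mul_one]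
    change evC (Sf α a j) 0 = _
    rw [e, r1, Matrix.one_apply]
    by_cases h : a = j
    · subst h
      simp
    · have h' : (a : ℕ) ≠ j := fun e => h (Fin.ext e)
      rw [if_neg h', if_neg h]
      simp
  · intro a j z hz
    rw [mem_ball_zero_iff] at hz
    exact (deriv_has (hV a j a.2.le j.2.le) hz).differentiableAt.differentiableWithinAt
  · intro z hz
    rw [mem_ball_zero_iff] at hz
    ext i j
    have h4 : evC _ z = evC _ z := congrArg (fun f => evC f z) (h3 m α hα i j i.2 j.2)
    have hcoef : ∀ a b : ℕ, VV ((if a + b + 1 = m then PowerSeries.C ((-1 : ℚ) ^ b) else 0) +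
        PowerSeries.C (b1 α a b) * PowerSeries.X) := by
      intro a b
      refine VV.add ?_ ((VV.C _).mul VV.X)
      split_ifs
      · exact VV.C _
      · exact VV.zero
    have hterm : ∀ a ∈ range m, ∀ b ∈ range m,
        VV (((if a + b + 1 = m then PowerSeries.C ((-1 : ℚ) ^ b) else 0) +
        PowerSeries.C (b1 α a b) * PowerSeries.X) * Sf α a i * Sf α b j) := by
      intro a ha b hb
      rw [mem_range] at ha hb
      exact ((hcoef a b).mul (hV a i ha.le i.2.le)).mul (hV b j hb.le j.2.le)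
    rw [esum hz _ fun a ha => VV.sum _ fun b hb => hterm a ha b hb] at h4
    have h5 : ∀ a ∈ range m, evC (∑ b ∈ range m,
        ((if a + b + 1 = m then PowerSeries.C ((-1 : ℚ) ^ b) else 0) +
        PowerSeries.C (b1 α a b) * PowerSeries.X) * Sf α a i * Sf α b j) z =
        ∑ b ∈ range m, ((if a + b + 1 = m then (-1 : ℂ) ^ b else 0) + z * (b1 α a b : ℂ)) *
          evC (Sf α a i) z * evC (Sf α b j) z := by
      intro a ha
      rw [esum hz _ fun b hb => hterm a ha b hb]
      refine sum_congr rfl fun b hb => ?_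
      rw [mem_range] at ha hb
      rw [emul hz ((hcoef a b).mul (hV a i ha.le i.2.le)) (hV b j hb.le j.2.le),
        emul hz (hcoef a b) (hV a i ha.le i.2.le)]
      congr 2
      rw [eadd hz _ ((VV.C _).mul VV.X), emul hz (VV.C _) VV.X, eC, eX, mul_comm z]
      · congr 1
        split_ifs
        · rw [eC]; push_cast; rfl
        · exact e0
      · split_ifs
        · exact VV.C _
        · exact VV.zero
    rw [sum_congr rfl h5] at h4
    have h6 : evC (if (i : ℕ) + j + 1 = m then PowerSeries.C ((-1 : ℚ) ^ (j : ℕ)) else 0) z =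
        Jm m i j := by
      unfold Jm
      rw [Matrix.of_apply]
      split_ifs
      · rw [eC]; push_cast; rfl
      · exact e0
    rw [h6] at h4
    rw [← h4, Matrix.mul_apply, sum_range fun a => ∑ b ∈ range m,
      ((if a + b + 1 = m then (-1 : ℂ) ^ b else 0) + z * (b1 α a b : ℂ)) *
          evC (Sf α a i) z * evC (Sf α b j) z]
    simp only [sum_range]
    rw [sum_comm]
    refine sum_congr rfl fun b _ => ?_
    rw [Matrix.mul_apply, sum_mul]
    refine sum_congr rfl fun a _ => ?_
    unfold Bz Sv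
    simp only [Matrix.transpose_apply, Matrix.of_apply]
    ring
  · intro z hz a j
    rw [mem_ball_zero_iff] at hz
    have := (hV a j a.2.le j.2.le z hz).of_norm
    exact this.hasSum
  · intro z hz
    rw [mem_ball_zero_iff] at hz
    refine ⟨Matrix.of fun a j => evC (PowerSeries.derivative ℚ (Sf α a j)) z,
      fun a j => deriv_has (hV a j a.2.le j.2.le) hz, ?_⟩
    ext a j
    have k1 : evC _ z = evC _ z := congrArg (fun f => evC f z) (r2 a j)
    have k2 : evC _ z = evC _ z := congrArg (fun f => evC f z) (r3 j j.2)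
    have hVa1 : VV (Sf α ((a : ℕ) + 1) j) := hV _ _ a.2 j.2.le
    rw [emul hz VV.X (hV a j a.2.le j.2.le).deriv, eX] at k1
    have hj : VV (if (j : ℕ) = 0 then (0 : PowerSeries ℚ) else Sf α a ((j : ℕ) - 1)) := by
      split_ifs
      · exact VV.zero
      · exact hV _ _ a.2.le ((Nat.sub_le _ _).trans j.2.le)
    rw [esub hz hVa1 hj] at k1
    have hs : ∀ b ∈ range m, VV (PowerSeries.C ((Qp α).coeff b) * Sf α b j) := fun b hb =>
      (VV.C _).mul (hV b j (mem_range.1 hb).le j.2.le)
    rw [emul hz (VV.one.sub VV.X) (hV m j le_rfl j.2.le), esub hz VV.one VV.X, e1, eX,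
      emul hz VV.X (VV.sum _ hs), eX, esum hz _ hs] at k2
    have k3 : ∑ b ∈ range m, evC (PowerSeries.C ((Qp α).coeff b) * Sf α b j) z =
        ∑ b : Fin m, ((Qp α).coeff (b : ℕ) : ℂ) * evC (Sf α b j) z := by
      rw [sum_range]
      refine sum_congr rfl fun b _ => ?_
      rw [emul hz (VV.C _) (hV b j b.2.le j.2.le), eC]
    rw [k3] at k2
    -- entries of the matrices
    have e1' : (Nm m * Sv α z) a j = if (a : ℕ) + 1 = m then 0 else evC (Sf α ((a : ℕ) + 1) j) z := by
      rw [Matrix.mul_apply]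
      unfold Nm Sv
      simp only [Matrix.of_apply]
      split_ifs with h
      · refine sum_eq_zero fun b _ => ?_
        rw [if_neg (by have := b.2; omega), zero_mul]
      · have ha1 : (a : ℕ) + 1 < m := by have := a.2; omega
        rw [sum_eq_single (⟨(a : ℕ) + 1, ha1⟩ : Fin m)]
        · simp
        · intro b _ hb
          rw [if_neg, zero_mul]
          intro h'
          exact hb (Fin.ext h')
        · intro h'
          exact absurd (mem_univ _) h'
    have e2' : (Em α * Sv α z) a j = if (a : ℕ) + 1 = m then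
        ∑ b : Fin m, ((Qp α).coeff (b : ℕ) : ℂ) * evC (Sf α b j) z else 0 := by
      rw [Matrix.mul_apply]
      unfold Em Sv
      simp only [Matrix.of_apply]
      split_ifs with h
      · rfl
      · exact sum_eq_zero fun b _ => zero_mul _
    have e3' : (Sv α z * Nm m) a j =
        evC (if (j : ℕ) = 0 then (0 : PowerSeries ℚ) else Sf α a ((j : ℕ) - 1)) z := by
      rw [Matrix.mul_apply]
      unfold Nm Sv
      simp only [Matrix.of_apply]
      split_ifs with h
      · rw [e0]
        refine sum_eq_zero fun b _ => ?_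
        rw [if_neg (by omega), mul_zero]
      · have hj1 : (j : ℕ) - 1 < m := by have := j.2; omega
        rw [sum_eq_single (⟨(j : ℕ) - 1, hj1⟩ : Fin m)]
        · rw [if_pos (by simp; omega), mul_one]
        · intro b _ hb
          rw [if_neg, mul_zero]
          intro h'
          apply hb
          ext
          simp
          omega
        · intro h'
          exact absurd (mem_univ _) h'
    rw [Matrix.smul_apply, Matrix.of_apply, Matrix.sub_apply, Matrix.add_mul, Matrix.add_apply,
      Matrix.smul_mul, Matrix.smul_mul, Matrix.smul_apply, Matrix.smul_apply, Matrix.smul_apply,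
      e1', e2', e3', smul_eq_mul, smul_eq_mul, smul_eq_mul, smul_eq_mul]
    set D := evC (PowerSeries.derivative ℚ (Sf α a j)) z
    by_cases h : (a : ℕ) + 1 = m
    · rw [if_pos h, if_pos h, ← k2]
      rw [h] at k1
      linear_combination (1 - z) * k1
    · rw [if_neg h, if_neg h]
      linear_combination (1 - z) * k1

end Pool.Agent.MUM
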