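import Pool.Agent.MUM.Targets

set_option autoImplicit false

namespace Pool.Agent.MUM

open Finset
open scoped BigOperators

namespace BD_

/-- weighted norm of a truncated power series -/
private noncomputable def nr (K : ℕ) (δ : ℚ) (f : PowerSeries ℚ) : ℚ :=
  ∑ k ∈ range K, |PowerSeries.coeff k f| * δ ^ k

private lemma nr_nonneg (K : ℕ) {δ : ℚ} (hδ : 0 ≤ δ) (f : PowerSeries ℚ) : 0 ≤ nr K δ f :=
  Finset.sum_nonneg fun _ _ => by positivity

private lemma nr_add (K : ℕ) {δ : ℚ} (hδ : 0 ≤ δ) (f g : PowerSeries ℚ) :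
    nr K δ (f + g) ≤ nr K δ f + nr K δ g := by
  unfold nr
  rw [← Finset.sum_add_distrib]
  refine Finset.sum_le_sum fun k _ => ?_
  rw [map_add, ← add_mul]
  exact mul_le_mul_of_nonneg_right (abs_add_le _ _) (by positivity)

private lemma nr_mul (K : ℕ) {δ : ℚ} (hδ : 0 ≤ δ) (f g : PowerSeries ℚ) :
    nr K δ (f * g) ≤ nr K δ f * nr K δ g := by
  classical
  unfold nr
  set F : ℕ × ℕ → ℚ := fun p => (|PowerSeries.coeff p.1 f| * δ ^ p.1) *
    (|PowerSeries.coeff p.2 g| * δ ^ p.2) with hF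
  have hF0 : ∀ p, 0 ≤ F p := fun p => by
    simp only [hF]
    positivity
  set S : Finset (ℕ × ℕ) := (range K ×ˢ range K).filter (fun p => p.1 + p.2 < K) with hS
  have h1 : ∑ k ∈ range K, |PowerSeries.coeff k (f * g)| * δ ^ k ≤
      ∑ k ∈ range K, ∑ p ∈ S.filter (fun p => p.1 + p.2 = k), F p := by
    refine Finset.sum_le_sum fun k hk => ?_
    have hk' : k < K := Finset.mem_range.mp hk
    have hSk : S.filter (fun p => p.1 + p.2 = k) = antidiagonal k := by
      ext p
      simp only [hS, Finset.mem_filter, Finset.mem_product, Finset.mem_range,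
        Finset.HasAntidiagonal.mem_antidiagonal]
      constructor
      · rintro ⟨_, h⟩
        exact h
      · intro h
        refine ⟨⟨⟨?_, ?_⟩, ?_⟩, h⟩ <;> omega
    rw [hSk, PowerSeries.coeff_mul]
    calc |∑ p ∈ antidiagonal k, PowerSeries.coeff p.1 f * PowerSeries.coeff p.2 g| * δ ^ k
        ≤ (∑ p ∈ antidiagonal k, |PowerSeries.coeff p.1 f * PowerSeries.coeff p.2 g|) * δ ^ k :=
          mul_le_mul_of_nonneg_right (Finset.abs_sum_le_sum_abs _ _) (by positivity)
      _ = ∑ p ∈ antidiagonal k, F p := by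
          rw [Finset.sum_mul]
          refine Finset.sum_congr rfl fun p hp => ?_
          rw [← Finset.HasAntidiagonal.mem_antidiagonal.mp hp]
          simp only [hF]
          rw [abs_mul, pow_add]
          ring
  refine h1.trans ?_
  rw [Finset.sum_fiberwise_of_maps_to (g := fun p : ℕ × ℕ => p.1 + p.2) (f := F)
    (fun p hp => Finset.mem_range.mpr (Finset.mem_filter.mp hp).2)]
  calc ∑ p ∈ S, F p ≤ ∑ p ∈ range K ×ˢ range K, F p :=
        Finset.sum_le_sum_of_subset_of_nonneg (Finset.filter_subset _ _) (fun p _ _ => hF0 p)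
    _ = _ := by
        rw [Finset.sum_mul_sum, Finset.sum_product]

private lemma nr_C (K : ℕ) (hK : 1 ≤ K) (δ : ℚ) (c : ℚ) :
    nr K δ (PowerSeries.C c) = |c| := by
  unfold nr
  rw [Finset.sum_eq_single 0]
  · simp
  · intro k _ hk
    rw [PowerSeries.coeff_C, if_neg hk]
    simp
  · intro h
    exact absurd (Finset.mem_range.mpr (by omega)) h

private lemma nr_one (K : ℕ) (hK : 1 ≤ K) (δ : ℚ) : nr K δ 1 = 1 := by
  have := nr_C K hK δ 1
  simpa using this

private lemma nr_X (K : ℕ) {δ : ℚ} (hδ : 0 ≤ δ) : nr K δ PowerSeries.X ≤ δ := by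
  unfold nr
  calc ∑ k ∈ range K, |PowerSeries.coeff k (PowerSeries.X : PowerSeries ℚ)| * δ ^ k
      = ∑ k ∈ range K, if k = 1 then δ else 0 := by
        refine Finset.sum_congr rfl fun k _ => ?_
        rw [PowerSeries.coeff_X]
        split_ifs with h
        · subst h
          simp
        · simp
    _ ≤ δ := by
        rw [Finset.sum_ite_eq']
        split_ifs
        · exact le_refl _
        · exact hδ

private lemma nr_pow (K : ℕ) (hK : 1 ≤ K) {δ : ℚ} (hδ : 0 ≤ δ) (f : PowerSeries ℚ) (n : ℕ) :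
    nr K δ (f ^ n) ≤ nr K δ f ^ n := by
  induction n with
  | zero =>
    rw [pow_zero, pow_zero, nr_one K hK]
  | succ n ih =>
    rw [pow_succ, pow_succ]
    exact (nr_mul K hδ _ _).trans (mul_le_mul_of_nonneg_right ih (nr_nonneg K hδ _))

private lemma nr_prod (K : ℕ) (hK : 1 ≤ K) {δ : ℚ} (hδ : 0 ≤ δ) {ι : Type} (s : Finset ι)
    (f : ι → PowerSeries ℚ) (B : ι → ℚ) (hB : ∀ i ∈ s, nr K δ (f i) ≤ B i) :
    nr K δ (∏ i ∈ s, f i) ≤ ∏ i ∈ s, B i := by
  classical
  induction s using Finset.induction_on with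
  | empty =>
    rw [Finset.prod_empty, Finset.prod_empty, nr_one K hK]
  | insert a s ha ih =>
    rw [Finset.prod_insert ha, Finset.prod_insert ha]
    have h1 := hB a (Finset.mem_insert_self _ _)
    have h2 := ih (fun i hi => hB i (Finset.mem_insert_of_mem hi))
    have h3 : 0 ≤ nr K δ (f a) := nr_nonneg K hδ _
    exact (nr_mul K hδ _ _).trans (mul_le_mul h1 h2 (nr_nonneg K hδ _) (h3.trans h1))

private lemma nr_lin (K : ℕ) (hK : 1 ≤ K) {δ : ℚ} (hδ : 0 ≤ δ) {c : ℚ} (hc : 0 ≤ c) :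
    nr K δ (PowerSeries.C c + PowerSeries.X) ≤ c + δ := by
  refine (nr_add K hδ _ _).trans ?_
  rw [nr_C K hK, abs_of_nonneg hc]
  linarith [nr_X K hδ]

private lemma nr_inv (K : ℕ) (hK : 1 ≤ K) {δ : ℚ} (hδ : 0 ≤ δ) {c : ℚ} (hc : δ < c) :
    nr K δ ((PowerSeries.C c + PowerSeries.X)⁻¹) ≤ 1 / (c - δ) := by
  set g : PowerSeries ℚ := (PowerSeries.C c + PowerSeries.X)⁻¹ with hg
  have hc0 : 0 < c := lt_of_le_of_lt hδ hc
  have hconst : PowerSeries.constantCoeff (PowerSeries.C c + PowerSeries.X) ≠ 0 := by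
    rw [map_add, PowerSeries.constantCoeff_C, PowerSeries.constantCoeff_X, add_zero]
    exact hc0.ne'
  have h1 : (PowerSeries.C c + PowerSeries.X) * g = 1 := PowerSeries.mul_inv_cancel _ hconst
  have h2 : PowerSeries.C c * g = 1 + (PowerSeries.C (-1)) * (PowerSeries.X * g) := by
    have : PowerSeries.C c * g = 1 - PowerSeries.X * g := by
      rw [← h1]
      ring
    rw [this, map_neg, map_one]
    ring
  have h3 : nr K δ (PowerSeries.C c * g) = c * nr K δ g := by
    unfold nr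
    rw [Finset.mul_sum]
    refine Finset.sum_congr rfl fun k _ => ?_
    rw [PowerSeries.coeff_C_mul, abs_mul, abs_of_pos hc0]
    ring
  have h4 : nr K δ (PowerSeries.C c * g) ≤ 1 + δ * nr K δ g := by
    rw [h2]
    refine (nr_add K hδ _ _).trans ?_
    rw [nr_one K hK]
    have h5 : nr K δ (PowerSeries.C (-1) * (PowerSeries.X * g)) ≤ 1 * (δ * nr K δ g) := by
      refine (nr_mul K hδ _ _).trans ?_
      rw [nr_C K hK]
      have h6 : nr K δ (PowerSeries.X * g) ≤ δ * nr K δ g :=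
        (nr_mul K hδ _ _).trans (mul_le_mul_of_nonneg_right (nr_X K hδ) (nr_nonneg K hδ _))
      simpa using h6
    linarith
  rw [h3] at h4
  rw [le_div_iff₀ (by linarith)]
  linarith

private lemma inv_pow' (f : PowerSeries ℚ) (n : ℕ) : (f ^ n)⁻¹ = f⁻¹ ^ n := by
  induction n with
  | zero => simp
  | succ n ih => rw [pow_succ, PowerSeries.mul_inv_rev, ih, pow_succ']

end BD_

open BD_ in
/-- bounds for the coefficients -/
theorem p_BD : T_BD := by
  intro m α hα
  classical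
  -- the radius
  obtain ⟨δ, hδ0, hδ2, hδα⟩ : ∃ δ : ℚ, 0 < δ ∧ δ ≤ 1 / 2 ∧ ∀ i, α i + 2 * δ ≤ 1 := by
    have hpos : ∀ i, 0 < 1 - α i := fun i => by linarith [(hα i).2]
    set T : ℚ := ∑ i, (1 - α i)⁻¹ with hT
    have hT0 : 0 ≤ T := Finset.sum_nonneg fun i _ => (inv_pos.mpr (hpos i)).le
    refine ⟨1 / (2 * (T + 1)), by positivity, ?_, ?_⟩
    · rw [div_le_div_iff₀ (by positivity) (by norm_num)]
      linarith
    · intro i
      have h1 : (1 - α i)⁻¹ ≤ T := Finset.single_le_sum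
        (f := fun i => (1 - α i)⁻¹) (fun j _ => (inv_pos.mpr (hpos j)).le) (Finset.mem_univ i)
      have h2 : 2 * (1 / (2 * (T + 1))) = 1 / (T + 1) := by
        field_simp
      rw [h2]
      have h3 : 1 / (T + 1) ≤ 1 - α i := by
        rw [div_le_iff₀ (by positivity)]
        have h4 : (1 - α i) * (1 - α i)⁻¹ = 1 := mul_inv_cancel₀ (hpos i).ne'
        nlinarith [hpos i]
      linarith
  have hK : 1 ≤ m + 1 := by omega
  -- the product has norm at most one
  have hcs : ∀ n, nr (m + 1) δ (cs α n) ≤ 1 := by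
    intro n
    unfold cs
    have h1 : ∀ s ∈ range n, nr (m + 1) δ ((∏ i, (PowerSeries.C (α i + s) + PowerSeries.X)) *
        ((PowerSeries.C ((s : ℚ) + 1) + PowerSeries.X) ^ m)⁻¹) ≤ 1 := by
      intro s _
      have hs0 : (0 : ℚ) ≤ s := Nat.cast_nonneg s
      have h2 : nr (m + 1) δ (∏ i, (PowerSeries.C (α i + s) + PowerSeries.X)) ≤
          ∏ i, (α i + s + δ) :=
        nr_prod (m + 1) hK hδ0.le _ _ _ fun i _ =>
          nr_lin (m + 1) hK hδ0.le (by linarith [(hα i).1])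
      have h3 : nr (m + 1) δ (((PowerSeries.C ((s : ℚ) + 1) + PowerSeries.X) ^ m)⁻¹) ≤
          (1 / ((s : ℚ) + 1 - δ)) ^ m := by
        rw [inv_pow']
        refine (nr_pow (m + 1) hK hδ0.le _ m).trans ?_
        exact pow_le_pow_left₀ (nr_nonneg _ hδ0.le _)
          (nr_inv (m + 1) hK hδ0.le (by linarith)) m
      have h4 : (0 : ℚ) < s + 1 - δ := by linarith
      have h5 : (0 : ℚ) ≤ ∏ i, (α i + s + δ) :=
        Finset.prod_nonneg fun i _ => by linarith [(hα i).1]
      calc nr (m + 1) δ ((∏ i, (PowerSeries.C (α i + s) + PowerSeries.X)) *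
            ((PowerSeries.C ((s : ℚ) + 1) + PowerSeries.X) ^ m)⁻¹)
          ≤ (∏ i, (α i + s + δ)) * (1 / ((s : ℚ) + 1 - δ)) ^ m :=
            (nr_mul (m + 1) hδ0.le _ _).trans
              (mul_le_mul h2 h3 (nr_nonneg _ hδ0.le _) h5)
        _ = ∏ i : Fin m, ((α i + s + δ) * (1 / ((s : ℚ) + 1 - δ))) := by
            rw [Finset.prod_mul_distrib, Finset.prod_const, Finset.card_univ, Fintype.card_fin]
        _ ≤ 1 := by
            refine Finset.prod_le_one (fun i _ => ?_) (fun i _ => ?_)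
            · have := (hα i).1
              positivity
            · rw [mul_one_div, div_le_one h4]
              linarith [hδα i]
    have h2 := nr_prod (m + 1) hK hδ0.le (range n) _ (fun _ => (1 : ℚ)) h1
    simpa using h2
  obtain ⟨C, hC⟩ := exists_nat_ge (1 / δ ^ m)
  refine ⟨C, fun n a j ha hj => ?_⟩
  have hn0 : (0 : ℚ) ≤ n := Nat.cast_nonneg n
  have h1 : nr (m + 1) δ ((PowerSeries.C (n : ℚ) + PowerSeries.X) ^ a * cs α n) ≤
      ((n : ℚ) + 1) ^ a := by
    have h2 : nr (m + 1) δ ((PowerSeries.C (n : ℚ) + PowerSeries.X) ^ a) ≤ ((n : ℚ) + 1) ^ a := by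
      refine (nr_pow (m + 1) hK hδ0.le _ a).trans ?_
      refine pow_le_pow_left₀ (nr_nonneg _ hδ0.le _) ?_ a
      exact (nr_lin (m + 1) hK hδ0.le hn0).trans (by linarith)
    calc nr (m + 1) δ ((PowerSeries.C (n : ℚ) + PowerSeries.X) ^ a * cs α n)
        ≤ ((n : ℚ) + 1) ^ a * 1 :=
          (nr_mul (m + 1) hδ0.le _ _).trans
            (mul_le_mul h2 (hcs n) (nr_nonneg _ hδ0.le _) (by positivity))
      _ = _ := mul_one _
  have h2 : |PowerSeries.coeff n (Sf α a j)| * δ ^ j ≤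
      nr (m + 1) δ ((PowerSeries.C (n : ℚ) + PowerSeries.X) ^ a * cs α n) := by
    unfold Sf nr
    rw [PowerSeries.coeff_mk]
    exact Finset.single_le_sum (f := fun k => |PowerSeries.coeff k
      ((PowerSeries.C (n : ℚ) + PowerSeries.X) ^ a * cs α n)| * δ ^ k)
      (fun k _ => by positivity) (Finset.mem_range.mpr (by omega))
  have h3 : |PowerSeries.coeff n (Sf α a j)| * δ ^ j ≤ ((n : ℚ) + 1) ^ a := h2.trans h1
  have h4 : δ ^ m ≤ δ ^ j := pow_le_pow_of_le_one hδ0.le (by linarith) hj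
  have h5 : |PowerSeries.coeff n (Sf α a j)| * δ ^ m ≤ ((n : ℚ) + 1) ^ a :=
    (mul_le_mul_of_nonneg_left h4 (abs_nonneg _)).trans h3
  have h6 : |PowerSeries.coeff n (Sf α a j)| ≤ (1 / δ ^ m) * ((n : ℚ) + 1) ^ a := by
    rw [div_mul_eq_mul_div, one_mul, le_div_iff₀ (by positivity)]
    exact h5
  exact h6.trans (mul_le_mul_of_nonneg_right hC (by positivity))

end Pool.Agent.MUM
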