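import Pool.Agent.MUM.Targets

/-!
# MUM, BDET: the de Rham pairing is invertible
-/

set_option autoImplicit false

namespace Pool.Agent.MUM

open Finset Pool.Agent.LEG Pool.Agent.HEP

theorem p_BDET (h : T_BID) : T_BDET := by
  intro m α hα z hz
  obtain ⟨_, h2, h3, _⟩ := h m α hα
  have htri : ((Bz α z).submatrix id (Fin.revPerm : Equiv.Perm (Fin m))).BlockTriangular id := by
    intro a b hab
    have hab' : (b : ℕ) < a := hab
    have hr : ((Fin.rev b : Fin m) : ℕ) = m - (b + 1) := Fin.val_rev b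
    have h4 : m < (a : ℕ) + (Fin.rev b : Fin m) + 1 := by
      rw [hr]
      omega
    have h5 := h3 a (Fin.rev b : Fin m) a.isLt h4
    simp only [Matrix.submatrix_apply, id, Fin.revPerm_apply, Bz, Matrix.of_apply]
    rw [h5, if_neg (by omega)]
    simp
  have hdet := Matrix.det_of_upperTriangular htri
  have hdet2 := Matrix.det_permute' (Fin.revPerm : Equiv.Perm (Fin m)) (Bz α z)
  intro h0
  rw [h0, mul_zero] at hdet2
  rw [hdet2] at hdet
  have hprod : ∏ i, ((Bz α z).submatrix id (Fin.revPerm : Equiv.Perm (Fin m))) i i ≠ 0 := by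
    rw [Finset.prod_ne_zero_iff]
    intro a _
    have hr : ((Fin.rev a : Fin m) : ℕ) = m - (a + 1) := Fin.val_rev a
    have h4 : (a : ℕ) + (Fin.rev a : Fin m) + 1 = m := by
      rw [hr]
      omega
    have h5 := h2 a (Fin.rev a : Fin m) a.isLt h4
    simp only [Matrix.submatrix_apply, id, Fin.revPerm_apply, Bz, Matrix.of_apply]
    rw [h5, if_pos h4]
    have h6 : ((-1 : ℂ) ^ ((Fin.rev a : Fin m) : ℕ)) + z * ((-(-1) ^ ((Fin.rev a : Fin m) : ℕ) : ℚ) : ℂ) =
        (-1) ^ ((Fin.rev a : Fin m) : ℕ) * (1 - z) := by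
      push_cast
      ring
    rw [h6]
    exact mul_ne_zero (pow_ne_zero _ (by norm_num)) (sub_ne_zero.mpr (Ne.symm hz))
  exact hprod hdet.symm

end Pool.Agent.MUM
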