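import Pool.Agent.MUM.Targets

set_option autoImplicit false

/-!
# BID: the algebraic identity behind the pairing
-/

namespace Pool.Agent.MUM

open Finset Pool.Agent.LEG Pool.Agent.HEP
open scoped BigOperators Topology

namespace BID_

variable {m : ℕ} (α : Fin m → ℚ)

/-- the auxiliary sum -/
noncomputable def F (a b : ℕ) : ℚ :=
  ∑ j ∈ range (m - a), (-1) ^ j * ((j + 1).choose b : ℚ) * (Qp α).coeff (a + j + 1)

theorem pascal (a b : ℕ) : (if b = 0 then 0 else b1 α a (b - 1)) + b1 α a b = -F α a b := by
  unfold b1 F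
  cases b with
  | zero => simp
  | succ b =>
    rw [if_neg (Nat.succ_ne_zero b), Nat.add_sub_cancel, ← neg_add, ← Finset.sum_add_distrib]
    congr 1
    apply Finset.sum_congr rfl
    intro j _
    rw [Nat.choose_succ_succ]
    push_cast
    ring

theorem shift (a b : ℕ) (ha : a ≠ 0) (ham : a < m) :
    b1 α (a - 1) b = -(if b = 0 then (Qp α).coeff a else 0) + F α a b := by
  obtain ⟨a, rfl⟩ := Nat.exists_eq_succ_of_ne_zero ha
  unfold b1 F
  have h1 : m - (a.succ - 1) = (m - a.succ) + 1 := by omega
  rw [h1, Finset.sum_range_succ', neg_add, add_comm]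
  congr 1
  · simp only [Nat.succ_eq_add_one, Nat.add_sub_cancel, pow_zero, one_mul, add_zero]
    cases b with
    | zero => simp
    | succ b => simp
  · rw [← Finset.sum_neg_distrib]
    apply Finset.sum_congr rfl
    intro j _
    have h2 : a.succ - 1 + (j + 1) + 1 = a.succ + j + 1 := by omega
    rw [h2, pow_succ]
    ring

theorem coeff_comp (P : Polynomial ℚ) (N b : ℕ) (hP : P.natDegree < N) :
    (P.comp (-1 - Polynomial.X)).coeff b =
      ∑ k ∈ range N, (-1) ^ k * (k.choose b : ℚ) * P.coeff k := by
  rw [Polynomial.comp, Polynomial.eval₂_eq_sum_range' Polynomial.C hP, Polynomial.finsetSum_coeff]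
  apply Finset.sum_congr rfl
  intro k _
  have h1 : (-1 - Polynomial.X : Polynomial ℚ) ^ k =
      Polynomial.C ((-1) ^ k) * (1 + Polynomial.X) ^ k := by
    have : (-1 - Polynomial.X : Polynomial ℚ) = Polynomial.C (-1) * (1 + Polynomial.X) := by
      rw [Polynomial.C_neg, Polynomial.C_1]
      ring
    rw [this, mul_pow, ← Polynomial.C_pow]
  rw [h1, ← mul_assoc, ← Polynomial.C_mul, Polynomial.coeff_C_mul, Polynomial.coeff_one_add_X_pow]
  ring

theorem zero_case (h1 : (Qp α).comp (-1 - Polynomial.X) = (-1) ^ m * Qp α)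
    (h4 : (Qp α).natDegree = m) (b : ℕ) :
    -F α 0 b = (-1) ^ m * (Qp α).coeff b - (if b = 0 then (Qp α).coeff 0 else 0) := by
  have h5 : (-1 : ℚ) ^ m * (Qp α).coeff b =
      ∑ k ∈ range (m + 1), (-1) ^ k * (k.choose b : ℚ) * (Qp α).coeff k := by
    rw [← coeff_comp (Qp α) (m + 1) b (by omega), h1]
    have : ((-1 : Polynomial ℚ)) ^ m = Polynomial.C ((-1) ^ m) := by simp
    rw [this, Polynomial.coeff_C_mul]
  rw [h5, Finset.sum_range_succ']
  unfold F
  rw [Nat.sub_zero, ← Finset.sum_neg_distrib]
  have h6 : (-1 : ℚ) ^ 0 * ((0 : ℕ).choose b : ℚ) * (Qp α).coeff 0 =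
      if b = 0 then (Qp α).coeff 0 else 0 := by
    cases b with
    | zero => simp
    | succ b => simp
  rw [h6, add_sub_cancel_right]
  apply Finset.sum_congr rfl
  intro j _
  rw [zero_add, pow_succ]
  ring

theorem part1 (h1 : (Qp α).comp (-1 - Polynomial.X) = (-1) ^ m * Qp α)
    (h4 : (Qp α).natDegree = m) (a b : ℕ) (ha : a < m) :
    (if b = 0 then 0 else b1 α a (b - 1)) +
      (if a = 0 then 0 else b1 α (a - 1) b) + b1 α a b =
      (if a = 0 then (-1) ^ m * (Qp α).coeff b else 0) -
        (if b = 0 then (Qp α).coeff a else 0) := by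
  have hp := pascal α a b
  by_cases h0 : a = 0
  · subst h0
    rw [if_pos rfl, if_pos rfl, add_zero, hp, zero_case α h1 h4 b]
  · rw [if_neg h0, if_neg h0, shift α a b h0 ha]
    linarith

end BID_

open BID_ in
/-- BID. -/
theorem p_BID (h : T_SQ) : T_BID := by
  intro m α hS
  obtain ⟨h1, _, h3, h4⟩ := h m α hS
  have hI := part1 α h1 h4
  refine ⟨fun a b ha _ => hI a b ha, ?_, ?_, ?_⟩
  · intro a b ha hab
    unfold b1
    rw [Finset.sum_eq_single b]
    · have h5 : a + b + 1 = m := hab
      rw [h5, h3, Nat.choose_self]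
      simp
    · intro j hj hjb
      rw [Finset.mem_range] at hj
      have : j < b := by omega
      rw [Nat.choose_eq_zero_of_lt this]
      simp
    · intro hb
      exact absurd (Finset.mem_range.mpr (by omega)) hb
  · intro a b ha hab
    unfold b1
    rw [Finset.sum_eq_zero, neg_zero]
    intro j hj
    rw [Finset.mem_range] at hj
    have : j < b := by omega
    rw [Nat.choose_eq_zero_of_lt this]
    simp
  · have key : ∀ s : ℕ, ∀ a b : ℕ, a + b = s → a < m → b < m →
        b1 α b a + (-1) ^ m * b1 α a b = 0 := by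
      intro s
      induction s using Nat.strong_induction_on with
      | _ s ih =>
        intro a b hab ha hb
        have e1 := hI a b ha
        have e2 := hI b a hb
        have hsq : ((-1 : ℚ) ^ m) * (-1) ^ m = 1 := by
          rw [← mul_pow]; simp
        have d1 : (if b = 0 then 0 else b1 α (b - 1) a) +
            (-1) ^ m * (if b = 0 then 0 else b1 α a (b - 1)) = 0 := by
          by_cases hb0 : b = 0
          · simp [hb0]
          · rw [if_neg hb0, if_neg hb0]
            exact ih (a + (b - 1)) (by omega) a (b - 1) rfl ha (by omega)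
        have d2 : (if a = 0 then 0 else b1 α b (a - 1)) +
            (-1) ^ m * (if a = 0 then 0 else b1 α (a - 1) b) = 0 := by
          by_cases ha0 : a = 0
          · simp [ha0]
          · rw [if_neg ha0, if_neg ha0]
            exact ih (a - 1 + b) (by omega) (a - 1) b rfl (by omega) hb
        have e3 : (-1 : ℚ) ^ m * ((if a = 0 then (-1) ^ m * (Qp α).coeff b else 0) -
            (if b = 0 then (Qp α).coeff a else 0)) +
            ((if b = 0 then (-1) ^ m * (Qp α).coeff a else 0) -
            (if a = 0 then (Qp α).coeff b else 0)) = 0 := by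
          split_ifs
          · linear_combination (Qp α).coeff b * hsq
          · linear_combination (Qp α).coeff b * hsq
          · ring
          · ring
        rw [← e1, ← e2] at e3
        linear_combination e3 - d1 - d2
    intro a b ha hb
    have := key (a + b) a b rfl ha hb
    linarith

end Pool.Agent.MUM
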