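import Pool.Agent.MUM.Targets

set_option autoImplicit false

/-!
# CN: the coefficients of the holomorphic solution
-/

namespace Pool.Agent.MUM

open Finset Pool.Agent.LEG Pool.Agent.HEP
open scoped BigOperators Topology

namespace CN_

variable {m : ℕ}

lemma coeff_eq (α : Fin m → ℚ) (n : ℕ) : PowerSeries.coeff n (Sf α 0 0) = c0 α n := by
  unfold Sf c0 cs
  rw [PowerSeries.coeff_mk, pow_zero, one_mul, PowerSeries.coeff_zero_eq_constantCoeff_apply,
    map_prod]
  refine Finset.prod_congr rfl fun s _ => ?_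
  rw [map_mul, map_prod, PowerSeries.constantCoeff_inv, map_pow]
  simp only [map_add, PowerSeries.constantCoeff_C, PowerSeries.constantCoeff_X, add_zero]
  rw [Finset.prod_div_distrib, Finset.prod_const, Finset.card_univ, Fintype.card_fin,
    add_comm (1 : ℚ) (s : ℚ)]
  rfl

/-- the factor -/
noncomputable def fa (α : Fin m → ℚ) (s : ℕ) (i : Fin m) : ℝ := ((α i : ℝ) + s) / (1 + s)

lemma c0_cast (α : Fin m → ℚ) (n : ℕ) : (c0 α n : ℝ) = ∏ s ∈ range n, ∏ i, fa α s i := by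
  unfold c0 fa
  push_cast
  rfl

lemma fa_pos {α : Fin m → ℚ} (h : ∀ i, 0 < α i ∧ α i < 1) (s : ℕ) (i : Fin m) :
    0 < fa α s i := by
  have h1 : (0 : ℝ) < α i := by exact_mod_cast (h i).1
  unfold fa
  positivity

lemma fa_le {α : Fin m → ℚ} (h : ∀ i, 0 < α i ∧ α i < 1) (s : ℕ) (i : Fin m) :
    fa α s i ≤ 1 := by
  have h1 : (α i : ℝ) < 1 := by exact_mod_cast (h i).2
  unfold fa
  rw [div_le_one (by positivity)]
  linarith

lemma c0_pos {α : Fin m → ℚ} (h : ∀ i, 0 < α i ∧ α i < 1) (n : ℕ) : 0 < c0 α n := by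
  unfold c0
  refine Finset.prod_pos fun s _ => Finset.prod_pos fun i _ => ?_
  have := (h i).1
  positivity

lemma prod_le {α : Fin m → ℚ} (h : ∀ i, 0 < α i ∧ α i < 1) (s : ℕ) (i0 : Fin m) :
    ∏ i, fa α s i ≤ fa α s i0 := by
  rw [← Finset.mul_prod_erase univ (fa α s) (mem_univ i0)]
  have h1 : ∏ i ∈ univ.erase i0, fa α s i ≤ 1 :=
    Finset.prod_le_one (fun i _ => (fa_pos h s i).le) (fun i _ => fa_le h s i)
  have h2 := (fa_pos h s i0).le
  nlinarith

lemma c0_le {α : Fin m → ℚ} (h : ∀ i, 0 < α i ∧ α i < 1) (i0 : Fin m) (n : ℕ) :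
    (c0 α n : ℝ) ≤ Real.exp (-((1 - (α i0 : ℝ)) * ∑ s ∈ range n, 1 / ((s : ℝ) + 1))) := by
  rw [c0_cast, Finset.mul_sum, ← Finset.sum_neg_distrib, Real.exp_sum]
  refine Finset.prod_le_prod (fun s _ => Finset.prod_nonneg fun i _ => (fa_pos h s i).le)
    fun s _ => ?_
  refine (prod_le h s i0).trans ?_
  have h1 : fa α s i0 = -((1 - (α i0 : ℝ)) * (1 / ((s : ℝ) + 1))) + 1 := by
    unfold fa
    field_simp
    ring
  rw [h1]
  exact Real.add_one_le_exp _

lemma tend {α : Fin m → ℚ} (h : ∀ i, 0 < α i ∧ α i < 1) (i0 : Fin m) :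
    Filter.Tendsto (fun n => (c0 α n : ℝ)) Filter.atTop (𝓝 0) := by
  have h1 : (0 : ℝ) < 1 - (α i0 : ℝ) := by
    have : (α i0 : ℝ) < 1 := by exact_mod_cast (h i0).2
    linarith
  have h2 : Filter.Tendsto (fun n => Real.exp (-((1 - (α i0 : ℝ)) *
      ∑ s ∈ range n, 1 / ((s : ℝ) + 1)))) Filter.atTop (𝓝 0) := by
    apply Real.tendsto_exp_atBot.comp
    apply Filter.tendsto_neg_atTop_atBot.comp
    exact Filter.Tendsto.const_mul_atTop h1 Real.tendsto_sum_range_one_div_nat_succ_atTop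
  refine squeeze_zero (fun n => ?_) (fun n => c0_le h i0 n) h2
  exact_mod_cast (c0_pos h n).le

lemma fa_tend (α : Fin m → ℚ) (i : Fin m) :
    Filter.Tendsto (fun s => fa α s i) Filter.atTop (𝓝 1) := by
  have h1 : (fun s : ℕ => fa α s i) = fun s : ℕ => 1 - (1 - (α i : ℝ)) * (1 / ((s : ℝ) + 1)) := by
    funext s
    unfold fa
    field_simp
    ring
  rw [h1]
  have h2 := (tendsto_one_div_add_atTop_nhds_zero_nat (𝕜 := ℝ)).const_mul (1 - (α i : ℝ))
  have h3 := h2.const_sub 1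
  simpa using h3

lemma nsum {α : Fin m → ℚ} (h : ∀ i, 0 < α i ∧ α i < 1) (x : ℝ) (hx : 1 < x) :
    ¬ Summable fun n => (c0 α n : ℝ) * x ^ n := by
  apply not_summable_of_ratio_test_tendsto_gt_one hx
  have h1 : Filter.Tendsto (fun n : ℕ => (∏ i, fa α n i) * x) Filter.atTop
      (𝓝 ((∏ _i : Fin m, (1 : ℝ)) * x)) :=
    (tendsto_finsetProd _ fun i _ => fa_tend α i).mul_const x
  rw [Finset.prod_const_one, one_mul] at h1
  refine h1.congr fun n => ?_
  have hx0 : (0 : ℝ) < x := by linarith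
  have h2 : (0 : ℝ) < c0 α n := by exact_mod_cast c0_pos h n
  have h3 : (0 : ℝ) < c0 α (n + 1) := by exact_mod_cast c0_pos h (n + 1)
  have h4 : (c0 α (n + 1) : ℝ) = c0 α n * ∏ i, fa α n i := by
    rw [c0_cast, c0_cast, Finset.prod_range_succ]
  rw [Real.norm_of_nonneg (by positivity), Real.norm_of_nonneg (by positivity), h4, pow_succ]
  field_simp

end CN_

open CN_

theorem p_CN : T_CN := by
  intro m α hm h
  exact ⟨fun n => ⟨coeff_eq α n, c0_pos h n⟩, tend h ⟨0, by omega⟩, fun x hx => nsum h x hx⟩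

end Pool.Agent.MUM
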