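import Pool.Agent.MUM.Targets

set_option autoImplicit false

/-!
# CORE: functional relations are invariant under the group of the pairing
-/

namespace Pool.Agent.MUM

open Finset Pool.Agent.LEG Pool.Agent.HEP
open scoped BigOperators Topology

theorem p_CORE (h1 : T_YT) (h2 : T_MJ) (h3 : T_MR) (h4 : T_ME0) (h5 : T_MSTR) (h6 : T_MINV)
    (h7 : T_EVEN) (h8 : T_ODD) : T_CORE := by
  intro m α hα g hg
  obtain ⟨Y, M, hY⟩ := h1 m α hα
  obtain ⟨v, κ, hM, hκ, hv, hodd⟩ := h5 m M hα.two (h2 m α Y M hα hY).2 (h3 m α Y M hα hY)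
    (h4 m α Y M hα hY)
  have hst : ∀ s : ℂ, eN m s * (1 + κ • (Matrix.vecMulVec v v * Jm m)) * eN m (-s) ∈
      Stab (Gr α) := by
    intro s
    rw [← hM]
    exact h6 m α Y M hα hY s
  rcases Nat.even_or_odd m with hm | hm
  · exact h7 m (Gr α) v κ hα.two hm hκ hv hst g hg
  · exact h8 m (Gr α) v κ hα.two hm (hodd hm) hv hst g hg

end Pool.Agent.MUM
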