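import Pool.Agent.MUM.Targets

set_option autoImplicit false

/-!
# EVEN: the symplectic case
-/

namespace Pool.Agent.MUM

open Finset Pool.Agent.LEG Pool.Agent.HEP
open scoped BigOperators Topology

/-- the Lie algebra as a submodule -/
def lieSub (h4 : T_ST2) {m : ℕ} (V : Set (ℂ × Mat m)) : Submodule ℂ (Mat m) where
  carrier := LieS V
  zero_mem' := (h4 m V).1
  add_mem' := fun {a b} ha hb => ((h4 m V).2.1 a ha b hb).1
  smul_mem' := fun c a ha => (h4 m V).2.2 a ha c

theorem even_mul (m : ℕ) (a b c d : Fin m → ℂ) (J : Mat m) :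
    (Matrix.vecMulVec a b * J) * (Matrix.vecMulVec c d * J) =
      (b ⬝ᵥ J.mulVec c) • (Matrix.vecMulVec a d * J) := by
  rw [Matrix.mul_assoc, ← Matrix.mul_assoc J, Matrix.mul_vecMulVec, ← Matrix.mul_assoc,
    Matrix.vecMulVec_mul_vecMulVec, Matrix.vecMulVec_smul, Matrix.smul_mul]

theorem even_zero (m : ℕ) (u : Fin m → ℂ) (J : Mat m) (hJ : J.transpose = -J) :
    u ⬝ᵥ J.mulVec u = 0 := by
  have h : u ⬝ᵥ J.mulVec u = -(u ⬝ᵥ J.mulVec u) := by
    calc u ⬝ᵥ J.mulVec u = u ⬝ᵥ J.transpose.mulVec u := by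
          rw [Matrix.mulVec_transpose, Matrix.dotProduct_mulVec, dotProduct_comm]
      _ = -(u ⬝ᵥ J.mulVec u) := by rw [hJ, Matrix.neg_mulVec, dotProduct_neg]
  linear_combination h / 2

theorem even_anti (m : ℕ) (u w : Fin m → ℂ) (J : Mat m) (hJ : J.transpose = -J) :
    u ⬝ᵥ J.mulVec w = -(w ⬝ᵥ J.mulVec u) := by
  calc u ⬝ᵥ J.mulVec w = w ⬝ᵥ J.transpose.mulVec u := by
        rw [Matrix.mulVec_transpose, Matrix.dotProduct_mulVec, dotProduct_comm]
    _ = -(w ⬝ᵥ J.mulVec u) := by rw [hJ, Matrix.neg_mulVec, dotProduct_neg]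

theorem p_EVEN (h1 : T_NJ) (h2 : T_SPAN) (h3 : T_ST1) (h4 : T_ST2) (h5 : T_ST3) (h6 : T_ST5)
    (h7 : HEP.T_TAY) (h8 : HEP.T_SPG) : T_EVEN := by
  intro m V v κ hm heven hκ hv hst g hg
  obtain ⟨hN0, hNadd, -, -, -, hJe, -, hJT, hJd⟩ := h1 m
  obtain ⟨hone, hmul, -⟩ := h3 m V
  have hJs : (Jm m).transpose = -(Jm m) := by
    rw [hJT, heven.neg_one_pow, neg_smul, one_smul]
  -- the conjugates
  have hconj : ∀ s : ℂ, eN m s * (1 + κ • (Matrix.vecMulVec v v * Jm m)) * eN m (-s) =
      1 + κ • (Matrix.vecMulVec ((eN m s).mulVec v) ((eN m s).mulVec v) * Jm m) := by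
    intro s
    have e1 : eN m s * eN m (-s) = 1 := by rw [hNadd, add_neg_cancel, hN0]
    have e2 : Jm m * eN m (-s) = (eN m s).transpose * Jm m := by
      have := hJe (-s)
      rw [neg_neg] at this
      exact this
    rw [mul_add, mul_one, add_mul, e1, Matrix.mul_smul, Matrix.smul_mul, ← Matrix.mul_assoc,
      Matrix.mul_assoc _ (Jm m), e2, ← Matrix.mul_assoc, Matrix.mul_vecMulVec,
      Matrix.vecMulVec_mul, Matrix.vecMul_transpose]
  have hsq : ∀ u : Fin m → ℂ, (Matrix.vecMulVec u u * Jm m) * (Matrix.vecMulVec u u * Jm m) = 0 := by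
    intro u
    rw [even_mul, even_zero m u _ hJs, zero_smul]
  -- the squares of the conjugate vectors are in the Lie algebra
  have hL : ∀ s : ℂ,
      Matrix.vecMulVec ((eN m s).mulVec v) ((eN m s).mulVec v) * Jm m ∈ LieS V := by
    intro s
    set A : Mat m := Matrix.vecMulVec ((eN m s).mulVec v) ((eN m s).mulVec v) * Jm m with hA
    have hA2 : A * A = 0 := hsq _
    have hk : ∀ k : ℕ, 1 + ((k : ℂ) * κ) • A ∈ Stab V := by
      intro k
      induction k with
      | zero => simpa using hone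
      | succ k ih =>
        have h := hst s
        rw [hconj s, ← hA] at h
        have h' := hmul _ ih _ h
        have e : (1 + ((k : ℂ) * κ) • A) * (1 + κ • A) = 1 + (((k + 1 : ℕ) : ℂ) * κ) • A := by
          rw [mul_add, mul_one, add_mul, one_mul, smul_mul_smul_comm, hA2, smul_zero, add_zero,
            add_assoc, ← add_smul]
          congr 2
          push_cast
          ring
        rwa [e] at h'
    have hc := h6 m V A κ hκ hk
    refine h5 m V (fun t => 1 + t • A) A (by simp) hc ?_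
    intro i j
    have : HasDerivAt (fun t : ℂ => (1 : Mat m) i j + t * A i j) (A i j) 0 := by
      have := ((hasDerivAt_id (0 : ℂ)).mul_const (A i j)).const_add ((1 : Mat m) i j)
      simpa using this
    simpa [Matrix.add_apply, Matrix.smul_apply] using this
  -- the basis
  obtain ⟨s, hind, hne⟩ := (h2 m v hv).2 hm heven
  set w : Fin m → (Fin m → ℂ) := fun i => (eN m (s i)).mulVec v with hw
  have hpair : ∀ i j : Fin m,
      (Matrix.vecMulVec (w i) (w j) + Matrix.vecMulVec (w j) (w i)) * Jm m ∈ lieSub h4 V := by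
    intro i j
    rcases eq_or_ne i j with rfl | hij
    · have h := (lieSub h4 V).add_mem (hL (s i)) (hL (s i))
      rw [← add_mul] at h
      exact h
    · have hb := ((h4 m V).2.1 _ (hL (s i)) _ (hL (s j))).2
      have hc : w i ⬝ᵥ (Jm m).mulVec (w j) ≠ 0 := hne i j hij
      rw [even_mul, even_mul, even_anti m ((eN m (s j)).mulVec v) _ _ hJs, neg_smul,
        sub_neg_eq_add, ← smul_add, ← add_mul] at hb
      have h := (lieSub h4 V).smul_mem (w i ⬝ᵥ (Jm m).mulVec (w j))⁻¹ hb
      rw [smul_smul, inv_mul_cancel₀ hc, one_smul] at h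
      exact h
  have hall : ∀ u : Fin m → ℂ, Matrix.vecMulVec u u * Jm m ∈ lieSub h4 V := by
    intro u
    have hsp : Submodule.span ℂ (Set.range w) = ⊤ := by
      apply LinearIndependent.span_eq_top_of_card_eq_finrank' hind
      simp
    have hu : u ∈ Submodule.span ℂ (Set.range w) := by rw [hsp]; trivial
    obtain ⟨c, hc⟩ := (Submodule.mem_span_range_iff_exists_fun ℂ).1 hu
    have e : Matrix.vecMulVec u u * Jm m = (1 / 2 : ℂ) • ∑ i, ∑ j, (c i * c j) •
        ((Matrix.vecMulVec (w i) (w j) + Matrix.vecMulVec (w j) (w i)) * Jm m) := by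
      have e1 : Matrix.vecMulVec u u = ∑ i, ∑ j, (c i * c j) • Matrix.vecMulVec (w i) (w j) := by
        ext a b
        rw [← hc]
        simp only [Matrix.vecMulVec_apply, Matrix.sum_apply, Matrix.smul_apply, Finset.sum_apply,
          Pi.smul_apply, smul_eq_mul]
        rw [Finset.sum_mul_sum]
        refine Finset.sum_congr rfl fun i _ => Finset.sum_congr rfl fun j _ => ?_
        ring
      have e2 : Matrix.vecMulVec u u = ∑ i, ∑ j, (c i * c j) • Matrix.vecMulVec (w j) (w i) := by
        rw [e1, Finset.sum_comm]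
        refine Finset.sum_congr rfl fun i _ => Finset.sum_congr rfl fun j _ => ?_
        rw [mul_comm]
      have e3 : ∑ i, ∑ j, (c i * c j) •
          ((Matrix.vecMulVec (w i) (w j) + Matrix.vecMulVec (w j) (w i)) * Jm m) =
          Matrix.vecMulVec u u * Jm m + Matrix.vecMulVec u u * Jm m := by
        nth_rewrite 1 [e1]
        rw [e2]
        simp only [Finset.sum_mul, ← Finset.sum_add_distrib, add_mul, smul_add, Matrix.smul_mul]
      rw [e3, ← two_smul ℂ, smul_smul]
      norm_num
    rw [e]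
    refine (lieSub h4 V).smul_mem _ (Submodule.sum_mem _ fun i _ => Submodule.sum_mem _ fun j _ =>
      (lieSub h4 V).smul_mem _ (hpair i j))
  -- transvections
  have htr : ∀ (u : Fin m → ℂ) (c : ℂ), 1 + c • vv (Jm m) u ∈ Stab V := by
    intro u c Ψ hΨ p hp
    refine h7 m (vv (Jm m) u) p.2 p.1 c Ψ (hsq u) ?_
    intro k
    have hk : Rel V ((fun Φ => dM (vv (Jm m) u) Φ)^[k] Ψ) := by
      induction k with
      | zero => exact hΨ
      | succ k ih =>
        rw [Function.iterate_succ_apply']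
        exact hall u _ ih
    exact hk p hp
  have hcl := h8 m (Jm m) g hJs hJd hg
  clear hg
  induction hcl using Submonoid.closure_induction with
  | mem x hx =>
    obtain ⟨u, c, rfl⟩ := hx
    exact htr u c
  | one => exact hone
  | mul x y _ _ hx hy => exact hmul x hx y hy

end Pool.Agent.MUM
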