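import Pool.Agent.MUM.Targets

set_option autoImplicit false

namespace Pool.Agent.MUM

open Finset Pool.Agent.LEG Pool.Agent.HEP
open scoped BigOperators Topology

theorem frob_mulVec_bound {m : ℕ} (A : Mat m) : ∃ C : ℝ, 0 ≤ C ∧ ∀ x : Fin m → ℂ,
    ‖A.mulVec x‖ ≤ C * ‖x‖ := by
  let L : (Fin m → ℂ) →L[ℂ] (Fin m → ℂ) := (Matrix.mulVecLin A).toContinuousLinearMap
  refine ⟨‖L‖, norm_nonneg _, fun x => ?_⟩
  have := L.le_opNorm x
  simpa [L] using this

/-- the recursion step -/
noncomputable def frob_g {m : ℕ} (E N : Mat m) (n : ℕ) (S : Fin m → ℂ) : Fin m → ℂ :=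
  -((1 / ((n : ℂ) + 1)) • (N.mulVec S - (1 / ((n : ℂ) + 1 + m / 2)) • E.mulVec (N.mulVec S)))

/-- partial sums -/
noncomputable def frob_S {m : ℕ} (E N : Mat m) (w0 : Fin m → ℂ) : ℕ → (Fin m → ℂ)
  | 0 => w0
  | n + 1 => frob_S E N w0 n + frob_g E N n (frob_S E N w0 n)

/-- the coefficients -/
noncomputable def frob_w {m : ℕ} (E N : Mat m) (w0 : Fin m → ℂ) : ℕ → (Fin m → ℂ)
  | 0 => w0
  | n + 1 => frob_g E N n (frob_S E N w0 n)

theorem frob_S_succ {m : ℕ} (E N : Mat m) (w0 : Fin m → ℂ) (n : ℕ) :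
    frob_S E N w0 (n + 1) = frob_S E N w0 n + frob_w E N w0 (n + 1) := rfl

theorem frob_rec {m : ℕ} (E N : Mat m) (w0 : Fin m → ℂ)
    (hE : E * E = ((m : ℂ) / 2) • E) (n : ℕ) :
    ((n : ℂ) + 1) • frob_w E N w0 (n + 1) =
      -N.mulVec (frob_S E N w0 n) - E.mulVec (frob_w E N w0 (n + 1)) := by
  have h1 : ((n : ℂ) + 1) ≠ 0 := by exact_mod_cast Nat.succ_ne_zero n
  have h2 : ((n : ℂ) + 1 + m / 2) ≠ 0 := by
    have : ((n : ℂ) + 1 + m / 2) = (((n : ℝ) + 1 + m / 2 : ℝ) : ℂ) := by push_cast; ring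
    rw [this]
    exact_mod_cast ne_of_gt (by positivity)
  set y := N.mulVec (frob_S E N w0 n) with hy
  have hEE : E.mulVec (E.mulVec y) = ((m : ℂ) / 2) • E.mulVec y := by
    rw [Matrix.mulVec_mulVec, hE, Matrix.smul_mulVec]
  show ((n : ℂ) + 1) • frob_g E N n (frob_S E N w0 n) = -y - E.mulVec (frob_g E N n (frob_S E N w0 n))
  unfold frob_g
  rw [← hy, Matrix.mulVec_neg, Matrix.mulVec_smul, Matrix.mulVec_sub, Matrix.mulVec_smul, hEE]
  obtain ⟨c, hc⟩ : ∃ c : ℂ, c = 1 / ((n : ℂ) + 1 + m / 2) := ⟨_, rfl⟩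
  obtain ⟨q, hq⟩ : ∃ q : ℂ, q = 1 / ((n : ℂ) + 1) := ⟨_, rfl⟩
  have hc1 : c * ((n : ℂ) + 1 + m / 2) = 1 := by rw [hc]; exact one_div_mul_cancel h2
  have hq1 : q * ((n : ℂ) + 1) = 1 := by rw [hq]; exact one_div_mul_cancel h1
  rw [← hc, ← hq]
  ext i
  simp only [Pi.smul_apply, Pi.neg_apply, Pi.sub_apply, smul_eq_mul]
  linear_combination (-y i + c * E.mulVec y i - c * E.mulVec y i) * hq1 +
    (q * E.mulVec y i) * hc1

theorem frob_bound {m : ℕ} (E N : Mat m) (w0 : Fin m → ℂ) : ∃ (K : ℕ) (b : ℝ), 0 ≤ b ∧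
    (∀ n, ‖frob_S E N w0 n‖ ≤ b * ((n + K).choose K : ℝ)) ∧
    ∀ n, ‖frob_w E N w0 n‖ ≤ b * ((n + K).choose K : ℝ) := by
  obtain ⟨CN, hCN0, hCN⟩ := frob_mulVec_bound N
  obtain ⟨CE, hCE0, hCE⟩ := frob_mulVec_bound E
  set K : ℕ := ⌈(1 + CE) * CN⌉₊ with hK
  have hKle : (1 + CE) * CN ≤ K := Nat.le_ceil _
  have hg : ∀ (n : ℕ) (S : Fin m → ℂ), ‖frob_g E N n S‖ ≤ (K : ℝ) / ((n : ℝ) + 1) * ‖S‖ := by
    intro n S
    unfold frob_g
    rw [norm_neg, norm_smul]
    have e1 : ‖(1 : ℂ) / ((n : ℂ) + 1)‖ = 1 / ((n : ℝ) + 1) := by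
      rw [norm_div, norm_one]
      congr 1
      have : ((n : ℂ) + 1) = (((n : ℝ) + 1 : ℝ) : ℂ) := by push_cast; ring
      rw [this, Complex.norm_real, Real.norm_of_nonneg (by positivity)]
    have e2 : ‖(1 : ℂ) / ((n : ℂ) + 1 + m / 2)‖ ≤ 1 := by
      have : ((n : ℂ) + 1 + m / 2) = (((n : ℝ) + 1 + m / 2 : ℝ) : ℂ) := by push_cast; ring
      rw [norm_div, norm_one, this, Complex.norm_real, Real.norm_of_nonneg (by positivity)]
      rw [div_le_one (by positivity)]
      have h1 : (0 : ℝ) ≤ (n : ℝ) := by positivity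
      have h2 : (0 : ℝ) ≤ (m : ℝ) / 2 := by positivity
      linarith
    have e3 : ‖N.mulVec S - (1 / ((n : ℂ) + 1 + m / 2)) • E.mulVec (N.mulVec S)‖ ≤
        K * ‖S‖ := by
      calc _ ≤ ‖N.mulVec S‖ + ‖(1 / ((n : ℂ) + 1 + m / 2)) • E.mulVec (N.mulVec S)‖ :=
            norm_sub_le _ _
        _ ≤ ‖N.mulVec S‖ + 1 * ‖E.mulVec (N.mulVec S)‖ := by
            rw [norm_smul]
            gcongr
        _ ≤ ‖N.mulVec S‖ + 1 * (CE * ‖N.mulVec S‖) := by
            gcongr
            exact hCE _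
        _ = (1 + CE) * ‖N.mulVec S‖ := by ring
        _ ≤ (1 + CE) * (CN * ‖S‖) := by
            gcongr
            exact hCN _
        _ = ((1 + CE) * CN) * ‖S‖ := by ring
        _ ≤ K * ‖S‖ := by gcongr
    rw [e1]
    calc 1 / ((n : ℝ) + 1) * _ ≤ 1 / ((n : ℝ) + 1) * (K * ‖S‖) := by gcongr
      _ = _ := by ring
  have hS : ∀ n, ‖frob_S E N w0 n‖ ≤ ‖w0‖ * ((n + K).choose K : ℝ) := by
    intro n
    induction n with
    | zero => simp [frob_S]
    | succ n ih =>
      have h1 : ‖frob_S E N w0 (n + 1)‖ ≤ (1 + (K : ℝ) / ((n : ℝ) + 1)) * ‖frob_S E N w0 n‖ := by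
        show ‖frob_S E N w0 n + frob_g E N n (frob_S E N w0 n)‖ ≤ _
        calc _ ≤ ‖frob_S E N w0 n‖ + ‖frob_g E N n (frob_S E N w0 n)‖ := norm_add_le _ _
          _ ≤ ‖frob_S E N w0 n‖ + (K : ℝ) / ((n : ℝ) + 1) * ‖frob_S E N w0 n‖ := by
              gcongr
              exact hg _ _
          _ = _ := by ring
      have h2 : ((n + 1 + K).choose K : ℝ) = (1 + (K : ℝ) / ((n : ℝ) + 1)) *
          ((n + K).choose K : ℝ) := by
        have h3 := Nat.choose_mul_succ_eq (n + K) K
        have h4 : n + K + 1 - K = n + 1 := by omega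
        rw [h4] at h3
        have h5 : n + K + 1 = n + 1 + K := by ring
        rw [h5] at h3
        have h6 : (((n + K).choose K * (n + 1 + K) : ℕ) : ℝ) =
          (((n + 1 + K).choose K * (n + 1) : ℕ) : ℝ) := by rw [h3]
        push_cast at h6
        have h7 : ((n : ℝ) + 1) ≠ 0 := by positivity
        field_simp
        linarith
      calc _ ≤ _ := h1
        _ ≤ (1 + (K : ℝ) / ((n : ℝ) + 1)) * (‖w0‖ * ((n + K).choose K : ℝ)) := by gcongr
        _ = _ := by rw [h2]; ring
  refine ⟨K, 2 * ‖w0‖, by positivity, fun n => ?_, fun n => ?_⟩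
  · refine (hS n).trans ?_
    have : 0 ≤ ‖w0‖ * ((n + K).choose K : ℝ) := by positivity
    linarith
  · cases n with
    | zero =>
      simp [frob_w]
      linarith [norm_nonneg w0]
    | succ n =>
      have h1 : frob_w E N w0 (n + 1) = frob_S E N w0 (n + 1) - frob_S E N w0 n := by
        rw [frob_S_succ]; abel
      rw [h1]
      have h2 : ((n + K).choose K : ℝ) ≤ ((n + 1 + K).choose K : ℝ) := by
        exact_mod_cast Nat.choose_le_choose K (by omega)
      calc _ ≤ ‖frob_S E N w0 (n + 1)‖ + ‖frob_S E N w0 n‖ := norm_sub_le _ _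
        _ ≤ ‖w0‖ * ((n + 1 + K).choose K : ℝ) + ‖w0‖ * ((n + K).choose K : ℝ) :=
            add_le_add (hS _) (hS _)
        _ ≤ ‖w0‖ * ((n + 1 + K).choose K : ℝ) + ‖w0‖ * ((n + 1 + K).choose K : ℝ) := by gcongr
        _ = _ := by ring

/-- analytic part: scalar power series -/
theorem frob_scalar (a : ℕ → ℂ) (K : ℕ) (b : ℝ) (hb : 0 ≤ b)
    (ha : ∀ n, ‖a n‖ ≤ b * ((n + K).choose K : ℝ)) :
    DifferentiableOn ℂ (fun u => ∑' n, a n * u ^ n) (Metric.ball 0 1) ∧
    ∀ u ∈ Metric.ball (0 : ℂ) 1, Summable (fun n => a n * u ^ n) ∧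
      HasSum (fun n : ℕ => (n : ℂ) * a n * u ^ n) (u * deriv (fun u => ∑' n, a n * u ^ n) u) := by
  have hsum : ∀ r : ℝ, 0 ≤ r → r < 1 → Summable fun n : ℕ => b * ((n + K).choose K : ℝ) * r ^ n := by
    intro r hr0 hr1
    have := summable_choose_mul_geometric_of_norm_lt_one (R := ℝ) K (r := r)
      (by rw [Real.norm_of_nonneg hr0]; exact hr1)
    have h2 := this.mul_left b
    refine h2.congr fun n => by ring
  have hle : ∀ (r : ℝ) (n : ℕ) (w : ℂ), w ∈ Metric.ball (0 : ℂ) r →
      ‖a n * w ^ n‖ ≤ b * ((n + K).choose K : ℝ) * r ^ n := by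
    intro r n w hw
    have hw' : ‖w‖ < r := by simpa using hw
    rw [norm_mul, norm_pow]
    gcongr
    exact ha n
  have hex : ∀ u ∈ Metric.ball (0 : ℂ) 1, ∃ r : ℝ, ‖u‖ < r ∧ r < 1 := by
    intro u hu
    have hu' : ‖u‖ < 1 := by simpa using hu
    exact exists_between hu'
  have hdiff : ∀ r : ℝ, 0 ≤ r → r < 1 →
      DifferentiableOn ℂ (fun u => ∑' n, a n * u ^ n) (Metric.ball 0 r) := by
    intro r hr0 hr1
    exact Complex.differentiableOn_tsum_of_summable_norm (hsum r hr0 hr1)
      (fun i => by fun_prop) Metric.isOpen_ball (fun i w hw => hle r i w hw)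
  refine ⟨fun u hu => ?_, fun u hu => ⟨?_, ?_⟩⟩
  · obtain ⟨r, h1, h2⟩ := hex u hu
    have h0 : 0 ≤ r := (norm_nonneg u).trans h1.le
    have := (hdiff r h0 h2).differentiableAt (Metric.isOpen_ball.mem_nhds
      (by simpa using h1 : u ∈ Metric.ball (0 : ℂ) r))
    exact this.differentiableWithinAt
  · obtain ⟨r, h1, h2⟩ := hex u hu
    have h0 : 0 ≤ r := (norm_nonneg u).trans h1.le
    exact Summable.of_norm_bounded (hsum r h0 h2) (fun n => hle r n u (by simpa using h1))
  · obtain ⟨r, h1, h2⟩ := hex u hu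
    have h0 : 0 ≤ r := (norm_nonneg u).trans h1.le
    have := Complex.hasSum_deriv_of_summable_norm (hsum r h0 h2)
      (F := fun n w => a n * w ^ n)
      (fun i => by fun_prop) Metric.isOpen_ball (fun i w hw => hle r i w hw)
      (z := u) (by simpa using h1)
    have h3 := this.mul_left u
    have h4 : (fun n : ℕ => u * deriv (fun w : ℂ => a n * w ^ n) u) =
        fun n : ℕ => (n : ℂ) * a n * u ^ n := by
      funext n
      cases n with
      | zero => simp
      | succ n =>
        have : deriv (fun w : ℂ => a (n + 1) * w ^ (n + 1)) u =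
            a (n + 1) * (((n + 1 : ℕ) : ℂ) * u ^ n) := by
          have h5 := ((hasDerivAt_pow (n + 1) u).const_mul (a (n + 1))).deriv
          simpa using h5
        rw [this, pow_succ]
        ring
    rw [h4] at h3
    exact h3

theorem p_FROB (h : T_SQ) : T_FROB := by
  intro m α w0 hs hw0
  obtain ⟨-, hq, -, -⟩ := h m α hs
  have hm := hs.two
  set E : Mat m := Em α with hE
  set N : Mat m := Nm m with hN
  have hEE : E * E = ((m : ℂ) / 2) • E := by
    ext i j
    rw [Matrix.mul_apply, Matrix.smul_apply]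
    have hlast : ∑ k : Fin m, E i k * E k j = E i ⟨m - 1, by omega⟩ * E ⟨m - 1, by omega⟩ j := by
      apply Finset.sum_eq_single
      · intro k _ hk
        have : (k : ℕ) + 1 ≠ m := by
          intro h
          apply hk
          ext
          simp
          omega
        simp [hE, Em, this]
      · simp
    rw [hlast]
    have h1 : (m - 1) + 1 = m := by omega
    by_cases hi : (i : ℕ) + 1 = m
    · have hq' : ((Qp α).coeff (m - 1) : ℂ) = (m : ℂ) / 2 := by
        rw [hq]; push_cast; ring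
      simp [hE, Em, hi, h1, hq']
    · simp [hE, Em, hi]
  have hE0 : E.mulVec w0 = 0 := by
    ext i
    by_cases hi : (i : ℕ) + 1 = m
    · simp only [Matrix.mulVec, dotProduct, Pi.zero_apply]
      rw [← hw0]
      apply Finset.sum_congr rfl
      intro j _
      simp [hE, Em, hi]
    · simp [Matrix.mulVec, dotProduct, hE, Em, hi]
  obtain ⟨K, b, hb, hSb, hwb⟩ := frob_bound E N w0
  have hwi : ∀ i n, ‖frob_w E N w0 n i‖ ≤ b * ((n + K).choose K : ℝ) := fun i n =>
    (norm_le_pi_norm _ i).trans (hwb n)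
  have hSi : ∀ i n, ‖frob_S E N w0 n i‖ ≤ b * ((n + K).choose K : ℝ) := fun i n =>
    (norm_le_pi_norm _ i).trans (hSb n)
  set w : ℂ → Fin m → ℂ := fun u i => ∑' n, frob_w E N w0 n i * u ^ n with hw
  refine ⟨w, ?_, fun i => (frob_scalar _ K b hb (hwi i)).1, ?_⟩
  · ext i
    show ∑' n, frob_w E N w0 n i * (0 : ℂ) ^ n = w0 i
    rw [tsum_eq_single 0 (fun n hn => by simp [hn])]
    simp [frob_w]
  · intro t ht i
    set u : ℂ := Complex.exp t with hu
    have hnu : ‖u‖ < 1 := by
      rw [hu, Complex.norm_exp]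
      exact Real.exp_lt_one_iff.2 ht
    have hub : u ∈ Metric.ball (0 : ℂ) 1 := by simpa using hnu
    have hu1 : 1 - u ≠ 0 := by
      intro h
      have : u = 1 := by linear_combination -h
      rw [this] at hnu
      simp at hnu
    -- values
    have hwsum : ∀ i, HasSum (fun n => frob_w E N w0 n i * u ^ n) (w u i) := fun i =>
      ((frob_scalar _ K b hb (hwi i)).2 u hub).1.hasSum
    -- partial sums
    set σ : Fin m → ℂ := fun i => ∑' n, frob_S E N w0 n i * u ^ n with hσ
    have hσsum : ∀ i, HasSum (fun n => frob_S E N w0 n i * u ^ n) (σ i) := fun i =>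
      ((frob_scalar _ K b hb (hSi i)).2 u hub).1.hasSum
    have hσw : ∀ i, (1 - u) * σ i = w u i := by
      intro i
      have h1 : HasSum (fun n => frob_S E N w0 (n + 1) i * u ^ (n + 1))
          (σ i - frob_S E N w0 0 i * u ^ 0) := by
        have := (hasSum_nat_add_iff' 1).2 (hσsum i)
        simpa using this
      have h2 : HasSum (fun n => frob_w E N w0 (n + 1) i * u ^ (n + 1))
          (w u i - frob_w E N w0 0 i * u ^ 0) := by
        have := (hasSum_nat_add_iff' 1).2 (hwsum i)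
        simpa using this
      have h3 : HasSum (fun n => frob_S E N w0 (n + 1) i * u ^ (n + 1))
          (u * σ i + (w u i - frob_w E N w0 0 i * u ^ 0)) := by
        have := ((hσsum i).mul_left u).add h2
        have he : (fun n => u * (frob_S E N w0 n i * u ^ n) +
            frob_w E N w0 (n + 1) i * u ^ (n + 1)) =
            fun n => frob_S E N w0 (n + 1) i * u ^ (n + 1) := by
          funext n
          rw [frob_S_succ, Pi.add_apply]
          ring
        rw [he] at this
        exact this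
      have h4 := h1.unique h3
      simp [frob_S, frob_w] at h4
      linear_combination h4
    have hσN : ∀ i, HasSum (fun n => N.mulVec (frob_S E N w0 n) i * u ^ (n + 1))
        (u * N.mulVec σ i) := by
      intro i
      have h1 : HasSum (fun n => ∑ j, N i j * (frob_S E N w0 n j * u ^ n)) (∑ j, N i j * σ j) :=
        hasSum_sum fun j _ => (hσsum j).mul_left (N i j)
      have h2 := h1.mul_left u
      have he : (fun n => u * ∑ j, N i j * (frob_S E N w0 n j * u ^ n)) =
          fun n => N.mulVec (frob_S E N w0 n) i * u ^ (n + 1) := by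
        funext n
        simp only [Matrix.mulVec, dotProduct]
        rw [Finset.mul_sum, Finset.sum_mul]
        apply Finset.sum_congr rfl
        intro j _
        ring
      rw [he] at h2
      exact h2
    have hwE : ∀ i, HasSum (fun n => E.mulVec (frob_w E N w0 n) i * u ^ n)
        (E.mulVec (w u) i) := by
      intro i
      have h1 : HasSum (fun n => ∑ j, E i j * (frob_w E N w0 n j * u ^ n))
          (∑ j, E i j * w u j) :=
        hasSum_sum fun j _ => (hwsum j).mul_left (E i j)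
      have he : (fun n => ∑ j, E i j * (frob_w E N w0 n j * u ^ n)) =
          fun n => E.mulVec (frob_w E N w0 n) i * u ^ n := by
        funext n
        simp only [Matrix.mulVec, dotProduct]
        rw [Finset.sum_mul]
        apply Finset.sum_congr rfl
        intro j _
        ring
      rw [he] at h1
      exact h1
    have hwE' : HasSum (fun n => E.mulVec (frob_w E N w0 (n + 1)) i * u ^ (n + 1))
        (E.mulVec (w u) i) := by
      have := (hasSum_nat_add_iff' 1).2 (hwE i)
      have h0 : E.mulVec (frob_w E N w0 0) i = 0 := by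
        show E.mulVec w0 i = 0
        rw [hE0]; rfl
      simpa [h0] using this
    have hder := ((frob_scalar _ K b hb (hwi i)).2 u hub).2
    have hder' : HasSum (fun n : ℕ => ((n : ℂ) + 1) * frob_w E N w0 (n + 1) i * u ^ (n + 1))
        (u * deriv (fun u => w u i) u) := by
      have := (hasSum_nat_add_iff' 1).2 hder
      simpa using this
    have hrhs := ((hσN i).neg).sub hwE'
    have he : (fun n => -(N.mulVec (frob_S E N w0 n) i * u ^ (n + 1)) -
        E.mulVec (frob_w E N w0 (n + 1)) i * u ^ (n + 1)) =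
        fun n : ℕ => ((n : ℂ) + 1) * frob_w E N w0 (n + 1) i * u ^ (n + 1) := by
      funext n
      have h1 := congrFun (frob_rec E N w0 hEE n) i
      simp only [Pi.smul_apply, Pi.neg_apply, Pi.sub_apply, smul_eq_mul] at h1
      rw [h1]
      ring
    rw [he] at hrhs
    have hval := hder'.unique hrhs
    have hσ' : σ = (1 / (1 - u)) • w u := by
      ext j
      rw [Pi.smul_apply, smul_eq_mul, ← hσw j]
      field_simp
    have hdw : HasDerivAt (fun v => w v i) (deriv (fun v => w v i) u) u := by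
      have := ((frob_scalar _ K b hb (hwi i)).1).differentiableAt (Metric.isOpen_ball.mem_nhds hub)
      exact this.hasDerivAt
    have hcomp : HasDerivAt (fun s => w (Complex.exp s) i)
        (deriv (fun v => w v i) u * Complex.exp t) t :=
      HasDerivAt.comp t (h₂ := fun v => w v i) hdw (Complex.hasDerivAt_exp t)
    have hfin : deriv (fun v => w v i) u * Complex.exp t = (Pt α t).mulVec (w u) i := by
      rw [← hu, mul_comm, hval, hσ', Matrix.mulVec_smul]
      unfold Pt
      rw [Matrix.sub_mulVec, Matrix.smul_mulVec]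
      simp only [Pi.smul_apply, Pi.sub_apply, smul_eq_mul]
      rw [← hu, ← hE, ← hN]
      field_simp
    rw [hfin] at hcomp
    exact hcomp

end Pool.Agent.MUM
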