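import Pool.Agent.MUM.Targets

/-!
MUM-GS: the series `Sf α a j` are G-functions.
-/

set_option autoImplicit false

namespace Pool.Agent.MUM

open Finset Pool.Agent.LEG Pool.Agent.HEP
open scoped BigOperators Topology

namespace GS_

/-! ### denominators -/

/-- the coefficient of index `j` has denominator `D ^ j` -/
def Zd (D : ℕ) (f : PowerSeries ℚ) : Prop :=
  ∀ j, ∃ x : ℤ, (D : ℚ) ^ j * PowerSeries.coeff j f = x

theorem Zd_mul {D : ℕ} {f g : PowerSeries ℚ} (hf : Zd D f) (hg : Zd D g) : Zd D (f * g) := by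
  intro j
  choose x hx using hf
  choose y hy using hg
  refine ⟨∑ p ∈ antidiagonal j, x p.1 * y p.2, ?_⟩
  rw [PowerSeries.coeff_mul, Finset.mul_sum]
  push_cast
  refine Finset.sum_congr rfl fun p hp => ?_
  rw [← hx, ← hy, ← Finset.HasAntidiagonal.mem_antidiagonal.1 hp, pow_add]
  ring

theorem Zd_one (D : ℕ) : Zd D 1 := by
  intro j
  rw [PowerSeries.coeff_one]
  split_ifs with h
  · subst h
    exact ⟨1, by simp⟩
  · exact ⟨0, by simp⟩

theorem Zd_pow {D : ℕ} {f : PowerSeries ℚ} (hf : Zd D f) (a : ℕ) : Zd D (f ^ a) := by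
  induction a with
  | zero => rw [pow_zero]; exact Zd_one D
  | succ a ih => rw [pow_succ]; exact Zd_mul ih hf

theorem Zd_prod {D : ℕ} {ι : Type} (s : Finset ι) (f : ι → PowerSeries ℚ)
    (hf : ∀ i ∈ s, Zd D (f i)) : Zd D (∏ i ∈ s, f i) :=
  Finset.prod_induction f (Zd D) (fun _ _ => Zd_mul) (Zd_one D) hf

theorem coeff_lin (c r : ℚ) (j : ℕ) :
    PowerSeries.coeff j (PowerSeries.C c + PowerSeries.C r * PowerSeries.X) =
      if j = 0 then c else if j = 1 then r else 0 := by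
  rw [map_add, PowerSeries.coeff_C, PowerSeries.coeff_C_mul, PowerSeries.coeff_X]
  by_cases h0 : j = 0
  · subst h0
    simp
  · rw [if_neg h0, if_neg h0, zero_add]
    split_ifs <;> simp

theorem Zd_lin {D : ℕ} (c : ℤ) {r : ℚ} (hr : ∃ x : ℤ, (D : ℚ) * r = x) :
    Zd D (PowerSeries.C (c : ℚ) + PowerSeries.C r * PowerSeries.X) := by
  intro j
  obtain ⟨x, hx⟩ := hr
  rw [coeff_lin]
  by_cases h0 : j = 0
  · subst h0
    exact ⟨c, by simp⟩
  · rw [if_neg h0]
    split_ifs with h1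
    · subst h1
      exact ⟨x, by rw [pow_one, hx]⟩
    · exact ⟨0, by simp⟩

/-- the geometric series -/
noncomputable def G (r : ℚ) : PowerSeries ℚ := PowerSeries.mk fun k => (-r) ^ k

theorem Zd_G {D : ℕ} {r : ℚ} (hr : ∃ x : ℤ, (D : ℚ) * r = x) : Zd D (G r) := by
  intro j
  obtain ⟨x, hx⟩ := hr
  refine ⟨(-x) ^ j, ?_⟩
  unfold G
  rw [PowerSeries.coeff_mk, ← mul_pow]
  push_cast
  rw [← hx]
  congr 1
  ring

theorem G_mul (r : ℚ) : G r * (PowerSeries.C 1 + PowerSeries.C r * PowerSeries.X) = 1 := by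
  ext n
  rw [map_one, mul_add, mul_one, map_add, mul_comm (PowerSeries.C r) PowerSeries.X, ← mul_assoc]
  rw [mul_comm _ (PowerSeries.C r), PowerSeries.coeff_C_mul]
  cases n with
  | zero =>
    rw [PowerSeries.coeff_zero_mul_X]
    simp [G]
  | succ n =>
    rw [PowerSeries.coeff_succ_mul_X, PowerSeries.coeff_one, if_neg (by omega)]
    unfold G
    rw [PowerSeries.coeff_mk, PowerSeries.coeff_mk, pow_succ]
    ring

/-! ### size -/

/-- the coefficients up to the index `J` are bounded -/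
def Bd (J : ℕ) (M : ℚ) (f : PowerSeries ℚ) : Prop := ∀ j, j ≤ J → |PowerSeries.coeff j f| ≤ M

theorem Bd_mul {J : ℕ} {M M' : ℚ} {f g : PowerSeries ℚ} (hM : 0 ≤ M) (hM' : 0 ≤ M')
    (hf : Bd J M f) (hg : Bd J M' g) : Bd J (((J : ℚ) + 1) * M * M') (f * g) := by
  intro j hj
  rw [PowerSeries.coeff_mul]
  refine (Finset.abs_sum_le_sum_abs _ _).trans ?_
  have h1 : ∀ p ∈ antidiagonal j, |PowerSeries.coeff p.1 f * PowerSeries.coeff p.2 g| ≤ M * M' := by
    intro p hp
    have hp' := Finset.HasAntidiagonal.mem_antidiagonal.1 hp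
    rw [abs_mul]
    exact mul_le_mul (hf _ (by omega)) (hg _ (by omega)) (abs_nonneg _) hM
  refine (Finset.sum_le_sum h1).trans ?_
  rw [Finset.sum_const, Finset.Nat.card_antidiagonal, nsmul_eq_mul]
  push_cast
  have h2 : (j : ℚ) + 1 ≤ (J : ℚ) + 1 := by
    have : (j : ℚ) ≤ J := by exact_mod_cast hj
    linarith
  calc ((j : ℚ) + 1) * (M * M') ≤ ((J : ℚ) + 1) * (M * M') :=
        mul_le_mul_of_nonneg_right h2 (mul_nonneg hM hM')
    _ = ((J : ℚ) + 1) * M * M' := by ring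

theorem Bd_one (J : ℕ) : Bd J 1 1 := by
  intro j _
  rw [PowerSeries.coeff_one]
  split_ifs <;> simp

theorem Bd_prod {J : ℕ} {M : ℚ} (hM : 0 ≤ M) {ι : Type} (s : Finset ι) (f : ι → PowerSeries ℚ)
    (hf : ∀ i ∈ s, Bd J M (f i)) : Bd J ((((J : ℚ) + 1) * M) ^ s.card) (∏ i ∈ s, f i) := by
  classical
  induction s using Finset.induction_on with
  | empty => simpa using Bd_one J
  | insert i s hi ih =>
    rw [Finset.prod_insert hi, Finset.card_insert_of_notMem hi, pow_succ']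
    have h1 := Bd_mul (J := J) hM (by positivity) (hf i (Finset.mem_insert_self _ _))
      (ih fun k hk => hf k (Finset.mem_insert_of_mem hk))
    exact h1

theorem Bd_mono {J : ℕ} {M M' : ℚ} {f : PowerSeries ℚ} (h : M ≤ M') (hf : Bd J M f) : Bd J M' f :=
  fun j hj => (hf j hj).trans h

theorem Bd_pow {J : ℕ} {M : ℚ} (hM : 0 ≤ M) {f : PowerSeries ℚ} (hf : Bd J M f) (a : ℕ) :
    Bd J ((((J : ℚ) + 1) * M) ^ a) (f ^ a) := by
  have h := Bd_prod hM (Finset.range a) (fun _ => f) (fun _ _ => hf)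
  rwa [Finset.prod_const, Finset.card_range] at h

theorem Bd_lin (J : ℕ) {c r M : ℚ} (hc : |c| ≤ M) (hr : |r| ≤ M) :
    Bd J M (PowerSeries.C c + PowerSeries.C r * PowerSeries.X) := by
  intro j _
  rw [coeff_lin]
  split_ifs
  · exact hc
  · exact hr
  · rw [abs_zero]
    exact (abs_nonneg _).trans hc

theorem Bd_G (J : ℕ) {r : ℚ} (hr : |r| ≤ 1) : Bd J 1 (G r) := by
  intro j _
  unfold G
  rw [PowerSeries.coeff_mk, abs_pow, abs_neg]
  exact pow_le_one₀ (abs_nonneg _) hr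

/-! ### the decomposition -/

/-- the normalised factor -/
noncomputable def Pf {m : ℕ} (α : Fin m → ℚ) (s : ℕ) : PowerSeries ℚ :=
  (∏ i, (PowerSeries.C 1 + PowerSeries.C (1 / (α i + s)) * PowerSeries.X)) *
    G (1 / ((s : ℚ) + 1)) ^ m

theorem inv_eq (m s : ℕ) : ((PowerSeries.C ((s : ℚ) + 1) + PowerSeries.X) ^ m)⁻¹ =
    (PowerSeries.C (1 / ((s : ℚ) + 1)) * G (1 / ((s : ℚ) + 1))) ^ m := by
  have hs : ((s : ℚ) + 1) ≠ 0 := by positivity
  symm
  rw [PowerSeries.eq_inv_iff_mul_eq_one]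
  · rw [← mul_pow]
    have h1 : PowerSeries.C (1 / ((s : ℚ) + 1)) * G (1 / ((s : ℚ) + 1)) *
        (PowerSeries.C ((s : ℚ) + 1) + PowerSeries.X) = 1 := by
      have h2 : (PowerSeries.C ((s : ℚ) + 1) + PowerSeries.X : PowerSeries ℚ) =
          PowerSeries.C ((s : ℚ) + 1) *
            (PowerSeries.C 1 + PowerSeries.C (1 / ((s : ℚ) + 1)) * PowerSeries.X) := by
        rw [mul_add, ← mul_assoc, ← map_mul, ← map_mul, mul_one, mul_one_div_cancel hs, map_one,
          one_mul]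
      rw [h2]
      calc PowerSeries.C (1 / ((s : ℚ) + 1)) * G (1 / ((s : ℚ) + 1)) *
          (PowerSeries.C ((s : ℚ) + 1) *
            (PowerSeries.C 1 + PowerSeries.C (1 / ((s : ℚ) + 1)) * PowerSeries.X)) =
          (PowerSeries.C (1 / ((s : ℚ) + 1)) * PowerSeries.C ((s : ℚ) + 1)) *
            (G (1 / ((s : ℚ) + 1)) *
              (PowerSeries.C 1 + PowerSeries.C (1 / ((s : ℚ) + 1)) * PowerSeries.X)) := by ring
        _ = 1 := by
          rw [G_mul, ← map_mul, one_div_mul_cancel hs, map_one, mul_one]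
    rw [h1, one_pow]
  · rw [map_pow, map_add, PowerSeries.constantCoeff_C, PowerSeries.constantCoeff_X, add_zero]
    exact pow_ne_zero _ hs

theorem cs_eq {m : ℕ} (α : Fin m → ℚ) (hα : ∀ i, 0 < α i) (n : ℕ) :
    cs α n = PowerSeries.C (c0 α n) * ∏ s ∈ range n, Pf α s := by
  unfold cs c0
  rw [map_prod, ← Finset.prod_mul_distrib]
  refine Finset.prod_congr rfl fun s _ => ?_
  rw [inv_eq]
  have h1 : ∀ i, (PowerSeries.C (α i + s) + PowerSeries.X : PowerSeries ℚ) =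
      PowerSeries.C (α i + s) *
        (PowerSeries.C 1 + PowerSeries.C (1 / (α i + s)) * PowerSeries.X) := by
    intro i
    have h2 : α i + s ≠ 0 := by
      have := hα i
      positivity
    rw [mul_add, ← mul_assoc, ← map_mul, ← map_mul, mul_one, mul_one_div_cancel h2, map_one,
      one_mul]
  rw [Finset.prod_congr rfl fun i _ => h1 i, Finset.prod_mul_distrib, mul_pow]
  unfold Pf
  have h3 : (PowerSeries.C (∏ i, (α i + s) / (1 + s)) : PowerSeries ℚ) =
      (∏ i, PowerSeries.C (α i + s)) * PowerSeries.C (1 / ((s : ℚ) + 1)) ^ m := by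
    rw [← map_pow, ← map_prod, ← map_mul]
    congr 1
    rw [Finset.prod_div_distrib, Finset.prod_const, Finset.card_univ, Fintype.card_fin,
      add_comm (1 : ℚ), one_div, inv_pow, div_eq_mul_inv]
  rw [h3]
  ring

/-! ### integrality of the constant factor -/

theorem fact_dvd (b : ℕ) (p : ℤ) (n : ℕ) :
    ((n.factorial : ℕ) : ℤ) ∣ (b : ℤ) ^ n * ∏ s ∈ range n, (p + b * s) := by
  have hkey : n.factorial ∣ ((b : ℤ) ^ n * ∏ s ∈ range n, (p + b * s)).natAbs := by
    rw [Nat.dvd_iff_prime_pow_dvd_dvd]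
    intro q k hq hk
    have := Fact.mk hq
    rw [← Int.natCast_dvd]
    by_cases hqb : q ∣ b
    · have hkn : k ≤ n := by
        have h1 : k ≤ padicValNat q n.factorial :=
          (padicValNat_dvd_iff_le (Nat.factorial_ne_zero n)).1 hk
        have h2 := sub_one_mul_padicValNat_factorial (p := q) n
        have h3 : padicValNat q n.factorial ≤ (q - 1) * padicValNat q n.factorial :=
          Nat.le_mul_of_pos_left _ (by have := hq.two_le; omega)
        omega
      refine Dvd.dvd.mul_right ?_ _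
      push_cast
      exact (pow_dvd_pow_of_dvd (Int.natCast_dvd_natCast.2 hqb) k).trans (pow_dvd_pow _ hkn)
    · have hcop : IsCoprime (b : ℤ) ((q ^ k : ℕ) : ℤ) := by
        rw [Nat.isCoprime_iff_coprime]
        exact (Nat.Coprime.pow_left k ((Nat.Prime.coprime_iff_not_dvd hq).2 hqb)).symm
      obtain ⟨c, e, hce⟩ := hcop
      have h1 : ((q ^ k : ℕ) : ℤ) ∣ ∏ s ∈ range n, (c * p + s) :=
        (Int.natCast_dvd_natCast.2 hk).trans (Nat.factorial_coe_dvd_prod n (c * p))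
      have h2 : ∀ s ∈ range n, p + b * s ≡ b * (c * p + s) [ZMOD ((q ^ k : ℕ) : ℤ)] := by
        intro s _
        rw [Int.modEq_iff_dvd]
        refine ⟨-(e * p), ?_⟩
        have : b * (c * p + s) - (p + b * s) = (c * b - 1) * p := by ring
        rw [this, ← hce]
        ring
      have h3 : ∏ s ∈ range n, (p + b * (s : ℤ)) ≡ ∏ s ∈ range n, (b * (c * p + (s : ℤ)))
          [ZMOD ((q ^ k : ℕ) : ℤ)] := Int.ModEq.prod h2
      have h4 : ((q ^ k : ℕ) : ℤ) ∣ ∏ s ∈ range n, (b * (c * p + (s : ℤ))) := by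
        rw [Finset.prod_mul_distrib]
        exact Dvd.dvd.mul_left h1 _
      have h5 : ((q ^ k : ℕ) : ℤ) ∣ ∏ s ∈ range n, (p + b * (s : ℤ)) :=
        (Int.ModEq.dvd_iff h3).2 h4
      exact Dvd.dvd.mul_left h5 _
  exact Int.natCast_dvd.2 hkey

theorem poch_int (b : ℕ) (hb : 1 ≤ b) (p : ℤ) (n : ℕ) :
    ∃ x : ℤ, (b : ℚ) ^ (2 * n) * ∏ s ∈ range n, (((p : ℚ) / b + s) / (1 + s)) = x := by
  obtain ⟨x, hx⟩ := fact_dvd b p n
  refine ⟨x, ?_⟩
  have hb0 : (b : ℚ) ≠ 0 := by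
    have : (0 : ℚ) < b := by exact_mod_cast hb
    exact this.ne'
  have hf : (n.factorial : ℚ) ≠ 0 := by exact_mod_cast Nat.factorial_ne_zero n
  have h1 : ∏ s ∈ range n, (1 + (s : ℚ)) = n.factorial := by
    rw [← Finset.prod_range_add_one_eq_factorial]
    push_cast
    exact Finset.prod_congr rfl fun s _ => by ring
  have h2 : (b : ℚ) ^ n * ∏ s ∈ range n, ((p : ℚ) / b + s) = ∏ s ∈ range n, ((p : ℚ) + b * s) := by
    have : (b : ℚ) ^ n = ∏ s ∈ range n, (b : ℚ) := by rw [Finset.prod_const, Finset.card_range]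
    rw [this, ← Finset.prod_mul_distrib]
    refine Finset.prod_congr rfl fun s _ => ?_
    field_simp
  have h3 : ((b : ℚ) ^ n * ∏ s ∈ range n, ((p : ℚ) + b * s)) = n.factorial * x := by
    exact_mod_cast hx
  rw [Finset.prod_div_distrib, h1, two_mul, pow_add, mul_assoc, ← mul_div_assoc, h2,
    ← mul_div_assoc, h3]
  field_simp

/-- common denominator of the exponents -/
theorem exists_b {m : ℕ} (α : Fin m → ℚ) : ∃ b : ℕ, 1 ≤ b ∧ ∀ i, ∃ p : ℤ, α i = (p : ℚ) / b := by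
  refine ⟨∏ i, (α i).den, Nat.one_le_iff_ne_zero.2
    (Finset.prod_ne_zero_iff.2 fun i _ => (α i).den_ne_zero), fun i => ?_⟩
  obtain ⟨c, hc⟩ := Finset.dvd_prod_of_mem (fun i => (α i).den) (Finset.mem_univ i)
  have hc0 : (c : ℚ) ≠ 0 := by
    intro h
    have h1 : c = 0 := by exact_mod_cast h
    rw [h1, mul_zero] at hc
    exact Finset.prod_ne_zero_iff.2 (fun i _ => (α i).den_ne_zero) hc
  refine ⟨(α i).num * c, ?_⟩
  rw [hc]
  push_cast
  rw [mul_div_mul_right _ _ hc0, Rat.num_div_den]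

theorem c0_int {m : ℕ} (α : Fin m → ℚ) (b : ℕ) (hb : 1 ≤ b)
    (h : ∀ i, ∃ p : ℤ, α i = (p : ℚ) / b) (n : ℕ) :
    ∃ x : ℤ, (b : ℚ) ^ (2 * m * n) * c0 α n = x := by
  choose p hp using h
  have h1 : ∀ i, ∃ x : ℤ, (b : ℚ) ^ (2 * n) * ∏ s ∈ range n, ((α i + s) / (1 + s)) = x := by
    intro i
    rw [hp i]
    exact poch_int b hb (p i) n
  choose x hx using h1
  refine ⟨∏ i, x i, ?_⟩
  push_cast
  rw [← Finset.prod_congr rfl fun i _ => hx i, Finset.prod_mul_distrib, Finset.prod_const,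
    Finset.card_univ, Fintype.card_fin, ← pow_mul]
  unfold c0
  rw [Finset.prod_comm]
  congr 2
  ring

theorem c0_le {m : ℕ} (α : Fin m → ℚ) (hα : ∀ i, 0 < α i ∧ α i < 1) (n : ℕ) :
    |c0 α n| ≤ 1 := by
  unfold c0
  rw [Finset.abs_prod]
  refine Finset.prod_le_one (fun _ _ => abs_nonneg _) fun s _ => ?_
  rw [Finset.abs_prod]
  refine Finset.prod_le_one (fun _ _ => abs_nonneg _) fun i _ => ?_
  have h1 := hα i
  have h2 : (0 : ℚ) < 1 + s := by positivity
  have h3 : 0 ≤ α i + s := by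
    have : (0 : ℚ) ≤ s := Nat.cast_nonneg s
    linarith
  rw [abs_of_nonneg (div_nonneg h3 h2.le), div_le_one h2]
  linarith

/-! ### the least common multiple -/

theorem lcm_le (n : ℕ) : Nat.lcmUpto n ≤ 220 ^ n := by
  have h1 := Chebyshev.psi_le_const_mul_self (x := (n : ℝ)) (by positivity)
  rw [Chebyshev.psi_eq_log_lcmUpto] at h1
  have hpos : (0 : ℝ) < Nat.lcmUpto n := by exact_mod_cast Nat.lcmUpto_pos n
  have h2 : (Nat.lcmUpto n : ℝ) ≤ Real.exp ((Real.log 4 + 4) * n) := by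
    rw [← Real.log_le_iff_le_exp hpos]
    exact h1
  have h3 : Real.exp ((Real.log 4 + 4) * n) = (4 * Real.exp 4) ^ n := by
    rw [mul_comm, Real.exp_nat_mul, Real.exp_add, Real.exp_log (by norm_num)]
  have h4 : Real.exp 4 ≤ 55 := by
    have h5 := Real.exp_one_lt_d9
    have h6 : Real.exp 4 = Real.exp 1 ^ 4 := by
      rw [← Real.exp_nat_mul]; norm_num
    rw [h6]
    calc Real.exp 1 ^ 4 ≤ (2.7182818286 : ℝ) ^ 4 :=
          pow_le_pow_left₀ (Real.exp_pos _).le h5.le 4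
      _ ≤ 55 := by norm_num
  have h5 : (Nat.lcmUpto n : ℝ) ≤ (220 : ℝ) ^ n := by
    rw [h3] at h2
    refine h2.trans (pow_le_pow_left₀ (by positivity) ?_ n)
    linarith
  exact_mod_cast h5

theorem dvd_lcm {n s : ℕ} (h0 : 1 ≤ s) (hs : s ≤ n) : s ∣ Nat.lcmUpto n := by
  unfold Nat.lcmUpto
  exact Finset.dvd_lcm (f := id) (Finset.mem_Icc.2 ⟨h0, hs⟩)

theorem lcm_div {n s : ℕ} (h0 : 1 ≤ s) (hs : s ≤ n) :
    ∃ x : ℤ, (Nat.lcmUpto n : ℚ) * (1 / (s : ℚ)) = x := by
  obtain ⟨c, hc⟩ := dvd_lcm h0 hs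
  refine ⟨c, ?_⟩
  have hs0 : (s : ℚ) ≠ 0 := by
    have : (0 : ℚ) < s := by exact_mod_cast h0
    exact this.ne'
  rw [hc]
  push_cast
  field_simp

theorem Zd_Pf {m : ℕ} (α : Fin m → ℚ) (hα : ∀ i, 0 < α i ∧ α i < 1) (b : ℕ) (hb : 1 ≤ b)
    (h : ∀ i, ∃ p : ℤ, α i = (p : ℚ) / b) {N s : ℕ} (hs : s < N) :
    Zd (Nat.lcmUpto (b * N)) (Pf α s) := by
  have hb0 : (0 : ℚ) < b := by exact_mod_cast hb
  unfold Pf
  refine Zd_mul (Zd_prod _ _ fun i _ => ?_) (Zd_pow (Zd_G ?_) m)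
  · have h1 : Zd (Nat.lcmUpto (b * N)) (PowerSeries.C ((1 : ℤ) : ℚ) +
        PowerSeries.C (1 / (α i + s)) * PowerSeries.X) := by
      refine Zd_lin 1 ?_
      obtain ⟨p, hp⟩ := h i
      have hp0 : 0 < p := by
        have h1 := (hα i).1
        rw [hp] at h1
        by_contra hcon
        push Not at hcon
        have h2 : (p : ℚ) ≤ 0 := by exact_mod_cast hcon
        have h3 : (p : ℚ) / b ≤ 0 := div_nonpos_of_nonpos_of_nonneg h2 hb0.le
        linarith
      have hp1 : p < b := by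
        have h1 := (hα i).2
        rw [hp, div_lt_one hb0] at h1
        exact_mod_cast h1
      obtain ⟨q, rfl⟩ := Int.eq_ofNat_of_zero_le hp0.le
      have hq0 : 1 ≤ q := by
        have : (0 : ℤ) < (q : ℤ) := hp0
        omega
      have hq1 : q ≤ b := by
        have : (q : ℤ) < (b : ℤ) := hp1
        omega
      have hle : q + b * s ≤ b * N := by
        calc q + b * s ≤ b + b * s := by omega
          _ = b * (s + 1) := by ring
          _ ≤ b * N := Nat.mul_le_mul_left _ hs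
      obtain ⟨x, hx⟩ := lcm_div (n := b * N) (s := q + b * s) (by omega) hle
      refine ⟨b * x, ?_⟩
      push_cast
      rw [← hx, hp]
      push_cast
      have hne : ((q : ℚ) + b * s) ≠ 0 := by
        have : (0 : ℚ) < q := by exact_mod_cast hq0
        positivity
      have hne2 : ((q : ℚ) / b + s) ≠ 0 := by
        have : (0 : ℚ) < q := by exact_mod_cast hq0
        positivity
      field_simp
    have h2 : ((1 : ℤ) : ℚ) = 1 := by norm_num
    rw [h2] at h1
    exact h1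
  · have h1 : s + 1 ≤ b * N := by
      calc s + 1 ≤ N := hs
        _ = 1 * N := (one_mul N).symm
        _ ≤ b * N := Nat.mul_le_mul_right _ hb
    obtain ⟨x, hx⟩ := lcm_div (n := b * N) (s := s + 1) (by omega) h1
    refine ⟨x, ?_⟩
    rw [← hx]
    push_cast
    rfl

theorem Bd_Pf {m : ℕ} (α : Fin m → ℚ) (hα : ∀ i, 0 < α i ∧ α i < 1) (J : ℕ) (A : ℚ)
    (hA1 : 1 ≤ A) (hA : ∀ i, 1 / α i ≤ A) (s : ℕ) :
    Bd J (((J : ℚ) + 1) * (((J : ℚ) + 1) * A) ^ m * (((J : ℚ) + 1) * 1) ^ m) (Pf α s) := by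
  unfold Pf
  refine Bd_mul (by positivity) (by positivity) ?_ (Bd_pow (by norm_num) (Bd_G J ?_) m)
  · have h1 := Bd_prod (J := J) (M := A) (by linarith) (Finset.univ : Finset (Fin m))
      (fun i => PowerSeries.C 1 + PowerSeries.C (1 / (α i + s)) * PowerSeries.X) ?_
    · rwa [Finset.card_univ, Fintype.card_fin] at h1
    · intro i _
      refine Bd_lin J (by rw [abs_one]; exact hA1) ?_
      have h2 := (hα i).1
      have h3 : (0 : ℚ) ≤ s := Nat.cast_nonneg s
      rw [abs_of_nonneg (by positivity)]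
      refine le_trans ?_ (hA i)
      exact one_div_le_one_div_of_le h2 (by linarith)
  · have h3 : (0 : ℚ) ≤ s := Nat.cast_nonneg s
    rw [abs_of_nonneg (by positivity), div_le_one (by positivity)]
    linarith

end GS_

open GS_ in
theorem p_GS : T_GS := by
  intro m α hα a j
  obtain ⟨b, hb, hbp⟩ := exists_b α
  -- the constant for the size
  obtain ⟨A, hA1, hA⟩ : ∃ A : ℕ, (1 : ℚ) ≤ A ∧ ∀ i, 1 / α i ≤ (A : ℚ) := by
    refine ⟨1 + ∑ i, ⌈1 / α i⌉₊, ?_, fun i => ?_⟩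
    · push_cast
      have : (0 : ℚ) ≤ ∑ i, (⌈1 / α i⌉₊ : ℚ) := Finset.sum_nonneg fun _ _ => Nat.cast_nonneg _
      linarith
    · refine (Nat.le_ceil _).trans ?_
      have h1 := Finset.single_le_sum (f := fun i => ⌈1 / α i⌉₊) (fun _ _ => Nat.zero_le _)
        (Finset.mem_univ i)
      exact_mod_cast h1.trans (Nat.le_add_left _ _)
  have hA1' : 1 ≤ A := by exact_mod_cast hA1
  set K : ℕ := j + 1 with hK
  set B : ℕ := K * (K * A) ^ m * (K * 1) ^ m with hB
  set C1 : ℕ := (K * 2) ^ a * K * (K * B) with hC1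
  set C2 : ℕ := b ^ (2 * m) * (220 ^ b) ^ j with hC2
  have hB1 : 1 ≤ B := by
    rw [hB]
    have : 0 < K * (K * A) ^ m * (K * 1) ^ m := by positivity
    exact this
  have hC1p : 1 ≤ C1 := by
    have : 0 < (K * 2) ^ a * K * (K * B) := by positivity
    exact this
  have hC2p : 1 ≤ C2 := by
    have : 0 < b ^ (2 * m) * (220 ^ b) ^ j := by positivity
    exact this
  refine ⟨C1 * C2, fun n => ⟨?_, b ^ (2 * m * n) * Nat.lcmUpto (b * n) ^ j, ?_, ?_, ?_⟩⟩
  · -- size
    unfold Sf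
    rw [PowerSeries.coeff_mk, cs_eq α (fun i => (hα i).1)]
    have e1 : (PowerSeries.C (n : ℚ) + PowerSeries.X : PowerSeries ℚ) =
        PowerSeries.C (n : ℚ) + PowerSeries.C 1 * PowerSeries.X := by
      rw [map_one, one_mul]
    have b1 : Bd j ((n : ℚ) + 1) (PowerSeries.C (n : ℚ) + PowerSeries.X : PowerSeries ℚ) := by
      rw [e1]
      have hn : (0 : ℚ) ≤ n := Nat.cast_nonneg n
      refine Bd_lin j ?_ ?_
      · rw [abs_of_nonneg hn]
        linarith
      · rw [abs_one]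
        linarith
    have b2 := Bd_pow (by positivity) b1 a
    have b3 := Bd_prod (J := j) (M := ((j : ℚ) + 1) * (((j : ℚ) + 1) * A) ^ m *
      (((j : ℚ) + 1) * 1) ^ m) (by positivity) (range n) (Pf α)
      (fun s _ => Bd_Pf α hα j A hA1 hA s)
    have b4 : Bd j (((((j : ℚ) + 1) * (((j : ℚ) + 1) * (((j : ℚ) + 1) * A) ^ m *
      (((j : ℚ) + 1) * 1) ^ m))) ^ (range n).card)
        (PowerSeries.C (c0 α n) * ∏ s ∈ range n, Pf α s) := by
      intro k hk
      rw [PowerSeries.coeff_C_mul, abs_mul]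
      calc |c0 α n| * |PowerSeries.coeff k (∏ s ∈ range n, Pf α s)| ≤
          1 * |PowerSeries.coeff k (∏ s ∈ range n, Pf α s)| :=
            mul_le_mul_of_nonneg_right (c0_le α hα n) (abs_nonneg _)
        _ ≤ _ := by
          rw [one_mul]
          exact b3 k hk
    have b5 := Bd_mul (by positivity) (by positivity) b2 b4 j le_rfl
    refine b5.trans ?_
    rw [Finset.card_range]
    have hcast : ((j : ℚ) + 1) * ((((j : ℚ) + 1) * ((n : ℚ) + 1)) ^ a) *
        (((j : ℚ) + 1) * (((j : ℚ) + 1) * (((j : ℚ) + 1) * A) ^ m *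
          (((j : ℚ) + 1) * 1) ^ m)) ^ n =
        ((K * (K * (n + 1)) ^ a * (K * B) ^ n : ℕ) : ℚ) := by
      rw [hB, hK]
      push_cast
      ring
    rw [hcast]
    have hnat : K * (K * (n + 1)) ^ a * (K * B) ^ n ≤ (C1 * C2) ^ (n + 1) := by
      have h1 : n + 1 ≤ 2 ^ (n + 1) := (Nat.lt_two_pow_self).le
      have hK1 : 1 ≤ K := by omega
      have h2 : (K * (n + 1)) ^ a ≤ ((K * 2) ^ a) ^ (n + 1) := by
        rw [← pow_mul, mul_comm a, pow_mul]
        refine Nat.pow_le_pow_left ?_ a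
        rw [mul_pow]
        exact Nat.mul_le_mul (Nat.le_self_pow (by omega) _) h1
      have h3 : K ≤ K ^ (n + 1) := Nat.le_self_pow (by omega) _
      have hKB : 1 ≤ K * B := Nat.mul_pos hK1 hB1
      have h4 : (K * B) ^ n ≤ (K * B) ^ (n + 1) := Nat.pow_le_pow_right hKB (Nat.le_succ n)
      calc K * (K * (n + 1)) ^ a * (K * B) ^ n ≤
          K ^ (n + 1) * ((K * 2) ^ a) ^ (n + 1) * (K * B) ^ (n + 1) :=
            Nat.mul_le_mul (Nat.mul_le_mul h3 h2) h4
        _ = C1 ^ (n + 1) := by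
          rw [hC1, mul_pow ((K * 2) ^ a * K), mul_pow ((K * 2) ^ a) K,
            mul_comm (K ^ (n + 1))]
        _ ≤ (C1 * C2) ^ (n + 1) := Nat.pow_le_pow_left (Nat.le_mul_of_pos_right _ hC2p) _
    have := (Nat.cast_le (α := ℚ)).2 hnat
    rwa [Nat.cast_pow] at this
  · have := Nat.lcmUpto_pos (b * n)
    positivity
  · calc b ^ (2 * m * n) * Nat.lcmUpto (b * n) ^ j ≤ b ^ (2 * m * n) * (220 ^ (b * n)) ^ j :=
          Nat.mul_le_mul le_rfl (Nat.pow_le_pow_left (lcm_le _) _)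
      _ = C2 ^ n := by
          rw [hC2, mul_pow, ← pow_mul, ← pow_mul, ← pow_mul, ← pow_mul]
          congr 2
          ring
      _ ≤ C2 ^ (n + 1) := Nat.pow_le_pow_right hC2p (Nat.le_succ n)
      _ ≤ (C1 * C2) ^ (n + 1) := Nat.pow_le_pow_left (Nat.le_mul_of_pos_left _ hC1p) _
  · intro s hs
    unfold Sf
    rw [PowerSeries.coeff_mk, cs_eq α (fun i => (hα i).1)]
    set D : ℕ := Nat.lcmUpto (b * n) with hD
    have e1 : (PowerSeries.C (s : ℚ) + PowerSeries.X : PowerSeries ℚ) =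
        PowerSeries.C ((s : ℤ) : ℚ) + PowerSeries.C 1 * PowerSeries.X := by
      rw [map_one, one_mul]
      push_cast
      rfl
    have z1 : Zd D (PowerSeries.C (s : ℚ) + PowerSeries.X : PowerSeries ℚ) := by
      rw [e1]
      exact Zd_lin _ ⟨D, by push_cast; ring⟩
    have z2 : Zd D ((PowerSeries.C (s : ℚ) + PowerSeries.X : PowerSeries ℚ) ^ a *
        ∏ t ∈ range s, Pf α t) := by
      refine Zd_mul (Zd_pow z1 a) (Zd_prod _ _ fun t ht => ?_)
      have ht' := Finset.mem_range.1 ht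
      exact Zd_Pf α hα b hb hbp (by omega)
    obtain ⟨x, hx⟩ := z2 j
    obtain ⟨y, hy⟩ := c0_int α b hb hbp s
    refine ⟨(b : ℤ) ^ (2 * m * (n - s)) * y * x, ?_⟩
    have e2 : (PowerSeries.C (s : ℚ) + PowerSeries.X : PowerSeries ℚ) ^ a *
        (PowerSeries.C (c0 α s) * ∏ t ∈ range s, Pf α t) =
        PowerSeries.C (c0 α s) * ((PowerSeries.C (s : ℚ) + PowerSeries.X : PowerSeries ℚ) ^ a *
          ∏ t ∈ range s, Pf α t) := by ring
    rw [e2, PowerSeries.coeff_C_mul]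
    push_cast
    rw [← hx, ← hy]
    have e3 : (b : ℚ) ^ (2 * m * n) = (b : ℚ) ^ (2 * m * (n - s)) * (b : ℚ) ^ (2 * m * s) := by
      rw [← pow_add, ← mul_add, Nat.sub_add_cancel hs]
    rw [e3]
    ring

end Pool.Agent.MUM
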