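import Pool.Agent.MUM.Targets

set_option autoImplicit false

/-!
# T_LOGR: the real logarithm is transcendental over the germs of analytic functions at 0
-/

namespace Pool.Agent.MUM

open Finset Filter Asymptotics
open scoped BigOperators Topology

namespace LOGR_

/-- the point `exp (-s)` -/
noncomputable def u (s : ℝ) : ℂ := (Real.exp (-s) : ℂ)

/-- its logarithm -/
noncomputable def L (s : ℝ) : ℂ := -(s : ℂ)

theorem u_ne (s : ℝ) : u s ≠ 0 := by
  unfold u
  exact_mod_cast (Real.exp_pos _).ne'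

theorem tendsto_exp : Tendsto (fun s : ℝ => Real.exp (-s)) atTop (𝓝[>] 0) := by
  rw [tendsto_nhdsWithin_iff]
  refine ⟨Real.tendsto_exp_neg_atTop_nhds_zero, Eventually.of_forall fun s => Real.exp_pos _⟩

theorem tendsto_u (c : ℂ) : Tendsto (fun s : ℝ => c + u s) atTop (𝓝 c) := by
  have h1 : Tendsto (fun s : ℝ => (Real.exp (-s) : ℂ)) atTop (𝓝 ((0 : ℝ) : ℂ)) :=
    (Complex.continuous_ofReal.tendsto 0).comp Real.tendsto_exp_neg_atTop_nhds_zero
  have h2 := h1.const_add c
  rw [Complex.ofReal_zero, add_zero] at h2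
  exact h2

theorem L_ne : ∀ᶠ s : ℝ in atTop, L s ≠ 0 := by
  filter_upwards [eventually_gt_atTop (0 : ℝ)] with s hs h
  unfold L at h
  rw [neg_eq_zero] at h
  exact hs.ne' (by exact_mod_cast h)

theorem norm_L_ge (s : ℝ) : |s| ≤ ‖L s‖ := by
  simp [L]

theorem tendsto_L : Tendsto (fun s : ℝ => (L s)⁻¹) atTop (𝓝 0) := by
  rw [tendsto_zero_iff_norm_tendsto_zero]
  have h1 : Tendsto (fun s : ℝ => ‖L s‖) atTop atTop :=
    tendsto_atTop_mono (fun s => (le_abs_self s).trans (norm_L_ge s)) tendsto_id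
  have h2 := h1.inv_tendsto_atTop
  refine h2.congr fun s => ?_
  simp [norm_inv]

theorem L_isBigO : L =O[atTop] (fun s : ℝ => s) := by
  refine IsBigO.of_bound 1 (Eventually.of_forall fun s => ?_)
  simp [L]

theorem small (G : ℂ → ℂ) (c : ℂ) (hG : AnalyticAt ℂ G c) (h0 : G c = 0) (j : ℕ) :
    Tendsto (fun s : ℝ => G (c + u s) * L s ^ j) atTop (𝓝 0) := by
  have h1 : (fun z => G z - G c) =O[𝓝 c] (fun z => z - c) :=
    hG.differentiableAt.hasDerivAt.isBigO_sub
  have h2 : (fun s : ℝ => G (c + u s)) =O[atTop] (fun s : ℝ => Real.exp (-s)) := by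
    have h3 := h1.comp_tendsto (tendsto_u c)
    have h4 : ((fun z => G z - G c) ∘ fun s : ℝ => c + u s) = fun s : ℝ => G (c + u s) := by
      funext s
      simp [h0]
    rw [h4] at h3
    refine h3.trans ?_
    refine IsBigO.of_bound 1 (Eventually.of_forall fun s => ?_)
    have h5 : ((fun z => z - c) ∘ fun s : ℝ => c + u s) s = u s := add_sub_cancel_left _ _
    have h6 : ‖u s‖ = Real.exp (-s) := by
      unfold u
      rw [Complex.norm_real, Real.norm_eq_abs, abs_of_pos (Real.exp_pos _)]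
    rw [h5, h6, one_mul, Real.norm_eq_abs, abs_of_pos (Real.exp_pos _)]
  have h5 := h2.mul (L_isBigO.pow j)
  refine h5.trans_tendsto ?_
  have h6 := Real.tendsto_pow_mul_exp_neg_atTop_nhds_zero j
  refine h6.congr fun s => ?_
  ring

theorem key (n : ℕ) (G : ℕ → ℂ → ℂ) (c : ℂ) (hG : ∀ k, k < n → AnalyticAt ℂ (G k) c)
    (h : ∀ᶠ s : ℝ in atTop, ∑ k ∈ range n, G k (c + u s) * L s ^ k = 0) :
    ∀ k < n, G k c = 0 := by
  classical
  by_contra hcon
  push Not at hcon
  obtain ⟨k0, hk0, hne0⟩ := hcon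
  let S : Finset ℕ := (range n).filter (fun k => G k c ≠ 0)
  have hS : S.Nonempty := ⟨k0, by simp [S, hk0, hne0]⟩
  let k1 := S.max' hS
  have hk1 : k1 ∈ S := S.max'_mem hS
  have hk1n : k1 < n := Finset.mem_range.1 (Finset.mem_filter.1 hk1).1
  have hne1 : G k1 c ≠ 0 := (Finset.mem_filter.1 hk1).2
  have hbig : ∀ k, k < n → k1 < k → G k c = 0 := by
    intro k hk hlt
    by_contra hh
    have : k ∈ S := by simp [S, hk, hh]
    exact absurd (S.le_max' k this) (not_le.2 hlt)
  have hterm : ∀ k ∈ range n, Tendsto (fun s : ℝ => G k (c + u s) * L s ^ k * (L s ^ k1)⁻¹) atTop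
      (𝓝 (if k = k1 then G k1 c else 0)) := by
    intro k hk
    rw [Finset.mem_range] at hk
    have hcont : Tendsto (fun s : ℝ => G k (c + u s)) atTop (𝓝 (G k c)) :=
      (hG k hk).continuousAt.tendsto.comp (tendsto_u c)
    rcases lt_trichotomy k k1 with hlt | heq | hgt
    · rw [if_neg hlt.ne]
      obtain ⟨d, hd⟩ := Nat.exists_eq_add_of_lt hlt
      have h1 : Tendsto (fun s : ℝ => G k (c + u s) * (L s)⁻¹ ^ (d + 1)) atTop (𝓝 0) := by
        have h2 := hcont.mul (tendsto_L.pow (d + 1))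
        simpa using h2
      refine h1.congr' ?_
      filter_upwards [L_ne] with s hL
      rw [hd, mul_assoc]
      congr 1
      rw [inv_pow, pow_add, pow_add]
      field_simp
      ring
    · subst heq
      rw [if_pos rfl]
      refine hcont.congr' ?_
      filter_upwards [L_ne] with s hL0
      have hL : L s ^ k1 ≠ 0 := pow_ne_zero _ hL0
      rw [mul_assoc, mul_inv_cancel₀ hL, mul_one]
    · rw [if_neg hgt.ne']
      obtain ⟨d, hd⟩ := Nat.exists_eq_add_of_lt hgt
      have h1 := small (G k) c (hG k hk) (hbig k hk hgt) (d + 1)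
      refine h1.congr' ?_
      filter_upwards [L_ne] with s hL
      rw [mul_assoc]
      congr 1
      rw [hd, pow_add, pow_add, pow_add]
      field_simp
  have hsum := tendsto_finsetSum (range n) hterm
  have hlim : ∑ k ∈ range n, (if k = k1 then G k1 c else 0) = G k1 c := by
    rw [Finset.sum_ite_eq' (range n) k1 (fun _ => G k1 c), if_pos (Finset.mem_range.2 hk1n)]
  rw [hlim] at hsum
  have hzero : Tendsto (fun s : ℝ => ∑ k ∈ range n, G k (c + u s) * L s ^ k * (L s ^ k1)⁻¹)
      atTop (𝓝 0) := by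
    refine (tendsto_const_nhds (x := (0 : ℂ))).congr' ?_
    filter_upwards [h] with s hs
    rw [← Finset.sum_mul, hs, zero_mul]
  exact hne1 (tendsto_nhds_unique hsum hzero)

theorem orders (n : ℕ) (g : ℕ → ℂ → ℂ) (c : ℂ) (hg : ∀ k, AnalyticAt ℂ (g k) c)
    (h : ∀ᶠ s : ℝ in atTop, ∑ k ∈ range n, g k (c + u s) * L s ^ k = 0) (p : ℕ) :
    ∀ k < n, (p : ℕ∞) ≤ analyticOrderAt (g k) c := by
  induction p with
  | zero => intro k _; simp
  | succ p ih =>
    have h1 : ∀ k, ∃ G : ℂ → ℂ, k < n → (AnalyticAt ℂ G c ∧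
        ∀ᶠ z in 𝓝 c, g k z = (z - c) ^ p • G z) := by
      intro k
      by_cases hk : k < n
      · obtain ⟨G, hG1, hG2⟩ := (natCast_le_analyticOrderAt (hg k)).1 (ih k hk)
        exact ⟨G, fun _ => ⟨hG1, hG2⟩⟩
      · exact ⟨0, fun hk' => absurd hk' hk⟩
    choose G hG using h1
    have h2 : ∀ᶠ s : ℝ in atTop, ∑ k ∈ range n, G k (c + u s) * L s ^ k = 0 := by
      have h3 : ∀ᶠ s : ℝ in atTop, ∀ k ∈ range n, g k (c + u s) = (u s) ^ p * G k (c + u s) := by
        rw [Filter.eventually_all_finset]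
        intro k hk
        have h4 := (tendsto_u c).eventually (hG k (Finset.mem_range.1 hk)).2
        filter_upwards [h4] with s hs
        rw [hs, add_sub_cancel_left, smul_eq_mul]
      filter_upwards [h, h3] with s hs hs3
      have h5 : (u s) ^ p * ∑ k ∈ range n, G k (c + u s) * L s ^ k = 0 := by
        rw [← hs, Finset.mul_sum]
        refine Finset.sum_congr rfl fun k hk => ?_
        rw [hs3 k hk]
        ring
      exact (mul_eq_zero.1 h5).resolve_left (pow_ne_zero _ (u_ne s))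
    have h6 := key n G c (fun k hk => (hG k hk).1) h2
    intro k hk
    rw [natCast_le_analyticOrderAt (hg k)]
    obtain ⟨hG1, hG2⟩ := hG k hk
    have h7 : (1 : ℕ∞) ≤ analyticOrderAt (G k) c := by
      rw [Order.one_le_iff_ne_zero]
      exact fun h0 => (hG1.analyticOrderAt_eq_zero.1 h0) (h6 k hk)
    have h8 := (natCast_le_analyticOrderAt (n := 1) hG1).1 (by exact_mod_cast h7)
    obtain ⟨H, hH1, hH2⟩ := h8
    refine ⟨H, hH1, ?_⟩
    filter_upwards [hG2, hH2] with z hz1 hz2
    rw [hz1, hz2, smul_smul, pow_one, ← pow_succ]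

end LOGR_

theorem p_LOGR : T_LOGR := by
  intro n g hg h k hk
  have h1 : ∀ᶠ s : ℝ in atTop,
      ∑ k ∈ range n, g k (0 + LOGR_.u s) * LOGR_.L s ^ k = 0 := by
    have h2 := LOGR_.tendsto_exp.eventually h
    filter_upwards [h2] with s hs
    refine (Finset.sum_congr rfl fun k _ => ?_).trans hs
    rw [Real.log_exp, zero_add]
    unfold LOGR_.u LOGR_.L
    push_cast
    rfl
  have h3 := LOGR_.orders n g 0 hg h1
  rw [← analyticOrderAt_eq_top]
  by_contra hne
  obtain ⟨m, hm⟩ := ENat.ne_top_iff_exists.1 hne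
  have h4 := h3 (m + 1) k hk
  rw [← hm] at h4
  have h5 : m + 1 ≤ m := by exact_mod_cast h4
  omega

end Pool.Agent.MUM
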