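import Pool.Agent.MUM.Targets

set_option autoImplicit false

namespace Pool.Agent.MUM

open Finset Pool.Agent.HEP
open scoped BigOperators Topology

namespace MINV_

/-- evaluation at `z` with polynomial entries -/
noncomputable def QZ {m : ℕ} (A : ℂ → Fin m × Fin m → Polynomial ℂ) (z : ℂ) :
    MvPolynomial (Fin m × Fin m) (Polynomial ℂ) →+* Polynomial ℂ :=
  MvPolynomial.eval₂Hom (Polynomial.C.comp (Polynomial.evalRingHom z)) (A z)

theorem QZ_C {m : ℕ} (A : ℂ → Fin m × Fin m → Polynomial ℂ) (z : ℂ) (p : Polynomial ℂ) :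
    QZ A z (MvPolynomial.C p) = Polynomial.C (p.eval z) := by
  simp [QZ]

theorem QZ_X {m : ℕ} (A : ℂ → Fin m × Fin m → Polynomial ℂ) (z : ℂ) (p : Fin m × Fin m) :
    QZ A z (MvPolynomial.X p) = A z p := by
  simp [QZ]

theorem QZ_eval {m : ℕ} (A : ℂ → Fin m × Fin m → Polynomial ℂ) (z s : ℂ) (Ψ : Pol m) :
    (QZ A z Ψ).eval s = evP z (Matrix.of fun a j => (A z (a, j)).eval s) Ψ := by
  unfold evP
  induction Ψ using MvPolynomial.induction_on with
  | C p => simp [QZ_C]
  | add p q hp hq => simp [hp, hq]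
  | mul_X p n hp =>
    simp only [map_mul, QZ_X, Polynomial.eval_mul, hp, MvPolynomial.eval₂_mul,
      MvPolynomial.eval₂_X, Matrix.of_apply]

theorem QZ_bound {m : ℕ} (A : ℂ → Fin m × Fin m → Polynomial ℂ) (B : ℕ)
    (hA : ∀ z p, (A z p).natDegree ≤ B) (Ψ : Pol m) :
    ∃ n : ℕ, ∀ z, (QZ A z Ψ).natDegree < n := by
  induction Ψ using MvPolynomial.induction_on with
  | C p => exact ⟨1, fun z => by rw [QZ_C]; simp⟩
  | add p q hp hq =>
    obtain ⟨n1, h1⟩ := hp
    obtain ⟨n2, h2⟩ := hq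
    refine ⟨n1 + n2, fun z => ?_⟩
    rw [map_add]
    have := Polynomial.natDegree_add_le (QZ A z p) (QZ A z q)
    have h3 := h1 z
    have h4 := h2 z
    omega
  | mul_X p n hp =>
    obtain ⟨n1, h1⟩ := hp
    refine ⟨n1 + B, fun z => ?_⟩
    rw [map_mul, QZ_X]
    have h3 := h1 z
    have h4 := Polynomial.natDegree_mul_le (p := QZ A z p) (q := A z n)
    have h5 := hA z n
    omega

theorem QZ_diff {m : ℕ} (A : ℂ → Fin m × Fin m → Polynomial ℂ) (U : Set ℂ)
    (hA : ∀ p k, DifferentiableOn ℂ (fun z => (A z p).coeff k) U) (Ψ : Pol m) :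
    ∀ k : ℕ, DifferentiableOn ℂ (fun z => (QZ A z Ψ).coeff k) U := by
  induction Ψ using MvPolynomial.induction_on with
  | C p =>
    intro k
    simp only [QZ_C, Polynomial.coeff_C]
    by_cases hk : k = 0
    · simp only [hk, if_true]
      exact (Polynomial.differentiable p).differentiableOn
    · simp only [hk, if_false]
      exact differentiableOn_const _
  | add p q hp hq =>
    intro k
    simp only [map_add, Polynomial.coeff_add]
    exact (hp k).add (hq k)
  | mul_X p n hp =>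
    intro k
    simp only [map_mul, QZ_X, Polynomial.coeff_mul]
    exact DifferentiableOn.fun_sum fun x _ => (hp x.1).mul (hA n x.2)

theorem evP_diff {m : ℕ} (ζ : ℂ → ℂ) (D : ℂ → Mat m) (U : Set ℂ) (hζ : DifferentiableOn ℂ ζ U)
    (hD : ∀ a j, DifferentiableOn ℂ (fun z => D z a j) U) (Ψ : Pol m) :
    DifferentiableOn ℂ (fun z => evP (ζ z) (D z) Ψ) U := by
  unfold evP
  induction Ψ using MvPolynomial.induction_on with
  | C p =>
    simp only [MvPolynomial.eval₂_C, Polynomial.coe_evalRingHom]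
    exact (Polynomial.differentiable p).comp_differentiableOn hζ
  | add p q hp hq =>
    simp only [MvPolynomial.eval₂_add]
    exact hp.add hq
  | mul_X p n hp =>
    simp only [MvPolynomial.eval₂_mul, MvPolynomial.eval₂_X]
    exact hp.mul (hD n.1 n.2)

/-- identity theorem from the real line -/
theorem real_id (f : ℂ → ℂ) (U : Set ℂ) (hU : IsOpen U) (hc : Convex ℝ U) (x0 : ℝ)
    (hx0 : (x0 : ℂ) ∈ U) (hf : DifferentiableOn ℂ f U) (h0 : ∀ᶠ x : ℝ in 𝓝 x0, f x = 0) :
    ∀ z ∈ U, f z = 0 := by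
  have h1 : Filter.Tendsto (fun x : ℝ => (x : ℂ)) (𝓝[≠] x0) (𝓝[≠] (x0 : ℂ)) := by
    refine tendsto_nhdsWithin_iff.2 ⟨?_, ?_⟩
    · exact (Complex.continuous_ofReal.tendsto x0).mono_left nhdsWithin_le_nhds
    · filter_upwards [self_mem_nhdsWithin] with x hx
      intro h
      exact hx (Complex.ofReal_injective h)
  have h2 : ∃ᶠ x : ℝ in 𝓝[≠] x0, f x = 0 :=
    (h0.filter_mono nhdsWithin_le_nhds).frequently
  have h3 : ∃ᶠ z in 𝓝[≠] (x0 : ℂ), f z = 0 := h1.frequently h2
  exact (hf.analyticOnNhd hU).eqOn_zero_of_preconnected_of_frequently_eq_zero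
    hc.isPreconnected hx0 h3

/-- the polynomial form of `eN` -/
noncomputable def eP (m : ℕ) : Matrix (Fin m) (Fin m) (Polynomial ℂ) :=
  Matrix.of fun i j => if (i : ℕ) ≤ j then
    Polynomial.X ^ ((j : ℕ) - i) * Polynomial.C ((((j : ℕ) - i).factorial : ℂ)⁻¹) else 0

lemma eP_eval (m : ℕ) (s : ℂ) (i j : Fin m) : (eP m i j).eval s = eN m s i j := by
  simp only [eP, eN, Matrix.of_apply]
  split_ifs
  · simp only [Polynomial.eval_mul, Polynomial.eval_pow, Polynomial.eval_X, Polynomial.eval_C,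
      div_eq_mul_inv]
  · simp

/-- `eN s * M * eN (-s)` as a matrix of polynomials in `s` -/
noncomputable def qP {m : ℕ} (M : Mat m) (i j : Fin m) : Polynomial ℂ :=
  ∑ l, (∑ k, eP m i k * Polynomial.C (M k l)) * (eP m l j).comp (-Polynomial.X)

lemma qP_eval {m : ℕ} (M : Mat m) (s : ℂ) (i j : Fin m) :
    (qP M i j).eval s = (eN m s * M * eN m (-s)) i j := by
  simp only [qP, Polynomial.eval_finsetSum, Polynomial.eval_mul, Polynomial.eval_comp,
    Polynomial.eval_neg, Polynomial.eval_X, Polynomial.eval_C, eP_eval, Matrix.mul_apply]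

/-- the entries of `Sv z * (eN s * M * eN (-s))` -/
noncomputable def AZ {m : ℕ} (α : Fin m → ℚ) (M : Mat m) (z : ℂ) (p : Fin m × Fin m) :
    Polynomial ℂ :=
  ∑ k, Polynomial.C (Sv α z p.1 k) * qP M k p.2

lemma AZ_eval {m : ℕ} (α : Fin m → ℚ) (M : Mat m) (z s : ℂ) :
    (Matrix.of fun a j => (AZ α M z (a, j)).eval s) = Sv α z * (eN m s * M * eN m (-s)) := by
  ext a j
  simp only [AZ, Matrix.of_apply, Polynomial.eval_finsetSum, Polynomial.eval_mul,
    Polynomial.eval_C, qP_eval]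
  rw [Matrix.mul_apply]

lemma AZ_bound {m : ℕ} (α : Fin m → ℚ) (M : Mat m) (z : ℂ) (p : Fin m × Fin m) :
    (AZ α M z p).natDegree ≤ ∑ k, ∑ l, (qP M k l).natDegree := by
  refine (Polynomial.natDegree_sum_le _ _).trans ?_
  refine Finset.fold_max_le _ |>.2 ⟨Nat.zero_le _, fun k _ => ?_⟩
  refine (Polynomial.natDegree_C_mul_le _ _).trans ?_
  have h1 : (qP M k p.2).natDegree ≤ ∑ l, (qP M k l).natDegree :=
    Finset.single_le_sum (f := fun l => (qP M k l).natDegree) (fun _ _ => Nat.zero_le _)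
      (Finset.mem_univ _)
  exact h1.trans (Finset.single_le_sum (f := fun k => ∑ l, (qP M k l).natDegree)
    (fun _ _ => Nat.zero_le _) (Finset.mem_univ k))

lemma AZ_diff {m : ℕ} (α : Fin m → ℚ) (M : Mat m) (U : Set ℂ)
    (hS : ∀ a j, DifferentiableOn ℂ (fun z => Sv α z a j) U) (p : Fin m × Fin m) (k : ℕ) :
    DifferentiableOn ℂ (fun z => (AZ α M z p).coeff k) U := by
  simp only [AZ, Polynomial.finsetSum_coeff, Polynomial.coeff_C_mul]
  exact DifferentiableOn.fun_sum fun l _ => (hS p.1 l).mul_const _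

lemma one_sub_slit {t : ℂ} (ht : t ∈ LL) : 1 - Complex.exp t ∈ Complex.slitPlane := by
  left
  have h1 : ‖Complex.exp t‖ < 1 := by
    rw [Complex.norm_exp, Real.exp_lt_one_iff]
    have : t.re < -1 / 2 := ht
    linarith
  have h2 := Complex.re_le_norm (Complex.exp t)
  rw [Complex.sub_re, Complex.one_re]
  linarith

lemma LL_open : IsOpen LL := isOpen_lt Complex.continuous_re continuous_const

lemma LL_convex : Convex ℝ LL := convex_halfSpace_re_lt _

end MINV_

open MINV_ in
theorem p_MINV (h1 : T_AN) (h2 : T_NJ) (h3 : T_LOGR) : T_MINV := by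
  intro m α Y M hα hY s Ψ hΨ p hp
  obtain ⟨-, hSd, -, -, -⟩ := h1 m α hα
  obtain ⟨he0, headd, hed, -⟩ := h2 m
  have heinv : ∀ s : ℂ, eN m s * eN m (-s) = 1 := fun s => by
    rw [headd, add_neg_cancel, he0]
  have heN : ∀ i j, Differentiable ℂ (fun u => eN m u i j) := fun i j u =>
    (hed u i j).differentiableAt
  -- step 1
  have hrel : ∀ z ∈ Metric.ball (0 : ℂ) 1, evP z (Sv α z) Ψ = 0 := fun z hz =>
    hΨ (z, Sv α z) ⟨hz, rfl⟩
  have hlogx : ∀ x : ℝ, 1 / 2 < x → x < 1 → ((Real.log (1 - x) : ℝ) : ℂ) ∈ LL := by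
    intro x hx1 hx2
    change ((Real.log (1 - x) : ℝ) : ℂ).re < -1 / 2
    rw [Complex.ofReal_re, Real.log_lt_iff_lt_exp (by linarith)]
    have h5 : (1 / 2 : ℝ) ≤ Real.exp (-1 / 2) := by
      have := Real.add_one_le_exp (-1 / 2 : ℝ)
      linarith
    linarith
  have hexpx : ∀ x : ℝ, x < 1 → 1 - Complex.exp ((Real.log (1 - x) : ℝ) : ℂ) = (x : ℂ) := by
    intro x hx
    rw [← Complex.ofReal_exp, Real.exp_log (by linarith)]
    push_cast
    ring
  have hYS : ∀ x : ℝ, 1 / 2 < x → x < 1 → Y ((Real.log (1 - x) : ℝ) : ℂ) =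
      Sv α x * eN m (Complex.log x) := fun x hx1 hx2 => hY.val x hx1 hx2
  set F : ℂ → ℂ := fun t => evP (1 - Complex.exp t)
    (Y t * eN m (-Complex.log (1 - Complex.exp t))) Ψ with hF
  have hFd : DifferentiableOn ℂ F LL := by
    refine evP_diff _ _ _ ((differentiableOn_const _).sub
      Complex.differentiable_exp.differentiableOn) (fun a j => ?_) Ψ
    simp only [Matrix.mul_apply]
    refine DifferentiableOn.fun_sum fun k _ => ?_
    refine DifferentiableOn.mul (fun t ht => (hY.ode t ht a k).differentiableAt.differentiableWithinAt)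
      ((heN k j).comp_differentiableOn ?_)
    refine DifferentiableOn.neg (DifferentiableOn.clog ((differentiableOn_const _).sub
      Complex.differentiable_exp.differentiableOn) fun t ht => one_sub_slit ht)
  have hF0 : ∀ t ∈ LL, F t = 0 := by
    refine real_id F LL LL_open LL_convex (Real.log (1 / 4)) ?_ hFd ?_
    · have := hlogx (3 / 4) (by norm_num) (by norm_num)
      norm_num at this ⊢
      exact this
    · have h5 : ∀ᶠ t : ℝ in 𝓝 (Real.log (1 / 4)), t < Real.log (1 / 2) :=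
        Iio_mem_nhds (Real.log_lt_log (by norm_num) (by norm_num))
      filter_upwards [h5] with t ht
      have hx1 : Real.exp t < 1 / 2 := by
        rw [← Real.lt_log_iff_exp_lt (by norm_num)]
        exact ht
      have hx2 := Real.exp_pos t
      have e1 : t = Real.log (1 - (1 - Real.exp t)) := by
        rw [sub_sub_cancel, Real.log_exp]
      set x := 1 - Real.exp t with hx
      rw [e1]
      simp only [hF]
      rw [hexpx x (by linarith), hYS x (by linarith) (by linarith), Matrix.mul_assoc, heinv,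
        Matrix.mul_one]
      refine hrel _ ?_
      rw [Metric.mem_ball, dist_zero_right, Complex.norm_real, Real.norm_eq_abs, abs_lt]
      constructor <;> linarith
  -- step 2
  have hstep2 : ∀ x : ℝ, 1 / 2 < x → x < 1 →
      evP x (Sv α x * (eN m (Complex.log x) * M * eN m (-Complex.log x))) Ψ = 0 := by
    intro x hx1 hx2
    have hL := hlogx x hx1 hx2
    set t : ℂ := ((Real.log (1 - x) : ℝ) : ℂ) with ht
    have hL' : t + 2 * Real.pi * Complex.I ∈ LL := by
      have h5 : (t + 2 * Real.pi * Complex.I).re = t.re := by simp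
      change (t + 2 * Real.pi * Complex.I).re < -1 / 2
      rw [h5]
      exact hL
    have h6 := hF0 _ hL'
    simp only [hF] at h6
    rw [Complex.exp_periodic t, hY.mon t hL, ht, hexpx x hx2, hYS x hx1 hx2] at h6
    simpa only [Matrix.mul_assoc] using h6
  -- step 3
  obtain ⟨n, hn⟩ := QZ_bound (AZ α M) _ (AZ_bound α M) Ψ
  have hQd := QZ_diff (AZ α M) (Metric.ball 0 1) (fun p k => AZ_diff α M _ hSd p k) Ψ
  have hQe : ∀ z s : ℂ, (QZ (AZ α M) z Ψ).eval s =
      evP z (Sv α z * (eN m s * M * eN m (-s))) Ψ := by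
    intro z s
    rw [QZ_eval, AZ_eval]
  -- step 4
  set U2 : Set ℂ := Metric.ball 0 1 ∩ {z | 0 < z.re} with hU2
  have hG : ∀ z ∈ U2, ∑ k ∈ range n, (QZ (AZ α M) z Ψ).coeff k * Complex.log z ^ k = 0 := by
    refine real_id _ U2 (Metric.isOpen_ball.inter (isOpen_lt continuous_const Complex.continuous_re))
      ((convex_ball _ _).inter (convex_halfSpace_re_gt _)) (3 / 4) ?_ ?_ ?_
    · refine ⟨?_, ?_⟩
      · rw [Metric.mem_ball, dist_zero_right, Complex.norm_real]
        norm_num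
      · change 0 < ((3 / 4 : ℝ) : ℂ).re
        rw [Complex.ofReal_re]
        norm_num
    · refine DifferentiableOn.fun_sum fun k _ => DifferentiableOn.mul
        ((hQd k).mono Set.inter_subset_left) (DifferentiableOn.pow ?_ _)
      exact differentiableOn_id.clog fun z hz => Or.inl hz.2
    · have h5 : Set.Ioo (1 / 2 : ℝ) 1 ∈ 𝓝 (3 / 4 : ℝ) := Ioo_mem_nhds (by norm_num) (by norm_num)
      filter_upwards [h5] with x hx
      rw [← Polynomial.eval_eq_sum_range' (hn _), hQe]
      exact hstep2 x hx.1 hx.2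
  have hcoef : ∀ k < n, ∀ᶠ z in 𝓝 (0 : ℂ), (QZ (AZ α M) z Ψ).coeff k = 0 := by
    refine h3 n (fun k z => (QZ (AZ α M) z Ψ).coeff k) (fun k =>
      (hQd k).analyticAt (Metric.isOpen_ball.mem_nhds (Metric.mem_ball_self one_pos))) ?_
    have h5 : Set.Ioo (0 : ℝ) 1 ∈ 𝓝[>] (0 : ℝ) := Ioo_mem_nhdsGT one_pos
    filter_upwards [h5] with x hx
    have h6 := hG (x : ℂ) ⟨by
      rw [Metric.mem_ball, dist_zero_right, Complex.norm_real, Real.norm_eq_abs, abs_of_pos hx.1]
      exact hx.2, by simpa using hx.1⟩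
    rw [Complex.ofReal_log hx.1.le]
    exact h6
  have hzero : ∀ k, ∀ z ∈ Metric.ball (0 : ℂ) 1, (QZ (AZ α M) z Ψ).coeff k = 0 := by
    intro k
    by_cases hk : k < n
    · refine real_id _ _ Metric.isOpen_ball (convex_ball _ _) 0 ?_ (hQd k) ?_
      · rw [Complex.ofReal_zero]
        exact Metric.mem_ball_self one_pos
      · have h5 : Filter.Tendsto (fun x : ℝ => (x : ℂ)) (𝓝 0) (𝓝 0) := by
          have := Complex.continuous_ofReal.tendsto 0
          simpa using this
        exact h5.eventually (hcoef k hk)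
    · intro z _
      exact Polynomial.coeff_eq_zero_of_natDegree_lt (lt_of_lt_of_le (hn z) (not_lt.1 hk))
  obtain ⟨hp1, hp2⟩ := hp
  rw [hp2, ← hQe]
  have : QZ (AZ α M) p.1 Ψ = 0 := by
    ext k
    rw [hzero k p.1 hp1, Polynomial.coeff_zero]
  rw [this, Polynomial.eval_zero]

end Pool.Agent.MUM
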