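import Pool.Agent.MUM.Targets

set_option autoImplicit false

/-!
# The monodromy preserves the pairing
-/

namespace Pool.Agent.MUM

open Finset Pool.Agent.LEG Pool.Agent.HEP
open scoped BigOperators Topology

namespace MJ_

theorem isOpen_LL : IsOpen LL := isOpen_lt Complex.continuous_re continuous_const

theorem convex_LL : Convex ℝ LL := convex_halfSpace_re_lt _

theorem eq_of_real {f : ℂ → ℂ} (hf : DifferentiableOn ℂ f LL)
    (h : ∀ x : ℝ, 1 / 2 < x → x < 1 → f ((Real.log (1 - x) : ℝ) : ℂ) = 0) :
    ∀ t ∈ LL, f t = 0 := by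
  have han : AnalyticOnNhd ℂ f LL := hf.analyticOnNhd isOpen_LL
  have h0 : ((-1 : ℝ) : ℂ) ∈ LL := by
    show (((-1 : ℝ) : ℂ)).re < -1 / 2
    rw [Complex.ofReal_re]
    norm_num
  have hfreq : ∃ᶠ z in 𝓝[≠] (((-1 : ℝ) : ℂ)), f z = (fun _ => (0 : ℂ)) z := by
    have htend : Filter.Tendsto (fun x : ℝ => (x : ℂ)) (𝓝[≠] (-1 : ℝ)) (𝓝[≠] (((-1 : ℝ) : ℂ))) := by
      apply tendsto_nhdsWithin_iff.2
      constructor
      · exact (Complex.continuous_ofReal.tendsto (-1)).mono_left nhdsWithin_le_nhds
      · filter_upwards [self_mem_nhdsWithin] with x hx hx'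
        exact hx (Complex.ofReal_injective hx')
    apply htend.frequently
    apply Filter.Eventually.frequently
    have hlog : Real.log 2 < 1 := by
      have := Real.log_two_lt_d9
      linarith
    have hev : ∀ᶠ x in 𝓝 (-1 : ℝ), x < -Real.log 2 :=
      Iio_mem_nhds (by linarith)
    filter_upwards [nhdsWithin_le_nhds hev] with x hx
    have e1 : Real.exp x < 1 / 2 := by
      have h1 : Real.exp x < Real.exp (-Real.log 2) := Real.exp_lt_exp.2 hx
      rw [Real.exp_neg, Real.exp_log (by norm_num)] at h1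
      linarith
    have e2 := Real.exp_pos x
    have h3 := h (1 - Real.exp x) (by linarith) (by linarith)
    rw [sub_sub_cancel, Real.log_exp] at h3
    exact h3
  intro t ht
  have := han.eqOn_of_preconnected_of_frequently_eq (g := fun _ => (0 : ℂ))
    (fun z _ => analyticAt_const) convex_LL.isPreconnected h0 hfreq ht
  exact this

end MJ_

open MJ_ in
theorem p_MJ (h1 : T_AN) (h2 : T_NJ) : T_MJ := by
  intro m α Y M hα hY
  obtain ⟨-, -, hSB, -, -⟩ := h1 m α hα
  obtain ⟨-, -, -, -, hJ, -, -, -, -⟩ := h2 m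
  have hYd : ∀ i j, DifferentiableOn ℂ (fun s => Y s i j) LL := fun i j t ht =>
    (hY.ode t ht i j).differentiableAt.differentiableWithinAt
  have hBd : ∀ a b : Fin m, Differentiable ℂ (fun s => Bz α (1 - Complex.exp s) a b) := by
    intro a b
    show Differentiable ℂ (fun s => (if (a : ℕ) + b + 1 = m then (-1 : ℂ) ^ (b : ℕ) else 0) +
      (1 - Complex.exp s) * (b1 α a b : ℂ))
    fun_prop
  have key : ∀ t ∈ LL, (Y t).transpose * Bz α (1 - Complex.exp t) * Y t = Jm m := by
    intro t ht
    ext i j
    have hz : ((Y t).transpose * Bz α (1 - Complex.exp t) * Y t) i j - Jm m i j = 0 := by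
      refine eq_of_real (f := fun t => ((Y t).transpose * Bz α (1 - Complex.exp t) * Y t) i j -
        Jm m i j) ?_ ?_ t ht
      · simp only [Matrix.mul_apply, Matrix.transpose_apply]
        apply DifferentiableOn.sub_const
        apply DifferentiableOn.fun_sum
        intro k _
        apply DifferentiableOn.mul
        · apply DifferentiableOn.fun_sum
          intro l _
          exact (hYd l i).mul (hBd l k).differentiableOn
        · exact hYd k j
      · intro x hx1 hx2
        rw [hY.val x hx1 hx2]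
        have he : (1 : ℂ) - Complex.exp ((Real.log (1 - x) : ℝ) : ℂ) = (x : ℂ) := by
          rw [← Complex.ofReal_exp, Real.exp_log (by linarith)]
          push_cast
          ring
        rw [he]
        have hx : (x : ℂ) ∈ Metric.ball (0 : ℂ) 1 := by
          rw [mem_ball_zero_iff, Complex.norm_real, Real.norm_eq_abs, abs_of_pos (by linarith)]
          exact hx2
        have hval : (Yv α (x : ℂ)).transpose * Bz α (x : ℂ) * Yv α (x : ℂ) = Jm m := by
          unfold Yv
          rw [Matrix.transpose_mul]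
          calc (eN m (Complex.log x)).transpose * (Sv α x).transpose * Bz α x *
                (Sv α x * eN m (Complex.log x))
              = (eN m (Complex.log x)).transpose * ((Sv α x).transpose * Bz α x * Sv α x) *
                eN m (Complex.log x) := by simp only [Matrix.mul_assoc]
            _ = Jm m := by rw [hSB _ hx, hJ]
        rw [hval, sub_self]
    exact sub_eq_zero.1 hz
  refine ⟨key, ?_⟩
  have h0 : ((-1 : ℝ) : ℂ) ∈ LL := by
    show (((-1 : ℝ) : ℂ)).re < -1 / 2
    rw [Complex.ofReal_re]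
    norm_num
  have h3 : ((-1 : ℝ) : ℂ) + 2 * Real.pi * Complex.I ∈ LL := by
    show (((-1 : ℝ) : ℂ) + 2 * Real.pi * Complex.I).re < -1 / 2
    simp
    norm_num
  have k0 := key _ h0
  have k1 := key _ h3
  rw [hY.mon _ h0, Complex.exp_add, Complex.exp_two_pi_mul_I, mul_one, Matrix.transpose_mul] at k1
  calc M.transpose * Jm m * M
      = M.transpose * ((Y ((-1 : ℝ) : ℂ)).transpose * Bz α (1 - Complex.exp ((-1 : ℝ) : ℂ)) *
          Y ((-1 : ℝ) : ℂ)) * M := by rw [k0]
    _ = M.transpose * (Y ((-1 : ℝ) : ℂ)).transpose * Bz α (1 - Complex.exp ((-1 : ℝ) : ℂ)) *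
          (Y ((-1 : ℝ) : ℂ) * M) := by simp only [Matrix.mul_assoc]
    _ = Jm m := k1

end Pool.Agent.MUM
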