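import Pool.Agent.MUM.Targets

/-!
# MUM, MR: the monodromy is a pseudoreflection
-/

set_option autoImplicit false

namespace Pool.Agent.MUM

open Finset Pool.Agent.LEG Pool.Agent.HEP
open scoped Topology

namespace MR_

open Matrix

lemma LL_open : IsOpen LL := isOpen_lt Complex.continuous_re continuous_const

lemma LL_convex : Convex ℝ LL := by
  have h : LL = Complex.reLm ⁻¹' (Set.Iio (-1 / 2 : ℝ)) := rfl
  rw [h]
  exact (convex_Iio _).linear_preimage Complex.reLm

lemma exp_ne_one {t : ℂ} (ht : t ∈ LL) : 1 - Complex.exp t ≠ 0 := by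
  have h1 : t.re < -1 / 2 := ht
  intro h0
  have h2 : Complex.exp t = 1 := (sub_eq_zero.mp h0).symm
  have h3 : ‖Complex.exp t‖ = 1 := by rw [h2, norm_one]
  rw [Complex.norm_exp] at h3
  have h4 : Real.exp t.re < Real.exp 0 := Real.exp_lt_exp.mpr (by linarith)
  rw [Real.exp_zero] at h4
  linarith

lemma Pt_diff {m : ℕ} (α : Fin m → ℚ) (i j : Fin m) :
    DifferentiableOn ℂ (fun t => Pt α t i j) LL := by
  have h : (fun t => Pt α t i j) = fun t =>
      -(Complex.exp t / (1 - Complex.exp t)) * Nm m i j - Em α i j := by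
    funext t
    simp only [Pt, Matrix.sub_apply, Matrix.neg_apply, Matrix.smul_apply, smul_eq_mul, neg_smul]
    ring
  rw [h]
  intro t ht
  apply DifferentiableAt.differentiableWithinAt
  have h1 : DifferentiableAt ℂ (fun t => Complex.exp t) t := Complex.differentiable_exp t
  exact (((h1.div ((differentiableAt_const _).sub h1) (exp_ne_one ht)).neg).mul_const _).sub_const _

/-- a matrix with a kernel of codimension at most one -/
lemma rank_one {m : ℕ} (P : Mat m) (d : ℕ) (x : Fin d → Fin m → ℂ) (hd : m ≤ d + 1)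
    (hx : LinearIndependent ℂ x) (hP : ∀ k, P.mulVec (x k) = 0) :
    ∃ a b : Fin m → ℂ, P = vecMulVec a b := by
  set L : (Fin m → ℂ) →ₗ[ℂ] (Fin m → ℂ) := P.mulVecLin with hL
  have h1 : d ≤ Module.finrank ℂ (LinearMap.ker L) := by
    have hx' : LinearIndependent ℂ (fun k => (⟨x k, by
      rw [LinearMap.mem_ker, hL, Matrix.mulVecLin_apply]; exact hP k⟩ : LinearMap.ker L)) := by
      apply LinearIndependent.of_comp (LinearMap.ker L).subtype
      exact hx
    have := hx'.fintype_card_le_finrank
    rwa [Fintype.card_fin] at this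
  have h2 : Module.finrank ℂ (LinearMap.range L) ≤ 1 := by
    have h3 := LinearMap.finrank_range_add_finrank_ker L
    rw [Module.finrank_fin_fun] at h3
    omega
  rw [finrank_le_one_iff] at h2
  obtain ⟨⟨a, ha⟩, hall⟩ := h2
  have h3 : ∀ j : Fin m, ∃ c : ℂ, c • a = P.mulVec (Pi.single j 1) := by
    intro j
    obtain ⟨c, hc⟩ := hall ⟨P.mulVec (Pi.single j 1), ⟨Pi.single j 1, by
      rw [hL, Matrix.mulVecLin_apply]⟩⟩
    exact ⟨c, congrArg Subtype.val hc⟩
  choose b hb using h3
  refine ⟨a, b, ?_⟩
  ext i j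
  have h4 := congrFun (hb j) i
  rw [Matrix.mulVec_single_one, Pi.smul_apply, smul_eq_mul] at h4
  rw [vecMulVec_apply, mul_comm, h4]
  rfl

lemma det_ne {m : ℕ} (Y B J : Mat m) (h : Y.transpose * B * Y = J) (hJ : J.det ≠ 0) :
    Y.det ≠ 0 := by
  intro h0
  apply hJ
  rw [← h, det_mul, h0, mul_zero]

end MR_

open Matrix MR_ in
theorem p_MR (h1 : T_FROB) (h2 : T_UNQ) (h3 : T_MJ) (h4 : T_NJ) (_h5 : T_BDET) : T_MR := by
  intro m α Y M hα hCon
  obtain ⟨_, _, _, _, _, _, _, _, hJ⟩ := h4 m
  have hYJ := (h3 m α Y M hα hCon).1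
  -- the base point
  set t1 : ℂ := -1 with ht1
  have ht1L : t1 ∈ LL := by
    show t1.re < -1 / 2
    rw [ht1]
    simp
    norm_num
  have hdet : IsUnit (Y t1).det := (det_ne _ _ _ (hYJ t1 ht1L) hJ).isUnit
  -- the functional
  let φ : (Fin m → ℂ) →ₗ[ℂ] ℂ :=
    { toFun := fun w => ∑ j : Fin m, ((Qp α).coeff (j : ℕ) : ℂ) * w j
      map_add' := fun u v => by
        rw [← Finset.sum_add_distrib]
        exact Finset.sum_congr rfl (fun j _ => by rw [Pi.add_apply, mul_add])
      map_smul' := fun c u => by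
        rw [RingHom.id_apply, smul_eq_mul, Finset.mul_sum]
        exact Finset.sum_congr rfl (fun j _ => by rw [Pi.smul_apply, smul_eq_mul]; ring) }
  set d : ℕ := Module.finrank ℂ (LinearMap.ker φ) with hd
  have hdm : m ≤ d + 1 := by
    have h5 := LinearMap.finrank_range_add_finrank_ker φ
    rw [Module.finrank_fin_fun] at h5
    have h6 : Module.finrank ℂ (LinearMap.range φ) ≤ 1 := by
      have := Submodule.finrank_le (LinearMap.range φ)
      rwa [Module.finrank_self] at this
    omega
  let bs := Module.finBasis ℂ (LinearMap.ker φ)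
  have hker : ∀ k : Fin d, ∑ j : Fin m, ((Qp α).coeff (j : ℕ) : ℂ) * (bs k : Fin m → ℂ) j = 0 :=
    fun k => (bs k).2
  have hw := fun k : Fin d => h1 m α (bs k : Fin m → ℂ) hα (hker k)
  choose w hw0 hwd hwo using hw
  -- the vectors
  set x : Fin d → Fin m → ℂ := fun k => (Y t1)⁻¹.mulVec (w k (Complex.exp t1)) with hx
  have hwx : ∀ k, ∀ t ∈ LL, w k (Complex.exp t) = (Y t).mulVec (x k) := by
    intro k
    apply h2 m LL (Pt α) t1 (fun s i => w k (Complex.exp s) i) (fun s => (Y s).mulVec (x k))
      LL_open LL_convex ht1L (fun i j => Pt_diff α i j)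
    · intro t ht i
      have ht' : t.re < 0 := by
        have : t.re < -1 / 2 := ht
        linarith
      exact hwo k t ht' i
    · intro t ht i
      have h5 : HasDerivAt (fun s => ∑ j, Y s i j * x k j)
          (∑ j, (Pt α t * Y t) i j * x k j) t :=
        HasDerivAt.fun_sum (fun j _ => (hCon.ode t ht i j).mul_const (x k j))
      have h6 : ((Pt α t).mulVec ((Y t).mulVec (x k))) i = ∑ j, (Pt α t * Y t) i j * x k j := by
        rw [mulVec_mulVec]
        rfl
      rw [h6]
      exact h5
    · show w k (Complex.exp t1) = (Y t1).mulVec (x k)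
      rw [hx]
      simp only
      rw [mulVec_mulVec, mul_nonsing_inv _ hdet, one_mulVec]
  -- they are fixed by the monodromy
  have hMx : ∀ k, M.mulVec (x k) = x k := by
    intro k
    have ht2 : t1 + 2 * Real.pi * Complex.I ∈ LL := by
      show (t1 + 2 * Real.pi * Complex.I).re < -1 / 2
      rw [ht1]
      simp
      norm_num
    have h5 := hwx k _ ht2
    have h6 : Complex.exp (t1 + 2 * Real.pi * Complex.I) = Complex.exp t1 := by
      rw [Complex.exp_add, Complex.exp_two_pi_mul_I, mul_one]
    rw [h6, hwx k t1 ht1L, hCon.mon t1 ht1L, ← mulVec_mulVec] at h5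
    have h7 := congrArg (fun v => (Y t1)⁻¹.mulVec v) h5
    simp only [mulVec_mulVec, nonsing_inv_mul _ hdet, one_mulVec, ← Matrix.mul_assoc] at h7
    rw [Matrix.one_mul] at h7
    exact h7.symm
  -- linear independence
  have hli : LinearIndependent ℂ x := by
    rw [Fintype.linearIndependent_iff]
    intro c hc
    have hF : ∀ i : Fin m, ∑ k, c k * w k 0 i = 0 := by
      intro i
      have hcont : Filter.Tendsto (fun u => ∑ k, c k * w k u i) (𝓝[≠] (0 : ℂ))
          (𝓝 (∑ k, c k * w k 0 i)) := by
        apply tendsto_finsetSum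
        intro k _
        apply Filter.Tendsto.const_mul
        have h5 : ContinuousAt (fun u => w k u i) 0 :=
          ((hwd k i).differentiableAt (Metric.ball_mem_nhds 0 one_pos)).continuousAt
        exact h5.tendsto.mono_left nhdsWithin_le_nhds
      have hzero : Filter.Tendsto (fun u => ∑ k, c k * w k u i) (𝓝[≠] (0 : ℂ)) (𝓝 0) := by
        apply tendsto_const_nhds.congr'
        have hball : Metric.ball (0 : ℂ) (Real.exp (-1 / 2)) ∈ 𝓝 (0 : ℂ) :=
          Metric.ball_mem_nhds 0 (Real.exp_pos _)
        filter_upwards [self_mem_nhdsWithin, nhdsWithin_le_nhds hball] with u hu hub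
        have hu0 : u ≠ 0 := hu
        have hun : ‖u‖ < Real.exp (-1 / 2) := by
          rwa [Metric.mem_ball, dist_zero_right] at hub
        have hlog : Complex.log u ∈ LL := by
          show (Complex.log u).re < -1 / 2
          rw [Complex.log_re, Real.log_lt_iff_lt_exp (norm_pos_iff.mpr hu0)]
          exact hun
        have h5 : ∀ k, w k u i = ((Y (Complex.log u)).mulVec (x k)) i := by
          intro k
          rw [← hwx k _ hlog, Complex.exp_log hu0]
        have h6 : ∑ k, c k * w k u i = ((Y (Complex.log u)).mulVec (∑ k, c k • x k)) i := by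
          have h7 : (Y (Complex.log u)).mulVec (∑ k, c k • x k) =
              ∑ k, c k • (Y (Complex.log u)).mulVec (x k) := by
            rw [← Matrix.mulVecLin_apply, map_sum]
            exact Finset.sum_congr rfl (fun k _ => by rw [map_smul, Matrix.mulVecLin_apply])
          rw [h7, Finset.sum_apply]
          exact Finset.sum_congr rfl (fun k _ => by rw [h5, Pi.smul_apply, smul_eq_mul])
        rw [h6, hc, mulVec_zero]
        rfl
      exact tendsto_nhds_unique hcont hzero
    have h5 : ∑ k, c k • bs k = 0 := by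
      apply Subtype.ext
      rw [Submodule.coe_sum]
      funext i
      rw [Finset.sum_apply]
      have h6 := hF i
      calc ∑ k, ((c k • bs k : LinearMap.ker φ) : Fin m → ℂ) i = ∑ k, c k * w k 0 i := by
            exact Finset.sum_congr rfl (fun k _ => by rw [hw0]; rfl)
        _ = 0 := h6
    exact Fintype.linearIndependent_iff.mp bs.linearIndependent c h5
  obtain ⟨a, b, hab⟩ := rank_one (M - 1) d x hdm hli (fun k => by
    rw [sub_mulVec, one_mulVec, hMx k, sub_self])
  exact ⟨a, b, by rw [← hab, add_sub_cancel]⟩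

end Pool.Agent.MUM
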