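import Pool.Agent.MUM.Targets

/-!
# MUM, MSTR: the form of the monodromy
-/

set_option autoImplicit false

namespace Pool.Agent.MUM

open Finset Pool.Agent.LEG Pool.Agent.HEP

namespace MSTR_

open Matrix

/-- the entries of the relation `Mᵀ J M = J` for `M = 1 + a bᵀ`, with `Jᵀ = ε J` -/
lemma entries {m : ℕ} (J : Mat m) (ε : ℂ) (hJ : J.transpose = ε • J) (a b : Fin m → ℂ)
    (h : (1 + vecMulVec a b).transpose * J * (1 + vecMulVec a b) = J) (i j : Fin m) :
    (J.mulVec a) i * b j + ε * (b i * (J.mulVec a) j) +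
      (a ⬝ᵥ J.mulVec a) * ε * (b i * b j) = 0 := by
  have hv : vecMul a J = ε • J.mulVec a := by
    rw [← mulVec_transpose, hJ, smul_mulVec]
  have h1 : (1 + vecMulVec a b).transpose * J * (1 + vecMulVec a b) =
      J + (vecMulVec (J.mulVec a) b + vecMulVec b (vecMul a J) +
        ((vecMul a J) ⬝ᵥ a) • vecMulVec b b) := by
    rw [transpose_add, transpose_one, transpose_vecMulVec, add_mul, one_mul, mul_add, mul_one,
      add_mul, mul_vecMulVec, vecMulVec_mul, vecMulVec_mul_vecMulVec]
    ext i j
    simp only [Matrix.add_apply, Matrix.smul_apply, vecMulVec_apply, smul_eq_mul,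
      Pi.smul_apply]
    ring
  rw [h1] at h
  have h2 : vecMulVec (J.mulVec a) b + vecMulVec b (vecMul a J) +
        ((vecMul a J) ⬝ᵥ a) • vecMulVec b b = 0 := by
    have := h
    rwa [add_eq_left] at this
  have h3 := congrFun (congrFun h2 i) j
  rw [hv] at h3
  simp only [Matrix.add_apply, Matrix.smul_apply, vecMulVec_apply, smul_eq_mul,
    Pi.smul_apply, Matrix.zero_apply, smul_dotProduct] at h3
  rw [dotProduct_comm (J.mulVec a) a] at h3
  linear_combination h3

end MSTR_

open Matrix MSTR_ in
theorem p_MSTR (h : T_NJ) : T_MSTR := by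
  intro m M hm hM ⟨a, b, hab⟩ ⟨i0, j0, hj0, hne⟩
  obtain ⟨_, _, _, _, _, _, _, hJT, hdet⟩ := h m
  set J : Mat m := Jm m with hJdef
  set ε : ℂ := -(-1 : ℂ) ^ m with hε
  have hε2 : ε * ε = 1 := by
    rw [hε, neg_mul_neg, ← pow_add]
    exact Even.neg_one_pow ⟨m, rfl⟩
  have hε0 : ε ≠ 0 := by
    intro h0
    rw [h0, zero_mul] at hε2
    exact zero_ne_one hε2
  have hM' : (1 + vecMulVec a b).transpose * J * (1 + vecMulVec a b) = J := by
    rw [← hab]
    exact hM
  have hent := entries J ε hJT a b hM'
  set c : Fin m → ℂ := J.mulVec a with hc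
  set s : ℂ := a ⬝ᵥ c with hs
  -- `b j0` and `a i0` are not zero
  have hab0 : a i0 * b j0 ≠ 0 := by
    intro h0
    apply hne
    rw [hab, Matrix.add_apply, vecMulVec_apply, h0, add_zero]
  have hb0 : b j0 ≠ 0 := right_ne_zero_of_mul hab0
  have ha0 : a i0 ≠ 0 := left_ne_zero_of_mul hab0
  -- `s = ε s`
  have hsε : s = ε * s := by
    have h1 : a ⬝ᵥ J.mulVec a = vecMul a J ⬝ᵥ a := dotProduct_mulVec a J a
    have hv : vecMul a J = ε • J.mulVec a := by
      rw [← mulVec_transpose, hJT, smul_mulVec]
    rw [hv, smul_dotProduct, dotProduct_comm (J.mulVec a) a] at h1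
    exact h1
  -- the key relation
  have hkey : ∀ i, c i * b j0 = b i * c j0 := by
    intro i
    rcases neg_one_pow_eq_or ℂ m with h1 | h1
    · have he : ε = -1 := by rw [hε, h1]
      rw [he] at hsε
      have hs0 : s = 0 := by linear_combination hsε / 2
      have h2 := hent i j0
      rw [hs0, he] at h2
      linear_combination h2
    · have he : ε = 1 := by rw [hε, h1, neg_neg]
      have h2 := hent i j0
      have h3 := hent j0 j0
      rw [he] at h2 h3
      have h4 : 2 * c j0 + s * b j0 = 0 := by
        have h5 : b j0 * (2 * c j0 + s * b j0) = 0 := by linear_combination h3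
        exact (mul_eq_zero.mp h5).resolve_left hb0
      linear_combination h2 - b i * h4
  have hc0 : c j0 ≠ 0 := by
    intro h0
    have hcz : J.mulVec a = 0 := by
      funext i
      have h1 := hkey i
      rw [h0, mul_zero] at h1
      exact (mul_eq_zero.mp h1).resolve_right hb0
    have haz : a = 0 := by
      by_contra hne
      exact hdet ((Matrix.exists_mulVec_eq_zero_iff (M := J)).mp ⟨a, hne, hcz⟩)
    exact ha0 (by rw [haz]; rfl)
  have hbμ : b = (b j0 / c j0) • c := by
    funext i
    rw [Pi.smul_apply, smul_eq_mul, div_mul_eq_mul_div, eq_div_iff hc0]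
    linear_combination -(hkey i)
  refine ⟨a, ε * (b j0 / c j0), ?_, ?_, ?_, ?_⟩
  · rw [hab]
    congr 1
    have h1 : vecMulVec a a * J = ε • vecMulVec a c := by
      rw [vecMulVec_mul]
      have hv : vecMul a J = ε • J.mulVec a := by
        rw [← mulVec_transpose, hJT, smul_mulVec]
      rw [hv]
      ext i j
      simp only [vecMulVec_apply, Matrix.smul_apply, Pi.smul_apply, smul_eq_mul]
      ring
    rw [h1, smul_smul]
    have h2 : ε * (b j0 / c j0) * ε = b j0 / c j0 := by
      linear_combination (b j0 / c j0) * hε2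
    rw [h2]
    ext i j
    simp only [vecMulVec_apply, Matrix.smul_apply, smul_eq_mul]
    rw [congrFun hbμ j, Pi.smul_apply, smul_eq_mul]
    ring
  · exact mul_ne_zero hε0 (div_ne_zero hb0 hc0)
  · have hlt : m - 1 < m := by omega
    refine ⟨⟨m - 1, hlt⟩, ?_, ?_⟩
    · show m - 1 + 1 = m
      omega
    · intro h0
      apply hc0
      rw [hc, mulVec, dotProduct, Finset.sum_eq_single (⟨m - 1, hlt⟩ : Fin m)]
      · rw [h0, mul_zero]
      · intro j _ hj
        have hJ0 : J j0 j = 0 := by
          rw [hJdef]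
          simp only [Jm, Matrix.of_apply]
          rw [if_neg]
          intro h1
          apply hj
          apply Fin.ext
          show (j : ℕ) = m - 1
          omega
        rw [hJ0, zero_mul]
      · intro h1
        exact absurd (Finset.mem_univ _) h1
  · intro hodd
    have he : ε = 1 := by rw [hε, hodd.neg_one_pow, neg_neg]
    have h3 := hent j0 j0
    rw [he] at h3
    have h4 : 2 * c j0 + s * b j0 = 0 := by
      have h5 : b j0 * (2 * c j0 + s * b j0) = 0 := by linear_combination h3
      exact (mul_eq_zero.mp h5).resolve_left hb0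
    show ε * (b j0 / c j0) * s = -2
    rw [he, one_mul, div_mul_eq_mul_div, div_eq_iff hc0]
    linear_combination h4

end Pool.Agent.MUM
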