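import Pool.Agent.MUM.Targets

set_option autoImplicit false

namespace Pool.Agent.MUM

open Finset
open scoped BigOperators Topology

namespace NJ_

theorem sum_at (m : ℕ) (a : ℕ) (f : Fin m → ℂ) :
    (∑ k : Fin m, if (k : ℕ) = a then f k else 0) = if h : a < m then f ⟨a, h⟩ else 0 := by
  split_ifs with h
  · rw [Finset.sum_eq_single (⟨a, h⟩ : Fin m)]
    · simp
    · intro b _ hb
      rw [if_neg]
      intro hab
      exact hb (Fin.ext hab)
    · intro h'
      exact absurd (Finset.mem_univ _) h'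
  · apply Finset.sum_eq_zero
    intro k _
    rw [if_neg]
    intro hk
    exact h (hk ▸ k.2)

/-- `s ^ n / n!` with an integer-like index given by a pair. -/
theorem eN_apply (m : ℕ) (s : ℂ) (i j : Fin m) :
    eN m s i j = if (i : ℕ) ≤ j then s ^ ((j : ℕ) - i) / (((j : ℕ) - i).factorial : ℂ) else 0 := rfl

theorem eN_zero (m : ℕ) : eN m 0 = 1 := by
  ext i j
  rw [eN_apply, Matrix.one_apply]
  by_cases hij : i = j
  · subst hij
    simp
  · rw [if_neg hij]
    split_ifs with h
    · have h' : (j : ℕ) - i ≠ 0 := by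
        have : (i : ℕ) ≠ j := fun h' => hij (Fin.ext h')
        omega
      rw [zero_pow h', zero_div]
    · rfl

theorem conv (s t : ℂ) (n : ℕ) :
    ∑ l ∈ range (n + 1), s ^ l / (l.factorial : ℂ) * (t ^ (n - l) / ((n - l).factorial : ℂ)) =
      (s + t) ^ n / (n.factorial : ℂ) := by
  rw [add_pow, Finset.sum_div]
  apply Finset.sum_congr rfl
  intro l hl
  have hl' : l ≤ n := by
    have := Finset.mem_range.mp hl
    omega
  have h1 : ((n.choose l : ℕ) : ℂ) * (l.factorial : ℂ) * ((n - l).factorial : ℂ) =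
      (n.factorial : ℂ) := by
    exact_mod_cast Nat.choose_mul_factorial_mul_factorial hl'
  have h2 : (l.factorial : ℂ) ≠ 0 := by exact_mod_cast l.factorial_ne_zero
  have h3 : ((n - l).factorial : ℂ) ≠ 0 := by exact_mod_cast (n - l).factorial_ne_zero
  have h4 : (n.factorial : ℂ) ≠ 0 := by exact_mod_cast n.factorial_ne_zero
  rw [div_mul_div_comm, div_eq_div_iff (mul_ne_zero h2 h3) h4, ← h1]
  ring

theorem eN_mul (m : ℕ) (s t : ℂ) : eN m s * eN m t = eN m (s + t) := by
  ext i j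
  rw [Matrix.mul_apply]
  simp only [eN_apply]
  have h0 := Fin.sum_univ_eq_sum_range (fun k : ℕ =>
    (if (i : ℕ) ≤ k then s ^ (k - i) / ((k - i).factorial : ℂ) else 0) *
      (if k ≤ (j : ℕ) then t ^ ((j : ℕ) - k) / (((j : ℕ) - k).factorial : ℂ) else 0)) m
  rw [h0]
  by_cases hij : (i : ℕ) ≤ j
  · rw [if_pos hij]
    have hsub : Finset.Ico (i : ℕ) (j + 1) ⊆ range m := by
      intro x hx
      have := Finset.mem_Ico.mp hx
      have := j.2
      exact Finset.mem_range.mpr (by omega)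
    rw [← Finset.sum_subset hsub]
    · rw [Finset.sum_Ico_eq_sum_range]
      have hn : (j : ℕ) + 1 - i = ((j : ℕ) - i) + 1 := by omega
      rw [hn, ← conv s t ((j : ℕ) - i)]
      apply Finset.sum_congr rfl
      intro l hl
      have hl' : l ≤ (j : ℕ) - i := by
        have := Finset.mem_range.mp hl
        omega
      rw [if_pos (by omega), if_pos (by omega)]
      have e1 : (i : ℕ) + l - i = l := by omega
      have e2 : (j : ℕ) - (i + l) = (j : ℕ) - i - l := by omega
      rw [e1, e2]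
    · intro x _ hx
      have hx' : ¬ ((i : ℕ) ≤ x ∧ x < j + 1) := fun h => hx (Finset.mem_Ico.mpr h)
      by_cases h1 : (i : ℕ) ≤ x
      · rw [if_neg (show ¬ x ≤ (j : ℕ) by omega), mul_zero]
      · rw [if_neg h1, zero_mul]
  · rw [if_neg hij]
    apply Finset.sum_eq_zero
    intro x _
    by_cases h1 : (i : ℕ) ≤ x
    · rw [if_neg (show ¬ x ≤ (j : ℕ) by omega), mul_zero]
    · rw [if_neg h1, zero_mul]

theorem N_mul (m : ℕ) (A : Mat m) (i j : Fin m) :
    (Nm m * A) i j = if h : (i : ℕ) + 1 < m then A ⟨i + 1, h⟩ j else 0 := by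
  rw [Matrix.mul_apply, ← sum_at m ((i : ℕ) + 1) (fun k => A k j)]
  apply Finset.sum_congr rfl
  intro k _
  simp only [Nm, Matrix.of_apply, ite_mul, one_mul, zero_mul]

theorem N_mul_eN (m : ℕ) (s : ℂ) (i j : Fin m) : (Nm m * eN m s) i j =
    if (i : ℕ) + 1 ≤ j then s ^ ((j : ℕ) - i - 1) / (((j : ℕ) - i - 1).factorial : ℂ) else 0 := by
  rw [N_mul]
  have hj := j.2
  by_cases h : (i : ℕ) + 1 < m
  · rw [dif_pos h, eN_apply]
    have e : (j : ℕ) - (i + 1) = (j : ℕ) - i - 1 := by omega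
    simp only [e]
  · rw [dif_neg h, if_neg (by omega)]

theorem eN_mul_N (m : ℕ) (s : ℂ) (i j : Fin m) : (eN m s * Nm m) i j =
    if (i : ℕ) + 1 ≤ j then s ^ ((j : ℕ) - i - 1) / (((j : ℕ) - i - 1).factorial : ℂ) else 0 := by
  rw [Matrix.mul_apply]
  have hj := j.2
  by_cases h : (j : ℕ) = 0
  · rw [if_neg (by omega)]
    apply Finset.sum_eq_zero
    intro k _
    simp only [Nm, Matrix.of_apply]
    rw [if_neg (by omega), mul_zero]
  · have h1 : ∀ k : Fin m, eN m s i k * Nm m k j =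
        if (k : ℕ) = (j : ℕ) - 1 then eN m s i k else 0 := by
      intro k
      simp only [Nm, Matrix.of_apply, mul_ite, mul_one, mul_zero]
      by_cases hk : (k : ℕ) = (j : ℕ) - 1
      · rw [if_pos hk, if_pos (by omega)]
      · rw [if_neg hk, if_neg (by omega)]
    rw [Finset.sum_congr rfl (fun k _ => h1 k), sum_at, dif_pos (by omega), eN_apply]
    simp only
    by_cases hi : (i : ℕ) + 1 ≤ j
    · rw [if_pos hi, if_pos (by omega)]
      have e : (j : ℕ) - 1 - i = (j : ℕ) - i - 1 := by omega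
      rw [e]
    · rw [if_neg hi, if_neg (by omega)]

theorem eN_deriv (m : ℕ) (s : ℂ) (i j : Fin m) :
    HasDerivAt (fun u => eN m u i j) ((Nm m * eN m s) i j) s := by
  rw [N_mul_eN]
  simp only [eN_apply]
  by_cases h : (i : ℕ) + 1 ≤ j
  · rw [if_pos h]
    simp only [if_pos (show (i : ℕ) ≤ j by omega)]
    obtain ⟨n, hn⟩ : ∃ n, (j : ℕ) - i = n + 1 := ⟨(j : ℕ) - i - 1, by omega⟩
    rw [hn]
    have h1 := (hasDerivAt_pow (n + 1) s).div_const (((n + 1).factorial : ℕ) : ℂ)
    have e : s ^ (n + 1 - 1) / ((n + 1 - 1).factorial : ℂ) =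
        ((n + 1 : ℕ) : ℂ) * s ^ (n + 1 - 1) / (((n + 1).factorial : ℕ) : ℂ) := by
      have h2 : (n.factorial : ℂ) ≠ 0 := by exact_mod_cast n.factorial_ne_zero
      have h3 : ((n : ℂ) + 1) ≠ 0 := by exact_mod_cast n.succ_ne_zero
      rw [Nat.factorial_succ, Nat.add_sub_cancel]
      push_cast
      field_simp
    rw [e]
    exact h1
  · rw [if_neg h]
    by_cases h' : (i : ℕ) ≤ j
    · simp only [if_pos h']
      have e : (j : ℕ) - i = 0 := by omega
      simp only [e, pow_zero]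
      exact hasDerivAt_const _ _
    · simp only [if_neg h']
      exact hasDerivAt_const _ _

theorem J_mul (m : ℕ) (A : Mat m) (i j : Fin m) :
    (Jm m * A) i j = (-1) ^ (m - 1 - (i : ℕ)) * A ⟨m - 1 - i, by omega⟩ j := by
  rw [Matrix.mul_apply]
  have hi := i.2
  have h1 : ∀ k : Fin m, Jm m i k * A k j =
      if (k : ℕ) = m - 1 - (i : ℕ) then (-1) ^ (m - 1 - (i : ℕ)) * A k j else 0 := by
    intro k
    have hk := k.2
    simp only [Jm, Matrix.of_apply]
    by_cases hk : (k : ℕ) = m - 1 - (i : ℕ)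
    · rw [if_pos hk, if_pos (by omega), hk]
    · rw [if_neg hk, if_neg (by omega), zero_mul]
  rw [Finset.sum_congr rfl (fun k _ => h1 k), sum_at, dif_pos (by omega)]

theorem mul_J (m : ℕ) (A : Mat m) (i j : Fin m) :
    (A * Jm m) i j = (-1) ^ (j : ℕ) * A i ⟨m - 1 - j, by omega⟩ := by
  rw [Matrix.mul_apply]
  have hj := j.2
  have h1 : ∀ k : Fin m, A i k * Jm m k j =
      if (k : ℕ) = m - 1 - (j : ℕ) then (-1) ^ (j : ℕ) * A i k else 0 := by
    intro k
    have hk := k.2
    simp only [Jm, Matrix.of_apply]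
    by_cases hk : (k : ℕ) = m - 1 - (j : ℕ)
    · rw [if_pos hk, if_pos (by omega), mul_comm]
    · rw [if_neg hk, if_neg (by omega), mul_zero]
  rw [Finset.sum_congr rfl (fun k _ => h1 k), sum_at, dif_pos (by omega)]

theorem J_eN (m : ℕ) (s : ℂ) : Jm m * eN m s = (eN m (-s)).transpose * Jm m := by
  ext i j
  rw [J_mul, mul_J, Matrix.transpose_apply, eN_apply, eN_apply]
  have hi := i.2
  have hj := j.2
  simp only
  by_cases h : m ≤ (i : ℕ) + j + 1
  · rw [if_pos (by omega), if_pos (by omega)]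
    have e1 : (j : ℕ) - (m - 1 - (i : ℕ)) = (i : ℕ) + j + 1 - m := by omega
    have e2 : (i : ℕ) - (m - 1 - (j : ℕ)) = (i : ℕ) + j + 1 - m := by omega
    rw [e1, e2, neg_pow s, mul_div_assoc, ← mul_assoc, ← pow_add]
    congr 1
    have e3 : (j : ℕ) + ((i : ℕ) + j + 1 - m) + 2 * (m - 1 - (i : ℕ)) =
        (m - 1 - (i : ℕ)) + 2 * j := by omega
    have e4 : (-1 : ℂ) ^ ((j : ℕ) + ((i : ℕ) + j + 1 - m) + 2 * (m - 1 - (i : ℕ))) =
        (-1 : ℂ) ^ ((m - 1 - (i : ℕ)) + 2 * j) := by rw [e3]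
    rw [pow_add, pow_add _ (m - 1 - (i : ℕ)), pow_mul, pow_mul] at e4
    simpa using e4.symm
  · rw [if_neg (by omega), if_neg (by omega)]
    simp

theorem N_J (m : ℕ) : (Nm m).transpose * Jm m = -(Jm m * Nm m) := by
  ext i j
  rw [mul_J, Matrix.neg_apply, J_mul, Matrix.transpose_apply]
  have hi := i.2
  have hj := j.2
  simp only [Nm, Matrix.of_apply]
  by_cases h : (i : ℕ) + j = m
  · rw [if_pos (by omega), if_pos (by omega)]
    have e : (j : ℕ) = (m - 1 - (i : ℕ)) + 1 := by omega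
    rw [e, pow_succ]
    ring
  · rw [if_neg (by omega), if_neg (by omega)]
    simp

theorem J_T (m : ℕ) : (Jm m).transpose = -(-1 : ℂ) ^ m • Jm m := by
  ext i j
  rw [Matrix.transpose_apply, Matrix.smul_apply]
  simp only [Jm, Matrix.of_apply, smul_eq_mul]
  by_cases h : (i : ℕ) + j + 1 = m
  · rw [if_pos (by omega), if_pos h]
    have : (-1 : ℂ) ^ m * (-1) ^ (j : ℕ) = -(-1) ^ (i : ℕ) := by
      rw [← pow_add]
      have e : m + j = i + 1 + 2 * j := by omega
      rw [e, pow_add, pow_mul]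
      simp [pow_succ]
    rw [neg_mul, this, neg_neg]
  · rw [if_neg (by omega), if_neg h, mul_zero]

theorem J_det (m : ℕ) : (Jm m).det ≠ 0 := by
  have h : (Jm m).transpose * Jm m = 1 := by
    ext i j
    rw [mul_J, Matrix.transpose_apply, Matrix.one_apply]
    have hi := i.2
    have hj := j.2
    simp only [Jm, Matrix.of_apply]
    by_cases hij : i = j
    · subst hij
      rw [if_pos (by omega), if_pos rfl, ← pow_add, ← two_mul, pow_mul]
      simp
    · have hij' : (i : ℕ) ≠ j := fun h => hij (Fin.ext h)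
      rw [if_neg (by omega), if_neg hij, mul_zero]
  have h2 : (Jm m).transpose.det * (Jm m).det = 1 := by
    rw [← Matrix.det_mul, h, Matrix.det_one]
  intro h0
  rw [h0, mul_zero] at h2
  exact zero_ne_one h2

end NJ_

open NJ_ in
theorem p_NJ : T_NJ := by
  intro m
  refine ⟨eN_zero m, eN_mul m, fun s i j => eN_deriv m s i j, ?_, ?_, J_eN m, N_J m, J_T m,
    J_det m⟩
  · intro s
    ext i j
    rw [N_mul_eN, eN_mul_N]
  · intro s
    rw [Matrix.mul_assoc, J_eN, ← Matrix.mul_assoc, ← Matrix.transpose_mul, eN_mul]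
    have : -s + s = 0 := by ring
    rw [this, eN_zero, Matrix.transpose_one, Matrix.one_mul]

end Pool.Agent.MUM
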