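import Pool.Agent.MUM.Targets

set_option autoImplicit false

/-!
# ODD: the orthogonal case
-/

namespace Pool.Agent.MUM

open Finset Pool.Agent.LEG Pool.Agent.HEP
open scoped BigOperators Topology

theorem p_ODD (h1 : T_OLIE) (h2 : T_OREF) (h3 : T_OGEN) (h4 : T_NJ) (h5 : T_ST1) : T_ODD := by
  intro m V v κ hm hodd hκ hv hst g hg
  obtain ⟨hN0, -, -, -, -, -, -, hJT, hJd⟩ := h4 m
  obtain ⟨hone, hmul, -⟩ := h5 m V
  have hq0 : v ⬝ᵥ (Jm m).mulVec v ≠ 0 := by
    intro h
    rw [h] at hκ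
    norm_num at hκ
  have hκ' : κ = -(2 / (v ⬝ᵥ (Jm m).mulVec v)) := by
    field_simp
    linear_combination hκ
  have hrf : (1 : Mat m) + κ • (Matrix.vecMulVec v v * Jm m) = rf (Jm m) v := by
    rw [rf, hκ', neg_smul, sub_eq_add_neg]
  have hJs : (Jm m).transpose = Jm m := by
    rw [hJT, hodd.neg_one_pow, neg_neg, one_smul]
  have hst' : ∀ s : ℂ, eN m s * rf (Jm m) v * eN m (-s) ∈ Stab V := by
    intro s
    rw [← hrf]
    exact hst s
  have hlie := h1 m V v hm hodd hq0 hv hst'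
  have hrv : rf (Jm m) v ∈ Stab V := by
    have h := hst' 0
    rw [neg_zero, hN0, one_mul, mul_one] at h
    exact h
  have hall := h2 m V (Jm m) v hm hJs hJd hq0 hrv hlie
  have hcl := h3 m (Jm m) g hJs hJd hg
  clear hg
  induction hcl using Submonoid.closure_induction with
  | mem x hx =>
    obtain ⟨u, hu, rfl⟩ := hx
    exact hall u hu
  | one => exact hone
  | mul x y _ _ hx hy => exact hmul x hx y hy

end Pool.Agent.MUM
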