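import Pool.Agent.MUM.Targets

set_option autoImplicit false

/-!
# OLIE: odd order, the Lie algebra of the stabiliser contains all `a ∧ b`
-/

namespace Pool.Agent.MUM

open Finset Pool.Agent.LEG Pool.Agent.HEP
open scoped BigOperators Topology

namespace OLIE_

variable {m : ℕ}

/-- `a b^T J` -/
def P (J : Mat m) (a b : Fin m → ℂ) : Mat m := Matrix.vecMulVec a b * J

theorem P_mul (J : Mat m) (a b c d : Fin m → ℂ) :
    P J a b * P J c d = (b ⬝ᵥ J.mulVec c) • P J a d := by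
  unfold P
  rw [← Matrix.mul_assoc, Matrix.mul_assoc (Matrix.vecMulVec a b), Matrix.mul_vecMulVec,
    Matrix.vecMulVec_mul_vecMulVec, Matrix.vecMulVec_smul, Matrix.smul_mul]

theorem wd_eq (J : Mat m) (a b : Fin m → ℂ) : wd J a b = P J a b - P J b a := by
  unfold wd P
  rw [Matrix.sub_mul]

theorem P_add_right (J : Mat m) (a b c : Fin m → ℂ) : P J a (b + c) = P J a b + P J a c := by
  unfold P
  rw [Matrix.vecMulVec_add, Matrix.add_mul]

theorem P_add_left (J : Mat m) (a b c : Fin m → ℂ) : P J (a + b) c = P J a c + P J b c := by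
  unfold P
  rw [Matrix.add_vecMulVec, Matrix.add_mul]

theorem P_smul_right (J : Mat m) (a b : Fin m → ℂ) (x : ℂ) : P J a (x • b) = x • P J a b := by
  unfold P
  rw [Matrix.vecMulVec_smul, Matrix.smul_mul]

theorem P_smul_left (J : Mat m) (a b : Fin m → ℂ) (x : ℂ) : P J (x • a) b = x • P J a b := by
  unfold P
  rw [Matrix.smul_vecMulVec, Matrix.smul_mul]

theorem ip_symm (J : Mat m) (hJ : J.transpose = J) (a b : Fin m → ℂ) :
    a ⬝ᵥ J.mulVec b = b ⬝ᵥ J.mulVec a := by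
  rw [Matrix.dotProduct_mulVec, ← Matrix.mulVec_transpose, hJ, dotProduct_comm]

theorem rf_eq (J : Mat m) (u : Fin m → ℂ) (Q : ℂ) (h : u ⬝ᵥ J.mulVec u = Q) :
    rf J u = 1 - (2 / Q) • P J u u := by
  unfold rf P
  rw [h]

/-- the derivative of `R_{s+t} R_s` -/
theorem gam (J : Mat m) (hJ : J.transpose = J) (a b : Fin m → ℂ) (Q : ℂ) (hQ : Q ≠ 0)
    (h1 : b ⬝ᵥ J.mulVec b = Q) (h2 : b ⬝ᵥ J.mulVec a = 0) :
    (-(2 / Q)) • (P J a b + P J b a) * (1 - (2 / Q) • P J b b) = (2 / Q) • wd J a b := by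
  have h3 : a ⬝ᵥ J.mulVec b = 0 := by rw [ip_symm J hJ]; exact h2
  simp only [mul_sub, mul_one, smul_mul_assoc, mul_smul_comm, add_mul, P_mul, h1, h3, wd_eq,
    zero_smul, add_zero]
  match_scalars <;> field_simp <;> ring

/-- conjugation by `R_w` -/
theorem conj (J : Mat m) (hJ : J.transpose = J) (a b w : Fin m → ℂ) (Q : ℂ) (hQ : Q ≠ 0) :
    wd J w ((w ⬝ᵥ J.mulVec a) • b - (w ⬝ᵥ J.mulVec b) • a) =
      (-(Q / 2)) • ((1 - (2 / Q) • P J w w) * wd J a b * (1 - (2 / Q) • P J w w) +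
        (-1 : ℂ) • wd J a b) := by
  have h1 : a ⬝ᵥ J.mulVec w = w ⬝ᵥ J.mulVec a := ip_symm J hJ _ _
  have h2 : b ⬝ᵥ J.mulVec w = w ⬝ᵥ J.mulVec b := ip_symm J hJ _ _
  have hs : (w ⬝ᵥ J.mulVec a) • b - (w ⬝ᵥ J.mulVec b) • a =
    (w ⬝ᵥ J.mulVec a) • b + (-(w ⬝ᵥ J.mulVec b)) • a := by rw [neg_smul, sub_eq_add_neg]
  simp only [hs, wd_eq, P_add_right, P_add_left, P_smul_right, P_smul_left, mul_sub, sub_mul,
    one_mul, mul_one, smul_mul_assoc, mul_smul_comm, P_mul, h1, h2]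
  generalize w ⬝ᵥ J.mulVec a = x
  generalize w ⬝ᵥ J.mulVec b = y
  match_scalars <;> field_simp <;> ring

/-- entrywise derivative of a matrix function times a constant matrix -/
theorem hd_mul (γ : ℂ → Mat m) (A B : Mat m) (s : ℂ)
    (h : ∀ i j, HasDerivAt (fun t => γ t i j) (A i j) s) (i j : Fin m) :
    HasDerivAt (fun t => (γ t * B) i j) ((A * B) i j) s := by
  simp only [Matrix.mul_apply]
  exact HasDerivAt.fun_sum fun k _ => (h i k).mul_const (B k j)

theorem hd_P (J : Mat m) (x : ℂ → Fin m → ℂ) (x' : Fin m → ℂ) (s : ℂ)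
    (h : ∀ i, HasDerivAt (fun t => x t i) (x' i) s) (i j : Fin m) :
    HasDerivAt (fun t => P J (x t) (x t) i j) ((P J x' (x s) + P J (x s) x') i j) s := by
  have h1 : P J x' (x s) + P J (x s) x' =
    (Matrix.vecMulVec x' (x s) + Matrix.vecMulVec (x s) x') * J := by
    unfold P
    rw [Matrix.add_mul]
  rw [h1]
  refine hd_mul (fun t => Matrix.vecMulVec (x t) (x t)) _ J s (fun k l => ?_) i j
  simp only [Matrix.add_apply, Matrix.vecMulVec_apply]
  exact (h k).mul (h l)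

theorem hd_R (J : Mat m) (x : ℂ → Fin m → ℂ) (x' : Fin m → ℂ) (c s : ℂ) (B : Mat m)
    (h : ∀ i, HasDerivAt (fun t => x t i) (x' i) s) (i j : Fin m) :
    HasDerivAt (fun t => ((1 - c • P J (x t) (x t)) * B) i j)
      (((-c) • (P J x' (x s) + P J (x s) x') * B) i j) s := by
  refine hd_mul (fun t => 1 - c • P J (x t) (x t)) _ B s (fun k l => ?_) i j
  have h2 := ((hd_P J x x' s h k l).const_mul c).const_sub ((1 : Mat m) k l)
  have h3 : (-c • (P J x' (x s) + P J (x s) x')) k l =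
      -(c * (P J x' (x s) + P J (x s) x') k l) := by
    rw [Matrix.smul_apply, smul_eq_mul]; ring
  rw [h3]
  exact h2

/-- the curve `v_s` -/
noncomputable def vs (v : Fin m → ℂ) (s : ℂ) : Fin m → ℂ := (eN m s).mulVec v

theorem vs_deriv (h1 : T_NJ) (v : Fin m → ℂ) (s : ℂ) (i : Fin m) :
    HasDerivAt (fun t => vs v t i) ((Nm m).mulVec (vs v s) i) s := by
  have h2 : (Nm m).mulVec (vs v s) i = ∑ j, (Nm m * eN m s) i j * v j := by
    unfold vs
    rw [Matrix.mulVec_mulVec]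
    rfl
  rw [h2]
  unfold vs
  simp only [Matrix.mulVec, dotProduct]
  exact HasDerivAt.fun_sum fun k _ => ((h1 m).2.2.1 s i k).mul_const (v k)

theorem J_symm (h1 : T_NJ) (hm : Odd m) : (Jm m).transpose = Jm m := by
  rw [(h1 m).2.2.2.2.2.2.2.1, hm.neg_one_pow, neg_neg, one_smul]

theorem ip_vs (h1 : T_NJ) (v w : Fin m → ℂ) (s : ℂ) :
    vs v s ⬝ᵥ (Jm m).mulVec (vs w s) = v ⬝ᵥ (Jm m).mulVec w := by
  unfold vs
  rw [← Matrix.vecMul_transpose (eN m s) v, ← Matrix.dotProduct_mulVec, Matrix.mulVec_mulVec,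
    Matrix.mulVec_mulVec, (h1 m).2.2.2.2.1]

theorem ip_vs' (h1 : T_NJ) (hm : Odd m) (w : Fin m → ℂ) :
    w ⬝ᵥ (Jm m).mulVec ((Nm m).mulVec w) = 0 := by
  have h2 : w ⬝ᵥ (Jm m).mulVec ((Nm m).mulVec w) = -(w ⬝ᵥ (Jm m).mulVec ((Nm m).mulVec w)) := by
    calc w ⬝ᵥ (Jm m).mulVec ((Nm m).mulVec w) = (Nm m).mulVec w ⬝ᵥ (Jm m).mulVec w :=
        ip_symm _ (J_symm h1 hm) _ _
      _ = w ⬝ᵥ ((Nm m).transpose * Jm m).mulVec w := by
        rw [← Matrix.mulVec_mulVec, Matrix.dotProduct_mulVec w, Matrix.vecMul_transpose]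
      _ = -(w ⬝ᵥ (Jm m).mulVec ((Nm m).mulVec w)) := by
        rw [(h1 m).2.2.2.2.2.2.1, Matrix.neg_mulVec, dotProduct_neg, Matrix.mulVec_mulVec]
  have h3 : (2 : ℂ) * (w ⬝ᵥ (Jm m).mulVec ((Nm m).mulVec w)) = 0 := by linear_combination h2
  simpa using h3

theorem conjR (h1 : T_NJ) (v : Fin m → ℂ) (s Q : ℂ) (h : v ⬝ᵥ (Jm m).mulVec v = Q) :
    eN m s * rf (Jm m) v * eN m (-s) = 1 - (2 / Q) • P (Jm m) (vs v s) (vs v s) := by
  rw [rf_eq _ _ _ h, Matrix.mul_sub, Matrix.sub_mul, Matrix.mul_one, (h1 m).2.1, add_neg_cancel,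
    (h1 m).1, Matrix.mul_smul, Matrix.smul_mul]
  congr 2
  unfold P vs
  rw [Matrix.mul_assoc, Matrix.mul_assoc, (h1 m).2.2.2.2.2.1, neg_neg, ← Matrix.mul_assoc,
    ← Matrix.mul_assoc, Matrix.mul_vecMulVec, Matrix.vecMulVec_mul, Matrix.vecMul_transpose]

/-- `g' h = g h'`, `h r = 0`, `g r ≠ 0` imply `h = 0` -/
theorem wron (g h g' h' : ℂ → ℂ) (r : ℂ) (hg : ∀ s, HasDerivAt g (g' s) s)
    (hh : ∀ s, HasDerivAt h (h' s) s) (he : ∀ s, g' s * h s = g s * h' s) (h0 : h r = 0)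
    (g0 : g r ≠ 0) : ∀ s, h s = 0 := by
  have hgd : Differentiable ℂ g := fun s => (hg s).differentiableAt
  have hhd : Differentiable ℂ h := fun s => (hh s).differentiableAt
  obtain ⟨ε, hε, hb⟩ := Metric.eventually_nhds_iff_ball.mp
    ((hgd r).continuousAt.eventually_ne g0)
  have hq : ∀ s ∈ Metric.ball r ε, HasDerivAt (fun s => h s / g s) 0 s := by
    intro s hs
    have := (hh s).div (hg s) (hb s hs)
    have h2 : (h' s * g s - h s * g' s) / g s ^ 2 = 0 := by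
      have : h' s * g s - h s * g' s = 0 := by linear_combination -(he s)
      rw [this, zero_div]
    rw [h2] at this
    exact this
  have hc : ∀ s ∈ Metric.ball r ε, h s / g s = h r / g r := by
    intro s hs
    have hconv : Convex ℝ (Metric.ball r ε) := convex_ball r ε
    exact Convex.is_const_of_fderivWithin_eq_zero (𝕜 := ℂ) hconv
      (fun x hx => (hq x hx).differentiableAt.differentiableWithinAt)
      (fun x hx => by
        rw [fderivWithin_of_isOpen Metric.isOpen_ball hx, (hq x hx).hasFDerivAt.fderiv]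
        ext; simp) hs (Metric.mem_ball_self hε)
  have hz : ∀ᶠ s in 𝓝 r, h s = 0 := by
    filter_upwards [Metric.ball_mem_nhds r hε] with s hs
    have h3 := hc s hs
    rw [h0, zero_div] at h3
    rcases div_eq_zero_iff.mp h3 with h4 | h4
    · exact h4
    · exact absurd h4 (hb s hs)
  have han : AnalyticOnNhd ℂ h Set.univ := fun s _ => hhd.analyticAt s
  have h5 := han.eqOn_zero_of_preconnected_of_eventuallyEq_zero isPreconnected_univ
    (Set.mem_univ r) hz
  exact fun s => h5 (Set.mem_univ s)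

theorem lin_deriv (h1 : T_NJ) (v : Fin m → ℂ) (f : (Fin m → ℂ) →ₗ[ℂ] ℂ) (s : ℂ) :
    HasDerivAt (fun t => f (vs v t)) (f ((Nm m).mulVec (vs v s))) s := by
  have h2 : ∀ x : Fin m → ℂ, f x = ∑ i, x i * f (Pi.single i 1) := by
    intro x
    have h3 := LinearMap.pi_apply_eq_sum_univ f x
    rw [h3]
    refine Finset.sum_congr rfl fun i _ => ?_
    rw [smul_eq_mul]
    congr 2
    ext j
    simp [Pi.single_apply, eq_comm]
  rw [h2]
  simp only [h2 (vs v _)]
  exact HasDerivAt.fun_sum fun k _ => (vs_deriv h1 v s k).mul_const _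

/-- the subspace of all `u` with `w ∧ u` in the Lie algebra -/
def Wr (h4 : T_ST2) (V : Set (ℂ × Mat m)) (J : Mat m) (w : Fin m → ℂ) :
    Submodule ℂ (Fin m → ℂ) where
  carrier := {u | wd J w u ∈ LieS V}
  zero_mem' := by
    have h : wd J w 0 = 0 := by
      unfold wd
      rw [Matrix.vecMulVec_zero, Matrix.zero_vecMulVec, sub_zero, Matrix.zero_mul]
    show wd J w 0 ∈ LieS V
    rw [h]
    exact (h4 m V).1
  add_mem' := by
    intro a b ha hb
    have h : wd J w (a + b) = wd J w a + wd J w b := by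
      simp only [wd_eq, P_add_left, P_add_right]; abel
    show wd J w (a + b) ∈ LieS V
    rw [h]
    exact ((h4 m V).2.1 _ ha _ hb).1
  smul_mem' := by
    intro c a ha
    have h : wd J w (c • a) = c • wd J w a := by
      simp only [wd_eq, P_smul_left, P_smul_right, smul_sub]
    show wd J w (c • a) ∈ LieS V
    rw [h]
    exact (h4 m V).2.2 _ ha c

theorem wd_neg (J : Mat m) (a b : Fin m → ℂ) : wd J a b = (-1 : ℂ) • wd J b a := by
  simp only [wd_eq]
  module

end OLIE_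

open OLIE_ in
theorem p_OLIE (h1 : T_NJ) (h2 : T_SPAN) (h3 : T_ST1) (h4 : T_ST2) (h5 : T_ST3) : T_OLIE := by
  intro m V v hm2 hm hQ hv hst
  obtain ⟨Q, hQd⟩ : ∃ Q, v ⬝ᵥ (Jm m).mulVec v = Q := ⟨_, rfl⟩
  rw [hQd] at hQ
  have hJ := J_symm h1 hm
  have hR : ∀ s, 1 - (2 / Q) • P (Jm m) (vs v s) (vs v s) ∈ Stab V := by
    intro s
    rw [← conjR h1 v s Q hQd]
    exact hst s
  have hQs : ∀ s, vs v s ⬝ᵥ (Jm m).mulVec (vs v s) = Q := fun s => (ip_vs h1 v v s).trans hQd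
  have hRR : ∀ s, (1 - (2 / Q) • P (Jm m) (vs v s) (vs v s)) *
      (1 - (2 / Q) • P (Jm m) (vs v s) (vs v s)) = 1 := by
    intro s
    simp only [mul_sub, sub_mul, mul_one, one_mul, smul_mul_assoc, mul_smul_comm, P_mul, hQs]
    match_scalars <;> field_simp <;> ring
  -- `v_s' ∧ v_s` is in the Lie algebra
  have hA : ∀ s, wd (Jm m) ((Nm m).mulVec (vs v s)) (vs v s) ∈ LieS V := by
    intro s
    have hg : (2 / Q) • wd (Jm m) ((Nm m).mulVec (vs v s)) (vs v s) ∈ LieS V := by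
      refine h5 m V (fun t => (1 - (2 / Q) • P (Jm m) (vs v (s + t)) (vs v (s + t))) *
        (1 - (2 / Q) • P (Jm m) (vs v s) (vs v s))) _ ?_ ?_ ?_
      · show (1 - (2 / Q) • P (Jm m) (vs v (s + 0)) (vs v (s + 0))) *
          (1 - (2 / Q) • P (Jm m) (vs v s) (vs v s)) = 1
        rw [add_zero]
        exact hRR s
      · intro t
        exact (h3 m V).2.1 _ (hR (s + t)) _ (hR s)
      · intro i j
        have hd : ∀ i, HasDerivAt (fun t => vs v (s + t) i) ((Nm m).mulVec (vs v s) i) 0 := by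
          intro i
          have h6 := vs_deriv h1 v (s + 0) i
          have h7 := HasDerivAt.comp_const_add s 0 h6
          rw [add_zero] at h7
          exact h7
        have h8 := hd_R (Jm m) (fun t => vs v (s + t)) ((Nm m).mulVec (vs v s)) (2 / Q) 0
          (1 - (2 / Q) • P (Jm m) (vs v s) (vs v s)) hd i j
        simp only [add_zero] at h8
        rw [gam (Jm m) hJ _ _ Q hQ (hQs s) (ip_vs' h1 hm _)] at h8
        exact h8
    have h9 := (h4 m V).2.2 _ hg (Q / 2)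
    rw [smul_smul] at h9
    have h10 : Q / 2 * (2 / Q) = 1 := by field_simp
    rw [h10, one_smul] at h9
    exact h9
  -- conjugation
  have hB : ∀ r s, (vs v r ⬝ᵥ (Jm m).mulVec ((Nm m).mulVec (vs v s))) • vs v s -
      (vs v r ⬝ᵥ (Jm m).mulVec (vs v s)) • (Nm m).mulVec (vs v s) ∈ Wr h4 V (Jm m) (vs v r) := by
    intro r s
    show wd (Jm m) (vs v r) _ ∈ LieS V
    rw [conj (Jm m) hJ _ _ _ Q hQ]
    refine (h4 m V).2.2 _ ?_ _
    refine ((h4 m V).2.1 _ ?_ _ ?_).1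
    · exact (h3 m V).2.2 _ (hR r) _ (hR r) (hRR r) _ (hA s)
    · exact (h4 m V).2.2 _ (hA s) _
  have hC : ∀ r s, vs v s ∈ Wr h4 V (Jm m) (vs v r) := by
    intro r s
    by_contra hns
    obtain ⟨f, hf, hker⟩ := Submodule.exists_le_ker_of_notMem hns
    apply hf
    let l : (Fin m → ℂ) →ₗ[ℂ] ℂ :=
      { toFun := fun x => vs v r ⬝ᵥ (Jm m).mulVec x
        map_add' := fun x y => by rw [Matrix.mulVec_add, dotProduct_add]
        map_smul' := fun c x => by
          rw [Matrix.mulVec_smul, dotProduct_smul]; rfl }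
    refine wron (fun s => l (vs v s)) (fun s => f (vs v s))
      (fun s => l ((Nm m).mulVec (vs v s))) (fun s => f ((Nm m).mulVec (vs v s))) r
      (fun s => lin_deriv h1 v l s) (fun s => lin_deriv h1 v f s) ?_ ?_ ?_ s
    · intro s
      have h6 := hker (hB r s)
      rw [LinearMap.mem_ker, map_sub, map_smul, map_smul, sub_eq_zero] at h6
      exact h6
    · refine LinearMap.mem_ker.mp (hker ?_)
      show wd (Jm m) (vs v r) (vs v r) ∈ LieS V
      have h6 : wd (Jm m) (vs v r) (vs v r) = 0 := by rw [wd_eq, sub_self]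
      rw [h6]
      exact (h4 m V).1
    · show vs v r ⬝ᵥ (Jm m).mulVec (vs v r) ≠ 0
      rw [hQs]
      exact hQ
  have hD : ∀ r u, wd (Jm m) (vs v r) u ∈ LieS V := by
    intro r u
    have h6 := (h2 m v hv).1 (Wr h4 V (Jm m) (vs v r)) (hC r)
    have h7 : u ∈ Wr h4 V (Jm m) (vs v r) := by rw [h6]; trivial
    exact h7
  intro a b
  have h6 := (h2 m v hv).1 (Wr h4 V (Jm m) b) (fun s => by
    show wd (Jm m) b (vs v s) ∈ LieS V
    rw [wd_neg]
    exact (h4 m V).2.2 _ (hD s b) _)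
  have h7 : a ∈ Wr h4 V (Jm m) b := by rw [h6]; trivial
  rw [wd_neg]
  exact (h4 m V).2.2 _ h7 _

end Pool.Agent.MUM
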