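import Pool.Agent.MUM.Targets

set_option autoImplicit false

/-!
# PBG: pull-backs are G-functions
-/

namespace Pool.Agent.MUM

open Finset Pool.Agent.LEG Pool.Agent.HEP
open scoped BigOperators Topology

/-- PBG. -/
theorem p_PBG : T_PBG := by
  intro c k f hk hf
  obtain ⟨C, hC⟩ := hf
  set P : ℕ := c.num.natAbs + 1 with hP
  set q : ℕ := c.den with hq
  have hq1 : 1 ≤ q := c.pos
  have hP1 : 1 ≤ P := by omega
  have hcP : |c| ≤ (P : ℚ) := by
    have h1 : |c| = (c.num.natAbs : ℚ) / q := by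
      conv_lhs => rw [← Rat.num_div_den c]
      rw [abs_div, abs_of_nonneg (by positivity : (0 : ℚ) ≤ (c.den : ℚ)), ← hq]
      congr 1
      rw [Nat.cast_natAbs, Int.cast_abs]
    rw [h1, div_le_iff₀ (by exact_mod_cast hq1)]
    have h2 : (1 : ℚ) ≤ q := by exact_mod_cast hq1
    have h3 : (0 : ℚ) ≤ c.num.natAbs := by positivity
    have h4 : (P : ℚ) = c.num.natAbs + 1 := by rw [hP]; push_cast; ring
    rw [h4]
    nlinarith
  refine ⟨(C + 1) * P * q, fun n => ⟨?_, ?_⟩⟩
  · unfold pb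
    rw [PowerSeries.coeff_mk]
    have hC1 : (1 : ℚ) ≤ (C : ℚ) + 1 := by
      have : (0 : ℚ) ≤ C := Nat.cast_nonneg C
      linarith
    have hPq : (1 : ℚ) ≤ P := by exact_mod_cast hP1
    have hqq : (1 : ℚ) ≤ q := by exact_mod_cast hq1
    split_ifs with hd
    · rw [abs_mul, abs_pow]
      have hj : n / k ≤ n := Nat.div_le_self n k
      have e1 : |c| ^ (n / k) ≤ (P : ℚ) ^ (n + 1) :=
        (pow_le_pow_left₀ (abs_nonneg c) hcP _).trans (pow_le_pow_right₀ hPq (by omega))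
      have e2 : |PowerSeries.coeff (n / k) f| ≤ ((C : ℚ) + 1) ^ (n + 1) :=
        ((hC (n / k)).1.trans (pow_le_pow_left₀ (Nat.cast_nonneg C) (by linarith) _)).trans
          (pow_le_pow_right₀ hC1 (by omega))
      have e3 : (1 : ℚ) ≤ (q : ℚ) ^ (n + 1) := one_le_pow₀ hqq
      push_cast
      rw [mul_pow, mul_pow]
      calc |c| ^ (n / k) * |PowerSeries.coeff (n / k) f|
          ≤ (P : ℚ) ^ (n + 1) * ((C : ℚ) + 1) ^ (n + 1) :=
            mul_le_mul e1 e2 (abs_nonneg _) (by positivity)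
        _ = ((C : ℚ) + 1) ^ (n + 1) * (P : ℚ) ^ (n + 1) * 1 := by ring
        _ ≤ _ := mul_le_mul_of_nonneg_left e3 (by positivity)
    · rw [abs_zero]
      positivity
  · obtain ⟨d, hd0, hdC, hd⟩ := (hC n).2
    refine ⟨d * q ^ n, by positivity, ?_, ?_⟩
    · rw [mul_pow, mul_pow]
      have e1 : d ≤ (C + 1) ^ (n + 1) := hdC.trans (Nat.pow_le_pow_left (by omega) _)
      have e2 : 1 ≤ P ^ (n + 1) := Nat.one_le_pow _ _ hP1
      have e3 : q ^ n ≤ q ^ (n + 1) := Nat.pow_le_pow_right hq1 (by omega)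
      calc d * q ^ n ≤ (C + 1) ^ (n + 1) * q ^ (n + 1) := Nat.mul_le_mul e1 e3
        _ = (C + 1) ^ (n + 1) * 1 * q ^ (n + 1) := by ring
        _ ≤ _ := Nat.mul_le_mul_right _ (Nat.mul_le_mul_left _ e2)
    · intro s hs
      unfold pb
      rw [PowerSeries.coeff_mk]
      split_ifs with hds
      · have hj : s / k ≤ n := (Nat.div_le_self s k).trans hs
        obtain ⟨x, hx⟩ := hd (s / k) hj
        refine ⟨(q : ℤ) ^ (n - s / k) * c.num ^ (s / k) * x, ?_⟩
        have h1 : (q : ℚ) ^ n * c ^ (s / k) = (q : ℚ) ^ (n - s / k) * (c.num : ℚ) ^ (s / k) := by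
          have h2 : (q : ℚ) * c = c.num := by
            rw [hq, mul_comm]
            exact Rat.mul_den_eq_num c
          rw [← h2, mul_pow, ← mul_assoc, ← pow_add, Nat.sub_add_cancel hj]
        push_cast
        rw [← hx, ← h1]
        ring
      · exact ⟨0, by simp⟩

end Pool.Agent.MUM
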