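import Pool.Agent.MUM.Targets

set_option autoImplicit false

/-!
# PBO: the Fuchsian system of the pull-back
-/

namespace Pool.Agent.MUM

open Finset Pool.Agent.LEG Pool.Agent.HEP
open scoped BigOperators Topology

namespace PBO_

theorem pb_coeff (c : ℚ) (k : ℕ) (f : PowerSeries ℚ) (n : ℕ) :
    PowerSeries.coeff n (pb c k f) =
      if k ∣ n then c ^ (n / k) * PowerSeries.coeff (n / k) f else 0 := by
  rw [pb, PowerSeries.coeff_mk]

theorem pb_add (c : ℚ) (k : ℕ) (f g : PowerSeries ℚ) : pb c k (f + g) = pb c k f + pb c k g := by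
  ext n
  rw [map_add, pb_coeff, pb_coeff, pb_coeff, map_add]
  split_ifs <;> ring

theorem pb_sub (c : ℚ) (k : ℕ) (f g : PowerSeries ℚ) : pb c k (f - g) = pb c k f - pb c k g := by
  ext n
  rw [map_sub, pb_coeff, pb_coeff, pb_coeff, map_sub]
  split_ifs <;> ring

theorem pb_zero (c : ℚ) (k : ℕ) : pb c k 0 = 0 := by
  ext n
  rw [pb_coeff]
  simp

theorem pb_C (c : ℚ) (k : ℕ) (a : ℚ) (f : PowerSeries ℚ) :
    pb c k (PowerSeries.C a * f) = PowerSeries.C a * pb c k f := by
  ext n
  rw [pb_coeff, PowerSeries.coeff_C_mul, PowerSeries.coeff_C_mul, pb_coeff]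
  split_ifs <;> ring

theorem pb_sum (c : ℚ) (k : ℕ) {ι : Type} (s : Finset ι) (f : ι → PowerSeries ℚ) :
    pb c k (∑ i ∈ s, f i) = ∑ i ∈ s, pb c k (f i) := by
  classical
  induction s using Finset.induction_on with
  | empty => simp [pb_zero]
  | insert a s ha ih => rw [sum_insert ha, sum_insert ha, pb_add, ih]

theorem pb_X (c : ℚ) (k : ℕ) (hk : 1 ≤ k) (f : PowerSeries ℚ) :
    pb c k (PowerSeries.X * f) = PowerSeries.C c * PowerSeries.X ^ k * pb c k f := by
  ext n
  rw [mul_assoc, PowerSeries.coeff_C_mul, PowerSeries.coeff_X_pow_mul', pb_coeff]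
  by_cases hn : k ∣ n
  · obtain ⟨q, rfl⟩ := hn
    rw [if_pos (dvd_mul_right k q), Nat.mul_div_cancel_left _ hk]
    cases q with
    | zero =>
      rw [mul_zero, if_neg (by omega)]
      simp
    | succ q =>
      rw [if_pos (Nat.le_mul_of_pos_right k (Nat.succ_pos q)), pb_coeff]
      have h1 : k * (q + 1) - k = k * q := by
        rw [Nat.mul_succ, Nat.add_sub_cancel]
      rw [h1, if_pos (dvd_mul_right k q), Nat.mul_div_cancel_left _ hk,
        PowerSeries.coeff_succ_X_mul]
      ring
  · rw [if_neg hn]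
    split_ifs with h
    · rw [pb_coeff, if_neg, mul_zero]
      intro h'
      apply hn
      have := Nat.dvd_add h' (dvd_refl k)
      rwa [Nat.sub_add_cancel h] at this
    · rw [mul_zero]

theorem coeff_XD (f : PowerSeries ℚ) (n : ℕ) :
    PowerSeries.coeff n (PowerSeries.X * PowerSeries.derivative ℚ f) =
      n * PowerSeries.coeff n f := by
  cases n with
  | zero => simp
  | succ n =>
    rw [PowerSeries.coeff_succ_X_mul, PowerSeries.coeff_derivative]
    push_cast
    ring

theorem pb_XD (c : ℚ) (k : ℕ) (hk : 1 ≤ k) (f : PowerSeries ℚ) :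
    PowerSeries.X * PowerSeries.derivative ℚ (pb c k f) =
      PowerSeries.C (k : ℚ) * pb c k (PowerSeries.X * PowerSeries.derivative ℚ f) := by
  ext n
  rw [coeff_XD, PowerSeries.coeff_C_mul, pb_coeff, pb_coeff]
  split_ifs with h
  · obtain ⟨q, rfl⟩ := h
    rw [Nat.mul_div_cancel_left _ hk, coeff_XD]
    push_cast
    ring
  · simp

/-- the denominator -/
noncomputable def TT (c : ℚ) (k : ℕ) : Polynomial ℚ :=
  Polynomial.X * (1 - Polynomial.C c * Polynomial.X ^ k)

theorem TT_sep (c : ℚ) (k : ℕ) (hk : 1 ≤ k) : (TT c k).Separable := by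
  obtain ⟨r, rfl⟩ : ∃ r, k = r + 1 := ⟨k - 1, by omega⟩
  have hk0 : ((r : ℚ) + 1) ≠ 0 := by positivity
  have hD : Polynomial.derivative (TT c (r + 1)) =
      1 - Polynomial.C ((r : ℚ) + 1 + 1) * (Polynomial.C c * Polynomial.X ^ (r + 1)) := by
    unfold TT
    rw [Polynomial.derivative_mul, Polynomial.derivative_X, Polynomial.derivative_sub,
      Polynomial.derivative_one, Polynomial.derivative_C_mul, Polynomial.derivative_X_pow]
    simp only [Nat.add_sub_cancel, map_add, map_one, Polynomial.C_eq_natCast, Nat.cast_add,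
      Nat.cast_one]
    ring
  refine ⟨Polynomial.C (((r : ℚ) + 1 + 1) ^ 2 * c / ((r : ℚ) + 1)) * Polynomial.X ^ r,
    1 - Polynomial.C (((r : ℚ) + 1 + 1) / ((r : ℚ) + 1)) *
      (Polynomial.C c * Polynomial.X ^ (r + 1)), ?_⟩
  rw [hD]
  unfold TT
  have e1 : Polynomial.C (((r : ℚ) + 1 + 1) ^ 2 * c / ((r : ℚ) + 1)) =
      Polynomial.C ((r : ℚ) + 1 + 1) ^ 2 * Polynomial.C c * Polynomial.C (1 / ((r : ℚ) + 1)) := by
    rw [← Polynomial.C_pow, ← Polynomial.C_mul, ← Polynomial.C_mul]
    congr 1
    ring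
  have e2 : Polynomial.C (((r : ℚ) + 1 + 1) / ((r : ℚ) + 1)) =
      Polynomial.C ((r : ℚ) + 1 + 1) * Polynomial.C (1 / ((r : ℚ) + 1)) := by
    rw [← Polynomial.C_mul]
    congr 1
    ring
  have e3 : Polynomial.C ((r : ℚ) + 1 + 1) * Polynomial.C (1 / ((r : ℚ) + 1)) -
      Polynomial.C (1 / ((r : ℚ) + 1)) = 1 := by
    rw [← Polynomial.C_mul, ← Polynomial.C_sub, ← Polynomial.C_1]
    congr 1
    field_simp
    ring
  rw [e1, e2]
  linear_combination (Polynomial.C ((r : ℚ) + 1 + 1) * Polynomial.C c *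
    Polynomial.X ^ (r + 1)) * e3

theorem TT_degree (c : ℚ) (k : ℕ) (hc : c ≠ 0) (hk : 1 ≤ k) :
    (TT c k).degree = ((k + 1 : ℕ) : WithBot ℕ) := by
  have h1 : (Polynomial.C c * Polynomial.X ^ k : Polynomial ℚ).degree = (k : WithBot ℕ) :=
    Polynomial.degree_C_mul_X_pow k hc
  have h2 : (1 - Polynomial.C c * Polynomial.X ^ k : Polynomial ℚ).degree = (k : WithBot ℕ) := by
    rw [Polynomial.degree_sub_eq_right_of_degree_lt, h1]
    rw [h1, Polynomial.degree_one]
    exact_mod_cast hk
  unfold TT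
  rw [Polynomial.degree_mul, h2, Polynomial.degree_X]
  push_cast
  rw [add_comm]

/-- the coefficients that keep the second index -/
noncomputable def P1 {m : ℕ} (α : Fin m → ℚ) (c : ℚ) (k : ℕ) (a b : Fin m) : Polynomial ℚ :=
  if (a : ℕ) + 1 < m then
    (if (b : ℕ) = a + 1 then Polynomial.C (k : ℚ) * (1 - Polynomial.C c * Polynomial.X ^ k) else 0)
  else Polynomial.C ((k : ℚ) * c * (Qp α).coeff b) * Polynomial.X ^ k

/-- the matrix of the system -/
noncomputable def AA {m : ℕ} (α : Fin m → ℚ) (c : ℚ) (k : ℕ) (p q : Fin m × Fin m) :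
    Polynomial ℚ :=
  (if q.2 = p.2 then P1 α c k p.1 q.1 else 0) -
    (if q.1 = p.1 then (if (q.2 : ℕ) + 1 = p.2 then
      Polynomial.C (k : ℚ) * (1 - Polynomial.C c * Polynomial.X ^ k) else 0) else 0)

theorem deg1 (c : ℚ) (k : ℕ) :
    (Polynomial.C (k : ℚ) * (1 - Polynomial.C c * Polynomial.X ^ k)).degree ≤
      (k : WithBot ℕ) := by
  refine (Polynomial.degree_mul_le _ _).trans ?_
  refine (add_le_add Polynomial.degree_C_le le_rfl).trans ?_
  rw [zero_add]
  refine (Polynomial.degree_sub_le _ _).trans (max_le ?_ (Polynomial.degree_C_mul_X_pow_le _ _))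
  rw [Polynomial.degree_one]
  exact_mod_cast Nat.zero_le k

theorem AA_degree {m : ℕ} (α : Fin m → ℚ) (c : ℚ) (k : ℕ) (p q : Fin m × Fin m) :
    (AA α c k p q).degree ≤ (k : WithBot ℕ) := by
  unfold AA
  refine (Polynomial.degree_sub_le _ _).trans (max_le ?_ ?_)
  · split_ifs
    · unfold P1
      split_ifs
      · exact deg1 c k
      · rw [Polynomial.degree_zero]
        exact bot_le
      · exact Polynomial.degree_C_mul_X_pow_le _ _
    · rw [Polynomial.degree_zero]
      exact bot_le
  · split_ifs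
    · exact deg1 c k
    · rw [Polynomial.degree_zero]
      exact bot_le
    · rw [Polynomial.degree_zero]
      exact bot_le

theorem coe_ite {p : Prop} [Decidable p] (f : Polynomial ℚ) :
    (((if p then f else 0 : Polynomial ℚ)) : PowerSeries ℚ) = if p then (f : PowerSeries ℚ) else 0 := by
  split_ifs
  · rfl
  · exact Polynomial.coe_zero

theorem hor {m : ℕ} (α : Fin m → ℚ) (c : ℚ) (k : ℕ) (hk : 1 ≤ k) (h : T_REC) :
    Hor (TT c k) (AA α c k) (fun p : Fin m × Fin m => pb c k (Sf α p.1 p.2)) := by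
  obtain ⟨-, hB, hC⟩ := h m α
  rintro ⟨a, j⟩
  -- the left side
  have hT : ((TT c k : Polynomial ℚ) : PowerSeries ℚ) =
      (1 - PowerSeries.C c * PowerSeries.X ^ k) * PowerSeries.X := by
    unfold TT
    rw [Polynomial.coe_mul, Polynomial.coe_sub, Polynomial.coe_mul, Polynomial.coe_X,
      Polynomial.coe_pow, Polynomial.coe_X, Polynomial.coe_C, Polynomial.coe_one, mul_comm]
  have hQ : ((Polynomial.C (k : ℚ) * (1 - Polynomial.C c * Polynomial.X ^ k) :
      Polynomial ℚ) : PowerSeries ℚ) =
      PowerSeries.C (k : ℚ) * (1 - PowerSeries.C c * PowerSeries.X ^ k) := by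
    rw [Polynomial.coe_mul, Polynomial.coe_sub, Polynomial.coe_mul,
      Polynomial.coe_pow, Polynomial.coe_X, Polynomial.coe_C, Polynomial.coe_C, Polynomial.coe_one]
  have hL : ((TT c k : Polynomial ℚ) : PowerSeries ℚ) *
      PowerSeries.derivative ℚ (pb c k (Sf α a j)) =
      (1 - PowerSeries.C c * PowerSeries.X ^ k) * (PowerSeries.C (k : ℚ) *
        (pb c k (Sf α (a + 1) j) -
          (if (j : ℕ) = 0 then 0 else pb c k (Sf α a (j - 1))))) := by
    rw [hT, mul_assoc, pb_XD c k hk, hB, pb_sub]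
    split_ifs
    · rw [pb_zero]
    · rfl
  show ((TT c k : Polynomial ℚ) : PowerSeries ℚ) *
      PowerSeries.derivative ℚ (pb c k (Sf α a j)) = _
  rw [hL]
  -- the right side
  have hR : ∑ q : Fin m × Fin m, ((AA α c k (a, j) q : Polynomial ℚ) : PowerSeries ℚ) *
        pb c k (Sf α q.1 q.2) =
      ∑ b : Fin m, ((P1 α c k a b : Polynomial ℚ) : PowerSeries ℚ) * pb c k (Sf α b j) -
        PowerSeries.C (k : ℚ) * (1 - PowerSeries.C c * PowerSeries.X ^ k) *
          (if (j : ℕ) = 0 then 0 else pb c k (Sf α a (j - 1))) := by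
    have h1 : ∀ q : Fin m × Fin m, ((AA α c k (a, j) q : Polynomial ℚ) : PowerSeries ℚ) *
        pb c k (Sf α q.1 q.2) =
        (if q.2 = j then ((P1 α c k a q.1 : Polynomial ℚ) : PowerSeries ℚ) *
          pb c k (Sf α q.1 q.2) else 0) -
        (if q.1 = a then (if (q.2 : ℕ) + 1 = j then
          PowerSeries.C (k : ℚ) * (1 - PowerSeries.C c * PowerSeries.X ^ k) *
          pb c k (Sf α q.1 q.2) else 0) else 0) := by
      intro q
      unfold AA
      rw [Polynomial.coe_sub, coe_ite, coe_ite, coe_ite, hQ, sub_mul]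
      congr 1
      · split_ifs
        · rfl
        · rw [zero_mul]
      · split_ifs
        · rfl
        · rw [zero_mul]
        · rw [zero_mul]
    rw [sum_congr rfl (fun q _ => h1 q), sum_sub_distrib]
    congr 1
    · rw [Fintype.sum_prod_type]
      apply sum_congr rfl
      intro b _
      simp only
      rw [sum_ite_eq' univ j, if_pos (mem_univ j)]
    · rw [Fintype.sum_prod_type, sum_eq_single a]
      · simp only [if_true]
        by_cases hj : (j : ℕ) = 0
        · rw [if_pos hj, mul_zero]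
          apply sum_eq_zero
          intro i _
          rw [if_neg (by omega)]
        · rw [if_neg hj]
          rw [sum_eq_single (⟨(j : ℕ) - 1, by omega⟩ : Fin m)]
          · rw [if_pos (by simp only; omega)]
          · intro i _ hi
            rw [if_neg]
            intro h'
            apply hi
            apply Fin.ext
            simp only
            omega
          · intro h'
            exact absurd (mem_univ _) h'
      · intro b _ hb
        apply sum_eq_zero
        intro i _
        rw [if_neg hb]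
      · intro h'
        exact absurd (mem_univ _) h'
  rw [hR]
  -- the rows
  have hP : ∑ b : Fin m, ((P1 α c k a b : Polynomial ℚ) : PowerSeries ℚ) * pb c k (Sf α b j) =
      (1 - PowerSeries.C c * PowerSeries.X ^ k) * (PowerSeries.C (k : ℚ) *
        pb c k (Sf α (a + 1) j)) := by
    by_cases ha : (a : ℕ) + 1 < m
    · rw [sum_eq_single (⟨(a : ℕ) + 1, ha⟩ : Fin m)]
      · unfold P1
        rw [if_pos ha, if_pos rfl, hQ]
        ring
      · intro b _ hb
        unfold P1
        rw [if_pos ha, if_neg, Polynomial.coe_zero, zero_mul]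
        intro h'
        apply hb
        apply Fin.ext
        exact h'
      · intro h'
        exact absurd (mem_univ _) h'
    · have ham : (a : ℕ) + 1 = m := by omega
      have h1 : ∀ b : Fin m, ((P1 α c k a b : Polynomial ℚ) : PowerSeries ℚ) *
          pb c k (Sf α b j) = PowerSeries.C (k : ℚ) * (PowerSeries.C c * PowerSeries.X ^ k) *
            (PowerSeries.C ((Qp α).coeff b) * pb c k (Sf α b j)) := by
        intro b
        unfold P1
        rw [if_neg ha, Polynomial.coe_mul, Polynomial.coe_C, Polynomial.coe_pow, Polynomial.coe_X,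
          map_mul, map_mul]
        ring
      rw [sum_congr rfl (fun b _ => h1 b), ← mul_sum, ham]
      have h2 : ∑ b : Fin m, PowerSeries.C ((Qp α).coeff b) * pb c k (Sf α b j) =
          pb c k (∑ b ∈ range m, PowerSeries.C ((Qp α).coeff b) * Sf α b j) := by
        rw [pb_sum, ← Fin.sum_univ_eq_sum_range
          (fun b => pb c k (PowerSeries.C ((Qp α).coeff b) * Sf α b j)) m]
        apply sum_congr rfl
        intro b _
        rw [pb_C]
      have h3 : (1 - PowerSeries.C c * PowerSeries.X ^ k) * pb c k (Sf α m j) =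
          PowerSeries.C c * PowerSeries.X ^ k *
            pb c k (∑ b ∈ range m, PowerSeries.C ((Qp α).coeff b) * Sf α b j) := by
        rw [← pb_X c k hk, ← hC j j.isLt, sub_mul, one_mul, sub_mul, one_mul, pb_sub,
          pb_X c k hk]
      rw [h2, mul_assoc, ← h3]
      ring
  rw [hP]
  ring

end PBO_

theorem p_PBO (h : T_REC) (_h2 : T_SQ) : T_PBO := by
  intro m α c k _ hc hk
  refine ⟨PBO_.TT c k, PBO_.AA α c k, (PBO_.TT_sep c k hk).squarefree, ?_, PBO_.hor α c k hk h⟩
  intro p q
  rw [PBO_.TT_degree c k hc hk]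
  refine lt_of_le_of_lt (PBO_.AA_degree α c k p q) ?_
  exact_mod_cast Nat.lt_succ_self k

end Pool.Agent.MUM
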