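import Pool.Agent.MUM.Targets
import Pool.Agent.HEP.EVCC

set_option autoImplicit false

/-! MUM-PBR: the functional relations of the pull-back. -/

namespace Pool.Agent.MUM

open Finset Pool.Agent.LEG Pool.Agent.HEP
open scoped BigOperators Topology

namespace PBR_

open Pool.Agent.HEP.EVCC_

/-- the section `∑ f_{k n + i} x ^ n` -/
noncomputable def sec (k i : ℕ) (f : PowerSeries ℚ) : PowerSeries ℚ :=
  PowerSeries.mk fun n => PowerSeries.coeff (k * n + i) f

/-- `h (x ^ k)` -/
noncomputable def ex (k : ℕ) (h : PowerSeries ℚ) : PowerSeries ℚ :=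
  PowerSeries.mk fun n => if k ∣ n then PowerSeries.coeff (n / k) h else 0

lemma sec_add (k i : ℕ) (f g : PowerSeries ℚ) : sec k i (f + g) = sec k i f + sec k i g := by
  ext n
  simp [sec]

lemma sec_zero (k i : ℕ) : sec k i 0 = 0 := by
  ext n
  simp [sec]

lemma sec_sum (k i : ℕ) {ι : Type*} (s : Finset ι) (f : ι → PowerSeries ℚ) :
    sec k i (∑ a ∈ s, f a) = ∑ a ∈ s, sec k i (f a) := by
  classical
  induction s using Finset.induction_on with
  | empty => simp [sec_zero]
  | insert a s ha ih => rw [sum_insert ha, sum_insert ha, sec_add, ih]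

lemma sec_mul {k : ℕ} (hk : 1 ≤ k) (i : ℕ) (hi : i < k) (r h : PowerSeries ℚ) :
    sec k i (r * ex k h) = sec k i r * h := by
  ext n
  rw [sec, PowerSeries.coeff_mk, PowerSeries.coeff_mul, PowerSeries.coeff_mul]
  symm
  refine Finset.sum_bij_ne_zero (fun p _ _ => (k * p.1 + i, k * p.2)) ?_ ?_ ?_ ?_
  · intro p hp _
    rw [HasAntidiagonal.mem_antidiagonal] at hp ⊢
    rw [← hp]
    simp only
    ring
  · intro p hp _ q hq _ hpq
    simp only [Prod.mk.injEq] at hpq
    obtain ⟨h1, h2⟩ := hpq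
    have h3 : k * p.1 = k * q.1 := by omega
    exact Prod.ext (Nat.eq_of_mul_eq_mul_left hk h3) (Nat.eq_of_mul_eq_mul_left hk h2)
  · intro p hp hne
    rw [HasAntidiagonal.mem_antidiagonal] at hp
    have hd : k ∣ p.2 := by
      by_contra hcon
      apply hne
      rw [ex, PowerSeries.coeff_mk, if_neg hcon, mul_zero]
    obtain ⟨b, hb⟩ := hd
    have hbn : b ≤ n := by
      by_contra hcon
      push Not at hcon
      have h1 : k * (n + 1) ≤ k * b := Nat.mul_le_mul_left k hcon
      rw [mul_add, mul_one] at h1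
      omega
    have hmul : k * n = k * (n - b) + k * b := by
      rw [← mul_add, Nat.sub_add_cancel hbn]
    refine ⟨(n - b, b), ?_, ?_, ?_⟩
    · rw [HasAntidiagonal.mem_antidiagonal]
      simp only
      omega
    · intro h0
      apply hne
      have e1 : p.1 = k * (n - b) + i := by omega
      rw [e1, hb, ex, PowerSeries.coeff_mk, if_pos (dvd_mul_right k b), Nat.mul_div_cancel_left b hk]
      rw [sec, PowerSeries.coeff_mk] at h0
      exact h0
    · refine Prod.ext ?_ ?_
      · simp only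
        omega
      · simp only
        exact hb.symm
  · intro p hp _
    simp only
    rw [sec, PowerSeries.coeff_mk, ex, PowerSeries.coeff_mk, if_pos (dvd_mul_right k p.2),
      Nat.mul_div_cancel_left p.2 hk]

lemma sec_ex {k : ℕ} (hk : 1 ≤ k) (i : ℕ) (hi : i < k) (f : PowerSeries ℚ) :
    sec k i (ex k f) = if i = 0 then f else 0 := by
  have h := sec_mul hk i hi 1 f
  rw [one_mul] at h
  rw [h]
  have h1 : sec k i 1 = if i = 0 then 1 else 0 := by
    ext n
    rw [sec, PowerSeries.coeff_mk, PowerSeries.coeff_one]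
    by_cases hi0 : i = 0
    · subst hi0
      rw [if_pos rfl, PowerSeries.coeff_one, add_zero]
      by_cases hn : n = 0
      · simp [hn]
      · rw [if_neg hn, if_neg]
        exact Nat.mul_ne_zero (by omega) hn
    · rw [if_neg hi0, if_neg (by omega)]
      simp
  rw [h1]
  by_cases hi0 : i = 0
  · simp [hi0]
  · simp [hi0]

lemma eq_of_sec {k : ℕ} (hk : 1 ≤ k) {f g : PowerSeries ℚ}
    (h : ∀ i < k, sec k i f = sec k i g) : f = g := by
  ext n
  have h1 := congrArg (PowerSeries.coeff (n / k)) (h (n % k) (Nat.mod_lt _ hk))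
  rw [sec, sec, PowerSeries.coeff_mk, PowerSeries.coeff_mk, Nat.div_add_mod] at h1
  exact h1

lemma ex_mul {k : ℕ} (hk : 1 ≤ k) (f g : PowerSeries ℚ) : ex k (f * g) = ex k f * ex k g := by
  refine eq_of_sec hk fun i hi => ?_
  rw [sec_mul hk i hi, sec_ex hk i hi, sec_ex hk i hi]
  split_ifs <;> simp

lemma ex_one {k : ℕ} (hk : 1 ≤ k) : ex k 1 = 1 := by
  ext n
  rw [ex, PowerSeries.coeff_mk, PowerSeries.coeff_one, PowerSeries.coeff_one]
  by_cases hn : n = 0
  · simp [hn]
  · rw [if_neg hn]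
    split_ifs with h1 h2
    · exfalso
      obtain ⟨b, rfl⟩ := h1
      rw [Nat.mul_div_cancel_left b hk] at h2
      rw [h2, mul_zero] at hn
      exact hn rfl
    · rfl
    · rfl

/-- `ex k` as a monoid homomorphism -/
noncomputable def exM {k : ℕ} (hk : 1 ≤ k) : PowerSeries ℚ →* PowerSeries ℚ where
  toFun := ex k
  map_one' := ex_one hk
  map_mul' := ex_mul hk

lemma pb_eq (c : ℚ) (k : ℕ) (f : PowerSeries ℚ) : pb c k f = ex k (PowerSeries.rescale c f) := by
  ext n
  rw [pb, ex, PowerSeries.coeff_mk, PowerSeries.coeff_mk, PowerSeries.coeff_rescale]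

/-- sections of polynomials -/
noncomputable def secP (k i : ℕ) (r : Polynomial ℚ) : Polynomial ℚ :=
  ∑ n ∈ range (r.natDegree + 1), Polynomial.monomial n (r.coeff (k * n + i))

lemma secP_coeff {k : ℕ} (hk : 1 ≤ k) (i : ℕ) (r : Polynomial ℚ) (n : ℕ) :
    (secP k i r).coeff n = r.coeff (k * n + i) := by
  rw [secP, Polynomial.finsetSum_coeff]
  simp only [Polynomial.coeff_monomial]
  rw [Finset.sum_ite_eq']
  split_ifs with h
  · rfl
  · rw [mem_range, not_lt] at h
    symm
    apply Polynomial.coeff_eq_zero_of_natDegree_lt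
    have : 1 * n ≤ k * n := Nat.mul_le_mul_right n hk
    omega

lemma sec_poly {k : ℕ} (hk : 1 ≤ k) (i : ℕ) (r : Polynomial ℚ) :
    sec k i (r : PowerSeries ℚ) = (secP k i r : PowerSeries ℚ) := by
  ext n
  rw [sec, PowerSeries.coeff_mk, Polynomial.coeff_coe, Polynomial.coeff_coe, secP_coeff hk]

lemma eval_sec {k : ℕ} (hk : 1 ≤ k) (r : Polynomial ℚ) (x : ℂ) :
    Polynomial.aeval x r = ∑ i ∈ range k, x ^ i * Polynomial.aeval (x ^ k) (secP k i r) := by
  have h1 : ∀ i, Polynomial.aeval (x ^ k) (secP k i r) =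
      ∑ n ∈ range (r.natDegree + 1), ((r.coeff (k * n + i) : ℚ) : ℂ) * x ^ (k * n) := by
    intro i
    rw [secP, map_sum]
    refine sum_congr rfl fun n _ => ?_
    rw [Polynomial.aeval_monomial, ← pow_mul]
    rfl
  simp only [h1]
  have h2 : Polynomial.aeval x r = ∑ n ∈ range (k * (r.natDegree + 1)),
      ((r.coeff n : ℚ) : ℂ) * x ^ n := by
    have h3 : r.natDegree < k * (r.natDegree + 1) := by nlinarith
    rw [Polynomial.aeval_eq_sum_range' h3]
    refine sum_congr rfl fun n _ => ?_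
    rw [Rat.smul_def]
  rw [h2]
  have h4 : ∀ N : ℕ, ∑ n ∈ range (k * N), ((r.coeff n : ℚ) : ℂ) * x ^ n =
      ∑ i ∈ range k, x ^ i * ∑ n ∈ range N, ((r.coeff (k * n + i) : ℚ) : ℂ) * x ^ (k * n) := by
    intro N
    induction N with
    | zero => simp
    | succ N ih =>
      rw [mul_add, mul_one, Finset.sum_range_add, ih, ← sum_add_distrib]
      refine sum_congr rfl fun i _ => ?_
      rw [Finset.sum_range_succ, mul_add, pow_add]
      ring
  exact h4 _

/-! ### evaluation -/

lemma cv_mul {f g : PowerSeries ℚ} {x : ℂ} (hf : CV f x) (hg : CV g x) : CV (f * g) x := by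
  unfold CV at *
  have e : ∀ n, co (f * g) n * x ^ n =
      ∑ p ∈ antidiagonal n, (co f p.1 * x ^ p.1) * (co g p.2 * x ^ p.2) := fun n => by
    rw [co_mul, sum_mul]
    refine sum_congr rfl fun p hp => ?_
    rw [← mem_antidiagonal.1 hp, pow_add]
    ring
  have h := summable_norm_sum_mul_antidiagonal_of_summable_norm
    (f := fun n => co f n * x ^ n) (g := fun n => co g n * x ^ n) hf hg
  refine h.congr fun n => ?_
  rw [e n]

lemma cv_poly (p : Polynomial ℚ) (x : ℂ) : CV (p : PowerSeries ℚ) x := by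
  unfold CV
  refine summable_of_ne_finset_zero (s := range (p.natDegree + 1)) fun n hn => ?_
  rw [mem_range, not_lt] at hn
  unfold co
  rw [Polynomial.coeff_coe, Polynomial.coeff_eq_zero_of_natDegree_lt (by omega)]
  simp

lemma cv_one (x : ℂ) : CV 1 x := by
  have := cv_poly 1 x
  rwa [Polynomial.coe_one] at this

lemma ev_one (x : ℂ) : evC 1 x = 1 := by
  have := poly_case 1 x
  rwa [Polynomial.coe_one, map_one] at this

lemma cv_pow {f : PowerSeries ℚ} {x : ℂ} (hf : CV f x) (n : ℕ) :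
    CV (f ^ n) x ∧ evC (f ^ n) x = evC f x ^ n := by
  induction n with
  | zero => exact ⟨by rw [pow_zero]; exact cv_one x, by rw [pow_zero, pow_zero, ev_one]⟩
  | succ n ih =>
    rw [pow_succ, pow_succ]
    exact ⟨cv_mul ih.1 hf, by rw [mul_case ih.1 hf, ih.2]⟩

lemma cv_prod {ι : Type*} (s : Finset ι) (f : ι → PowerSeries ℚ) {x : ℂ}
    (hf : ∀ i ∈ s, CV (f i) x) : CV (∏ i ∈ s, f i) x ∧ evC (∏ i ∈ s, f i) x = ∏ i ∈ s, evC (f i) x := by
  classical
  induction s using Finset.induction_on with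
  | empty => exact ⟨by rw [prod_empty]; exact cv_one x, by rw [prod_empty, prod_empty, ev_one]⟩
  | insert a s ha ih =>
    have h1 := ih fun i hi => hf i (mem_insert_of_mem hi)
    have h2 := hf a (mem_insert_self _ _)
    rw [prod_insert ha, prod_insert ha]
    exact ⟨cv_mul h2 h1.1, by rw [mul_case h2 h1.1, h1.2]⟩

lemma cv_zero (x : ℂ) : CV 0 x := by
  have := cv_poly 0 x
  rwa [Polynomial.coe_zero] at this

lemma ev_zero (x : ℂ) : evC 0 x = 0 := by simp [evC]

lemma cv_add {f g : PowerSeries ℚ} {x : ℂ} (hf : CV f x) (hg : CV g x) : CV (f + g) x := by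
  unfold CV at *
  refine Summable.of_nonneg_of_le (fun n => norm_nonneg _) (fun n => ?_) (hf.add hg)
  rw [co_add, add_mul]
  exact norm_add_le _ _

lemma cv_sum {ι : Type*} (s : Finset ι) (f : ι → PowerSeries ℚ) {x : ℂ}
    (hf : ∀ i ∈ s, CV (f i) x) : CV (∑ i ∈ s, f i) x ∧ evC (∑ i ∈ s, f i) x = ∑ i ∈ s, evC (f i) x := by
  classical
  induction s using Finset.induction_on with
  | empty => exact ⟨by rw [sum_empty]; exact cv_zero x, by rw [sum_empty, sum_empty, ev_zero]⟩
  | insert a s ha ih =>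
    have h1 := ih fun i hi => hf i (mem_insert_of_mem hi)
    have h2 := hf a (mem_insert_self _ _)
    rw [sum_insert ha, sum_insert ha]
    exact ⟨cv_add h2 h1.1, by rw [add_case h2 h1.1, h1.2]⟩

lemma co_rescale (c : ℚ) (f : PowerSeries ℚ) (n : ℕ) (x : ℂ) :
    co (PowerSeries.rescale c f) n * x ^ n = co f n * ((c : ℂ) * x) ^ n := by
  unfold co
  rw [PowerSeries.coeff_rescale, mul_pow]
  push_cast
  ring

lemma cv_rescale (c : ℚ) {f : PowerSeries ℚ} {x : ℂ} (hf : CV f ((c : ℂ) * x)) :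
    CV (PowerSeries.rescale c f) x := by
  unfold CV at *
  simp only [co_rescale]
  exact hf

lemma ev_rescale (c : ℚ) (f : PowerSeries ℚ) (x : ℂ) :
    evC (PowerSeries.rescale c f) x = evC f ((c : ℂ) * x) := by
  rw [ev_eq, ev_eq]
  exact tsum_congr fun n => co_rescale c f n x

end PBR_

open PBR_ Pool.Agent.HEP.EVCC_ in
theorem p_PBR (h1 : T_CORE) (h2 : T_AN) : T_PBR := by
  intro m α c k hα hc hk R hR g hg N hN hcN
  obtain ⟨-, -, -, hAN, -⟩ := h2 m α hα
  have hcC : (c : ℂ) ≠ 0 := by exact_mod_cast hc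
  -- absolute convergence in the unit disc
  have hCV : ∀ (p : Fin m × Fin m) (z : ℂ), z ∈ Metric.ball (0 : ℂ) 1 → CV (Sf α p.1 p.2) z := by
    intro p z hz
    have h := (hAN z hz p.1 p.2).summable.norm
    exact h
  -- the functional relations for the sections
  have hsec : ∀ i < k, ∑ d ∈ R.support, (secP k i (R.coeff d) : PowerSeries ℚ) *
      ∏ p : Fin m × Fin m, (PowerSeries.rescale c (Sf α p.1 p.2)) ^ d p = 0 := by
    intro i hi
    have e1 := congrArg (sec k i) hR
    rw [MvPolynomial.eval₂_eq', sec_sum, sec_zero] at e1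
    rw [← e1]
    refine sum_congr rfl fun d _ => ?_
    have e2 : ∏ p : Fin m × Fin m, pb c k (Sf α p.1 p.2) ^ d p =
        ex k (∏ p : Fin m × Fin m, (PowerSeries.rescale c (Sf α p.1 p.2)) ^ d p) := by
      have e3 := map_prod (exM hk)
        (fun p : Fin m × Fin m => (PowerSeries.rescale c (Sf α p.1 p.2)) ^ d p) univ
      simp only [map_pow] at e3
      refine Eq.trans ?_ e3.symm
      refine prod_congr rfl fun p _ => ?_
      rw [pb_eq]
      rfl
    rw [e2]
    have e4 : (Polynomial.coeToPowerSeries.ringHom (MvPolynomial.coeff d R) : PowerSeries ℚ) =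
        ((MvPolynomial.coeff d R : Polynomial ℚ) : PowerSeries ℚ) := rfl
    rw [e4, sec_mul hk i hi, sec_poly hk]
  -- the polynomial relations
  set Ψ : ℕ → Pol m := fun i => ∑ d ∈ R.support, MvPolynomial.monomial d
    (((secP k i (R.coeff d)).map (algebraMap ℚ ℂ)).comp (Polynomial.C ((c : ℂ)⁻¹) * Polynomial.X))
    with hΨ
  have hev : ∀ (i : ℕ) (z : ℂ) (X : Mat m), evP z X (Ψ i) = ∑ d ∈ R.support,
      Polynomial.aeval ((c : ℂ)⁻¹ * z) (secP k i (R.coeff d)) * ∏ p : Fin m × Fin m, X p.1 p.2 ^ d p := by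
    intro i z X
    unfold evP
    rw [hΨ]
    simp only
    rw [MvPolynomial.eval₂_sum]
    refine sum_congr rfl fun d _ => ?_
    rw [MvPolynomial.eval₂_monomial]
    congr 1
    · rw [Polynomial.coe_evalRingHom, Polynomial.eval_comp, Polynomial.eval_mul, Polynomial.eval_C,
        Polynomial.eval_X, Polynomial.eval_map, Polynomial.aeval_def]
    · rw [Finsupp.prod_fintype _ _ fun _ => pow_zero _]
  have hrel : ∀ i < k, Rel (Gr α) (Ψ i) := by
    rintro i hi ⟨z, X⟩ ⟨hz, hX⟩
    simp only at hz hX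
    simp only
    rw [hev, hX]
    have hcw : (c : ℂ) * ((c : ℂ)⁻¹ * z) = z := by rw [mul_inv_cancel_left₀ hcC]
    have hpr : ∀ d : Fin m × Fin m →₀ ℕ, CV (∏ p : Fin m × Fin m,
        (PowerSeries.rescale c (Sf α p.1 p.2)) ^ d p) ((c : ℂ)⁻¹ * z) ∧
        evC (∏ p : Fin m × Fin m, (PowerSeries.rescale c (Sf α p.1 p.2)) ^ d p) ((c : ℂ)⁻¹ * z) =
        ∏ p : Fin m × Fin m, evC (Sf α p.1 p.2) z ^ d p := by
      intro d
      have hb : ∀ p : Fin m × Fin m, CV (PowerSeries.rescale c (Sf α p.1 p.2)) ((c : ℂ)⁻¹ * z) := by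
        intro p
        apply cv_rescale
        rw [hcw]
        exact hCV p z hz
      obtain ⟨q1, q2⟩ := cv_prod univ
        (fun p : Fin m × Fin m => (PowerSeries.rescale c (Sf α p.1 p.2)) ^ d p)
        (x := (c : ℂ)⁻¹ * z) fun p _ => (cv_pow (hb p) _).1
      refine ⟨q1, q2.trans ?_⟩
      refine prod_congr rfl fun p _ => ?_
      rw [(cv_pow (hb p) _).2, ev_rescale, hcw]
    have hs := cv_sum R.support (fun d => (secP k i (R.coeff d) : PowerSeries ℚ) *
      ∏ p : Fin m × Fin m, (PowerSeries.rescale c (Sf α p.1 p.2)) ^ d p) (x := (c : ℂ)⁻¹ * z)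
      fun d _ => cv_mul (cv_poly _ _) (hpr d).1
    have hs2 := hs.2
    rw [hsec i hi, ev_zero] at hs2
    rw [hs2]
    refine sum_congr rfl fun d _ => ?_
    rw [mul_case (cv_poly _ _) (hpr d).1, (hpr d).2, poly_case]
    rfl
  -- the point
  have hN0 : (0 : ℝ) < N := by exact_mod_cast hN
  have hNC : (N : ℂ) ≠ 0 := by
    have : (N : ℝ) ≠ 0 := hN0.ne'
    exact_mod_cast this
  set z : ℂ := (c : ℂ) / (N : ℂ) ^ k with hzdef
  have hz : z ∈ Metric.ball (0 : ℂ) 1 := by
    rw [Metric.mem_ball, dist_zero_right, hzdef, norm_div, norm_pow, Complex.norm_natCast,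
      div_lt_one (by positivity)]
    have : ‖(c : ℂ)‖ = |(c : ℝ)| := by
      rw [show (c : ℂ) = ((c : ℝ) : ℂ) by push_cast; rfl, Complex.norm_real, Real.norm_eq_abs]
    rw [this]
    exact hcN
  have hfin : ∀ i < k, evP z (Sv α z * g) (Ψ i) = 0 := fun i hi =>
    h1 m α hα g hg (Ψ i) (hrel i hi) (z, Sv α z) ⟨hz, rfl⟩
  rw [MvPolynomial.eval₂_eq']
  have hcz : (c : ℂ)⁻¹ * z = (1 / (N : ℂ)) ^ k := by
    rw [hzdef, div_eq_mul_inv, inv_mul_cancel_left₀ hcC, one_div, inv_pow]
  have e5 : ∀ d ∈ R.support, ((algebraMap ℚ ℂ).comp (Polynomial.evalRingHom (1 / (N : ℚ))))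
      (MvPolynomial.coeff d R) * ∏ p : Fin m × Fin m, (Sv α z * g) p.1 p.2 ^ d p =
      ∑ i ∈ range k, (1 / (N : ℂ)) ^ i * (Polynomial.aeval ((c : ℂ)⁻¹ * z) (secP k i (R.coeff d)) *
        ∏ p : Fin m × Fin m, (Sv α z * g) p.1 p.2 ^ d p) := by
    intro d _
    have e6 : ((algebraMap ℚ ℂ).comp (Polynomial.evalRingHom (1 / (N : ℚ))))
      (MvPolynomial.coeff d R) = Polynomial.aeval (1 / (N : ℂ)) (MvPolynomial.coeff d R) := by
      rw [RingHom.comp_apply, Polynomial.coe_evalRingHom]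
      have e7 := Polynomial.aeval_algebraMap_apply ℂ (1 / (N : ℚ)) (MvPolynomial.coeff d R)
      have e8 : (algebraMap ℚ ℂ) (1 / (N : ℚ)) = 1 / (N : ℂ) := by
        simp
      rw [e8] at e7
      rw [e7]
      rfl
    rw [e6, eval_sec hk, sum_mul, hcz]
    exact sum_congr rfl fun i _ => mul_assoc _ _ _
  rw [sum_congr rfl e5, sum_comm]
  refine sum_eq_zero fun i hi => ?_
  rw [← mul_sum, ← hev, hfin i (mem_range.1 hi), mul_zero]

end Pool.Agent.MUM
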