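import Pool.Agent.MUM.Targets

/-!
# PBV: values of the pull-back
-/

set_option autoImplicit false

namespace Pool.Agent.MUM

open Pool.Agent.LEG Pool.Agent.HEP

theorem p_PBV : T_PBV := by
  intro f c k N hk hN
  have hk0 : k ≠ 0 := by omega
  unfold ev evC
  rw [Complex.ofReal_tsum]
  have hinj : Function.Injective (fun j : ℕ => k * j) := fun a b h =>
    Nat.eq_of_mul_eq_mul_left (by omega) h
  have hsupp : Function.support (fun n : ℕ =>
      ((((PowerSeries.coeff n (pb c k f) : ℚ) : ℝ) * (1 / (N : ℝ)) ^ n : ℝ) : ℂ)) ⊆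
      Set.range (fun j : ℕ => k * j) := by
    intro n hn
    by_contra hcon
    apply hn
    have hnk : ¬ k ∣ n := by
      rintro ⟨j, hj⟩
      exact hcon ⟨j, hj.symm⟩
    simp [pb, hnk]
  rw [← hinj.tsum_eq hsupp]
  apply tsum_congr
  intro j
  have h1 : PowerSeries.coeff (k * j) (pb c k f) = c ^ j * PowerSeries.coeff j f := by
    simp only [pb, PowerSeries.coeff_mk, dvd_mul_right, if_true]
    rw [Nat.mul_div_cancel_left j (by omega)]
  rw [h1]
  push_cast
  rw [pow_mul, div_pow, div_pow]
  simp only [one_pow]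
  ring

end Pool.Agent.MUM
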