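import Pool.Agent.MUM.Targets

/-!
# MUM-PIC: Picard iteration for linear differential equations on convex open sets
-/

set_option autoImplicit false

namespace Pool.Agent.MUM

open Finset Pool.Agent.LEG Pool.Agent.HEP
open scoped BigOperators Topology

namespace PIC_

theorem prim {Ω : Set ℂ} (hΩ : IsOpen Ω) (hc : Convex ℝ Ω) (t0 : ℂ) (f : ℂ → ℂ)
    (hf : DifferentiableOn ℂ f Ω) :
    ∃ F : ℂ → ℂ, F t0 = 0 ∧ ∀ t ∈ Ω, HasDerivAt F (f t) t := by
  obtain ⟨g, hg⟩ := hc.exists_forall_hasDerivWithinAt hf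
  refine ⟨fun t => g t - g t0, sub_self _, fun t ht => ?_⟩
  exact ((hg t ht).hasDerivAt (hΩ.mem_nhds ht)).sub_const _

theorem bd {Ω : Set ℂ} (hc : Convex ℝ Ω) {t0 : ℂ} (h0 : t0 ∈ Ω) (F f : ℂ → ℂ) (c : ℝ) (n : ℕ)
    (hF0 : F t0 = 0) (hF : ∀ t ∈ Ω, HasDerivAt F (f t) t)
    (hb : ∀ t ∈ Ω, ‖f t‖ ≤ c * ‖t - t0‖ ^ n) :
    ∀ t ∈ Ω, ‖F t‖ ≤ c * ‖t - t0‖ ^ (n + 1) / (n + 1) := by
  intro t ht
  have hmem : ∀ s ∈ Set.Icc (0 : ℝ) 1, t0 + (s : ℂ) * (t - t0) ∈ Ω := by
    intro s hs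
    have h1 := hc h0 ht (sub_nonneg.2 hs.2) hs.1 (by ring)
    have h2 : (1 - s) • t0 + s • t = t0 + (s : ℂ) * (t - t0) := by
      rw [Complex.real_smul, Complex.real_smul]
      push_cast
      ring
    rwa [h2] at h1
  have hder : ∀ s ∈ Set.Icc (0 : ℝ) 1, HasDerivAt (fun s : ℝ => F (t0 + (s : ℂ) * (t - t0)))
      (f (t0 + (s : ℂ) * (t - t0)) * (t - t0)) s := by
    intro s hs
    have h1 : HasDerivAt (fun s : ℝ => t0 + (s : ℂ) * (t - t0)) (t - t0) s := by
      have h2 : HasDerivAt (fun s : ℝ => (s : ℂ)) 1 s := Complex.ofRealCLM.hasDerivAt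
      have h3 := (h2.mul_const (t - t0)).const_add t0
      rw [one_mul] at h3
      exact h3
    exact (hF _ (hmem s hs)).comp s h1
  have hn : ((n : ℝ) + 1) ≠ 0 := by positivity
  have key := image_norm_le_of_norm_deriv_right_le_deriv_boundary (a := (0 : ℝ)) (b := 1)
    (f := fun s : ℝ => F (t0 + (s : ℂ) * (t - t0)))
    (f' := fun s : ℝ => f (t0 + (s : ℂ) * (t - t0)) * (t - t0))
    (B := fun s : ℝ => c * ‖t - t0‖ ^ (n + 1) / (n + 1) * s ^ (n + 1))
    (B' := fun s : ℝ => c * ‖t - t0‖ ^ (n + 1) * s ^ n) ?_ ?_ ?_ ?_ ?_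
  · have h1 := key (Set.right_mem_Icc.2 zero_le_one)
    simpa using h1
  · intro s hs
    exact (hder s hs).continuousAt.continuousWithinAt
  · intro s hs
    exact (hder s ⟨hs.1, hs.2.le⟩).hasDerivWithinAt
  · simp [hF0]
  · intro s
    have h1 := (hasDerivAt_pow (n + 1) s).const_mul (c * ‖t - t0‖ ^ (n + 1) / (n + 1))
    have h2 : c * ‖t - t0‖ ^ (n + 1) / (n + 1) * (((n + 1 : ℕ) : ℝ) * s ^ (n + 1 - 1)) =
        c * ‖t - t0‖ ^ (n + 1) * s ^ n := by
      rw [Nat.add_sub_cancel]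
      push_cast
      field_simp
    rw [h2] at h1
    exact h1
  · intro s hs
    have h1 := hb _ (hmem s ⟨hs.1, hs.2.le⟩)
    have h2 : ‖t0 + (s : ℂ) * (t - t0) - t0‖ = s * ‖t - t0‖ := by
      rw [add_sub_cancel_left, norm_mul, Complex.norm_real, Real.norm_of_nonneg hs.1]
    rw [h2] at h1
    rw [norm_mul]
    calc ‖f (t0 + (s : ℂ) * (t - t0))‖ * ‖t - t0‖ ≤ c * (s * ‖t - t0‖) ^ n * ‖t - t0‖ :=
          mul_le_mul_of_nonneg_right h1 (norm_nonneg _)
      _ = c * ‖t - t0‖ ^ (n + 1) * s ^ n := by ring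

theorem ent {m : ℕ} (A M : Mat m) (K b : ℝ) (hA : ∀ i j, ‖A i j‖ ≤ K) (hM : ∀ i j, ‖M i j‖ ≤ b)
    (hK : 0 ≤ K) (i j : Fin m) : ‖(A * M) i j‖ ≤ (m * K) * b := by
  rw [Matrix.mul_apply]
  calc ‖∑ k, A i k * M k j‖ ≤ ∑ k : Fin m, ‖A i k * M k j‖ := norm_sum_le _ _
    _ ≤ ∑ _k : Fin m, K * b := by
        refine Finset.sum_le_sum fun k _ => ?_
        rw [norm_mul]
        exact mul_le_mul (hA i k) (hM k j) (norm_nonneg _) hK
    _ = (m * K) * b := by
        rw [Finset.sum_const, Finset.card_univ, Fintype.card_fin, nsmul_eq_mul]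
        ring

end PIC_

open PIC_ in
theorem p_PIC : T_PIC := by
  intro m Ω A K0 t0 Y0 hΩ hc h0 hA hAK0
  classical
  set K : ℝ := max K0 0 with hKdef
  have hK : 0 ≤ K := le_max_right _ _
  have hAK : ∀ t ∈ Ω, ∀ i j, ‖A t i j‖ ≤ K := fun t ht i j =>
    (hAK0 t ht i j).trans (le_max_left _ _)
  have hmul : ∀ M : ℂ → Mat m, (∀ i j, DifferentiableOn ℂ (fun t => M t i j) Ω) →
      ∀ i j, DifferentiableOn ℂ (fun t => (A t * M t) i j) Ω := by
    intro M hM i j
    have h1 : (fun t => (A t * M t) i j) = fun t => ∑ k, A t i k * M t k j := by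
      funext t
      exact Matrix.mul_apply
    rw [h1]
    exact DifferentiableOn.fun_sum fun k _ => (hA i k).mul (hM k j)
  have hstep : ∀ M : {M : ℂ → Mat m // ∀ i j, DifferentiableOn ℂ (fun t => M t i j) Ω},
      ∃ M' : {M : ℂ → Mat m // ∀ i j, DifferentiableOn ℂ (fun t => M t i j) Ω},
        M'.1 t0 = 0 ∧ ∀ t ∈ Ω, ∀ i j, HasDerivAt (fun s => M'.1 s i j) ((A t * M.1 t) i j) t := by
    intro M
    have h1 : ∀ i j, ∃ F : ℂ → ℂ, F t0 = 0 ∧ ∀ t ∈ Ω, HasDerivAt F ((A t * M.1 t) i j) t :=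
      fun i j => prim hΩ hc t0 _ (hmul M.1 M.2 i j)
    choose F hF0 hF using h1
    refine ⟨⟨fun t => Matrix.of fun i j => F i j t, ?_⟩, ?_, ?_⟩
    · intro i j t ht
      exact (hF i j t ht).differentiableAt.differentiableWithinAt
    · ext i j
      exact hF0 i j
    · intro t ht i j
      exact hF i j t ht
  choose nxt hn1 hn2 using hstep
  let D : ℕ → {M : ℂ → Mat m // ∀ i j, DifferentiableOn ℂ (fun t => M t i j) Ω} := fun n =>
    Nat.rec ⟨fun _ => Y0, fun i j => differentiableOn_const _⟩ (fun _ M => nxt M) n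
  have hD0 : ∀ t, (D 0).1 t = Y0 := fun t => rfl
  have hD1 : ∀ n, (D (n + 1)).1 t0 = 0 := fun n => hn1 (D n)
  have hD2 : ∀ n, ∀ t ∈ Ω, ∀ i j,
      HasDerivAt (fun s => (D (n + 1)).1 s i j) ((A t * (D n).1 t) i j) t := fun n => hn2 (D n)
  set B : ℝ := ∑ i, ∑ j, ‖Y0 i j‖ with hBdef
  have hB : 0 ≤ B := Finset.sum_nonneg fun i _ => Finset.sum_nonneg fun j _ => norm_nonneg _
  have hYB : ∀ i j, ‖Y0 i j‖ ≤ B := by
    intro i j
    calc ‖Y0 i j‖ ≤ ∑ j, ‖Y0 i j‖ :=
          Finset.single_le_sum (f := fun j => ‖Y0 i j‖) (fun j _ => norm_nonneg _)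
            (Finset.mem_univ j)
      _ ≤ B := Finset.single_le_sum (f := fun i => ∑ j, ‖Y0 i j‖)
            (fun i _ => Finset.sum_nonneg fun j _ => norm_nonneg _) (Finset.mem_univ i)
  set L : ℝ := m * K with hLdef
  have hL : 0 ≤ L := mul_nonneg (Nat.cast_nonneg m) hK
  -- bounds
  have hbd : ∀ n, ∀ t ∈ Ω, ∀ i j, ‖(D n).1 t i j‖ ≤ B * (L * ‖t - t0‖) ^ n / n.factorial := by
    intro n
    induction n with
    | zero =>
      intro t _ i j
      rw [hD0]
      simpa using hYB i j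
    | succ n ih =>
      intro t ht i j
      have h1 := bd hc h0 (fun s => (D (n + 1)).1 s i j) (fun s => (A s * (D n).1 s) i j)
        (B * L ^ (n + 1) / n.factorial) n (by rw [hD1]; rfl) (fun s hs => hD2 n s hs i j) ?_ t ht
      · refine h1.trans (le_of_eq ?_)
        rw [Nat.factorial_succ]
        push_cast
        have hn : ((n : ℝ) + 1) ≠ 0 := by positivity
        have hn' : (n.factorial : ℝ) ≠ 0 := by positivity
        field_simp
        ring
      · intro s hs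
        refine (ent (A s) ((D n).1 s) K _ (hAK s hs) (ih s hs) hK i j).trans (le_of_eq ?_)
        rw [← hLdef, mul_pow]
        ring
  have hder' : ∀ n, ∀ t ∈ Ω, ∀ i j,
      ‖(A t * (D n).1 t) i j‖ ≤ L * (B * (L * ‖t - t0‖) ^ n / n.factorial) := by
    intro n t ht i j
    exact ent (A t) ((D n).1 t) K _ (hAK t ht) (hbd n t ht) hK i j
  have hsumb : ∀ r : ℝ, Summable fun n : ℕ => B * (L * r) ^ n / n.factorial := by
    intro r
    have h1 := (Real.summable_pow_div_factorial (L * r)).mul_left B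
    refine h1.congr fun n => ?_
    ring
  have hsum : ∀ t ∈ Ω, ∀ i j, Summable fun n => (D n).1 t i j := fun t ht i j =>
    Summable.of_norm_bounded (hsumb ‖t - t0‖) fun n => hbd n t ht i j
  refine ⟨fun t => Matrix.of fun i j => ∑' n, (D n).1 t i j, B + L, ?_, ?_, ?_⟩
  · ext i j
    show (∑' n, (D n).1 t0 i j) = Y0 i j
    rw [tsum_eq_single 0, hD0]
    intro n hn
    obtain ⟨k, rfl⟩ := Nat.exists_eq_succ_of_ne_zero hn
    rw [Nat.succ_eq_add_one, hD1]
    rfl
  · intro t ht i j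
    set R : ℝ := ‖t - t0‖ + 1 with hR
    have hR0 : 0 < R := by positivity
    have hS1 : IsOpen (Ω ∩ Metric.ball t0 R) := hΩ.inter Metric.isOpen_ball
    have hS2 : IsPreconnected (Ω ∩ Metric.ball t0 R) :=
      (hc.inter (convex_ball t0 R)).isPreconnected
    have hu : Summable fun n : ℕ => L * (B * (L * R) ^ n / n.factorial) := (hsumb R).mul_left L
    have key := hasDerivAt_tsum_of_isPreconnected (t := Ω ∩ Metric.ball t0 R)
      (g := fun n s => (D (n + 1)).1 s i j) (g' := fun n s => (A s * (D n).1 s) i j) (y₀ := t0)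
      (y := t) hu hS1 hS2 (fun n y hy => hD2 n y hy.1 i j) ?_ ⟨h0, Metric.mem_ball_self hR0⟩ ?_
      ⟨ht, ?_⟩
    · have h1 : (∑' n, (A t * (D n).1 t) i j) =
          (A t * (Matrix.of fun i j => ∑' n, (D n).1 t i j)) i j := by
        rw [Matrix.mul_apply]
        have h2 : (fun n => (A t * (D n).1 t) i j) = fun n => ∑ k, A t i k * (D n).1 t k j := by
          funext n
          exact Matrix.mul_apply
        rw [h2, Summable.tsum_finsetSum fun k _ => (hsum t ht k j).mul_left _]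
        refine Finset.sum_congr rfl fun k _ => ?_
        rw [tsum_mul_left, Matrix.of_apply]
      rw [h1] at key
      have h3 := key.const_add (Y0 i j)
      refine h3.congr_of_eventuallyEq ?_
      filter_upwards [hΩ.mem_nhds ht] with s hs
      show (∑' n, (D n).1 s i j) = Y0 i j + ∑' n, (D (n + 1)).1 s i j
      rw [(hsum s hs i j).tsum_eq_zero_add, hD0]
    · intro n y hy
      refine (hder' n y hy.1 i j).trans ?_
      have h1 : ‖y - t0‖ ≤ R := (mem_ball_iff_norm.1 hy.2).le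
      gcongr
    · refine summable_zero.congr fun n => ?_
      rw [hD1]
      rfl
    · rw [mem_ball_iff_norm, hR]
      linarith
  · intro t ht i j
    show ‖∑' n, (D n).1 t i j‖ ≤ (B + L) * Real.exp ((B + L) * ‖t - t0‖)
    have h1 : HasSum (fun n : ℕ => B * (L * ‖t - t0‖) ^ n / n.factorial)
        (B * Real.exp (L * ‖t - t0‖)) := by
      have h2 := (NormedSpace.expSeries_div_hasSum_exp (L * ‖t - t0‖)).mul_left B
      rw [← Real.exp_eq_exp_ℝ] at h2
      have h3 : (fun n : ℕ => B * (L * ‖t - t0‖) ^ n / (n.factorial : ℝ)) =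
          fun n : ℕ => B * ((L * ‖t - t0‖) ^ n / (n.factorial : ℝ)) := by
        funext n
        ring
      rw [h3]
      exact h2
    refine (tsum_of_norm_bounded h1 fun n => hbd n t ht i j).trans ?_
    gcongr
    · linarith
    · linarith

end Pool.Agent.MUM
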