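import Pool.Agent.MUM.Targets

set_option autoImplicit false

namespace Pool.Agent.MUM

open Finset
open scoped BigOperators Topology NNReal

namespace PRING_

/-- the real double series -/
noncomputable def ar (c : ℕ → ℝ) (w : ℝ) (p : ℕ × ℕ) : ℝ :=
  c p.1 * (p.1.choose p.2 : ℝ) * (1 / 2) ^ (p.1 - p.2) * w ^ p.2

lemma ar_nonneg {c : ℕ → ℝ} (hc : ∀ n, 0 ≤ c n) {w : ℝ} (hw : 0 ≤ w) (p : ℕ × ℕ) :
    0 ≤ ar c w p := by
  have := hc p.1
  unfold ar
  positivity

lemma ar_zero (c : ℕ → ℝ) (w : ℝ) (n k : ℕ) (hk : k ∉ range (n + 1)) : ar c w (n, k) = 0 := by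
  have : n < k := by simpa using hk
  simp [ar, Nat.choose_eq_zero_of_lt this]

lemma ar_sum (c : ℕ → ℝ) (w : ℝ) (n : ℕ) :
    ∑ k ∈ range (n + 1), ar c w (n, k) = c n * (1 / 2 + w) ^ n := by
  rw [add_comm (1 / 2 : ℝ) w, add_pow, Finset.mul_sum]
  refine Finset.sum_congr rfl fun k _ => ?_
  simp only [ar]
  ring

lemma ar_hasSum (c : ℕ → ℝ) (w : ℝ) (n : ℕ) :
    HasSum (fun k => ar c w (n, k)) (c n * (1 / 2 + w) ^ n) := by
  rw [← ar_sum c w n]
  exact hasSum_sum_of_ne_finset_zero fun k hk => ar_zero c w n k hk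

/-- joint summability inside the disc -/
lemma ar_summable {c : ℕ → ℝ} (hc : ∀ n, 0 ≤ c n) {w : ℝ} (hw : 0 ≤ w)
    (hs : Summable fun n => c n * (1 / 2 + w) ^ n) : Summable (ar c w) := by
  rw [summable_prod_of_nonneg (fun p => ar_nonneg hc hw p)]
  refine ⟨fun n => (ar_hasSum c w n).summable, ?_⟩
  refine hs.congr fun n => ?_
  exact (ar_hasSum c w n).tsum_eq.symm

/-- the coefficients at `1/2` -/
noncomputable def bk (c : ℕ → ℝ) (k : ℕ) : ℝ :=
  ∑' n, c n * (n.choose k : ℝ) * (1 / 2) ^ (n - k)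

end PRING_

open PRING_ in
theorem p_PRING : T_PRING := by
  intro c f δ hδ hc hf hsum
  -- summability inside the disc
  have hin : ∀ x : ℝ, 0 ≤ x → x < 1 → Summable fun n => c n * x ^ n := by
    intro x hx0 hx1
    have h1 := hsum (x : ℂ) (by
      rw [Metric.mem_ball, dist_zero_right, Complex.norm_real, Real.norm_eq_abs, abs_of_nonneg hx0]
      exact hx1)
    have h2 : (fun n => ((c n : ℝ) : ℂ) * (x : ℂ) ^ n) = fun n => ((c n * x ^ n : ℝ) : ℂ) := by
      ext n
      push_cast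
      ring
    rw [h2] at h1
    exact Complex.summable_ofReal.1 h1.summable
  have hsm : ∀ w : ℝ, 0 ≤ w → w < 1 / 2 → Summable (ar c w) := fun w h0 h1 =>
    ar_summable hc h0 (hin _ (by linarith) (by linarith))
  -- summability of the coefficients
  have hbs : ∀ k, Summable fun n => c n * (n.choose k : ℝ) * (1 / 2) ^ (n - k) := by
    intro k
    have h1 := (hsm (1 / 4) (by norm_num) (by norm_num)).prod_symm.prod_factor k
    have h2 := h1.mul_right (((1 / 4 : ℝ) ^ k)⁻¹)
    refine h2.congr fun n => ?_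
    simp only [ar, Prod.swap]
    field_simp
  have hb0 : ∀ k, 0 ≤ bk c k := fun k => tsum_nonneg fun n => by
    have := hc n
    positivity
  have hbw : ∀ (w : ℝ) (k : ℕ), HasSum (fun n => ar c w (n, k)) (bk c k * w ^ k) := by
    intro w k
    have := (hbs k).hasSum.mul_right (w ^ k)
    exact this
  -- the power series at `1/2`
  have hser : ∀ w : ℂ, ‖w‖ < 1 / 2 → HasSum (fun k => ((bk c k : ℝ) : ℂ) * w ^ k) (f (1 / 2 + w)) := by
    intro w hw
    let g : ℕ × ℕ → ℂ := fun p =>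
      ((c p.1 * (p.1.choose p.2 : ℝ) * (1 / 2) ^ (p.1 - p.2) : ℝ) : ℂ) * w ^ p.2
    have hg : Summable g := by
      refine Summable.of_norm ((hsm ‖w‖ (norm_nonneg _) hw).congr fun p => ?_)
      have h0 : 0 ≤ c p.1 * (p.1.choose p.2 : ℝ) * (1 / 2) ^ (p.1 - p.2) := by
        have := hc p.1
        positivity
      simp only [g, ar]
      rw [norm_mul, norm_pow, Complex.norm_real, Real.norm_eq_abs, abs_of_nonneg h0]
    have hgn : ∀ n, HasSum (fun k => g (n, k)) ((c n : ℂ) * (1 / 2 + w) ^ n) := by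
      intro n
      have h1 : ∑ k ∈ range (n + 1), g (n, k) = (c n : ℂ) * (1 / 2 + w) ^ n := by
        rw [add_comm (1 / 2 : ℂ) w, add_pow, Finset.mul_sum]
        refine Finset.sum_congr rfl fun k _ => ?_
        simp only [g]
        push_cast
        ring
      rw [← h1]
      refine hasSum_sum_of_ne_finset_zero fun k hk => ?_
      have : n < k := by simpa using hk
      simp [g, Nat.choose_eq_zero_of_lt this]
    have h2 := hg.hasSum.prod_fiberwise hgn
    have hz : (1 / 2 + w) ∈ Metric.ball (0 : ℂ) 1 := by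
      rw [Metric.mem_ball, dist_zero_right]
      have : ‖(1 / 2 : ℂ)‖ = 1 / 2 := by simp
      linarith [norm_add_le (1 / 2 : ℂ) w]
    have h3 : ∑' p, g p = f (1 / 2 + w) := h2.unique (hsum _ hz)
    have h4 : HasSum (fun p : ℕ × ℕ => g p.swap) (f (1 / 2 + w)) := by
      rw [← h3]
      exact (Equiv.prodComm ℕ ℕ).hasSum_iff.2 hg.hasSum
    refine h4.prod_fiberwise fun k => ?_
    have h5 : HasSum (fun n => ((c n * (n.choose k : ℝ) * (1 / 2) ^ (n - k) : ℝ) : ℂ))
        ((bk c k : ℝ) : ℂ) := Complex.hasSum_ofReal.2 (hbs k).hasSum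
    exact h5.mul_right (w ^ k)
  -- formal power series
  let p : FormalMultilinearSeries ℂ ℂ ℂ :=
    FormalMultilinearSeries.ofScalars ℂ fun k => ((bk c k : ℝ) : ℂ)
  have hp : HasFPowerSeriesOnBall f p (1 / 2) ((1 / 4 : ℝ≥0) : ENNReal) := by
    have hs4 : Summable fun k => ((bk c k : ℝ) : ℂ) * (1 / 4 : ℂ) ^ k :=
      (hser (1 / 4) (by norm_num)).summable
    refine ⟨?_, by simp, ?_⟩
    · refine p.le_radius_of_summable (hs4.norm.congr fun k => ?_)
      simp [p, FormalMultilinearSeries.ofScalars_norm]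
    · intro y hy
      have hy' : ‖y‖ < 1 / 2 := by
        have h1 : y ∈ Metric.eball (0 : ℂ) ((1 / 4 : ℝ≥0) : ENNReal) := hy
        rw [Metric.eball_coe, Metric.mem_ball, dist_zero_right] at h1
        have h2 : ((1 / 4 : ℝ≥0) : ℝ) = 1 / 4 := by norm_num
        rw [h2] at h1
        linarith
      have h2 : (fun n => (p n) fun _ => y) = fun n => ((bk c n : ℝ) : ℂ) * y ^ n := by
        ext n
        simp [p, mul_comm]
      rw [h2]
      exact hser y hy'
  -- the larger disc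
  set δ' := min δ 1 with hδ'
  have hδ1 : 0 < δ' := lt_min hδ one_pos
  have hδ2 : δ' ≤ 1 := min_le_right _ _
  have hδ3 : δ' ≤ δ := min_le_left _ _
  let R : ℝ≥0 := ⟨1 / 2 + δ' ^ 2 / 4, by positivity⟩
  have hR : (R : ℝ) = 1 / 2 + δ' ^ 2 / 4 := rfl
  have hsub : Metric.closedBall (1 / 2 : ℂ) R ⊆ Metric.ball 0 1 ∪ Metric.ball 1 δ := by
    intro z hz
    by_cases h1 : z ∈ Metric.ball (1 : ℂ) δ
    · exact Or.inr h1
    left
    rw [Metric.mem_ball, not_lt] at h1
    rw [Metric.mem_closedBall] at hz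
    rw [Metric.mem_ball, dist_zero_right]
    have e1 : δ' ^ 2 ≤ dist z 1 ^ 2 := by
      have : δ' ≤ dist z 1 := hδ3.trans h1
      gcongr
    have e2 : dist z (1 / 2) ^ 2 ≤ (R : ℝ) ^ 2 := by gcongr
    rw [dist_eq_norm, ← Complex.normSq_eq_norm_sq, Complex.normSq_apply] at e1 e2
    simp only [Complex.sub_re, Complex.sub_im, Complex.one_re, Complex.one_im] at e1 e2
    have h2re : ((1 / 2 : ℂ)).re = 1 / 2 := by norm_num
    have h2im : ((1 / 2 : ℂ)).im = 0 := by norm_num
    rw [h2re, h2im, hR] at e2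
    have e3 : ‖z‖ ^ 2 < 1 := by
      rw [← Complex.normSq_eq_norm_sq, Complex.normSq_apply]
      have : δ' ^ 4 ≤ δ' ^ 2 := by
        have : δ' ^ 2 ≤ 1 := pow_le_one₀ hδ1.le hδ2
        nlinarith [sq_nonneg δ']
      nlinarith [sq_pos_of_pos hδ1]
    nlinarith [norm_nonneg z]
  have hR0 : (0 : ℝ≥0) < R := by
    rw [← NNReal.coe_pos, hR]
    positivity
  have hq := (hf.mono hsub).hasFPowerSeriesOnBall hR0
  have hpq : p = cauchyPowerSeries f (1 / 2) R :=
    hp.hasFPowerSeriesAt.eq_formalMultilinearSeries hq.hasFPowerSeriesAt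
  rw [← hpq] at hq
  -- the point
  set w : ℝ := 1 / 2 + δ' ^ 2 / 8 with hw
  have hw0 : 0 < w := by positivity
  have hwR : w < R := by
    rw [hR, hw]
    have := sq_pos_of_pos hδ1
    linarith
  have hs : Summable fun k => bk c k * w ^ k := by
    have h1 := hq.hasSum (y := (w : ℂ)) (by
      change (w : ℂ) ∈ Metric.eball (0 : ℂ) (R : ENNReal)
      rw [Metric.eball_coe, Metric.mem_ball, dist_zero_right, Complex.norm_real, Real.norm_eq_abs,
          abs_of_pos hw0]
      exact hwR)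
    have h2 : (fun n => (p n) fun _ => (w : ℂ)) = fun n => ((bk c n * w ^ n : ℝ) : ℂ) := by
      ext n
      simp [p, mul_comm]
    rw [h2] at h1
    exact Complex.summable_ofReal.1 h1.summable
  refine ⟨1 / 2 + w, ?_, ?_⟩
  · rw [hw]
    have := sq_pos_of_pos hδ1
    linarith
  · have h1 : Summable fun q : ℕ × ℕ => ar c w q.swap := by
      rw [summable_prod_of_nonneg (fun q => ar_nonneg hc hw0.le q.swap)]
      refine ⟨fun k => (hbw w k).summable, ?_⟩
      exact hs.congr fun k => (hbw w k).tsum_eq.symm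
    have h2 := (h1.prod_symm).prod
    refine h2.congr fun n => ?_
    exact (ar_hasSum c w n).tsum_eq

end Pool.Agent.MUM
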