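import Pool.Agent.MUM.Targets

set_option autoImplicit false

/-!
# Recurrences for the hypergeometric series
-/

namespace Pool.Agent.MUM

open Finset

namespace REC_

lemma coeff_Xd (f : PowerSeries ℚ) (n : ℕ) :
    PowerSeries.coeff n (PowerSeries.X * PowerSeries.derivative ℚ f) =
      (n : ℚ) * PowerSeries.coeff n f := by
  cases n with
  | zero => simp
  | succ n =>
    rw [PowerSeries.coeff_succ_X_mul, PowerSeries.coeff_derivative]
    push_cast
    ring

lemma coeff_lin (c : ℚ) (G : PowerSeries ℚ) (j : ℕ) :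
    PowerSeries.coeff j ((PowerSeries.C c + PowerSeries.X) * G) =
      c * PowerSeries.coeff j G + if j = 0 then 0 else PowerSeries.coeff (j - 1) G := by
  rw [add_mul, map_add, PowerSeries.coeff_C_mul]
  congr 1
  cases j with
  | zero => simp
  | succ j => simp [PowerSeries.coeff_succ_X_mul]

lemma Qp_monic {m : ℕ} (α : Fin m → ℚ) : (Qp α).Monic :=
  Polynomial.monic_prod_of_monic _ _ (fun i _ => Polynomial.monic_X_add_C (α i))

lemma Qp_natDegree {m : ℕ} (α : Fin m → ℚ) : (Qp α).natDegree = m := by
  unfold Qp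
  rw [Polynomial.natDegree_prod_of_monic _ _ (fun i _ => Polynomial.monic_X_add_C (α i))]
  simp

lemma Qp_eval {m : ℕ} (α : Fin m → ℚ) (n : ℕ) :
    ∏ i, (PowerSeries.C (α i + n) + PowerSeries.X) =
      ∑ a ∈ range (m + 1), PowerSeries.C ((Qp α).coeff a) *
        (PowerSeries.C (n : ℚ) + PowerSeries.X) ^ a := by
  have h := Polynomial.eval₂_eq_sum_range' (PowerSeries.C : ℚ →+* PowerSeries ℚ)
    (p := Qp α) (n := m + 1) (by rw [Qp_natDegree]; exact Nat.lt_succ_self m)
    (PowerSeries.C (n : ℚ) + PowerSeries.X)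
  rw [← h]
  unfold Qp
  rw [Polynomial.eval₂_finsetProd]
  refine Finset.prod_congr rfl (fun i _ => ?_)
  simp only [Polynomial.eval₂_add, Polynomial.eval₂_X, Polynomial.eval₂_C, map_add]
  ring

lemma cs_succ {m : ℕ} (α : Fin m → ℚ) (n : ℕ) :
    (PowerSeries.C ((n : ℚ) + 1) + PowerSeries.X) ^ m * cs α (n + 1) =
      (∏ i, (PowerSeries.C (α i + n) + PowerSeries.X)) * cs α n := by
  unfold cs
  rw [Finset.prod_range_succ]
  have h : ((PowerSeries.C ((n : ℚ) + 1) + PowerSeries.X) ^ m : PowerSeries ℚ) *
      ((PowerSeries.C ((n : ℚ) + 1) + PowerSeries.X) ^ m)⁻¹ = 1 := by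
    refine PowerSeries.mul_inv_cancel _ ?_
    simp only [map_pow, map_add, PowerSeries.constantCoeff_X, PowerSeries.constantCoeff_C,
      add_zero]
    positivity
  linear_combination (∏ i, (PowerSeries.C (α i + n) + PowerSeries.X)) *
    (∏ s ∈ range n, ((∏ i, (PowerSeries.C (α i + s) + PowerSeries.X)) *
    ((PowerSeries.C ((s : ℚ) + 1) + PowerSeries.X) ^ m)⁻¹)) * h

end REC_

open REC_ in
theorem p_REC : T_REC := by
  intro m α
  have h0 : ∀ a j : ℕ, PowerSeries.coeff 0 (Sf α a j) = if a = j then 1 else 0 := by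
    intro a j
    unfold Sf cs
    rw [PowerSeries.coeff_mk]
    simp only [Nat.cast_zero, map_zero, zero_add, Finset.range_zero, Finset.prod_empty, mul_one,
      PowerSeries.coeff_X_pow]
    simp only [eq_comm]
  refine ⟨h0, ?_, ?_⟩
  · intro a j
    ext n
    rw [coeff_Xd, map_sub]
    have h1 : PowerSeries.coeff n (if j = 0 then 0 else Sf α a (j - 1)) =
        if j = 0 then 0 else PowerSeries.coeff n (Sf α a (j - 1)) := by
      split_ifs <;> simp
    rw [h1]
    unfold Sf
    simp only [PowerSeries.coeff_mk]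
    rw [pow_succ', mul_assoc, coeff_lin]
    ring
  · intro j hj
    ext n
    cases n with
    | zero =>
      rw [PowerSeries.coeff_zero_X_mul, PowerSeries.coeff_zero_eq_constantCoeff_apply, map_mul,
        ← PowerSeries.coeff_zero_eq_constantCoeff_apply (Sf α m j), h0,
        if_neg (by omega), mul_zero]
    | succ n =>
      rw [PowerSeries.coeff_succ_X_mul, sub_mul, one_mul, map_sub, PowerSeries.coeff_succ_X_mul,
        map_sum]
      simp only [PowerSeries.coeff_C_mul]
      unfold Sf
      simp only [PowerSeries.coeff_mk]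
      push_cast
      rw [cs_succ, Qp_eval, Finset.sum_range_succ, add_mul, map_add, Finset.sum_mul, map_sum]
      have hm : (Qp α).coeff m = 1 := by
        have := (Qp_monic α).coeff_natDegree
        rwa [Qp_natDegree] at this
      rw [hm, map_one, one_mul]
      simp only [mul_assoc, PowerSeries.coeff_C_mul]
      ring

end Pool.Agent.MUM
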