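import Pool.Agent.MUM.Targets

set_option autoImplicit false

/-!
# The formal bilinear relation
-/

namespace Pool.Agent.MUM

open Finset Pool.Agent.LEG Pool.Agent.HEP
open scoped BigOperators Topology

namespace SB_

/-- the pairing matrix -/
noncomputable def B {m : ℕ} (α : Fin m → ℚ) (a b : ℕ) : PowerSeries ℚ :=
  (if a + b + 1 = m then PowerSeries.C ((-1 : ℚ) ^ b) else 0) + PowerSeries.C (b1 α a b) * PowerSeries.X

/-- the left side -/
noncomputable def M {m : ℕ} (α : Fin m → ℚ) (i j : ℕ) : PowerSeries ℚ :=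
  ∑ a ∈ range m, ∑ b ∈ range m, B α a b * Sf α a i * Sf α b j

theorem dB {m : ℕ} (α : Fin m → ℚ) (a b : ℕ) :
    PowerSeries.derivative ℚ (B α a b) = PowerSeries.C (b1 α a b) := by
  rw [B, map_add, Derivation.leibniz, PowerSeries.derivative_X, PowerSeries.derivative_C]
  split_ifs
  · rw [PowerSeries.derivative_C]; simp
  · rw [map_zero]; simp

theorem shift {R : Type*} [CommRing R] (m : ℕ) (hm : 1 ≤ m) (f : ℕ → R) :
    ∑ a ∈ range m, f (a + 1) = ∑ a ∈ range m, (if a = 0 then 0 else f a) + f m := by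
  have h1 := Finset.sum_range_succ (fun a => if a = 0 then (0 : R) else f a) m
  have h2 := Finset.sum_range_succ' (fun a => if a = 0 then (0 : R) else f a) m
  rw [h1] at h2
  simp only [Nat.succ_ne_zero, if_false, if_true, add_zero, if_neg (show m ≠ 0 by omega)] at h2
  exact h2.symm

theorem dTerm (P S T : PowerSeries ℚ) : PowerSeries.X * PowerSeries.derivative ℚ (P * S * T) =
    (PowerSeries.X * PowerSeries.derivative ℚ P) * S * T +
    P * (PowerSeries.X * PowerSeries.derivative ℚ S) * T +
    P * S * (PowerSeries.X * PowerSeries.derivative ℚ T) := by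
  rw [Derivation.leibniz, Derivation.leibniz]
  simp only [smul_eq_mul]
  ring

theorem Blast (h2 : T_BID) {m : ℕ} (α : Fin m → ℚ) (hS : Sym m α) (b : ℕ) :
    B α (m - 1) b = if b = 0 then 1 - PowerSeries.X else 0 := by
  have hm := hS.two
  obtain ⟨-, h3, h4, -⟩ := h2 m α hS
  by_cases hb : b = 0
  · subst hb
    rw [B, if_pos (by omega), if_pos rfl, h3 (m - 1) 0 (by omega) (by omega)]
    simp
    ring
  · rw [B, if_neg (by omega), if_neg hb, h4 (m - 1) b (by omega) (by omega)]
    simp

theorem Blast' (h2 : T_BID) {m : ℕ} (α : Fin m → ℚ) (hS : Sym m α) (a : ℕ) (ha : a < m) :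
    B α a (m - 1) = if a = 0 then PowerSeries.C ((-1 : ℚ) ^ (m - 1)) * (1 - PowerSeries.X) else 0 := by
  have hm := hS.two
  obtain ⟨-, h3, h4, -⟩ := h2 m α hS
  by_cases hb : a = 0
  · subst hb
    rw [B, if_pos (by omega), if_pos rfl, h3 0 (m - 1) (by omega) (by omega)]
    simp only [map_neg]
    ring
  · rw [B, if_neg (by omega), if_neg hb, h4 a (m - 1) ha (by omega)]
    simp

theorem t1 (h1 : T_REC) (h2 : T_BID) {m : ℕ} (α : Fin m → ℚ) (hS : Sym m α) (i j : ℕ) (hi : i < m) :
    ∑ a ∈ range m, ∑ b ∈ range m, B α a b * Sf α (a + 1) i * Sf α b j =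
    ∑ a ∈ range m, ∑ b ∈ range m, ((if a = 0 then 0 else B α (a - 1) b) +
      (if b = 0 then PowerSeries.C ((Qp α).coeff a) * PowerSeries.X else 0)) *
        Sf α a i * Sf α b j := by
  have hm := hS.two
  have e := shift m (by omega) (fun a => ∑ b ∈ range m, B α (a - 1) b * Sf α a i * Sf α b j)
  simp only [Nat.add_sub_cancel] at e
  rw [e]
  have e2 : ∑ b ∈ range m, B α (m - 1) b * Sf α m i * Sf α b j =
      ∑ a ∈ range m, ∑ b ∈ range m,
        (if b = 0 then PowerSeries.C ((Qp α).coeff a) * PowerSeries.X else 0) *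
        Sf α a i * Sf α b j := by
    have e3 : ∀ b, B α (m - 1) b * Sf α m i * Sf α b j =
        if b = 0 then ((1 - PowerSeries.X) * Sf α m i) * Sf α 0 j else 0 := by
      intro b
      rw [Blast h2 α hS b]
      by_cases hb : b = 0
      · subst hb; simp
      · simp [hb]
    have e4 : ∀ a b, (if b = 0 then PowerSeries.C ((Qp α).coeff a) * PowerSeries.X else 0) *
        Sf α a i * Sf α b j =
        if b = 0 then (PowerSeries.C ((Qp α).coeff a) * PowerSeries.X * Sf α a i) * Sf α 0 j
          else 0 := by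
      intro a b
      by_cases hb : b = 0
      · subst hb; simp
      · simp [hb]
    simp only [e3, e4]
    rw [Finset.sum_ite_eq' (range m) 0, if_pos (mem_range.mpr (by omega)), (h1 m α).2.2 i hi]
    simp only [Finset.sum_ite_eq' (range m) 0, if_pos (mem_range.mpr (show 0 < m by omega))]
    rw [← Finset.sum_mul, Finset.mul_sum]
    congr 1
    refine Finset.sum_congr rfl fun a _ => ?_
    ring
  rw [e2, ← Finset.sum_add_distrib]
  refine Finset.sum_congr rfl fun a _ => ?_
  by_cases ha : a = 0
  · subst ha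
    rw [if_pos rfl, zero_add]
    refine Finset.sum_congr rfl fun b _ => ?_
    rw [if_pos rfl, zero_add]
  · rw [if_neg ha, ← Finset.sum_add_distrib]
    refine Finset.sum_congr rfl fun b _ => ?_
    rw [if_neg ha]
    ring

theorem t2 (h1 : T_REC) (h2 : T_BID) {m : ℕ} (α : Fin m → ℚ) (hS : Sym m α) (i j : ℕ) (hj : j < m) :
    ∑ a ∈ range m, ∑ b ∈ range m, B α a b * Sf α a i * Sf α (b + 1) j =
    ∑ a ∈ range m, ∑ b ∈ range m, ((if b = 0 then 0 else B α a (b - 1)) +
      (if a = 0 then PowerSeries.C ((-1 : ℚ) ^ (m - 1)) * PowerSeries.C ((Qp α).coeff b) *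
        PowerSeries.X else 0)) * Sf α a i * Sf α b j := by
  have hm := hS.two
  have e0 : ∀ a ∈ range m, ∑ b ∈ range m, B α a b * Sf α a i * Sf α (b + 1) j =
      ∑ b ∈ range m, (if b = 0 then 0 else B α a (b - 1)) * Sf α a i * Sf α b j +
      (if a = 0 then PowerSeries.C ((-1 : ℚ) ^ (m - 1)) * Sf α 0 i *
        ((1 - PowerSeries.X) * Sf α m j) else 0) := by
    intro a ha
    have e := shift m (by omega) (fun b => B α a (b - 1) * Sf α a i * Sf α b j)
    simp only [Nat.add_sub_cancel] at e
    rw [e, Blast' h2 α hS a (mem_range.mp ha)]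
    congr 1
    · refine Finset.sum_congr rfl fun b _ => ?_
      by_cases hb : b = 0
      · subst hb; simp
      · rw [if_neg hb, if_neg hb]
    · by_cases hb : a = 0
      · subst hb; rw [if_pos rfl, if_pos rfl]; ring
      · rw [if_neg hb, if_neg hb]; simp
  rw [Finset.sum_congr rfl e0, Finset.sum_add_distrib, Finset.sum_ite_eq' (range m) 0,
    if_pos (mem_range.mpr (show 0 < m by omega)), (h1 m α).2.2 j hj]
  have e5 : PowerSeries.C ((-1 : ℚ) ^ (m - 1)) * Sf α 0 i *
      (PowerSeries.X * ∑ a ∈ range m, PowerSeries.C ((Qp α).coeff a) * Sf α a j) =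
      ∑ a ∈ range m, ∑ b ∈ range m, (if a = 0 then PowerSeries.C ((-1 : ℚ) ^ (m - 1)) *
        PowerSeries.C ((Qp α).coeff b) * PowerSeries.X else 0) * Sf α a i * Sf α b j := by
    rw [Finset.sum_comm]
    have e4 : ∀ a b, (if a = 0 then PowerSeries.C ((-1 : ℚ) ^ (m - 1)) *
        PowerSeries.C ((Qp α).coeff b) * PowerSeries.X else 0) * Sf α a i * Sf α b j =
        if a = 0 then PowerSeries.C ((-1 : ℚ) ^ (m - 1)) *
        PowerSeries.C ((Qp α).coeff b) * PowerSeries.X * Sf α 0 i * Sf α b j else 0 := by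
      intro a b
      by_cases hb : a = 0
      · subst hb; simp
      · simp [hb]
    simp only [e4, Finset.sum_ite_eq' (range m) 0, if_pos (mem_range.mpr (show 0 < m by omega))]
    rw [Finset.mul_sum, Finset.mul_sum]
    refine Finset.sum_congr rfl fun a _ => ?_
    ring
  rw [e5, ← Finset.sum_add_distrib]
  refine Finset.sum_congr rfl fun a _ => ?_
  rw [← Finset.sum_add_distrib]
  refine Finset.sum_congr rfl fun b _ => ?_
  ring

theorem coef (h2 : T_BID) {m : ℕ} (α : Fin m → ℚ) (hS : Sym m α) (a b : ℕ) (ha : a < m)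
    (hb : b < m) :
    PowerSeries.X * PowerSeries.C (b1 α a b) + ((if a = 0 then 0 else B α (a - 1) b) +
      (if b = 0 then PowerSeries.C ((Qp α).coeff a) * PowerSeries.X else 0)) +
      ((if b = 0 then 0 else B α a (b - 1)) +
      (if a = 0 then PowerSeries.C ((-1 : ℚ) ^ (m - 1)) * PowerSeries.C ((Qp α).coeff b) *
        PowerSeries.X else 0)) = 0 := by
  have hm := hS.two
  obtain ⟨h, -, -, -⟩ := h2 m α hS
  have key := h a b ha hb
  have hs : ((-1 : ℚ) ^ m) = -(-1) ^ (m - 1) := by
    obtain ⟨k, rfl⟩ : ∃ k, m = k + 1 := ⟨m - 1, by omega⟩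
    rw [Nat.add_sub_cancel, pow_succ]; ring
  rw [hs] at key
  by_cases h0 : a = 0
  · by_cases h1 : b = 0
    · subst h0 h1
      simp only [if_true] at key ⊢
      have k2 := congrArg (PowerSeries.C (R := ℚ)) key
      simp only [map_add, map_sub, map_mul, map_neg, map_zero] at k2 ⊢
      linear_combination PowerSeries.X * k2
    · subst h0
      simp only [if_true, if_neg h1] at key ⊢
      have k2 := congrArg (PowerSeries.C (R := ℚ)) key
      simp only [map_add, map_sub, map_mul, map_neg, map_zero, B] at k2 ⊢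
      rw [if_neg (by omega)]
      linear_combination PowerSeries.X * k2
  · by_cases h1 : b = 0
    · subst h1
      simp only [if_true, if_neg h0] at key ⊢
      have k2 := congrArg (PowerSeries.C (R := ℚ)) key
      simp only [map_add, map_sub, map_mul, map_neg, map_zero, B] at k2 ⊢
      rw [if_neg (by omega)]
      linear_combination PowerSeries.X * k2
    · simp only [if_neg h1, if_neg h0] at key ⊢
      have k2 := congrArg (PowerSeries.C (R := ℚ)) key
      simp only [map_add, map_sub, map_mul, map_neg, map_zero, B] at k2 ⊢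
      by_cases h3 : a + b = m
      · rw [if_pos (by omega), if_pos (by omega)]
        obtain ⟨c, rfl⟩ : ∃ c, b = c + 1 := ⟨b - 1, by omega⟩
        simp only [Nat.add_sub_cancel] at k2 ⊢
        rw [pow_succ]
        simp only [map_mul, map_neg, map_one]
        linear_combination PowerSeries.X * k2
      · rw [if_neg (by omega), if_neg (by omega)]
        linear_combination PowerSeries.X * k2

theorem dM (h1 : T_REC) (h2 : T_BID) {m : ℕ} (α : Fin m → ℚ) (hS : Sym m α) (i j : ℕ)
    (hi : i < m) (hj : j < m) :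
    PowerSeries.X * PowerSeries.derivative ℚ (M α i j) =
      -(if i = 0 then 0 else M α (i - 1) j) - (if j = 0 then 0 else M α i (j - 1)) := by
  have e : PowerSeries.X * PowerSeries.derivative ℚ (M α i j) =
      ∑ a ∈ range m, ∑ b ∈ range m, (PowerSeries.X * PowerSeries.C (b1 α a b)) * Sf α a i * Sf α b j +
      ∑ a ∈ range m, ∑ b ∈ range m, B α a b * Sf α (a + 1) i * Sf α b j +
      ∑ a ∈ range m, ∑ b ∈ range m, B α a b * Sf α a i * Sf α (b + 1) j -
      (if i = 0 then 0 else M α (i - 1) j) - (if j = 0 then 0 else M α i (j - 1)) := by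
    have hM : ∀ i' j', M α i' j' = ∑ a ∈ range m, ∑ b ∈ range m, B α a b * Sf α a i' * Sf α b j' :=
      fun _ _ => rfl
    have e1 : (if i = 0 then 0 else M α (i - 1) j) = ∑ a ∈ range m, ∑ b ∈ range m,
        B α a b * (if i = 0 then 0 else Sf α a (i - 1)) * Sf α b j := by
      split_ifs
      · simp
      · rfl
    have e2 : (if j = 0 then 0 else M α i (j - 1)) = ∑ a ∈ range m, ∑ b ∈ range m,
        B α a b * Sf α a i * (if j = 0 then 0 else Sf α b (j - 1)) := by
      split_ifs
      · simp
      · rfl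
    rw [e1, e2, hM, map_sum, Finset.mul_sum]
    simp only [← Finset.sum_add_distrib, ← Finset.sum_sub_distrib]
    refine Finset.sum_congr rfl fun a _ => ?_
    rw [map_sum, Finset.mul_sum]
    refine Finset.sum_congr rfl fun b _ => ?_
    rw [dTerm, dB, (h1 m α).2.1, (h1 m α).2.1]
    ring
  rw [e, t1 h1 h2 α hS i j hi, t2 h1 h2 α hS i j hj]
  simp only [← Finset.sum_add_distrib]
  rw [Finset.sum_eq_zero]
  · ring
  · intro a ha
    refine Finset.sum_eq_zero fun b hb => ?_
    rw [← add_mul, ← add_mul, ← add_mul, ← add_mul,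
      coef h2 α hS a b (mem_range.mp ha) (mem_range.mp hb), zero_mul, zero_mul]

theorem cn (h1 : T_REC) (h2 : T_BID) {m : ℕ} (α : Fin m → ℚ) (hS : Sym m α) (n : ℕ) (hn : n ≠ 0) :
    ∀ s i j : ℕ, i + j = s → i < m → j < m → PowerSeries.coeff n (M α i j) = 0 := by
  intro s
  induction s with
  | zero =>
    intro i j hs hi hj
    obtain ⟨rfl, rfl⟩ : i = 0 ∧ j = 0 := by omega
    have key := congrArg (PowerSeries.coeff n) (dM h1 h2 α hS 0 0 hi hj)
    obtain ⟨k, rfl⟩ : ∃ k, n = k + 1 := ⟨n - 1, by omega⟩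
    rw [PowerSeries.coeff_succ_X_mul, PowerSeries.coeff_derivative] at key
    simp only [if_true, sub_zero, neg_zero, map_zero] at key
    rcases mul_eq_zero.mp key with h | h
    · exact h
    · exfalso; have : (0 : ℚ) < (k : ℚ) + 1 := by positivity
      linarith
  | succ s ih =>
    intro i j hs hi hj
    have key := congrArg (PowerSeries.coeff n) (dM h1 h2 α hS i j hi hj)
    have z1 : PowerSeries.coeff n (if i = 0 then 0 else M α (i - 1) j) = 0 := by
      split_ifs with h
      · simp
      · exact ih (i - 1) j (by omega) (by omega) hj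
    have z2 : PowerSeries.coeff n (if j = 0 then 0 else M α i (j - 1)) = 0 := by
      split_ifs with h
      · simp
      · exact ih i (j - 1) (by omega) hi (by omega)
    rw [map_sub, map_neg, z1, z2] at key
    obtain ⟨k, rfl⟩ : ∃ k, n = k + 1 := ⟨n - 1, by omega⟩
    rw [PowerSeries.coeff_succ_X_mul, PowerSeries.coeff_derivative] at key
    simp only [sub_zero, neg_zero] at key
    rcases mul_eq_zero.mp key with h | h
    · exact h
    · exfalso; have : (0 : ℚ) < (k : ℚ) + 1 := by positivity
      linarith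

theorem c0 (h1 : T_REC) {m : ℕ} (α : Fin m → ℚ) (i j : ℕ)
    (hi : i < m) (hj : j < m) :
    PowerSeries.coeff 0 (M α i j) = if i + j + 1 = m then (-1 : ℚ) ^ j else 0 := by
  have hB : ∀ a b, PowerSeries.coeff 0 (B α a b) = if a + b + 1 = m then (-1 : ℚ) ^ b else 0 := by
    intro a b
    rw [B, map_add]
    split_ifs <;> simp
  have e : PowerSeries.coeff 0 (M α i j) = ∑ a ∈ range m, ∑ b ∈ range m,
      (if a = i then (if b = j then (if a + b + 1 = m then (-1 : ℚ) ^ b else 0) else 0) else 0) := by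
    rw [M, map_sum]
    refine Finset.sum_congr rfl fun a _ => ?_
    rw [map_sum]
    refine Finset.sum_congr rfl fun b _ => ?_
    rw [PowerSeries.coeff_zero_eq_constantCoeff, map_mul, map_mul,
      ← PowerSeries.coeff_zero_eq_constantCoeff_apply, ← PowerSeries.coeff_zero_eq_constantCoeff_apply,
      ← PowerSeries.coeff_zero_eq_constantCoeff_apply, hB, (h1 m α).1, (h1 m α).1]
    by_cases ha : a = i
    · by_cases hb : b = j
      · simp [ha, hb]
      · simp [ha, hb]
    · simp [ha]
  rw [e]
  rw [Finset.sum_eq_single i, Finset.sum_eq_single j]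
  · simp
  · intro b _ hb; simp [hb]
  · intro h; exact absurd (mem_range.mpr hj) h
  · intro a _ ha; simp [ha]
  · intro h; exact absurd (mem_range.mpr hi) h

end SB_

theorem p_SB (h1 : T_REC) (h2 : T_BID) : T_SB := by
  intro m α hS i j hi hj
  have hM : ∑ a ∈ range m, ∑ b ∈ range m,
    ((if a + b + 1 = m then PowerSeries.C ((-1 : ℚ) ^ b) else 0) +
      PowerSeries.C (b1 α a b) * PowerSeries.X) * Sf α a i * Sf α b j = SB_.M α i j := rfl
  rw [hM]
  ext n
  by_cases hn : n = 0
  · subst hn
    rw [SB_.c0 h1 α i j hi hj]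
    split_ifs <;> simp
  · rw [SB_.cn h1 h2 α hS n hn (i + j) i j rfl hi hj]
    split_ifs
    · rw [PowerSeries.coeff_C, if_neg hn]
    · simp

end Pool.Agent.MUM
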