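import Pool.Agent.MUM.Targets

set_option autoImplicit false

/-!
# MUM: SPAN
-/

namespace Pool.Agent.MUM

open Finset Pool.Agent.LEG Pool.Agent.HEP
open scoped BigOperators Topology

namespace SPAN_

lemma indep {m : ℕ} (v : Fin m → ℂ) (hv : ∃ i : Fin m, (i : ℕ) + 1 = m ∧ v i ≠ 0)
    (s : Fin m → ℂ) (hs : Function.Injective s) :
    LinearIndependent ℂ (fun i => (eN m (s i)).mulVec v) := by
  obtain ⟨t, ht, hvt⟩ := hv
  rw [Fintype.linearIndependent_iff]
  intro c hc
  have key : ∀ k : ℕ, k < m → ∑ i, c i * (s i ^ k / (k.factorial : ℂ)) = 0 := by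
    intro k
    induction k using Nat.strong_induction_on with
    | _ k ih =>
      intro hk
      have hj : m - 1 - k < m := by omega
      have h1 := congrFun hc ⟨m - 1 - k, hj⟩
      rw [Finset.sum_apply] at h1
      simp only [Pi.smul_apply, smul_eq_mul, Pi.zero_apply, Matrix.mulVec, dotProduct, eN,
        Matrix.of_apply, Finset.mul_sum] at h1
      rw [Finset.sum_comm] at h1
      rw [Finset.sum_eq_single t] at h1
      · have h2 : m - 1 - k ≤ (t : ℕ) := by omega
        have h3 : (t : ℕ) - (m - 1 - k) = k := by omega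
        rw [Finset.sum_congr rfl (g := fun i => (c i * (s i ^ k / (k.factorial : ℂ))) * v t)] at h1
        · rw [← Finset.sum_mul] at h1
          rcases mul_eq_zero.1 h1 with h | h
          · exact h
          · exact absurd h hvt
        · intro i _
          rw [if_pos h2, h3]
          ring
      · intro l _ hl
        have hlt : (l : ℕ) < m - 1 := by
          have h4 := l.2
          have h5 : (l : ℕ) ≠ t := fun h => hl (Fin.ext h)
          omega
        by_cases h2 : m - 1 - k ≤ (l : ℕ)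
        · have h6 := ih ((l : ℕ) - (m - 1 - k)) (by omega) (by omega)
          rw [Finset.sum_congr rfl (g := fun i => (c i * (s i ^ ((l : ℕ) - (m - 1 - k)) /
            (((l : ℕ) - (m - 1 - k)).factorial : ℂ))) * v l)]
          · rw [← Finset.sum_mul, h6, zero_mul]
          · intro i _
            rw [if_pos h2]
            ring
        · refine Finset.sum_eq_zero fun i _ => ?_
          rw [if_neg h2, zero_mul, mul_zero]
      · intro h
        exact absurd (Finset.mem_univ t) h
  have hc0 : c = 0 := by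
    refine Matrix.eq_zero_of_forall_pow_sum_mul_pow_eq_zero hs fun k => ?_
    have h1 := key k k.2
    have h2 : ((k : ℕ).factorial : ℂ) ≠ 0 := Nat.cast_ne_zero.2 (Nat.factorial_ne_zero _)
    have h3 : ∑ j, c j * s j ^ (k : ℕ) =
        ((k : ℕ).factorial : ℂ) * ∑ i, c i * (s i ^ (k : ℕ) / ((k : ℕ).factorial : ℂ)) := by
      rw [Finset.mul_sum]
      refine Finset.sum_congr rfl fun i _ => ?_
      field_simp
    rw [h3, h1, mul_zero]
  intro i
  rw [hc0]
  rfl

lemma top_of {m : ℕ} (v : Fin m → ℂ) (hv : ∃ i : Fin m, (i : ℕ) + 1 = m ∧ v i ≠ 0)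
    (W : Submodule ℂ (Fin m → ℂ)) (hW : ∀ s : ℂ, (eN m s).mulVec v ∈ W) : W = ⊤ := by
  have h1 := indep v hv (fun i => ((i : ℕ) : ℂ)) (fun i j h => Fin.ext (Nat.cast_injective h))
  have h2 := h1.span_eq_top_of_card_eq_finrank' (by simp)
  rw [eq_top_iff, ← h2, Submodule.span_le]
  rintro _ ⟨i, rfl⟩
  exact hW _

end SPAN_

open SPAN_ in
theorem p_SPAN (h : T_NJ) : T_SPAN := by
  intro m v hv
  refine ⟨fun W hW => top_of v hv W hW, fun hm _ => ?_⟩
  obtain ⟨-, hadd, -, -, -, hJ, -, -, hdet⟩ := h m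
  -- the polynomial `φ`
  set E : Fin m → Fin m → Polynomial ℂ := fun i j =>
    if (i : ℕ) ≤ j then Polynomial.C (1 / (((j : ℕ) - i).factorial : ℂ)) *
      Polynomial.X ^ ((j : ℕ) - i) else 0 with hE
  have hEe : ∀ (x : ℂ) (i j : Fin m), (E i j).eval x = eN m x i j := by
    intro x i j
    simp only [hE, eN, Matrix.of_apply]
    split_ifs
    · rw [Polynomial.eval_mul, Polynomial.eval_C, Polynomial.eval_pow, Polynomial.eval_X]
      ring
    · simp
  set P : Polynomial ℂ := ∑ i, ∑ j, ∑ l, Polynomial.C (v i * Jm m i j * v l) * E j l with hP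
  have hPe : ∀ x : ℂ, P.eval x = v ⬝ᵥ (Jm m).mulVec ((eN m x).mulVec v) := by
    intro x
    simp only [hP, Polynomial.eval_finsetSum, Polynomial.eval_mul, Polynomial.eval_C, hEe,
      Matrix.mulVec, dotProduct, Finset.mul_sum]
    refine Finset.sum_congr rfl fun i _ => Finset.sum_congr rfl fun j _ =>
      Finset.sum_congr rfl fun l _ => ?_
    ring
  have hv0 : v ≠ 0 := by
    obtain ⟨t, _, hvt⟩ := hv
    intro h0
    exact hvt (by rw [h0]; rfl)
  have hP0 : P ≠ 0 := by
    intro h0
    -- the vectors orthogonal to `v` form a subspace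
    let f : (Fin m → ℂ) →ₗ[ℂ] ℂ :=
      { toFun := fun w => v ⬝ᵥ (Jm m).mulVec w
        map_add' := fun a b => by rw [Matrix.mulVec_add, dotProduct_add]
        map_smul' := fun c a => by
          rw [Matrix.mulVec_smul, dotProduct_smul]; rfl }
    have h1 : LinearMap.ker f = ⊤ := by
      refine top_of v hv _ fun s => ?_
      rw [LinearMap.mem_ker]
      change v ⬝ᵥ (Jm m).mulVec ((eN m s).mulVec v) = 0
      rw [← hPe, h0, Polynomial.eval_zero]
    have h2 : ∀ w, v ⬝ᵥ (Jm m).mulVec w = 0 := by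
      intro w
      have : w ∈ LinearMap.ker f := by rw [h1]; exact Submodule.mem_top
      exact LinearMap.mem_ker.1 this
    have h3 : Matrix.vecMul v (Jm m) = 0 := by
      funext j
      have := h2 (Pi.single j 1)
      rw [Matrix.dotProduct_mulVec, dotProduct_single, mul_one] at this
      exact this
    exact hv0 (Matrix.eq_zero_of_vecMul_eq_zero hdet h3)
  have hpair : ∀ s r : ℂ, (eN m s).mulVec v ⬝ᵥ (Jm m).mulVec ((eN m r).mulVec v) =
      P.eval (r - s) := by
    intro s r
    rw [hPe]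
    have h1 : (eN m s).transpose * Jm m = Jm m * eN m (-s) := by
      rw [hJ (-s), neg_neg]
    have h2 : (eN m s).mulVec v = Matrix.vecMul v (eN m s).transpose :=
      (Matrix.vecMul_transpose _ _).symm
    rw [h2, ← Matrix.dotProduct_mulVec, Matrix.mulVec_mulVec, Matrix.mulVec_mulVec,
      h1, Matrix.mul_assoc, hadd, Matrix.mulVec_mulVec]
    have h3 : -s + r = r - s := by ring
    rw [h3]
  -- choice of `h`
  have hfin : (⋃ p : Fin m × Fin m, {x : ℂ | p.1 ≠ p.2 ∧
      P.IsRoot ((((p.2 : ℕ) : ℂ) - ((p.1 : ℕ) : ℂ)) * x)}).Finite := by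
    refine Set.finite_iUnion fun p => ?_
    by_cases hp : p.1 = p.2
    · refine Set.Finite.subset Set.finite_empty ?_
      rintro x ⟨hx, _⟩
      exact hx hp
    · have hne : (((p.2 : ℕ) : ℂ) - ((p.1 : ℕ) : ℂ)) ≠ 0 := by
        intro h0
        rw [sub_eq_zero] at h0
        exact hp (Fin.ext (Nat.cast_injective h0)).symm
      have h1 := (Polynomial.finite_setOfPred_isRoot hP0).preimage
        (f := fun x : ℂ => (((p.2 : ℕ) : ℂ) - ((p.1 : ℕ) : ℂ)) * x)
        ((mul_right_injective₀ hne).injOn)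
      refine h1.subset ?_
      rintro x ⟨_, hx⟩
      exact hx
  obtain ⟨x, hx⟩ := ((hfin.union (Set.finite_singleton (0 : ℂ))).infinite_compl).nonempty
  rw [Set.mem_compl_iff, Set.mem_union, not_or, Set.mem_singleton_iff] at hx
  refine ⟨fun i => ((i : ℕ) : ℂ) * x, ?_, ?_⟩
  · refine indep v hv _ fun i j hij => ?_
    exact Fin.ext (Nat.cast_injective (mul_right_cancel₀ hx.2 hij))
  · intro i j hij
    rw [hpair]
    intro h0
    apply hx.1
    rw [Set.mem_iUnion]
    refine ⟨(i, j), hij, ?_⟩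
    rw [Polynomial.IsRoot.def]
    have : (((j : ℕ) : ℂ) - ((i : ℕ) : ℂ)) * x = ((j : ℕ) : ℂ) * x - ((i : ℕ) : ℂ) * x := by ring
    rw [this]
    exact h0

end Pool.Agent.MUM
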