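import Pool.Agent.MUM.Targets

/-!
# MUM, ST12: stabilisers and their Lie algebras
-/

set_option autoImplicit false

namespace Pool.Agent.MUM

open Finset Pool.Agent.LEG Pool.Agent.HEP

namespace ST12_

open MvPolynomial

variable {m : ℕ}

/-- the ring homomorphism underlying `evP` -/
noncomputable def evH (z : ℂ) (X : Mat m) : Pol m →+* ℂ :=
  MvPolynomial.eval₂Hom (Polynomial.evalRingHom z) (fun p => X p.1 p.2)

lemma evH_apply (z : ℂ) (X : Mat m) (Ψ : Pol m) : evH z X Ψ = evP z X Ψ := rfl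

/-- the substitution `X ↦ X g` -/
noncomputable def sub (g : Mat m) : Pol m →ₐ[Polynomial ℂ] Pol m :=
  MvPolynomial.aeval (fun p => ∑ k, MvPolynomial.C (Polynomial.C (g k p.2)) * MvPolynomial.X (p.1, k))

lemma sub_X (g : Mat m) (p : Fin m × Fin m) :
    sub g (X p) = ∑ k, C (Polynomial.C (g k p.2)) * X (p.1, k) := by
  unfold sub
  rw [aeval_X]

lemma evP_sub (g : Mat m) (z : ℂ) (Y : Mat m) (Ψ : Pol m) :
    evP z Y (sub g Ψ) = evP z (Y * g) Ψ := by
  have h : (evH z Y).comp (sub g : Pol m →ₐ[Polynomial ℂ] Pol m).toRingHom = evH z (Y * g) := by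
    refine MvPolynomial.ringHom_ext (fun r => ?_) (fun p => ?_)
    · have h1 : (sub g : Pol m →ₐ[Polynomial ℂ] Pol m) (C r) = C r :=
        (sub g : Pol m →ₐ[Polynomial ℂ] Pol m).commutes r
      show evH z Y (sub g (C r)) = evH z (Y * g) (C r)
      rw [h1]
      unfold evH
      rw [coe_eval₂Hom, coe_eval₂Hom, eval₂_C, eval₂_C]
    · show evH z Y (sub g (X p)) = evH z (Y * g) (X p)
      rw [sub_X, map_sum]
      unfold evH
      simp only [map_mul, coe_eval₂Hom, eval₂_C, eval₂_X, Polynomial.coe_evalRingHom,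
        Polynomial.eval_C]
      rw [Matrix.mul_apply]
      apply Finset.sum_congr rfl
      intro k _
      ring
  exact congrArg (fun f => f Ψ) h

lemma dM_X' (M : Mat m) (p : Fin m × Fin m) :
    dM M (X p) = ∑ i, C (Polynomial.C (M i p.2)) * X (p.1, i) := by
  unfold dM
  rw [mkDerivation_X]

lemma lin_sum (A B : Mat m) (p : Fin m × Fin m) :
    ∑ k, C (Polynomial.C (B k p.2)) * (∑ i, C (Polynomial.C (A i k)) * X (p.1, i)) =
      (∑ i, C (Polynomial.C ((A * B) i p.2)) * X (p.1, i) : Pol m) := by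
  have h1 : ∀ k : Fin m, (C (Polynomial.C (B k p.2)) *
      (∑ i, C (Polynomial.C (A i k)) * X (p.1, i)) : Pol m) =
      ∑ i, C (Polynomial.C (A i k * B k p.2)) * X (p.1, i) := by
    intro k
    rw [Finset.mul_sum]
    apply Finset.sum_congr rfl
    intro i _
    rw [Polynomial.C_mul, C_mul]
    ring
  rw [Finset.sum_congr rfl (fun k _ => h1 k), Finset.sum_comm]
  apply Finset.sum_congr rfl
  intro i _
  rw [← Finset.sum_mul, Matrix.mul_apply, map_sum, map_sum]

lemma dM_sub_X (A g : Mat m) (p : Fin m × Fin m) :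
    dM A (sub g (X p)) = ∑ i, C (Polynomial.C ((A * g) i p.2)) * X (p.1, i) := by
  rw [sub_X, map_sum, ← lin_sum]
  apply Finset.sum_congr rfl
  intro k _
  rw [← smul_eq_C_mul, (dM A).map_smul, dM_X', smul_eq_C_mul]

lemma sub_dM_X (B g : Mat m) (p : Fin m × Fin m) :
    sub g (dM B (X p)) = ∑ i, C (Polynomial.C ((g * B) i p.2)) * X (p.1, i) := by
  rw [dM_X', map_sum, ← lin_sum]
  apply Finset.sum_congr rfl
  intro k _
  rw [← smul_eq_C_mul, map_smul, sub_X, smul_eq_C_mul]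

/-- the derivation of a substitution -/
lemma dM_sub (A B g : Mat m) (h : g * B = A * g) (Ψ : Pol m) :
    dM A (sub g Ψ) = sub g (dM B Ψ) := by
  induction Ψ using MvPolynomial.induction_on with
  | C r =>
    have h1 : (sub g : Pol m →ₐ[Polynomial ℂ] Pol m) (C r) = C r :=
      (sub g : Pol m →ₐ[Polynomial ℂ] Pol m).commutes r
    have h2 : ∀ M : Mat m, dM M (C r) = 0 := fun M => (dM M).map_algebraMap r
    rw [h1, h2, h2, map_zero]
  | add p q hp hq => rw [map_add, map_add, map_add, map_add, hp, hq]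
  | mul_X p i hp =>
    rw [map_mul, Derivation.leibniz, Derivation.leibniz, smul_eq_mul, smul_eq_mul, smul_eq_mul,
      smul_eq_mul, map_add, map_mul, map_mul, hp, dM_sub_X, sub_dM_X, h]

end ST12_

open ST12_ in
theorem p_ST1 : T_ST1 := by
  intro m V
  have hmul : ∀ g ∈ Stab V, ∀ h ∈ Stab V, g * h ∈ Stab V := by
    intro g hg h hh Ψ hΨ p hp
    have h1 : Rel V (sub h Ψ) := by
      intro q hq
      rw [evP_sub]
      exact hh Ψ hΨ q hq
    have h2 := hg (sub h Ψ) h1 p hp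
    rw [evP_sub, Matrix.mul_assoc] at h2
    exact h2
  refine ⟨?_, hmul, ?_⟩
  · intro Ψ hΨ p hp
    rw [mul_one]
    exact hΨ p hp
  · intro g hg h hh hgh A hA Ψ hΨ p hp
    have hhg : h * g = 1 := mul_eq_one_comm.mp hgh
    have h1 : Rel V (sub g Ψ) := by
      intro q hq
      rw [evP_sub]
      exact hg Ψ hΨ q hq
    have h2 : Rel V (dM A (sub g Ψ)) := hA _ h1
    have h3 : g * (h * A * g) = A * g := by
      rw [← Matrix.mul_assoc, ← Matrix.mul_assoc, hgh, Matrix.one_mul]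
    rw [dM_sub A (h * A * g) g h3] at h2
    have h4 := hh _ h2 p hp
    rw [evP_sub, Matrix.mul_assoc, hhg, Matrix.mul_one] at h4
    exact h4

open ST12_ in
theorem p_ST2 (h : HEP.T_DER) : T_ST2 := by
  intro m V
  refine ⟨?_, ?_, ?_⟩
  · intro Ψ _ p _
    obtain ⟨_, h2, _⟩ := h m 0 0 0 Ψ
    rw [smul_zero] at h2
    rw [h2, ← evH_apply, map_mul, map_zero, map_zero, map_zero, zero_mul]
  · intro A hA B hB
    constructor
    · intro Ψ hΨ p hp
      obtain ⟨h1, _, _⟩ := h m A B 0 Ψ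
      rw [h1, ← evH_apply, map_add, evH_apply, evH_apply, hA Ψ hΨ p hp, hB Ψ hΨ p hp, add_zero]
    · intro Ψ hΨ p hp
      obtain ⟨_, _, h3⟩ := h m A B 0 Ψ
      rw [h3, ← evH_apply, map_sub, evH_apply, evH_apply, hA _ (hB Ψ hΨ) p hp,
        hB _ (hA Ψ hΨ) p hp, sub_zero]
  · intro A hA c Ψ hΨ p hp
    obtain ⟨_, h2, _⟩ := h m A A c Ψ
    rw [h2, ← evH_apply, map_mul, evH_apply, evH_apply, hA Ψ hΨ p hp, mul_zero]

end Pool.Agent.MUM
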