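import Pool.Agent.MUM.Targets
import Pool.Agent.HEP.TAY

set_option autoImplicit false

/-!
# MUM, ST345: curves in the stabiliser (MP_5d33ca_ag)
-/

namespace Pool.Agent.MUM

open Finset Pool.Agent.LEG Pool.Agent.HEP
open scoped BigOperators Topology

namespace ST345_

variable {m : ℕ}

/-- derivative of the evaluation along a curve -/
theorem der_ev (z : ℂ) (Z : ℂ → Mat m) (A : Mat m) (t : ℂ)
    (h : ∀ i j, HasDerivAt (fun s => Z s i j) ((Z t * A) i j) t) (Ψ : Pol m) :
    HasDerivAt (fun s => evP z (Z s) Ψ) (evP z (Z t) (dM A Ψ)) t := by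
  induction Ψ using MvPolynomial.induction_on with
  | C a =>
    have h1 : dM A (MvPolynomial.C a) = 0 := by
      have := (dM A).map_algebraMap a
      simpa [MvPolynomial.algebraMap_eq] using this
    rw [h1]
    have h2 : (fun s => evP z (Z s) (MvPolynomial.C a)) = fun _ => a.eval z := by
      funext s
      simp [evP]
    rw [h2]
    have h3 : evP z (Z t) 0 = 0 := by simp [evP]
    rw [h3]
    exact hasDerivAt_const _ _
  | add p q hp hq =>
    have h2 : (fun s => evP z (Z s) (p + q)) = fun s => evP z (Z s) p + evP z (Z s) q := by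
      funext s
      simp [evP, MvPolynomial.eval₂_add]
    have h3 : evP z (Z t) (dM A (p + q)) = evP z (Z t) (dM A p) + evP z (Z t) (dM A q) := by
      rw [map_add]
      simp [evP, MvPolynomial.eval₂_add]
    rw [h2, h3]
    exact hp.add hq
  | mul_X p i hp =>
    have h2 : (fun s => evP z (Z s) (p * MvPolynomial.X i)) =
        fun s => evP z (Z s) p * Z s i.1 i.2 := by
      funext s
      simp [evP, MvPolynomial.eval₂_mul, MvPolynomial.eval₂_X]
    have h4 : evP z (Z t) (dM A (MvPolynomial.X i)) = (Z t * A) i.1 i.2 := by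
      have h1 : dM A (MvPolynomial.X i) =
          ∑ j, MvPolynomial.C (Polynomial.C (A j i.2)) * MvPolynomial.X (i.1, j) := by
        unfold dM
        rw [MvPolynomial.mkDerivation_X]
      rw [h1]
      unfold evP
      rw [MvPolynomial.eval₂_sum, Matrix.mul_apply]
      refine Finset.sum_congr rfl fun j _ => ?_
      simp [MvPolynomial.eval₂_mul, MvPolynomial.eval₂_X, mul_comm]
    have h3 : evP z (Z t) (dM A (p * MvPolynomial.X i)) =
        evP z (Z t) (dM A p) * Z t i.1 i.2 + evP z (Z t) p * (Z t * A) i.1 i.2 := by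
      rw [Derivation.leibniz, ← h4, smul_eq_mul, smul_eq_mul]
      simp only [evP, MvPolynomial.eval₂_add, MvPolynomial.eval₂_mul, MvPolynomial.eval₂_X]
      ring
    rw [h2, h3]
    exact hp.mul (h i.1 i.2)

/-- a curve multiplied by a constant matrix -/
theorem der_mul (X : Mat m) (γ : ℂ → Mat m) (B : Mat m) (t : ℂ)
    (h : ∀ i j, HasDerivAt (fun s => γ s i j) (B i j) t) (i j : Fin m) :
    HasDerivAt (fun s => (X * γ s) i j) ((X * B) i j) t := by
  have h1 : (fun s => (X * γ s) i j) = fun s => ∑ k, X i k * γ s k j := by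
    funext s
    rw [Matrix.mul_apply]
  rw [h1, Matrix.mul_apply]
  exact HasDerivAt.fun_sum fun k _ => (h k j).const_mul (X i k)

theorem rel_iter (V : Set (ℂ × Mat m)) (A : Mat m) (hA : A ∈ LieS V) (Ψ : Pol m)
    (h : Rel V Ψ) (k : ℕ) : Rel V ((fun Φ => dM A Φ)^[k] Ψ) := by
  induction k generalizing Ψ with
  | zero => exact h
  | succ k ih =>
    rw [Function.iterate_succ_apply]
    exact ih _ (hA Ψ h)

end ST345_

open ST345_

theorem p_ST3 : T_ST3 := by
  intro m V γ A h0 hS hd Ψ hΨ p hp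
  have h1 := der_ev p.1 (fun s => p.2 * γ s) A 0 (fun i j => by
    have := der_mul p.2 γ A 0 hd i j
    simpa [h0] using this) Ψ
  have h2 : (fun s => evP p.1 (p.2 * γ s) Ψ) = fun _ => (0 : ℂ) := by
    funext s
    exact hS s Ψ hΨ p hp
  simp only [h2] at h1
  have h3 := h1.unique (hasDerivAt_const (0 : ℂ) (0 : ℂ))
  rw [h0, mul_one] at h3
  exact h3

theorem p_ST4 : T_ST4 := by
  intro m V γ A hA h0 hd t Ψ hΨ p hp
  have hder : ∀ Φ : Pol m, ∀ s, HasDerivAt (fun s => evP p.1 (p.2 * γ s) Φ)
      (evP p.1 (p.2 * γ s) (dM A Φ)) s := by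
    intro Φ s
    refine der_ev p.1 (fun s => p.2 * γ s) A s (fun i j => ?_) Φ
    have := der_mul p.2 γ (γ s * A) s (hd s) i j
    rw [← Matrix.mul_assoc] at this
    exact this
  have hit : ∀ k : ℕ, ∀ Φ : Pol m, iteratedDeriv k (fun s => evP p.1 (p.2 * γ s) Φ) =
      fun s => evP p.1 (p.2 * γ s) ((fun Θ => dM A Θ)^[k] Φ) := by
    intro k
    induction k with
    | zero => intro Φ; simp
    | succ k ih =>
      intro Φ
      rw [iteratedDeriv_succ', Function.iterate_succ_apply]
      have : deriv (fun s => evP p.1 (p.2 * γ s) Φ) =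
          fun s => evP p.1 (p.2 * γ s) (dM A Φ) := by
        funext s
        exact (hder Φ s).deriv
      rw [this]
      exact ih (dM A Φ)
  have hdiff : Differentiable ℂ (fun s => evP p.1 (p.2 * γ s) Ψ) := fun s =>
    (hder Ψ s).differentiableAt
  have h1 := Complex.taylorSeries_eq_of_entire' 0 t hdiff
  rw [← h1]
  have h2 : ∀ n : ℕ, iteratedDeriv n (fun s => evP p.1 (p.2 * γ s) Ψ) 0 = 0 := by
    intro n
    rw [hit n Ψ]
    simp only [h0, mul_one]
    exact rel_iter V A hA Ψ hΨ n p hp
  simp [h2]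

theorem p_ST5 : T_ST5 := by
  intro m V A κ hκ hS c Ψ hΨ p hp
  have h0 : TAY_.phi p.1 p.2 A Ψ = 0 := by
    apply Polynomial.eq_zero_of_infinite_isRoot
    have hinj : Function.Injective fun k : ℕ => (k : ℂ) * κ := by
      intro a b hab
      have := mul_right_cancel₀ hκ hab
      exact_mod_cast this
    refine (Set.infinite_range_of_injective hinj).mono ?_
    rintro _ ⟨k, rfl⟩
    change (TAY_.phi p.1 p.2 A Ψ).eval ((k : ℂ) * κ) = 0
    rw [TAY_.eval_phi]
    exact hS k Ψ hΨ p hp
  rw [← TAY_.eval_phi, h0, Polynomial.eval_zero]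

end Pool.Agent.MUM
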