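import Pool.Agent.MUM.Targets

set_option autoImplicit false

namespace Pool.Agent.MUM

open Finset Set
open scoped BigOperators Topology NNReal

namespace UNQ_

/-- bound for `mulVec` in the sup norm -/
lemma norm_mulVec_le {m : ℕ} (A : Mat m) (x : Fin m → ℂ) :
    ‖A.mulVec x‖ ≤ (∑ i, ∑ j, ‖A i j‖) * ‖x‖ := by
  refine (pi_norm_le_iff_of_nonneg (by positivity)).2 fun i => ?_
  have h1 : ‖A.mulVec x i‖ ≤ ∑ j, ‖A i j‖ * ‖x‖ := by
    simp only [Matrix.mulVec, dotProduct]
    refine (norm_sum_le _ _).trans (Finset.sum_le_sum fun j _ => ?_)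
    rw [norm_mul]
    exact mul_le_mul_of_nonneg_left (norm_le_pi_norm x j) (norm_nonneg _)
  refine h1.trans ?_
  rw [← Finset.sum_mul]
  refine mul_le_mul_of_nonneg_right ?_ (norm_nonneg _)
  exact Finset.single_le_sum (f := fun i => ∑ j, ‖A i j‖) (fun i _ => by positivity)
    (Finset.mem_univ i)

/-- uniqueness for real linear systems -/
lemma real_unique {m : ℕ} (a b : ℝ) (B : ℝ → Mat m) (f g : ℝ → Fin m → ℂ)
    (hB : ∀ i j, ContinuousOn (fun s => B s i j) (Icc a b))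
    (hf : ∀ s ∈ Icc a b, ∀ i, HasDerivAt (fun s => f s i) ((B s).mulVec (f s) i) s)
    (hg : ∀ s ∈ Icc a b, ∀ i, HasDerivAt (fun s => g s i) ((B s).mulVec (g s) i) s)
    (h0 : f a = g a) : EqOn f g (Icc a b) := by
  have hc : ContinuousOn (fun s => ∑ i, ∑ j, ‖B s i j‖) (Icc a b) :=
    continuousOn_finsetSum _ fun i _ => continuousOn_finsetSum _ fun j _ => (hB i j).norm
  obtain ⟨K, hK⟩ := (isCompact_Icc.image_of_continuousOn hc).bddAbove
  have hK' : ∀ s ∈ Icc a b, ∑ i, ∑ j, ‖B s i j‖ ≤ K := fun s hs => hK ⟨s, hs, rfl⟩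
  have hf' : ∀ s ∈ Icc a b, HasDerivAt f ((B s).mulVec (f s)) s := fun s hs =>
    hasDerivAt_pi.2 (hf s hs)
  have hg' : ∀ s ∈ Icc a b, HasDerivAt g ((B s).mulVec (g s)) s := fun s hs =>
    hasDerivAt_pi.2 (hg s hs)
  refine ODE_solution_unique_of_mem_Icc_right (K := K.toNNReal)
    (v := fun s x => (B s).mulVec x) (s := fun _ => Set.univ) ?_
    (fun s hs => (hf' s hs).continuousAt.continuousWithinAt)
    (fun s hs => (hf' s (Ico_subset_Icc_self hs)).hasDerivWithinAt) (fun _ _ => trivial)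
    (fun s hs => (hg' s hs).continuousAt.continuousWithinAt)
    (fun s hs => (hg' s (Ico_subset_Icc_self hs)).hasDerivWithinAt) (fun _ _ => trivial) h0
  intro s hs
  refine LipschitzOnWith.of_dist_le_mul fun x _ y _ => ?_
  rw [dist_eq_norm, dist_eq_norm, ← Matrix.mulVec_sub]
  refine (norm_mulVec_le _ _).trans (mul_le_mul_of_nonneg_right ?_ (norm_nonneg _))
  exact (hK' s (Ico_subset_Icc_self hs)).trans (Real.le_coe_toNNReal K)

end UNQ_

theorem p_UNQ : T_UNQ := by
  intro m Ω A t0 y1 y2 hΩ hconv ht0 hA h1 h2 h0 t ht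
  have hseg : ∀ s ∈ Icc (0 : ℝ) 1, t0 + (s : ℂ) * (t - t0) ∈ Ω := by
    intro s hs
    have := hconv ht0 ht (a := 1 - s) (b := s) (by linarith [hs.2]) hs.1 (by ring)
    convert this using 1
    simp only [Complex.real_smul]
    push_cast
    ring
  have hγ : ∀ s : ℝ, HasDerivAt (fun s : ℝ => t0 + (s : ℂ) * (t - t0)) (t - t0) s := by
    intro s
    have := ((Complex.ofRealCLM.hasDerivAt (x := s)).mul_const (t - t0)).const_add t0
    simpa using this
  have key : ∀ y : ℂ → Fin m → ℂ,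
      (∀ t ∈ Ω, ∀ i, HasDerivAt (fun s => y s i) ((A t).mulVec (y t) i) t) →
      ∀ s ∈ Icc (0 : ℝ) 1, ∀ i, HasDerivAt (fun s : ℝ => y (t0 + (s : ℂ) * (t - t0)) i)
        ((((t - t0) • A (t0 + (s : ℂ) * (t - t0)))).mulVec (y (t0 + (s : ℂ) * (t - t0))) i) s := by
    intro y hy s hs i
    have := (hy _ (hseg s hs) i).comp s (hγ s)
    refine this.congr_deriv ?_
    rw [Matrix.smul_mulVec, Pi.smul_apply, smul_eq_mul, mul_comm]
  have := UNQ_.real_unique (m := m) 0 1 (fun s => (t - t0) • A (t0 + (s : ℂ) * (t - t0)))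
    (fun s => y1 (t0 + (s : ℂ) * (t - t0))) (fun s => y2 (t0 + (s : ℂ) * (t - t0))) ?_
    (key y1 h1) (key y2 h2) (by simpa using h0)
  · have h3 := this (right_mem_Icc.2 zero_le_one)
    simpa using h3
  · intro i j
    have hc : ContinuousOn (fun s : ℝ => t0 + (s : ℂ) * (t - t0)) (Icc 0 1) := by fun_prop
    have := ((hA i j).continuousOn).comp hc hseg
    simpa using this.const_mul (t - t0) |>.congr fun s _ => by simp

end Pool.Agent.MUM
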