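import Pool.Agent.MUM.Targets

set_option autoImplicit false

namespace Pool.Agent.MUM

open Finset
open scoped BigOperators Topology

namespace YT_

/-- derivative of the fundamental matrix -/
lemma deriv_Yv {m : ℕ} (α : Fin m → ℚ) (hα : Sym m α) (h3 : T_AN) (h4 : T_NJ) (z : ℂ)
    (hz : z ∈ Metric.ball (0 : ℂ) 1) (hz' : z ∈ Complex.slitPlane) :
    ∃ D : Mat m, (∀ i j, HasDerivAt (fun z => Yv α z i j) (D i j) z) ∧
      (z * (1 - z)) • D = ((1 - z) • Nm m + z • Em α) * Yv α z := by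
  obtain ⟨S', hS', hE⟩ := (h3 m α hα).2.2.2.2 z hz
  have hz0 : z ≠ 0 := Complex.slitPlane_ne_zero hz'
  refine ⟨S' * eN m (Complex.log z) + z⁻¹ • (Sv α z * (Nm m * eN m (Complex.log z))), ?_, ?_⟩
  · intro i j
    have h1 : ∀ k, HasDerivAt (fun z => eN m (Complex.log z) k j)
        ((Nm m * eN m (Complex.log z)) k j * z⁻¹) z := fun k =>
      ((h4 m).2.2.1 (Complex.log z) k j).comp z (Complex.hasDerivAt_log hz')
    have h2 : HasDerivAt (fun z => ∑ k, Sv α z i k * eN m (Complex.log z) k j)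
        (∑ k, (S' i k * eN m (Complex.log z) k j +
          Sv α z i k * ((Nm m * eN m (Complex.log z)) k j * z⁻¹))) z :=
      HasDerivAt.fun_sum fun k _ => (hS' i k).mul (h1 k)
    have h3 : (fun z => Yv α z i j) = fun z => ∑ k, Sv α z i k * eN m (Complex.log z) k j := by
      ext w
      simp [Yv, Matrix.mul_apply]
    rw [h3]
    refine h2.congr_deriv ?_
    rw [Matrix.add_apply, Matrix.smul_apply, Matrix.mul_apply, Matrix.mul_apply, Finset.sum_add_distrib,
      smul_eq_mul, Finset.mul_sum]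
    congr 1
    refine Finset.sum_congr rfl fun k _ => ?_
    ring
  · have e1 : (z * (1 - z)) • (S' * eN m (Complex.log z)) =
        (((1 - z) • Nm m + z • Em α) * Sv α z - (1 - z) • (Sv α z * Nm m)) *
          eN m (Complex.log z) := by
      rw [← hE, Matrix.smul_mul]
    have e2 : (z * (1 - z)) • (z⁻¹ • (Sv α z * (Nm m * eN m (Complex.log z)))) =
        (1 - z) • (Sv α z * Nm m) * eN m (Complex.log z) := by
      rw [smul_smul, Matrix.smul_mul, Matrix.mul_assoc]
      congr 1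
      field_simp
    rw [smul_add, e1, e2, Matrix.sub_mul, sub_add_cancel, Yv, Matrix.mul_assoc]

/-- the pull-back satisfies the system -/
lemma ode_Yv {m : ℕ} (α : Fin m → ℚ) (hα : Sym m α) (h3 : T_AN) (h4 : T_NJ) (t : ℂ)
    (hz : 1 - Complex.exp t ∈ Metric.ball (0 : ℂ) 1) (hz' : 1 - Complex.exp t ∈ Complex.slitPlane)
    (i j : Fin m) :
    HasDerivAt (fun s => Yv α (1 - Complex.exp s) i j)
      ((Pt α t * Yv α (1 - Complex.exp t)) i j) t := by
  obtain ⟨D, hD, hE⟩ := deriv_Yv α hα h3 h4 _ hz hz'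
  have hz0 : 1 - Complex.exp t ≠ 0 := Complex.slitPlane_ne_zero hz'
  have h1 : HasDerivAt (fun s => 1 - Complex.exp s) (-Complex.exp t) t := by
    simpa using (Complex.hasDerivAt_exp t).const_sub 1
  have h2 := (hD i j).comp t h1
  refine h2.congr_deriv ?_
  have h5 : (-Complex.exp t) • D = Pt α t * Yv α (1 - Complex.exp t) := by
    have e1 : (-Complex.exp t) • D = (-(1 - Complex.exp t)⁻¹) •
        (((1 - Complex.exp t) * (1 - (1 - Complex.exp t))) • D) := by
      rw [smul_smul]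
      congr 1
      field_simp
      ring
    rw [e1, hE, ← Matrix.smul_mul]
    congr 1
    ext a b
    simp only [Pt, Matrix.add_apply, Matrix.sub_apply, Matrix.smul_apply, smul_eq_mul,
      sub_sub_cancel]
    field_simp
    ring
  have h6 := congrFun (congrFun h5 i) j
  rw [← h6, Matrix.smul_apply, smul_eq_mul, mul_comm]

/-- the strip -/
def Om : Set ℂ := {s | s.re < -1 / 2 ∧ -1 < s.im ∧ s.im < 1}

lemma exp_half : Real.exp (-1 / 2) ≤ 2 / 3 := by
  have h1 : (3 / 2 : ℝ) ≤ Real.exp (1 / 2) := by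
    have := Real.add_one_le_exp (1 / 2 : ℝ)
    linarith
  have h2 : Real.exp (-1 / 2) = (Real.exp (1 / 2))⁻¹ := by
    rw [← Real.exp_neg]
    norm_num
  rw [h2, inv_le_comm₀ (Real.exp_pos _) (by norm_num)]
  linarith

lemma re_pos {t : ℂ} (ht : t ∈ LL) : 1 / 3 ≤ (1 - Complex.exp t).re := by
  have h1 : ‖Complex.exp t‖ ≤ 2 / 3 := by
    rw [Complex.norm_exp]
    have : t.re < -1 / 2 := ht
    exact (Real.exp_le_exp.2 this.le).trans exp_half
  have h2 := Complex.re_le_norm (Complex.exp t)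
  rw [Complex.sub_re, Complex.one_re]
  linarith

lemma one_sub_slit {t : ℂ} (ht : t ∈ LL) : 1 - Complex.exp t ∈ Complex.slitPlane := by
  left
  linarith [re_pos ht]

lemma Om_ball {s : ℂ} (hs : s ∈ Om) : 1 - Complex.exp s ∈ Metric.ball (0 : ℂ) 1 := by
  rw [Metric.mem_ball, dist_zero_right]
  obtain ⟨h1, h2, h3⟩ := hs
  set r := Real.exp s.re with hr
  have hr0 : 0 < r := Real.exp_pos _
  have hr1 : r ≤ 2 / 3 := (Real.exp_le_exp.2 h1.le).trans exp_half
  have hc : 1 / 2 ≤ Real.cos s.im := by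
    have := Real.one_sub_sq_div_two_le_cos (x := s.im)
    have : s.im ^ 2 ≤ 1 := by
      rw [sq_le_one_iff_abs_le_one, abs_le]
      constructor <;> linarith
    linarith
  have e : ‖1 - Complex.exp s‖ ^ 2 < 1 := by
    rw [← Complex.normSq_eq_norm_sq, Complex.normSq_apply, Complex.sub_re, Complex.sub_im,
      Complex.one_re, Complex.one_im, Complex.exp_re, Complex.exp_im, ← hr]
    have h4 := Real.sin_sq_add_cos_sq s.im
    have h5 : r * (1 / 2) ≤ r * Real.cos s.im := by gcongr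
    have h6 : (1 - r * Real.cos s.im) * (1 - r * Real.cos s.im) +
        (0 - r * Real.sin s.im) * (0 - r * Real.sin s.im) =
        1 - 2 * (r * Real.cos s.im) + r ^ 2 * (Real.sin s.im ^ 2 + Real.cos s.im ^ 2) := by ring
    rw [h6, h4]
    nlinarith
  nlinarith [norm_nonneg (1 - Complex.exp s)]

lemma Om_LL {s : ℂ} (hs : s ∈ Om) : s ∈ LL := hs.1

lemma LL_open : IsOpen LL := isOpen_lt Complex.continuous_re continuous_const

lemma LL_convex : Convex ℝ LL := convex_halfSpace_re_lt _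

lemma Om_open : IsOpen Om := by
  refine (isOpen_lt Complex.continuous_re continuous_const).inter
    ((isOpen_lt continuous_const Complex.continuous_im).inter
      (isOpen_lt Complex.continuous_im continuous_const))

lemma Om_convex : Convex ℝ Om :=
  (convex_halfSpace_re_lt _).inter ((convex_halfSpace_im_gt _).inter (convex_halfSpace_im_lt _))

lemma Pt_diff {m : ℕ} (α : Fin m → ℚ) (i j : Fin m) :
    DifferentiableOn ℂ (fun t => Pt α t i j) LL := by
  have h1 : (fun t => Pt α t i j) =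
      fun t => -(Complex.exp t / (1 - Complex.exp t)) * Nm m i j - Em α i j := by
    ext t
    simp [Pt]
  rw [h1]
  refine DifferentiableOn.sub_const (DifferentiableOn.mul_const (DifferentiableOn.neg ?_) _) _
  refine DifferentiableOn.div Complex.differentiable_exp.differentiableOn
    ((differentiableOn_const _).sub Complex.differentiable_exp.differentiableOn) fun t ht => ?_
  exact Complex.slitPlane_ne_zero (one_sub_slit ht)

lemma Pt_bound {m : ℕ} (α : Fin m → ℚ) (t : ℂ) (ht : t ∈ LL) (i j : Fin m) :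
    ‖Pt α t i j‖ ≤ 2 + ∑ i, ∑ j, ‖Em α i j‖ := by
  have h1 : Pt α t i j = -(Complex.exp t / (1 - Complex.exp t)) * Nm m i j - Em α i j := by
    simp [Pt]
  rw [h1]
  refine (norm_sub_le _ _).trans (add_le_add ?_ ?_)
  · rw [norm_mul, norm_neg, norm_div]
    have h2 : ‖Complex.exp t‖ ≤ 2 / 3 := by
      rw [Complex.norm_exp]
      have : t.re < -1 / 2 := ht
      exact (Real.exp_le_exp.2 this.le).trans exp_half
    have h3 : 1 / 3 ≤ ‖1 - Complex.exp t‖ := (re_pos ht).trans (Complex.re_le_norm _)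
    have h4 : ‖Nm m i j‖ ≤ 1 := by
      simp only [Nm, Matrix.of_apply]
      split_ifs <;> simp
    have h5 : ‖Complex.exp t‖ / ‖1 - Complex.exp t‖ ≤ 2 := by
      rw [div_le_iff₀ (by linarith)]
      linarith
    calc ‖Complex.exp t‖ / ‖1 - Complex.exp t‖ * ‖Nm m i j‖ ≤ 2 * 1 := by gcongr
      _ = 2 := by norm_num
  · have h2 : ‖Em α i j‖ ≤ ∑ j, ‖Em α i j‖ :=
      Finset.single_le_sum (f := fun j => ‖Em α i j‖) (fun j _ => norm_nonneg _)
        (Finset.mem_univ j)
    exact h2.trans (Finset.single_le_sum (f := fun i => ∑ j, ‖Em α i j‖)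
      (fun i _ => by positivity) (Finset.mem_univ i))

lemma Pt_per {m : ℕ} (α : Fin m → ℚ) (t : ℂ) : Pt α (t + 2 * Real.pi * Complex.I) = Pt α t := by
  simp only [Pt]
  rw [Complex.exp_periodic t]

/-- uniqueness for matrices -/
lemma mat_unique (h2 : T_UNQ) {m : ℕ} (Ω : Set ℂ) (A : ℂ → Mat m) (t0 : ℂ) (Y1 Y2 : ℂ → Mat m)
    (hΩ : IsOpen Ω) (hc : Convex ℝ Ω) (ht0 : t0 ∈ Ω)
    (hA : ∀ i j, DifferentiableOn ℂ (fun t => A t i j) Ω)
    (hY1 : ∀ t ∈ Ω, ∀ i j, HasDerivAt (fun s => Y1 s i j) ((A t * Y1 t) i j) t)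
    (hY2 : ∀ t ∈ Ω, ∀ i j, HasDerivAt (fun s => Y2 s i j) ((A t * Y2 t) i j) t)
    (h0 : Y1 t0 = Y2 t0) : ∀ t ∈ Ω, Y1 t = Y2 t := by
  intro t ht
  ext i j
  have := h2 m Ω A t0 (fun s i => Y1 s i j) (fun s i => Y2 s i j) hΩ hc ht0 hA
    (fun t ht i => (hY1 t ht i j).congr_deriv (by simp [Matrix.mul_apply, Matrix.mulVec, dotProduct]))
    (fun t ht i => (hY2 t ht i j).congr_deriv (by simp [Matrix.mul_apply, Matrix.mulVec, dotProduct]))
    (by rw [h0]) t ht
  exact congrFun this i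

end YT_

open YT_ in
theorem p_YT (h1 : T_PIC) (h2 : T_UNQ) (h3 : T_AN) (h4 : T_NJ) : T_YT := by
  intro m α hα
  set t1 : ℂ := ((Real.log (1 / 4) : ℝ) : ℂ) with ht1
  have hlog : Real.log (1 / 4) < -1 / 2 := by
    rw [Real.log_lt_iff_lt_exp (by norm_num)]
    have h5 : (1 / 2 : ℝ) ≤ Real.exp (-1 / 2) := by
      have := Real.add_one_le_exp (-1 / 2 : ℝ)
      linarith
    linarith
  have ht1Om : t1 ∈ Om := by
    refine ⟨?_, ?_, ?_⟩
    · rw [ht1, Complex.ofReal_re]
      exact hlog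
    · rw [ht1, Complex.ofReal_im]
      norm_num
    · rw [ht1, Complex.ofReal_im]
      norm_num
  have ht1L : t1 ∈ LL := Om_LL ht1Om
  have hexp1 : 1 - Complex.exp t1 = 3 / 4 := by
    rw [ht1, ← Complex.ofReal_exp, Real.exp_log (by norm_num)]
    push_cast
    norm_num
  obtain ⟨Y, C, hY0, hY, hC⟩ := h1 m LL (Pt α) (2 + ∑ i, ∑ j, ‖Em α i j‖) t1 (Yv α (3 / 4))
    LL_open LL_convex ht1L (Pt_diff α) (Pt_bound α)
  -- invertibility
  have hdet : IsUnit (Yv α (3 / 4)).det := by
    have hb : (3 / 4 : ℂ) ∈ Metric.ball (0 : ℂ) 1 := by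
      rw [Metric.mem_ball, dist_zero_right]
      norm_num
    have e1 := (h3 m α hα).2.2.1 _ hb
    have e2 : (Yv α (3 / 4)).transpose * (Bz α (3 / 4) * Yv α (3 / 4)) = Jm m := by
      have e3 := (h4 m).2.2.2.2.1 (Complex.log (3 / 4))
      rw [← e1] at e3
      rw [Yv, Matrix.transpose_mul]
      simp only [Matrix.mul_assoc] at e3 ⊢
      rw [e3, ← e1]
      simp only [Matrix.mul_assoc]
    have e4 := congrArg Matrix.det e2
    rw [Matrix.det_mul, Matrix.det_transpose] at e4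
    rw [isUnit_iff_ne_zero]
    intro h0
    rw [h0, zero_mul] at e4
    exact (h4 m).2.2.2.2.2.2.2.2 e4.symm
  have hshift : ∀ t ∈ LL, t + 2 * Real.pi * Complex.I ∈ LL := by
    intro t ht
    have : (t + 2 * Real.pi * Complex.I).re = t.re := by simp
    change (t + 2 * Real.pi * Complex.I).re < -1 / 2
    rw [this]
    exact ht
  refine ⟨Y, (Yv α (3 / 4))⁻¹ * Y (t1 + 2 * Real.pi * Complex.I), hY, ?_, ?_, ?_⟩
  · -- values
    have hOm : ∀ s ∈ Om, Y s = Yv α (1 - Complex.exp s) := by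
      refine mat_unique h2 Om (Pt α) t1 Y (fun s => Yv α (1 - Complex.exp s)) Om_open Om_convex ht1Om
        (fun i j => (Pt_diff α i j).mono fun s hs => Om_LL hs) (fun t ht => hY t (Om_LL ht)) ?_ ?_
      · intro t ht i j
        exact ode_Yv α hα h3 h4 t (Om_ball ht) (one_sub_slit (Om_LL ht)) i j
      · rw [hY0, hexp1]
    intro x hx1 hx2
    have hx3 : 0 < 1 - x := by linarith
    have hs : ((Real.log (1 - x) : ℝ) : ℂ) ∈ Om := by
      refine ⟨?_, ?_, ?_⟩
      · rw [Complex.ofReal_re, Real.log_lt_iff_lt_exp hx3]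
        have h5 : (1 / 2 : ℝ) ≤ Real.exp (-1 / 2) := by
          have := Real.add_one_le_exp (-1 / 2 : ℝ)
          linarith
        linarith
      · rw [Complex.ofReal_im]
        norm_num
      · rw [Complex.ofReal_im]
        norm_num
    rw [hOm _ hs, ← Complex.ofReal_exp, Real.exp_log hx3]
    congr 1
    push_cast
    ring
  · -- monodromy
    refine mat_unique h2 LL (Pt α) t1 (fun t => Y (t + 2 * Real.pi * Complex.I))
      (fun t => Y t * ((Yv α (3 / 4))⁻¹ * Y (t1 + 2 * Real.pi * Complex.I))) LL_open LL_convex ht1L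
      (Pt_diff α) ?_ ?_ ?_
    · intro t ht i j
      have h5 := hY _ (hshift t ht) i j
      rw [Pt_per] at h5
      exact h5.comp_add_const t (2 * Real.pi * Complex.I)
    · intro t ht i j
      set M := (Yv α (3 / 4))⁻¹ * Y (t1 + 2 * Real.pi * Complex.I)
      have h5 : HasDerivAt (fun s => ∑ k, Y s i k * M k j) (∑ k, (Pt α t * Y t) i k * M k j) t :=
        HasDerivAt.fun_sum fun k _ => (hY t ht i k).mul_const _
      have h6 : (fun s => (Y s * M) i j) = fun s => ∑ k, Y s i k * M k j := by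
        ext s
        rw [Matrix.mul_apply]
      rw [h6, ← Matrix.mul_assoc, Matrix.mul_apply]
      exact h5
    · rw [hY0, Matrix.mul_nonsing_inv_cancel_left _ _ hdet]
  · -- growth
    refine ⟨|C| * Real.exp (|C| * ‖t1‖), fun t ht i j => ?_⟩
    have h5 := hC t ht i j
    have h6 : ‖t - t1‖ ≤ ‖t‖ + ‖t1‖ := norm_sub_le _ _
    have h7 : (1 : ℝ) ≤ Real.exp (|C| * ‖t1‖) := Real.one_le_exp (by positivity)
    calc ‖Y t i j‖ ≤ C * Real.exp (C * ‖t - t1‖) := h5
      _ ≤ |C| * Real.exp (|C| * (‖t‖ + ‖t1‖)) := by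
          refine mul_le_mul (le_abs_self C) (Real.exp_le_exp.2 ?_) (Real.exp_pos _).le (abs_nonneg _)
          calc C * ‖t - t1‖ ≤ |C| * ‖t - t1‖ := by
                exact mul_le_mul_of_nonneg_right (le_abs_self C) (norm_nonneg _)
            _ ≤ |C| * (‖t‖ + ‖t1‖) := by gcongr
      _ = (|C| * Real.exp (|C| * ‖t1‖)) * Real.exp (|C| * ‖t‖) := by
          rw [mul_assoc, ← Real.exp_add]
          ring_nf
      _ ≤ (|C| * Real.exp (|C| * ‖t1‖)) * Real.exp ((|C| * Real.exp (|C| * ‖t1‖)) * ‖t‖) := by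
          refine mul_le_mul_of_nonneg_left (Real.exp_le_exp.2 ?_) (by positivity)
          have : |C| * 1 ≤ |C| * Real.exp (|C| * ‖t1‖) := by gcongr
          rw [mul_one] at this
          exact mul_le_mul_of_nonneg_right this (norm_nonneg _)

end Pool.Agent.MUM
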