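import Pool.Agent.MUM.SQ
import Pool.Agent.MUM.REC
import Pool.Agent.MUM.BID
import Pool.Agent.MUM.SB
import Pool.Agent.MUM.BD
import Pool.Agent.MUM.GS
import Pool.Agent.MUM.CN
import Pool.Agent.MUM.NJ
import Pool.Agent.MUM.BDET
import Pool.Agent.MUM.AN
import Pool.Agent.MUM.PIC
import Pool.Agent.MUM.UNQ
import Pool.Agent.MUM.YT
import Pool.Agent.MUM.MJ
import Pool.Agent.MUM.FROB
import Pool.Agent.MUM.MR
import Pool.Agent.MUM.PRING
import Pool.Agent.MUM.ME0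
import Pool.Agent.MUM.MSTR
import Pool.Agent.MUM.LOGR
import Pool.Agent.MUM.ST12
import Pool.Agent.MUM.ST345
import Pool.Agent.MUM.MINV
import Pool.Agent.MUM.SPAN
import Pool.Agent.MUM.EVEN
import Pool.Agent.MUM.OLIE
import Pool.Agent.MUM.OREF
import Pool.Agent.MUM.OGEN
import Pool.Agent.MUM.ODD
import Pool.Agent.MUM.CORE
import Pool.Agent.MUM.PBG
import Pool.Agent.MUM.PBO
import Pool.Agent.MUM.PBR
import Pool.Agent.MUM.PBV
import Pool.Agent.MUM.FIN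
import Pool.Agent.MUM.YODE
import Pool.Agent.HEP.DER
import Pool.Agent.HEP.TAY
import Pool.Agent.HEP.SPG
import Pool.Agent.GFam.All2

/-!
# Assembly: relations of bounded degree between periods of hypergeometric families
-/

set_option autoImplicit false

namespace Pool.Agent.MUM

theorem a_SQ : T_SQ := p_SQ

theorem a_REC : T_REC := p_REC

theorem a_BID : T_BID := p_BID a_SQ

theorem a_SB : T_SB := p_SB a_REC a_BID

theorem a_BD : T_BD := p_BD

theorem a_GS : T_GS := p_GS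

theorem a_CN : T_CN := p_CN

theorem a_NJ : T_NJ := p_NJ

theorem a_BDET : T_BDET := p_BDET a_BID

theorem a_AN : T_AN := p_AN a_BD a_REC a_SB

theorem a_YT : T_YT := p_YT p_PIC p_UNQ a_AN a_NJ

theorem a_MJ : T_MJ := p_MJ a_AN a_NJ

theorem a_FROB : T_FROB := p_FROB a_SQ

theorem a_MR : T_MR := p_MR a_FROB p_UNQ a_MJ a_NJ a_BDET

theorem a_ME0 : T_ME0 := p_ME0 p_PRING a_CN a_AN a_NJ

theorem a_MSTR : T_MSTR := p_MSTR a_NJ

theorem a_ST2 : T_ST2 := p_ST2 HEP.p_DER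

theorem a_MINV : T_MINV := p_MINV a_AN a_NJ p_LOGR

theorem a_SPAN : T_SPAN := p_SPAN a_NJ

theorem a_EVEN : T_EVEN := p_EVEN a_NJ a_SPAN p_ST1 a_ST2 p_ST3 p_ST5 HEP.p_TAY HEP.p_SPG

theorem a_OLIE : T_OLIE := p_OLIE a_NJ a_SPAN p_ST1 a_ST2 p_ST3

theorem a_OREF : T_OREF := p_OREF p_ST1 p_ST4

theorem a_ODD : T_ODD := p_ODD a_OLIE a_OREF p_OGEN a_NJ p_ST1

theorem a_CORE : T_CORE := p_CORE a_YT a_MJ a_MR a_ME0 a_MSTR a_MINV a_EVEN a_ODD

theorem a_PBO : T_PBO := p_PBO a_REC a_SQ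

theorem a_PBR : T_PBR := p_PBR a_CORE a_AN

theorem a_FIN : T_FIN := p_FIN p_PBG a_PBO a_PBR p_PBV a_GS a_AN a_NJ GFam.gfin

end Pool.Agent.MUM
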