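import Pool.Agent.MUM.Targets
import Pool.Agent.HEP.FINH

set_option autoImplicit false

/-!
# FIN: the main theorem (from the functional statement and the general G-function theorem)
-/

namespace Pool.Agent.MUM

open Finset Pool.Agent.LEG Pool.Agent.HEP
open scoped BigOperators Topology

namespace FIN_

/-- indices of the constants -/
abbrev Ix (k n M : ℕ) : Type := Fin k ⊕ (Fin n ⊕ Fin M)

/-- the constants -/
noncomputable def th {k n : ℕ} (M : ℕ) (θ : Fin k → ℂ) (c : Fin n → ℚ) : Ix k n M → ℂ :=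
  Sum.elim θ (Sum.elim (fun l => Complex.log (c l : ℂ)) (fun r => (((r : ℕ).factorial : ℂ))⁻¹))

/-- the substitution -/
noncomputable def FF {n k M k' : ℕ} {m : Fin n → ℕ} (hM : ∀ l, m l ≤ M) (e : Fin n → ℕ)
    (E : Ix k n M ≃ Fin k') :
    Fin k ⊕ Var m → MvPolynomial (Fin k' ⊕ GFam.Vr fun i => m i * m i) ℤ
  | .inl j => MvPolynomial.X (.inl (E (.inl j)))
  | .inr p => ∑ i : Fin (m p.1), MvPolynomial.X (.inr ⟨p.1, some (finProdFinEquiv (p.2.1, i))⟩) *
      (if (i : ℕ) ≤ p.2.2 then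
        (MvPolynomial.X (.inl (E (.inr (.inl p.1)))) -
          MvPolynomial.C (e p.1 : ℤ) * MvPolynomial.X (.inr ⟨p.1, none⟩)) ^ ((p.2.2 : ℕ) - i) *
        MvPolynomial.X (.inl (E (.inr (.inr ⟨(p.2.2 : ℕ) - i, by
          have h1 := p.2.2.2
          have h2 := hM p.1
          omega⟩)))) else 0)

theorem deg_aux {σ : Type} (a b c d : σ) (e : ℤ) (r : ℕ) :
    (MvPolynomial.X a * ((MvPolynomial.X b - MvPolynomial.C e * MvPolynomial.X c) ^ r *
      MvPolynomial.X d) : MvPolynomial σ ℤ).totalDegree ≤ r + 2 := by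
  have h1 : (MvPolynomial.X b - MvPolynomial.C e * MvPolynomial.X c :
      MvPolynomial σ ℤ).totalDegree ≤ 1 := by
    refine (MvPolynomial.totalDegree_sub _ _).trans (max_le ?_ ?_)
    · rw [MvPolynomial.totalDegree_X]
    · refine (MvPolynomial.totalDegree_mul _ _).trans ?_
      rw [MvPolynomial.totalDegree_C, MvPolynomial.totalDegree_X]
  have h2 := (MvPolynomial.totalDegree_pow (MvPolynomial.X b -
    MvPolynomial.C e * MvPolynomial.X c : MvPolynomial σ ℤ) r).trans (Nat.mul_le_mul_left _ h1)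
  have h3 := MvPolynomial.totalDegree_mul ((MvPolynomial.X b -
    MvPolynomial.C e * MvPolynomial.X c : MvPolynomial σ ℤ) ^ r) (MvPolynomial.X d)
  have h4 := MvPolynomial.totalDegree_mul (MvPolynomial.X a : MvPolynomial σ ℤ)
    ((MvPolynomial.X b - MvPolynomial.C e * MvPolynomial.X c) ^ r * MvPolynomial.X d)
  rw [MvPolynomial.totalDegree_X] at h3 h4
  omega

theorem FF_deg {n k M k' : ℕ} {m : Fin n → ℕ} (hM : ∀ l, m l ≤ M) (e : Fin n → ℕ)
    (E : Ix k n M ≃ Fin k') (x : Fin k ⊕ Var m) : (FF hM e E x).totalDegree ≤ M + 2 := by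
  rcases x with j | p
  · simp [FF]
  · unfold FF
    refine MvPolynomial.totalDegree_finsetSum_le fun i _ => ?_
    split_ifs with h
    · refine (deg_aux _ _ _ _ _ _).trans ?_
      have h4 := p.2.2.2
      have h5 := hM p.1
      omega
    · rw [mul_zero, MvPolynomial.totalDegree_zero]
      omega

/-- evaluation of the substitution -/
theorem FF_eval {n k M k' : ℕ} {m : Fin n → ℕ} (hM : ∀ l, m l ≤ M) (e : Fin n → ℕ)
    (E : Ix k n M ≃ Fin k') (θ : Fin k → ℂ) (c : Fin n → ℚ)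
    (v : GFam.Vr (fun i => m i * m i) → ℂ) (w : Var m → ℂ)
    (hw : ∀ p : Var m, w p = ∑ i, v ⟨p.1, some (finProdFinEquiv (p.2.1, i))⟩ *
      eN (m p.1) (Complex.log (c p.1 : ℂ) - (e p.1 : ℂ) * v ⟨p.1, none⟩) i p.2.2)
    (P : MvPolynomial (Fin k ⊕ Var m) ℤ) :
    MvPolynomial.aeval (Sum.elim (fun j => th M θ c (E.symm j)) v)
      (MvPolynomial.aeval (FF hM e E) P) = MvPolynomial.aeval (Sum.elim θ w) P := by
  have h1 : ((MvPolynomial.aeval (R := ℤ) (Sum.elim (fun j => th M θ c (E.symm j)) v)).comp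
      (MvPolynomial.aeval (FF hM e E))) = MvPolynomial.aeval (Sum.elim θ w) := by
    apply MvPolynomial.algHom_ext
    intro x
    rcases x with j | p
    · simp [FF, th]
    · simp only [AlgHom.coe_comp, Function.comp_apply, MvPolynomial.aeval_X, Sum.elim_inr]
      rw [hw]
      simp only [FF]
      rw [map_sum]
      refine sum_congr rfl fun i _ => ?_
      rw [map_mul, MvPolynomial.aeval_X, Sum.elim_inr]
      congr 1
      unfold eN
      rw [Matrix.of_apply]
      split_ifs with h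
      · rw [map_mul, map_pow, map_sub, map_mul, MvPolynomial.aeval_X, MvPolynomial.aeval_X,
          MvPolynomial.aeval_X, Sum.elim_inl, Sum.elim_inr, Sum.elim_inl, MvPolynomial.aeval_C,
          Equiv.symm_apply_apply, Equiv.symm_apply_apply, div_eq_mul_inv]
        simp [th]
      · rw [map_zero]
  rw [← h1]
  rfl

/-- transport of a system -/
theorem sys {m : ℕ} {T : Polynomial ℚ} {A : Fin m × Fin m → Fin m × Fin m → Polynomial ℚ}
    {F : Fin m × Fin m → PowerSeries ℚ} (h : Hor T A F) :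
    Hor T (fun p q : Fin (m * m) => A (finProdFinEquiv.symm p) (finProdFinEquiv.symm q))
      (fun p => F (finProdFinEquiv.symm p)) := by
  intro p
  rw [h (finProdFinEquiv.symm p)]
  exact (Equiv.sum_comp finProdFinEquiv.symm
    (fun q => (A (finProdFinEquiv.symm p) q : PowerSeries ℚ) * F q)).symm

/-- the logarithm -/
theorem log_eq (c : ℚ) (hc : c ≠ 0) (N e : ℕ) (hN : 1 ≤ N) :
    Complex.log ((c : ℂ) / (N : ℂ) ^ e) =
      Complex.log (c : ℂ) - (e : ℂ) * ((Real.log N : ℝ) : ℂ) := by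
  have hN0 : (0 : ℝ) < N := by exact_mod_cast hN
  have h1 : (c : ℂ) / (N : ℂ) ^ e = (((((N : ℝ) ^ e)⁻¹ : ℝ)) : ℂ) * (c : ℂ) := by
    push_cast
    rw [div_eq_mul_inv, mul_comm]
  rw [h1, Complex.log_ofReal_mul (by positivity) (by exact_mod_cast hc), Real.log_inv,
    Real.log_pow]
  push_cast
  ring

/-- the matrix which transports the fundamental solution to the given point -/
theorem transp {m : ℕ} (h7 : T_NJ) {S B X : Mat m} (s : ℂ) (hS : S.transpose * B * S = Jm m)
    (hX : X.transpose * B * X = Jm m) : ∃ g : Mat m, g.transpose * Jm m * g = Jm m ∧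
      S * g = X * eN m (-s) := by
  obtain ⟨-, -, -, -, hJe, -, -, -, hJdet⟩ := h7 m
  have hSdet : S.det ≠ 0 := by
    intro h0
    apply hJdet
    rw [← hS, Matrix.det_mul, h0, mul_zero]
  have hu : IsUnit S.det := isUnit_iff_ne_zero.2 hSdet
  have h1 : S * S⁻¹ = 1 := Matrix.mul_nonsing_inv _ hu
  refine ⟨S⁻¹ * (X * eN m (-s)), ?_, ?_⟩
  · have h2 : (S⁻¹).transpose * Jm m * S⁻¹ = B := by
      rw [← hS]
      calc (S⁻¹).transpose * (S.transpose * B * S) * S⁻¹ =
          ((S⁻¹).transpose * S.transpose) * B * (S * S⁻¹) := by simp only [Matrix.mul_assoc]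
        _ = B := by rw [← Matrix.transpose_mul, h1, Matrix.transpose_one, Matrix.one_mul,
            Matrix.mul_one]
    calc (S⁻¹ * (X * eN m (-s))).transpose * Jm m * (S⁻¹ * (X * eN m (-s))) =
        (eN m (-s)).transpose * (X.transpose * ((S⁻¹).transpose * Jm m * S⁻¹) * X) *
          eN m (-s) := by simp only [Matrix.transpose_mul, Matrix.mul_assoc]
      _ = Jm m := by rw [h2, hX, hJe]
  · rw [← Matrix.mul_assoc, h1, Matrix.one_mul]

end FIN_

open FIN_ in
/-- FIN -/
theorem p_FIN (h1 : T_PBG) (h2 : T_PBO) (h3 : T_PBR) (h4 : T_PBV) (h5 : T_GS) (h6 : T_AN)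
    (h7 : T_NJ) (h8 : GFam.T_GFIN) : T_FIN := by
  classical
  intro n k D m α c e hs hc he
  set M : ℕ := ∑ l, m l with hMdef
  have hM : ∀ l, m l ≤ M := fun l =>
    single_le_sum (f := m) (fun i _ => Nat.zero_le _) (mem_univ l)
  -- the functions
  set f : ∀ l, Fin (m l * m l) → PowerSeries ℚ := fun l p =>
    pb (c l) (e l) (Sf (α l) (finProdFinEquiv.symm p).1 (finProdFinEquiv.symm p).2) with hf
  have hfG : ∀ l p, IsG (f l p) := fun l p =>
    h1 _ _ _ (he l) (h5 (m l) (α l) (fun i => ⟨(hs l).pos i, (hs l).lt i⟩) _ _)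
  have hfS : ∀ l, ∃ (T : Polynomial ℚ) (A : Fin (m l * m l) → Fin (m l * m l) → Polynomial ℚ),
      Squarefree T ∧ (∀ j j', (A j j').degree < T.degree) ∧ Hor T A (f l) := by
    intro l
    obtain ⟨T, A, hT, hA, hH⟩ := h2 (m l) (α l) (c l) (e l) (hs l) (hc l) (he l)
    exact ⟨T, fun p q => A (finProdFinEquiv.symm p) (finProdFinEquiv.symm q), hT,
      fun p q => hA _ _, sys hH⟩
  have hfa : ∀ (l : Fin n) (a i : Fin (m l)),
      f l (finProdFinEquiv (a, i)) = pb (c l) (e l) (Sf (α l) a i) := by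
    intro l a i
    rw [hf]
    simp only [Equiv.symm_apply_apply]
  -- a bound
  obtain ⟨N0, hN0⟩ : ∃ N0 : Fin n → ℕ, ∀ l (N : ℕ), N0 l ≤ N →
      1 ≤ N ∧ |(c l : ℝ)| < (N : ℝ) ^ e l := by
    refine ⟨fun l => ⌈|(c l : ℝ)|⌉₊ + 1, fun l N hN => ?_⟩
    have hN' : ⌈|(c l : ℝ)|⌉₊ + 1 ≤ N := hN
    have h9 : 1 ≤ N := (Nat.le_add_left 1 _).trans hN'
    refine ⟨h9, ?_⟩
    have h10 : (⌈|(c l : ℝ)|⌉₊ : ℝ) + 1 ≤ N := by exact_mod_cast hN
    have h11 := Nat.le_ceil |(c l : ℝ)|
    have h12 : (N : ℝ) ≤ (N : ℝ) ^ e l :=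
      le_self_pow₀ (by exact_mod_cast h9) (by have := he l; omega)
    linarith
  obtain ⟨K0, hK0, hcount⟩ := h8 n (Fintype.card (Ix k n M)) ((M + 2) * D)
    (fun i => m i * m i) f hfG hfS
  set E : Ix k n M ≃ Fin (Fintype.card (Ix k n M)) := Fintype.equivFin _ with hE
  refine ⟨K0 + n * (∑ l, N0 l), hK0.trans (Nat.le_add_right _ _), fun T θ hT => ?_⟩
  refine HEP.FINH_.count n (∑ l, N0 l) K0 T hK0 hT _ _ (fun N hN => hN.1) (fun N hN => hN.1) ?_
    (hcount T hT (fun j => th M θ c (E.symm j)))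
  rintro N ⟨hN, P, hPD, hP0, X, hX, hPX⟩ hbig
  have hNl : ∀ l, N0 l ≤ N l := fun l =>
    (single_le_sum (f := N0) (fun i _ => Nat.zero_le _) (mem_univ l)).trans (hbig l)
  have hlog : ∀ l, Complex.log ((c l : ℂ) / (N l : ℂ) ^ e l) =
      Complex.log (c l : ℂ) - (e l : ℂ) * ((Real.log (N l) : ℝ) : ℂ) := fun l =>
    log_eq _ (hc l) _ _ (hN0 l _ (hNl l)).1
  refine ⟨hN, MvPolynomial.aeval (FF hM e E) P, ?_, ?_, ?_⟩
  · refine (HEP.FINH_.totalDegree_aeval_le _ (M + 2) (FF_deg hM e E) P).trans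
      (Nat.mul_le_mul_left _ hPD)
  · rw [FF_eval hM e E θ c _ (fun p : Var m => Yv (α p.1) ((c p.1 : ℂ) / (N p.1 : ℂ) ^ e p.1)
      p.2.1 p.2.2) _ P, hP0]
    intro p
    change (Sv (α p.1) _ * eN (m p.1) _) p.2.1 p.2.2 = _
    rw [Matrix.mul_apply]
    refine sum_congr rfl fun i _ => ?_
    have h9 : GFam.vls f N ⟨p.1, some (finProdFinEquiv (p.2.1, i))⟩ =
        Sv (α p.1) ((c p.1 : ℂ) / (N p.1 : ℂ) ^ e p.1) p.2.1 i := by
      change ((ev (f p.1 (finProdFinEquiv (p.2.1, i))) (1 / (N p.1 : ℝ)) : ℝ) : ℂ) = _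
      rw [hfa, h4 _ _ _ _ (he p.1) (hN0 p.1 _ (hNl p.1)).1]
      rfl
    have h10 : GFam.vls f N ⟨p.1, none⟩ = ((Real.log (N p.1) : ℝ) : ℂ) := rfl
    rw [h9, h10, hlog]
  · intro hmem
    apply hPX
    -- the transported points
    have hg : ∀ l, ∃ g : Mat (m l), g.transpose * Jm (m l) * g = Jm (m l) ∧
        Sv (α l) ((c l : ℂ) / (N l : ℂ) ^ e l) * g =
          X l * eN (m l) (-Complex.log ((c l : ℂ) / (N l : ℂ) ^ e l)) := by
      intro l
      refine transp h7 _ ((h6 (m l) (α l) (hs l)).2.2.1 _ ?_) (hX l)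
      obtain ⟨h9, h10⟩ := hN0 l _ (hNl l)
      have h11 : (0 : ℝ) < (N l : ℝ) ^ e l := by positivity
      rw [Metric.mem_ball, dist_zero_right, norm_div, norm_pow, Complex.norm_natCast,
        div_lt_one h11]
      have h12 : ‖((c l : ℚ) : ℂ)‖ = |(c l : ℝ)| := by
        rw [← Complex.ofReal_ratCast, Complex.norm_real, Real.norm_eq_abs]
      rw [h12]
      exact h10
    choose g hgJ hgS using hg
    set v : GFam.Vr (fun i => m i * m i) → ℂ := fun p =>
      p.2.elim ((Real.log (N p.1) : ℝ) : ℂ) (fun l =>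
        (X p.1 * eN (m p.1) (-Complex.log ((c p.1 : ℂ) / (N p.1 : ℂ) ^ e p.1)))
          (finProdFinEquiv.symm l).1 (finProdFinEquiv.symm l).2) with hv
    have hvan : ∀ Q ∈ Ideal.span (GFam.FRel f N), MvPolynomial.eval v Q = 0 := by
      intro Q hQ
      have hle : Ideal.span (GFam.FRel f N) ≤ RingHom.ker (MvPolynomial.eval v) := by
        rw [Ideal.span_le]
        rintro Q ⟨i, R, hR, rfl⟩
        obtain ⟨h9, h10⟩ := hN0 i _ (hNl i)
        have h11 := h3 (m i) (α i) (c i) (e i) (hs i) (hc i) (he i)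
          (MvPolynomial.rename finProdFinEquiv.symm R) (by
            rw [MvPolynomial.eval₂_rename]
            exact hR) (g i) (hgJ i) (N i) h9 h10
        rw [MvPolynomial.eval₂_rename] at h11
        rw [SetLike.mem_coe, RingHom.mem_ker, MvPolynomial.hom_eval₂]
        have h14 : (MvPolynomial.eval v).comp ((MvPolynomial.C.comp (algebraMap ℚ ℂ)).comp
            (Polynomial.evalRingHom (1 / (N i : ℚ)))) =
            (algebraMap ℚ ℂ).comp (Polynomial.evalRingHom (1 / (N i : ℚ))) := by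
          refine RingHom.ext fun q => ?_
          change MvPolynomial.eval v (MvPolynomial.C _) = _
          rw [MvPolynomial.eval_C]
          rfl
        rw [h14]
        refine Eq.trans ?_ h11
        congr 1
        funext l
        change MvPolynomial.eval v (MvPolynomial.X _) = _
        rw [MvPolynomial.eval_X, Function.comp_apply, hgS]
        rfl
      exact hle hQ
    have h9 := hvan _ hmem
    have h10 := FF_eval hM e E θ c v (fun p : Var m => X p.1 p.2.1 p.2.2) (by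
      intro p
      obtain ⟨hJ0, hJadd, -⟩ := h7 (m p.1)
      set s := Complex.log ((c p.1 : ℂ) / (N p.1 : ℂ) ^ e p.1) with hsdef
      have h11 : X p.1 = (X p.1 * eN (m p.1) (-s)) * eN (m p.1) s := by
        rw [Matrix.mul_assoc, hJadd, neg_add_cancel, hJ0, Matrix.mul_one]
      have h12 := congrFun (congrFun h11 p.2.1) p.2.2
      rw [Matrix.mul_apply] at h12
      rw [h12]
      refine sum_congr rfl fun i _ => ?_
      have h13 : v ⟨p.1, none⟩ = ((Real.log (N p.1) : ℝ) : ℂ) := rfl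
      have h15 : v ⟨p.1, some (finProdFinEquiv (p.2.1, i))⟩ =
          (X p.1 * eN (m p.1) (-s)) p.2.1 i := by
        change (X p.1 * eN (m p.1) (-s))
          (finProdFinEquiv.symm (finProdFinEquiv (p.2.1, i))).1
          (finProdFinEquiv.symm (finProdFinEquiv (p.2.1, i))).2 = _
        rw [Equiv.symm_apply_apply]
      rw [h13, h15, ← hlog]) P
    rw [← h10, ← h9]
    have h13 : (MvPolynomial.eval v).comp (MvPolynomial.aeval (R := ℤ)
        (Sum.elim (fun j => MvPolynomial.C (th M θ c (E.symm j)))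
          MvPolynomial.X)).toRingHom =
        (MvPolynomial.aeval (R := ℤ) (Sum.elim (fun j => th M θ c (E.symm j)) v)).toRingHom := by
      apply MvPolynomial.ringHom_ext
      · intro r
        simp
      · intro x
        rcases x with j | p <;> simp
    exact (congrArg (fun φ => φ (MvPolynomial.aeval (FF hM e E) P)) h13).symm

end Pool.Agent.MUM
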