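import Pool.Agent.MUM.Targets

set_option autoImplicit false

/-!
# The holomorphic solution at `0` is not invariant under the monodromy around `1`
-/

namespace Pool.Agent.MUM

open Finset Pool.Agent.LEG Pool.Agent.HEP
open scoped BigOperators Topology

namespace ME0_

/-- the radius -/
noncomputable def rr : ℝ := Real.exp (-1 / 2)

theorem rr_pos : 0 < rr := Real.exp_pos _

theorem rr_lt : rr < 1 := by
  unfold rr
  rw [Real.exp_lt_one_iff]
  norm_num

theorem half_lt_rr : 1 / 2 < rr := by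
  unfold rr
  have h1 : Real.exp (-Real.log 2) = 1 / 2 := by
    rw [Real.exp_neg, Real.exp_log (by norm_num)]
    norm_num
  rw [← h1]
  apply Real.exp_lt_exp.2
  have := Real.log_two_gt_d9
  linarith

theorem mem_LL_iff (t : ℂ) : t ∈ LL ↔ ‖Complex.exp t‖ < rr := by
  unfold rr
  rw [Complex.norm_exp, Real.exp_lt_exp]
  exact Iff.rfl

theorem isOpen_LL : IsOpen LL := isOpen_lt Complex.continuous_re continuous_const

/-- a periodic function depends only on the exponential -/
theorem per_exp {W : ℂ → ℂ} (hW : ∀ t ∈ LL, W (t + 2 * Real.pi * Complex.I) = W t) {s t : ℂ}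
    (hs : s ∈ LL) (h : Complex.exp s = Complex.exp t) : W s = W t := by
  have hnat : ∀ (n : ℕ) (t : ℂ), t ∈ LL → W (t + n * (2 * Real.pi * Complex.I)) = W t := by
    intro n
    induction n with
    | zero => intro t _; simp
    | succ n ih =>
      intro t ht
      have h1 : t + n * (2 * Real.pi * Complex.I) ∈ LL := by
        rw [mem_LL_iff] at ht ⊢
        rw [Complex.exp_add, Complex.exp_nat_mul_two_pi_mul_I, mul_one]
        exact ht
      have h2 := hW _ h1
      rw [ih t ht] at h2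
      rw [← h2]
      congr 1
      push_cast
      ring
  have ht : t ∈ LL := by
    rw [mem_LL_iff] at hs ⊢
    rwa [← h]
  obtain ⟨n, hn⟩ := Complex.exp_eq_exp_iff_exists_int.1 h
  obtain ⟨k, rfl | rfl⟩ := Int.eq_nat_or_neg n
  · rw [hn]
    push_cast
    exact hnat k t ht
  · have h3 := hnat k s hs
    rw [← h3]
    congr 1
    rw [hn]
    push_cast
    ring

theorem diff_log {W : ℂ → ℂ} (hd : DifferentiableOn ℂ W LL)
    (hW : ∀ t ∈ LL, W (t + 2 * Real.pi * Complex.I) = W t) {u : ℂ} (hu : u ∈ Metric.ball (0 : ℂ) rr)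
    (hu0 : u ≠ 0) : DifferentiableAt ℂ (fun w => W (Complex.log w)) u := by
  have hev : (fun w => W (Complex.log w)) =ᶠ[𝓝 u]
      fun w => W (Complex.log (w / u) + Complex.log u) := by
    have h1 : ∀ᶠ w in 𝓝 u, w ∈ Metric.ball (0 : ℂ) rr := Metric.isOpen_ball.mem_nhds hu
    have h2 : ∀ᶠ w in 𝓝 u, w ≠ 0 := isOpen_ne.mem_nhds hu0
    filter_upwards [h1, h2] with w hw1 hw2
    apply per_exp hW
    · rw [mem_LL_iff, Complex.exp_log hw2]
      simpa using hw1
    · rw [Complex.exp_add, Complex.exp_log hw2, Complex.exp_log (div_ne_zero hw2 hu0),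
        Complex.exp_log hu0, div_mul_cancel₀ _ hu0]
  refine DifferentiableAt.congr_of_eventuallyEq ?_ hev
  have hmem : Complex.log (u / u) + Complex.log u ∈ LL := by
    rw [mem_LL_iff, div_self hu0, Complex.log_one, zero_add, Complex.exp_log hu0]
    simpa using hu
  have hWd : DifferentiableAt ℂ W (Complex.log (u / u) + Complex.log u) :=
    hd.differentiableAt (isOpen_LL.mem_nhds hmem)
  have hin : DifferentiableAt ℂ (fun w => Complex.log (w / u) + Complex.log u) u := by
    apply DifferentiableAt.add_const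
    apply DifferentiableAt.clog
    · fun_prop
    · rw [div_self hu0]
      exact Complex.one_mem_slitPlane
  exact DifferentiableAt.comp u hWd hin

theorem norm_log_le (u : ℂ) (hu : u ∈ Metric.ball (0 : ℂ) rr) :
    ‖Complex.log u‖ ≤ -Real.log ‖u‖ + Real.pi := by
  have h1 := Complex.norm_le_abs_re_add_abs_im (Complex.log u)
  have h2 : |(Complex.log u).im| ≤ Real.pi := by
    rw [Complex.log_im]
    exact Complex.abs_arg_le_pi u
  have h3 : |(Complex.log u).re| = -Real.log ‖u‖ := by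
    rw [Complex.log_re]
    apply abs_of_nonpos
    apply Real.log_nonpos (norm_nonneg _)
    have : ‖u‖ < rr := by simpa using hu
    linarith [rr_lt]
  linarith

/-- a periodic function of moderate growth is a pole at worst -/
theorem pole {W : ℂ → ℂ} (hd : DifferentiableOn ℂ W LL)
    (hW : ∀ t ∈ LL, W (t + 2 * Real.pi * Complex.I) = W t)
    (hg : ∃ C : ℝ, ∀ t ∈ LL, ‖W t‖ ≤ C * Real.exp (C * ‖t‖)) :
    ∃ (p : ℕ) (F : ℂ → ℂ), DifferentiableOn ℂ F (Metric.ball 0 rr) ∧
      ∀ u ∈ Metric.ball (0 : ℂ) rr, u ≠ 0 → F u = u ^ p * W (Complex.log u) := by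
  obtain ⟨C, hC⟩ := hg
  obtain ⟨p, hp⟩ := exists_nat_ge (|C|)
  refine ⟨p, ?_⟩
  obtain ⟨g, hgdef⟩ : ∃ g : ℂ → ℂ, g = fun u => u ^ p * W (Complex.log u) := ⟨_, rfl⟩
  have hgd : DifferentiableOn ℂ g (Metric.ball 0 rr \ {0}) := by
    intro u hu
    apply DifferentiableAt.differentiableWithinAt
    rw [hgdef]
    exact (differentiableAt_id.pow p).mul (diff_log hd hW hu.1 (fun h => hu.2 h))
  have hb : BddAbove (norm ∘ g '' (Metric.ball 0 rr \ {0})) := by
    refine ⟨|C| * Real.exp (|C| * Real.pi), ?_⟩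
    rintro _ ⟨u, ⟨hu, hu0⟩, rfl⟩
    have hu0' : u ≠ 0 := fun h => hu0 h
    have hn : ‖u‖ < rr := by simpa using hu
    have hnp : 0 < ‖u‖ := norm_pos_iff.2 hu0'
    have hmem : Complex.log u ∈ LL := by
      rw [mem_LL_iff, Complex.exp_log hu0']
      exact hn
    have h1 := hC _ hmem
    have h2 : C * Real.exp (C * ‖Complex.log u‖) ≤
        |C| * Real.exp (|C| * (-Real.log ‖u‖ + Real.pi)) := by
      apply mul_le_mul (le_abs_self C) _ (Real.exp_pos _).le (abs_nonneg C)
      apply Real.exp_le_exp.2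
      exact mul_le_mul (le_abs_self C) (norm_log_le u hu) (norm_nonneg _) (abs_nonneg C)
    have hlog : 0 ≤ -Real.log ‖u‖ := by
      have := Real.log_nonpos (norm_nonneg u) (by linarith [rr_lt])
      linarith
    have h3 : ‖u‖ ^ p * Real.exp (|C| * (-Real.log ‖u‖)) ≤ 1 := by
      have e1 : ‖u‖ ^ p = Real.exp ((p : ℝ) * Real.log ‖u‖) := by
        rw [← Real.log_pow, Real.exp_log (pow_pos hnp p)]
      rw [e1, ← Real.exp_add, Real.exp_le_one_iff]
      nlinarith
    have h4 : ‖g u‖ = ‖u‖ ^ p * ‖W (Complex.log u)‖ := by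
      rw [hgdef]
      simp only [norm_mul, norm_pow]
    show ‖g u‖ ≤ _
    rw [h4]
    calc ‖u‖ ^ p * ‖W (Complex.log u)‖
        ≤ ‖u‖ ^ p * (|C| * Real.exp (|C| * (-Real.log ‖u‖ + Real.pi))) :=
          mul_le_mul_of_nonneg_left (h1.trans h2) (pow_nonneg hnp.le p)
      _ = (‖u‖ ^ p * Real.exp (|C| * (-Real.log ‖u‖))) * (|C| * Real.exp (|C| * Real.pi)) := by
          rw [mul_add, Real.exp_add]
          ring
      _ ≤ 1 * (|C| * Real.exp (|C| * Real.pi)) :=
          mul_le_mul_of_nonneg_right h3 (mul_nonneg (abs_nonneg C) (Real.exp_pos _).le)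
      _ = |C| * Real.exp (|C| * Real.pi) := one_mul _
  refine ⟨Function.update g 0 (Filter.limUnder (𝓝[≠] (0 : ℂ)) g),
    Complex.differentiableOn_update_limUnder_of_bddAbove
      (Metric.ball_mem_nhds _ rr_pos) hgd hb, ?_⟩
  intro u _ hu0
  rw [Function.update_of_ne hu0, hgdef]

/-- no pole -/
theorem nopole {h : ℂ → ℂ} (hlim : Filter.Tendsto (fun x : ℝ => (x : ℂ) * h (x : ℂ)) (𝓝[>] 0) (𝓝 0))
    (p : ℕ) : (∃ F : ℂ → ℂ, DifferentiableOn ℂ F (Metric.ball 0 rr) ∧
      ∀ u ∈ Metric.ball (0 : ℂ) rr, u ≠ 0 → F u = u ^ p * h u) →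
    ∃ F : ℂ → ℂ, DifferentiableOn ℂ F (Metric.ball 0 rr) ∧
      ∀ u ∈ Metric.ball (0 : ℂ) rr, u ≠ 0 → F u = h u := by
  induction p with
  | zero =>
    rintro ⟨F, hF, hFu⟩
    exact ⟨F, hF, fun u hu hu0 => by simpa using hFu u hu hu0⟩
  | succ p ih =>
    rintro ⟨F, hF, hFu⟩
    apply ih
    have hball : Metric.ball (0 : ℂ) rr ∈ 𝓝 (0 : ℂ) := Metric.ball_mem_nhds _ rr_pos
    have hF0 : F 0 = 0 := by
      have hc : ContinuousAt F 0 := (hF.differentiableAt hball).continuousAt
      have ht1 : Filter.Tendsto (fun x : ℝ => (x : ℂ)) (𝓝[>] 0) (𝓝 (0 : ℂ)) := by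
        have := (Complex.continuous_ofReal.tendsto 0).mono_left
          (nhdsWithin_le_nhds (s := Set.Ioi (0 : ℝ)))
        simpa using this
      have ht2 : Filter.Tendsto (fun x : ℝ => F (x : ℂ)) (𝓝[>] 0) (𝓝 (F 0)) := hc.tendsto.comp ht1
      have ht3 : Filter.Tendsto (fun x : ℝ => (x : ℂ) ^ p * ((x : ℂ) * h (x : ℂ))) (𝓝[>] 0)
          (𝓝 0) := by
        have := (ht1.pow p).mul hlim
        simpa using this
      refine tendsto_nhds_unique (ht2.congr' ?_) ht3
      have hev : ∀ᶠ x : ℝ in 𝓝[>] 0, (x : ℂ) ∈ Metric.ball (0 : ℂ) rr := ht1.eventually hball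
      filter_upwards [hev, self_mem_nhdsWithin] with x hx hx0
      have hx0' : (x : ℂ) ≠ 0 := by
        intro h0
        have : x = 0 := by exact_mod_cast h0
        exact (ne_of_gt hx0) this
      rw [hFu _ hx hx0']
      ring
    refine ⟨dslope F 0, (Complex.differentiableOn_dslope hball).2 hF, ?_⟩
    intro u hu hu0
    rw [dslope_of_ne _ hu0, slope_def_field, hF0, sub_zero, sub_zero, hFu u hu hu0]
    field_simp
    ring

/-- Abel means of a null sequence -/
theorem abel {c : ℕ → ℝ} (hc : ∀ n, 0 ≤ c n) (hlim : Filter.Tendsto c Filter.atTop (𝓝 0))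
    {f : ℝ → ℝ} (hf : ∀ x : ℝ, 0 < x → x < 1 → HasSum (fun n => c n * (1 - x) ^ n) (f x)) :
    Filter.Tendsto (fun x : ℝ => x * f x) (𝓝[>] 0) (𝓝 0) := by
  have key : ∀ ε : ℝ, 0 < ε → ∃ A : ℝ, 0 ≤ A ∧ ∀ x : ℝ, 0 < x → x < 1 → x * f x ≤ x * A + ε := by
    intro ε hε
    obtain ⟨N, hN⟩ := Filter.eventually_atTop.1 (hlim.eventually (Iio_mem_nhds hε))
    refine ⟨∑ n ∈ range N, c n, Finset.sum_nonneg fun n _ => hc n, ?_⟩
    intro x hx0 hx1
    have h1 : HasSum (fun n => (if n ∈ range N then c n else 0)) (∑ n ∈ range N, c n) := by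
      have : HasSum (fun n => if n ∈ range N then c n else 0)
          (∑ n ∈ range N, (if n ∈ range N then c n else 0)) :=
        hasSum_sum_of_ne_finset_zero (fun n hn => if_neg hn)
      have e : ∑ n ∈ range N, (if n ∈ range N then c n else 0) = ∑ n ∈ range N, c n :=
        Finset.sum_congr rfl fun n hn => by rw [if_pos hn]
      rwa [e] at this
    have h2 : HasSum (fun n => ε * (1 - x) ^ n) (ε * (1 - (1 - x))⁻¹) :=
      (hasSum_geometric_of_lt_one (by linarith) (by linarith)).mul_left ε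
    have h3 := hasSum_le (fun n => ?_) (hf x hx0 hx1) (h1.add h2)
    · have e : (1 : ℝ) - (1 - x) = x := by ring
      rw [e] at h3
      calc x * f x ≤ x * (∑ n ∈ range N, c n + ε * x⁻¹) := mul_le_mul_of_nonneg_left h3 hx0.le
        _ = x * ∑ n ∈ range N, c n + ε := by field_simp
    · have hp0 : (0 : ℝ) ≤ (1 - x) ^ n := pow_nonneg (by linarith) n
      have hp1 : (1 - x) ^ n ≤ 1 := pow_le_one₀ (by linarith) (by linarith)
      by_cases hn : n ∈ range N
      · rw [if_pos hn]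
        nlinarith [hc n, mul_nonneg hε.le hp0]
      · rw [if_neg hn]
        have h4 : c n < ε := hN n (by simpa using hn)
        nlinarith [hc n]
  have hnn : ∀ x : ℝ, 0 < x → x < 1 → 0 ≤ x * f x := by
    intro x hx0 hx1
    exact mul_nonneg hx0.le ((hf x hx0 hx1).nonneg fun n =>
      mul_nonneg (hc n) (pow_nonneg (by linarith) n))
  rw [Metric.tendsto_nhdsWithin_nhds]
  intro ε hε
  obtain ⟨A, hA, hAx⟩ := key (ε / 2) (by linarith)
  refine ⟨min 1 (ε / (2 * (A + 1))), lt_min one_pos (div_pos hε (by linarith)), ?_⟩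
  intro x hx hd
  have hx0 : 0 < x := hx
  rw [Real.dist_eq, sub_zero, abs_of_pos hx0] at hd
  have hx1 : x < 1 := lt_of_lt_of_le hd (min_le_left _ _)
  have hx2 : x < ε / (2 * (A + 1)) := lt_of_lt_of_le hd (min_le_right _ _)
  rw [Real.dist_eq, sub_zero, abs_of_nonneg (hnn x hx0 hx1)]
  have h5 := hAx x hx0 hx1
  have h6 : x * (2 * (A + 1)) < ε := (lt_div_iff₀ (by linarith)).1 hx2
  nlinarith

end ME0_

open ME0_ in
theorem p_ME0 (h1 : T_PRING) (h2 : T_CN) (h3 : T_AN) (_h4 : T_NJ) : T_ME0 := by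
  intro m α Y M hα hY
  by_contra hcon
  push Not at hcon
  have hm : 0 < m := lt_of_lt_of_le (by norm_num) hα.two
  obtain ⟨i0, hi0⟩ : ∃ i0 : Fin m, i0 = ⟨0, hm⟩ := ⟨_, rfl⟩
  have hi0v : (i0 : ℕ) = 0 := by rw [hi0]
  obtain ⟨hcn, hc0, hns⟩ := h2 m α hα.two (fun i => ⟨hα.pos i, hα.lt i⟩)
  obtain ⟨-, hSd, -, hSs, -⟩ := h3 m α hα
  -- the series
  have hser : ∀ z ∈ Metric.ball (0 : ℂ) 1,
      HasSum (fun n => (((c0 α n : ℚ) : ℝ) : ℂ) * z ^ n) (Sv α z i0 i0) := by
    intro z hz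
    have h5 := hSs z hz i0 i0
    rw [hi0v] at h5
    convert h5 using 2 with n
    rw [(hcn n).1]
    norm_cast
  -- the first column of `Yv`
  have hYv : ∀ z : ℂ, Yv α z i0 i0 = Sv α z i0 i0 := by
    intro z
    show (Sv α z * eN m (Complex.log z)) i0 i0 = _
    rw [Matrix.mul_apply, Finset.sum_eq_single i0]
    · have : eN m (Complex.log z) i0 i0 = 1 := by
        show (if (i0 : ℕ) ≤ i0 then (Complex.log z) ^ ((i0 : ℕ) - i0) /
          ((((i0 : ℕ) - i0).factorial : ℕ) : ℂ) else 0) = 1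
        simp
      rw [this, mul_one]
    · intro k _ hk
      have : eN m (Complex.log z) k i0 = 0 := by
        show (if (k : ℕ) ≤ i0 then (Complex.log z) ^ ((i0 : ℕ) - k) /
          ((((i0 : ℕ) - k).factorial : ℕ) : ℂ) else 0) = 0
        rw [if_neg]
        intro hle
        apply hk
        ext
        omega
      rw [this, mul_zero]
    · intro h
      exact absurd (Finset.mem_univ _) h
  -- periodicity
  have hper : ∀ t ∈ LL, Y (t + 2 * Real.pi * Complex.I) i0 i0 = Y t i0 i0 := by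
    intro t ht
    rw [hY.mon t ht, Matrix.mul_apply]
    have : ∀ k, M k i0 = (1 : Mat m) k i0 := fun k => hcon k i0 hi0v
    simp only [this]
    rw [← Matrix.mul_apply, mul_one]
  have hWd : DifferentiableOn ℂ (fun t => Y t i0 i0) LL := fun t ht =>
    (hY.ode t ht i0 i0).differentiableAt.differentiableWithinAt
  have hWg : ∃ C : ℝ, ∀ t ∈ LL, ‖Y t i0 i0‖ ≤ C * Real.exp (C * ‖t‖) := by
    obtain ⟨C, hC⟩ := hY.grow
    exact ⟨C, fun t ht => hC t ht i0 i0⟩
  obtain ⟨p, hp⟩ := pole (W := fun t => Y t i0 i0) hWd hper hWg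
  -- values on the real segment
  have hval : ∀ x : ℝ, 0 < x → x < 1 / 2 →
      Y (Complex.log (x : ℂ)) i0 i0 = Sv α ((1 - x : ℝ) : ℂ) i0 i0 := by
    intro x hx0 hx1
    have h5 := hY.val (1 - x) (by linarith) (by linarith)
    rw [sub_sub_cancel] at h5
    rw [← Complex.ofReal_log hx0.le, h5, hYv]
  obtain ⟨f, hf⟩ : ∃ f : ℝ → ℝ, ∀ x : ℝ, 0 < x → x < 1 →
      HasSum (fun n => ((c0 α n : ℚ) : ℝ) * (1 - x) ^ n) (f x) := by
    refine ⟨fun x => ∑' n, ((c0 α n : ℚ) : ℝ) * (1 - x) ^ n, fun x hx0 hx1 => ?_⟩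
    apply Summable.hasSum
    have hz : ((1 - x : ℝ) : ℂ) ∈ Metric.ball (0 : ℂ) 1 := by
      rw [mem_ball_zero_iff, Complex.norm_real, Real.norm_of_nonneg (by linarith)]
      linarith
    have h5 := (hser _ hz).summable
    have h6 : Summable fun n => (((c0 α n : ℝ) * (1 - x) ^ n : ℝ) : ℂ) := by
      convert h5 using 2 with n
      push_cast
      ring
    exact Complex.summable_ofReal.1 h6
  have hfS : ∀ x : ℝ, 0 < x → x < 1 → ((f x : ℝ) : ℂ) = Sv α ((1 - x : ℝ) : ℂ) i0 i0 := by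
    intro x hx0 hx1
    have hz : ((1 - x : ℝ) : ℂ) ∈ Metric.ball (0 : ℂ) 1 := by
      rw [mem_ball_zero_iff, Complex.norm_real, Real.norm_of_nonneg (by linarith)]
      linarith
    have h5 := hser _ hz
    have h6 := Complex.hasSum_ofReal.2 (hf x hx0 hx1)
    refine HasSum.unique ?_ h5
    convert h6 using 2 with n
    push_cast
    ring
  have hab := abel (c := fun n => ((c0 α n : ℚ) : ℝ))
    (fun n => by exact_mod_cast (hcn n).2.le) hc0 hf
  have hlim : Filter.Tendsto (fun x : ℝ => (x : ℂ) * (fun w => Y (Complex.log w) i0 i0) (x : ℂ))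
      (𝓝[>] 0) (𝓝 0) := by
    have h5 : Filter.Tendsto (fun x : ℝ => ((x * f x : ℝ) : ℂ)) (𝓝[>] 0) (𝓝 ((0 : ℝ) : ℂ)) :=
      (Complex.continuous_ofReal.tendsto 0).comp hab
    rw [Complex.ofReal_zero] at h5
    refine h5.congr' ?_
    have hev : ∀ᶠ x : ℝ in 𝓝[>] 0, x < 1 / 2 :=
      nhdsWithin_le_nhds (Iio_mem_nhds (by norm_num))
    filter_upwards [hev, self_mem_nhdsWithin] with x hx1 hx0
    have hx0' : 0 < x := hx0
    show ((x * f x : ℝ) : ℂ) = (x : ℂ) * Y (Complex.log (x : ℂ)) i0 i0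
    rw [hval x hx0' hx1, ← hfS x hx0' (by linarith), Complex.ofReal_mul]
  obtain ⟨F, hFd, hFu⟩ := nopole hlim p hp
  -- the two functions agree on the overlap
  have hover : ∀ z ∈ Metric.ball (0 : ℂ) 1 ∩ Metric.ball (1 : ℂ) rr,
      Sv α z i0 i0 = F (1 - z) := by
    have hop : IsOpen (Metric.ball (0 : ℂ) 1 ∩ Metric.ball (1 : ℂ) rr) :=
      Metric.isOpen_ball.inter Metric.isOpen_ball
    have hconv : Convex ℝ (Metric.ball (0 : ℂ) 1 ∩ Metric.ball (1 : ℂ) rr) :=
      (convex_ball _ _).inter (convex_ball _ _)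
    have hd1 : DifferentiableOn ℂ (fun z => Sv α z i0 i0)
        (Metric.ball (0 : ℂ) 1 ∩ Metric.ball (1 : ℂ) rr) :=
      (hSd i0 i0).mono Set.inter_subset_left
    have hd2 : DifferentiableOn ℂ (fun z => F (1 - z))
        (Metric.ball (0 : ℂ) 1 ∩ Metric.ball (1 : ℂ) rr) := by
      refine DifferentiableOn.comp (g := F) hFd ?_ ?_
      · fun_prop
      · intro z hz
        have := hz.2
        rw [Metric.mem_ball, dist_eq_norm] at this
        rw [mem_ball_zero_iff, norm_sub_rev]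
        exact this
    have hx0 : (((3 / 4 : ℝ)) : ℂ) ∈ Metric.ball (0 : ℂ) 1 ∩ Metric.ball (1 : ℂ) rr := by
      constructor
      · rw [mem_ball_zero_iff, Complex.norm_real]
        norm_num
      · rw [Metric.mem_ball, dist_eq_norm, ← Complex.ofReal_one, ← Complex.ofReal_sub,
          Complex.norm_real]
        have := half_lt_rr
        norm_num
        linarith
    have hfreq : ∃ᶠ z in 𝓝[≠] (((3 / 4 : ℝ)) : ℂ),
        (fun z => Sv α z i0 i0) z = (fun z => F (1 - z)) z := by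
      have htend : Filter.Tendsto (fun x : ℝ => (x : ℂ)) (𝓝[≠] (3 / 4 : ℝ))
          (𝓝[≠] (((3 / 4 : ℝ)) : ℂ)) := by
        apply tendsto_nhdsWithin_iff.2
        constructor
        · exact (Complex.continuous_ofReal.tendsto (3 / 4)).mono_left nhdsWithin_le_nhds
        · filter_upwards [self_mem_nhdsWithin] with x hx hx'
          exact hx (Complex.ofReal_injective hx')
      apply htend.frequently
      apply Filter.Eventually.frequently
      have hev : ∀ᶠ x in 𝓝 (3 / 4 : ℝ), x ∈ Set.Ioo (1 / 2 : ℝ) 1 :=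
        Ioo_mem_nhds (by norm_num) (by norm_num)
      filter_upwards [nhdsWithin_le_nhds hev] with x hx
      show Sv α (x : ℂ) i0 i0 = F (1 - (x : ℂ))
      have hx' : (1 : ℂ) - (x : ℂ) = ((1 - x : ℝ) : ℂ) := by push_cast; ring
      have hx1 : 0 < 1 - x := by linarith [hx.2]
      have hx2 : 1 - x < 1 / 2 := by linarith [hx.1]
      rw [hx', hFu _ (by
        rw [mem_ball_zero_iff, Complex.norm_real, Real.norm_of_nonneg hx1.le]
        linarith [half_lt_rr]) (by exact_mod_cast hx1.ne')]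
      show _ = Y (Complex.log _) i0 i0
      rw [hval _ hx1 hx2, sub_sub_cancel]
    intro z hz
    exact (hd1.analyticOnNhd hop).eqOn_of_preconnected_of_frequently_eq
      (hd2.analyticOnNhd hop) hconv.isPreconnected hx0 hfreq hz
  classical
  obtain ⟨G, hG⟩ : ∃ G : ℂ → ℂ, G = fun z => if z ∈ Metric.ball (0 : ℂ) 1 then Sv α z i0 i0
    else F (1 - z) := ⟨_, rfl⟩
  have hG0 : ∀ z ∈ Metric.ball (0 : ℂ) 1, G z = Sv α z i0 i0 := by
    intro z hz
    rw [hG]
    exact if_pos hz
  have hG1 : ∀ z ∈ Metric.ball (1 : ℂ) rr, G z = F (1 - z) := by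
    intro z hz
    by_cases h : z ∈ Metric.ball (0 : ℂ) 1
    · rw [hG0 z h, hover z ⟨h, hz⟩]
    · rw [hG]
      exact if_neg h
  have hGd : DifferentiableOn ℂ G (Metric.ball 0 1 ∪ Metric.ball 1 rr) := by
    rintro z (hz | hz)
    · have hd : DifferentiableAt ℂ (fun z => Sv α z i0 i0) z :=
        (hSd i0 i0).differentiableAt (Metric.isOpen_ball.mem_nhds hz)
      have hev : G =ᶠ[𝓝 z] fun z => Sv α z i0 i0 := by
        filter_upwards [Metric.isOpen_ball.mem_nhds hz] with w hw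
        exact hG0 w hw
      exact (hd.congr_of_eventuallyEq hev).differentiableWithinAt
    · have hz' : 1 - z ∈ Metric.ball (0 : ℂ) rr := by
        rw [Metric.mem_ball, dist_eq_norm] at hz
        rw [mem_ball_zero_iff, norm_sub_rev]
        exact hz
      have hd : DifferentiableAt ℂ (fun z => F (1 - z)) z := by
        have h5 : DifferentiableAt ℂ F (1 - z) :=
          hFd.differentiableAt (Metric.isOpen_ball.mem_nhds hz')
        have h6 : DifferentiableAt ℂ (fun z : ℂ => 1 - z) z := by fun_prop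
        exact DifferentiableAt.comp z h5 h6
      have hev : G =ᶠ[𝓝 z] fun z => F (1 - z) := by
        filter_upwards [Metric.isOpen_ball.mem_nhds hz] with w hw
        exact hG1 w hw
      exact (hd.congr_of_eventuallyEq hev).differentiableWithinAt
  obtain ⟨x, hx1, hxs⟩ := h1 (fun n => ((c0 α n : ℚ) : ℝ)) G rr rr_pos
    (fun n => by exact_mod_cast (hcn n).2.le) hGd (fun z hz => by
      rw [hG0 z hz]
      exact hser z hz)
  exact hns x hx1 hxs

end Pool.Agent.MUM
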