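import Pool.Agent.MUM.Targets

set_option autoImplicit false

/-!
# SQ: the symmetry of the polynomial `Q`
-/

namespace Pool.Agent.MUM

open Finset Pool.Agent.LEG Pool.Agent.HEP
open scoped BigOperators Topology

namespace SQ_

open Polynomial

variable {m : ℕ}

theorem monic (α : Fin m → ℚ) : (Qp α).Monic :=
  monic_prod_of_monic _ _ fun i _ => monic_X_add_C (α i)

theorem deg (α : Fin m → ℚ) : (Qp α).natDegree = m := by
  unfold Qp
  rw [natDegree_prod_of_monic _ _ fun i _ => monic_X_add_C (α i)]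
  simp only [natDegree_X_add_C, sum_const, card_univ, Fintype.card_fin, smul_eq_mul, mul_one]

theorem next (α : Fin m → ℚ) : (Qp α).nextCoeff = ∑ i, α i := by
  unfold Qp
  rw [Monic.nextCoeff_prod _ _ fun i _ => monic_X_add_C (α i)]
  exact sum_congr rfl fun i _ => nextCoeff_X_add_C (α i)

theorem symm (α : Fin m → ℚ) (σ : Equiv.Perm (Fin m)) (h : ∀ i, α (σ i) = 1 - α i) :
    (Qp α).comp (-1 - X) = (-1) ^ m * Qp α := by
  have h1 : ∀ i, (X + C (α i) : Polynomial ℚ).comp (-1 - X) = (-1) * (X + C (α (σ i))) := by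
    intro i
    rw [h, add_comp, X_comp, C_comp, C_sub, C_1]
    ring
  unfold Qp
  rw [Polynomial.prod_comp, prod_congr rfl fun i _ => h1 i, prod_mul_distrib, prod_const, card_univ,
    Fintype.card_fin, Equiv.prod_comp σ (fun i => (X + C (α i) : Polynomial ℚ))]

theorem sum (α : Fin m → ℚ) (σ : Equiv.Perm (Fin m)) (h : ∀ i, α (σ i) = 1 - α i) :
    ∑ i, α i = m / 2 := by
  have h1 : ∑ i, α i = ∑ i, α (σ i) := (Equiv.sum_comp σ α).symm
  rw [sum_congr rfl fun i _ => h i, sum_sub_distrib, sum_const, card_univ, Fintype.card_fin,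
    nsmul_eq_mul, mul_one] at h1
  linarith

end SQ_

/-- SQ -/
theorem p_SQ : T_SQ := by
  intro m α hs
  obtain ⟨σ, hσ⟩ := hs.sym
  have h2 := hs.two
  refine ⟨SQ_.symm α σ hσ, ?_, ?_, SQ_.deg α⟩
  · rw [← SQ_.sum α σ hσ, ← SQ_.next α, Polynomial.nextCoeff_of_natDegree_pos
      (by rw [SQ_.deg]; omega), SQ_.deg]
  · have h := (SQ_.monic α).coeff_natDegree
    rwa [SQ_.deg] at h

end Pool.Agent.MUM
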