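import Pool.Agent.HEP.Targets

set_option autoImplicit false

/-!
# Hypergeometric families with a point of maximally unipotent monodromy (MP_5d33ca_ag)

Definitions and exact targets. The complete proofs are in `Blueprint.lean.txt`.
`IsG`, `ev`, `Hor` are those of `Pool.Agent.LEG`; `evC`, `evP`, `dM` those of `Pool.Agent.HEP`.
-/

namespace Pool.Agent.MUM

open Finset Pool.Agent.LEG Pool.Agent.HEP
open scoped BigOperators Topology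

/-! ## A. formal part -/

/-- self-dual exponents at infinity -/
structure Sym (m : ℕ) (α : Fin m → ℚ) : Prop where
  two : 2 ≤ m
  pos : ∀ i, 0 < α i
  lt : ∀ i, α i < 1
  sym : ∃ σ : Equiv.Perm (Fin m), ∀ i, α (σ i) = 1 - α i

/-- `Q = ∏ (X + α i)` -/
noncomputable def Qp {m : ℕ} (α : Fin m → ℚ) : Polynomial ℚ :=
  ∏ i, (Polynomial.X + Polynomial.C (α i))

/-- `c_n(ε) = ∏_{s < n} ∏_i (α_i + s + ε) / (1 + s + ε)` -/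
noncomputable def cs {m : ℕ} (α : Fin m → ℚ) (n : ℕ) : PowerSeries ℚ :=
  ∏ s ∈ range n, ((∏ i, (PowerSeries.C (α i + s) + PowerSeries.X)) *
    ((PowerSeries.C ((s : ℚ) + 1) + PowerSeries.X) ^ m)⁻¹)

/-- the coefficient of `ε ^ j` in `∑ (n + ε) ^ a c_n(ε) z ^ n` -/
noncomputable def Sf {m : ℕ} (α : Fin m → ℚ) (a j : ℕ) : PowerSeries ℚ :=
  PowerSeries.mk fun n => PowerSeries.coeff j
    ((PowerSeries.C (n : ℚ) + PowerSeries.X) ^ a * cs α n)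

/-- the linear part of the pairing -/
noncomputable def b1 {m : ℕ} (α : Fin m → ℚ) (a b : ℕ) : ℚ :=
  -∑ j ∈ range (m - a), (-1) ^ j * (j.choose b : ℚ) * (Qp α).coeff (a + j + 1)

/-- symmetry of `Q` and the sum of the exponents -/
def T_SQ : Prop := ∀ (m : ℕ) (α : Fin m → ℚ), Sym m α →
  (Qp α).comp (-1 - Polynomial.X) = (-1) ^ m * Qp α ∧ (Qp α).coeff (m - 1) = m / 2 ∧
  (Qp α).coeff m = 1 ∧ (Qp α).natDegree = m

/-- recurrences -/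
def T_REC : Prop := ∀ (m : ℕ) (α : Fin m → ℚ),
  (∀ a j : ℕ, PowerSeries.coeff 0 (Sf α a j) = if a = j then 1 else 0) ∧
  (∀ a j : ℕ, PowerSeries.X * PowerSeries.derivative ℚ (Sf α a j) =
    Sf α (a + 1) j - if j = 0 then 0 else Sf α a (j - 1)) ∧
  ∀ j : ℕ, j < m → (1 - PowerSeries.X) * Sf α m j =
    PowerSeries.X * ∑ a ∈ range m, PowerSeries.C ((Qp α).coeff a) * Sf α a j

/-- the algebraic identity behind the pairing (from T_SQ) -/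
def T_BID : Prop := ∀ (m : ℕ) (α : Fin m → ℚ), Sym m α →
  (∀ a b : ℕ, a < m → b < m → (if b = 0 then 0 else b1 α a (b - 1)) +
    (if a = 0 then 0 else b1 α (a - 1) b) + b1 α a b =
      (if a = 0 then (-1) ^ m * (Qp α).coeff b else 0) - (if b = 0 then (Qp α).coeff a else 0)) ∧
  (∀ a b : ℕ, a < m → a + b + 1 = m → b1 α a b = -(-1) ^ b) ∧
  (∀ a b : ℕ, a < m → m < a + b + 1 → b1 α a b = 0) ∧
  ∀ a b : ℕ, a < m → b < m → b1 α b a = -(-1) ^ m * b1 α a b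

/-- the formal bilinear relation (from T_REC, T_BID) -/
def T_SB : Prop := ∀ (m : ℕ) (α : Fin m → ℚ), Sym m α → ∀ i j : ℕ, i < m → j < m →
  ∑ a ∈ range m, ∑ b ∈ range m,
    ((if a + b + 1 = m then PowerSeries.C ((-1 : ℚ) ^ b) else 0) +
      PowerSeries.C (b1 α a b) * PowerSeries.X) * Sf α a i * Sf α b j =
    if i + j + 1 = m then PowerSeries.C ((-1 : ℚ) ^ j) else 0

/-- bounds for the coefficients -/
def T_BD : Prop := ∀ (m : ℕ) (α : Fin m → ℚ), (∀ i, 0 < α i ∧ α i < 1) → ∃ C : ℕ, ∀ n a j : ℕ,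
  a ≤ m → j ≤ m → |PowerSeries.coeff n (Sf α a j)| ≤ (C : ℚ) * ((n : ℚ) + 1) ^ a

/-- they are G-functions -/
def T_GS : Prop := ∀ (m : ℕ) (α : Fin m → ℚ), (∀ i, 0 < α i ∧ α i < 1) → ∀ a j : ℕ,
  IsG (Sf α a j)

/-- the coefficients of the holomorphic solution -/
noncomputable def c0 {m : ℕ} (α : Fin m → ℚ) (n : ℕ) : ℚ :=
  ∏ s ∈ range n, ∏ i, ((α i + s) / (1 + s))

def T_CN : Prop := ∀ (m : ℕ) (α : Fin m → ℚ), 2 ≤ m → (∀ i, 0 < α i ∧ α i < 1) →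
  (∀ n, PowerSeries.coeff n (Sf α 0 0) = c0 α n ∧ 0 < c0 α n) ∧
  Filter.Tendsto (fun n => (c0 α n : ℝ)) Filter.atTop (𝓝 0) ∧
  ∀ x : ℝ, 1 < x → ¬ Summable fun n => (c0 α n : ℝ) * x ^ n

/-! ## B. matrices -/

/-- square complex matrices -/
abbrev Mat (m : ℕ) : Type := Matrix (Fin m) (Fin m) ℂ

/-- the nilpotent matrix -/
def Nm (m : ℕ) : Mat m := Matrix.of fun i j => if (j : ℕ) = i + 1 then 1 else 0

/-- `exp (s N)` -/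
noncomputable def eN (m : ℕ) (s : ℂ) : Mat m :=
  Matrix.of fun i j => if (i : ℕ) ≤ j then s ^ ((j : ℕ) - i) / (((j : ℕ) - i).factorial : ℂ) else 0

/-- the constant pairing -/
def Jm (m : ℕ) : Mat m := Matrix.of fun i j => if (i : ℕ) + j + 1 = m then (-1) ^ (j : ℕ) else 0

/-- the de Rham pairing at `z` -/
noncomputable def Bz {m : ℕ} (α : Fin m → ℚ) (z : ℂ) : Mat m :=
  Matrix.of fun a b => (if (a : ℕ) + b + 1 = m then (-1) ^ (b : ℕ) else 0) + z * (b1 α a b : ℂ)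

/-- the last row of the companion matrix -/
noncomputable def Em {m : ℕ} (α : Fin m → ℚ) : Mat m :=
  Matrix.of fun i j => if (i : ℕ) + 1 = m then ((Qp α).coeff j : ℂ) else 0

/-- the values of the fundamental solution -/
noncomputable def Sv {m : ℕ} (α : Fin m → ℚ) (z : ℂ) : Mat m :=
  Matrix.of fun a j => evC (Sf α a j) z

/-- the fundamental matrix -/
noncomputable def Yv {m : ℕ} (α : Fin m → ℚ) (z : ℂ) : Mat m := Sv α z * eN m (Complex.log z)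

def T_NJ : Prop := ∀ m : ℕ, eN m 0 = 1 ∧ (∀ s t : ℂ, eN m s * eN m t = eN m (s + t)) ∧
  (∀ (s : ℂ) (i j : Fin m), HasDerivAt (fun u => eN m u i j) ((Nm m * eN m s) i j) s) ∧
  (∀ s : ℂ, Nm m * eN m s = eN m s * Nm m) ∧
  (∀ s : ℂ, (eN m s).transpose * Jm m * eN m s = Jm m) ∧
  (∀ s : ℂ, Jm m * eN m s = (eN m (-s)).transpose * Jm m) ∧
  (Nm m).transpose * Jm m = -(Jm m * Nm m) ∧
  (Jm m).transpose = -(-1 : ℂ) ^ m • Jm m ∧ (Jm m).det ≠ 0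

/-- `B(z)` is invertible -/
def T_BDET : Prop := ∀ (m : ℕ) (α : Fin m → ℚ), Sym m α → ∀ z : ℂ, z ≠ 1 → (Bz α z).det ≠ 0

/-- the analytic properties of `S` (from T_BD, T_REC, T_SB) -/
def T_AN : Prop := ∀ (m : ℕ) (α : Fin m → ℚ), Sym m α → Sv α 0 = 1 ∧
  (∀ a j : Fin m, DifferentiableOn ℂ (fun z => Sv α z a j) (Metric.ball 0 1)) ∧
  (∀ z ∈ Metric.ball (0 : ℂ) 1, (Sv α z).transpose * Bz α z * Sv α z = Jm m) ∧
  (∀ z ∈ Metric.ball (0 : ℂ) 1, ∀ a j : Fin m,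
    HasSum (fun n => ((PowerSeries.coeff n (Sf α a j) : ℚ) : ℂ) * z ^ n) (Sv α z a j)) ∧
  ∀ z ∈ Metric.ball (0 : ℂ) 1, ∃ S' : Mat m,
    (∀ a j : Fin m, HasDerivAt (fun z => Sv α z a j) (S' a j) z) ∧
    (z * (1 - z)) • S' = ((1 - z) • Nm m + z • Em α) * Sv α z - (1 - z) • (Sv α z * Nm m)

/-! ## C. analytic continuation around `1`, with `z = 1 - exp t` -/

/-- the matrix of the system in the variable `t` -/
noncomputable def Pt {m : ℕ} (α : Fin m → ℚ) (t : ℂ) : Mat m :=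
  -(Complex.exp t / (1 - Complex.exp t)) • Nm m - Em α

/-- the half plane -/
def LL : Set ℂ := {t | t.re < -1 / 2}

/-- linear differential equations on convex open sets: existence -/
def T_PIC : Prop := ∀ (m : ℕ) (Ω : Set ℂ) (A : ℂ → Mat m) (K : ℝ) (t0 : ℂ) (Y0 : Mat m),
  IsOpen Ω → Convex ℝ Ω → t0 ∈ Ω → (∀ i j, DifferentiableOn ℂ (fun t => A t i j) Ω) →
  (∀ t ∈ Ω, ∀ i j, ‖A t i j‖ ≤ K) → ∃ (Y : ℂ → Mat m) (C : ℝ), Y t0 = Y0 ∧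
    (∀ t ∈ Ω, ∀ i j, HasDerivAt (fun s => Y s i j) ((A t * Y t) i j) t) ∧
    ∀ t ∈ Ω, ∀ i j, ‖Y t i j‖ ≤ C * Real.exp (C * ‖t - t0‖)

/-- uniqueness -/
def T_UNQ : Prop := ∀ (m : ℕ) (Ω : Set ℂ) (A : ℂ → Mat m) (t0 : ℂ) (y1 y2 : ℂ → Fin m → ℂ),
  IsOpen Ω → Convex ℝ Ω → t0 ∈ Ω → (∀ i j, DifferentiableOn ℂ (fun t => A t i j) Ω) →
  (∀ t ∈ Ω, ∀ i, HasDerivAt (fun s => y1 s i) ((A t).mulVec (y1 t) i) t) →
  (∀ t ∈ Ω, ∀ i, HasDerivAt (fun s => y2 s i) ((A t).mulVec (y2 t) i) t) →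
  y1 t0 = y2 t0 → ∀ t ∈ Ω, y1 t = y2 t

/-- the continuation and the monodromy around `1` -/
structure Con {m : ℕ} (α : Fin m → ℚ) (Y : ℂ → Mat m) (M : Mat m) : Prop where
  ode : ∀ t ∈ LL, ∀ i j, HasDerivAt (fun s => Y s i j) ((Pt α t * Y t) i j) t
  val : ∀ x : ℝ, 1 / 2 < x → x < 1 → Y ((Real.log (1 - x) : ℝ) : ℂ) = Yv α x
  mon : ∀ t ∈ LL, Y (t + 2 * Real.pi * Complex.I) = Y t * M
  grow : ∃ C : ℝ, ∀ t ∈ LL, ∀ i j, ‖Y t i j‖ ≤ C * Real.exp (C * ‖t‖)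

/-- (from T_PIC, T_UNQ, T_AN, T_NJ) -/
def T_YT : Prop := ∀ (m : ℕ) (α : Fin m → ℚ), Sym m α → ∃ (Y : ℂ → Mat m) (M : Mat m), Con α Y M

/-- the monodromy preserves the pairing (from T_AN, T_NJ, T_BDET) -/
def T_MJ : Prop := ∀ (m : ℕ) (α : Fin m → ℚ) (Y : ℂ → Mat m) (M : Mat m), Sym m α → Con α Y M →
  (∀ t ∈ LL, (Y t).transpose * Bz α (1 - Complex.exp t) * Y t = Jm m) ∧
  M.transpose * Jm m * M = Jm m

/-- holomorphic solutions at `1` -/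
def T_FROB : Prop := ∀ (m : ℕ) (α : Fin m → ℚ) (w0 : Fin m → ℂ), Sym m α →
  ∑ j : Fin m, ((Qp α).coeff (j : ℕ) : ℂ) * w0 j = 0 → ∃ w : ℂ → Fin m → ℂ, w 0 = w0 ∧
    (∀ i, DifferentiableOn ℂ (fun u => w u i) (Metric.ball 0 1)) ∧
    ∀ t : ℂ, t.re < 0 → ∀ i, HasDerivAt (fun s => w (Complex.exp s) i)
      ((Pt α t).mulVec (w (Complex.exp t)) i) t

/-- the monodromy is a pseudoreflection (from T_FROB, T_UNQ, T_MJ, T_NJ, T_BDET) -/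
def T_MR : Prop := ∀ (m : ℕ) (α : Fin m → ℚ) (Y : ℂ → Mat m) (M : Mat m), Sym m α → Con α Y M →
  ∃ a b : Fin m → ℂ, M = 1 + Matrix.vecMulVec a b

/-- Pringsheim -/
def T_PRING : Prop := ∀ (c : ℕ → ℝ) (f : ℂ → ℂ) (δ : ℝ), 0 < δ → (∀ n, 0 ≤ c n) →
  DifferentiableOn ℂ f (Metric.ball 0 1 ∪ Metric.ball 1 δ) →
  (∀ z ∈ Metric.ball (0 : ℂ) 1, HasSum (fun n => (c n : ℂ) * z ^ n) (f z)) →
  ∃ x : ℝ, 1 < x ∧ Summable fun n => c n * x ^ n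

/-- the holomorphic solution at `0` is not invariant (from T_PRING, T_CN, T_AN, T_NJ) -/
def T_ME0 : Prop := ∀ (m : ℕ) (α : Fin m → ℚ) (Y : ℂ → Mat m) (M : Mat m), Sym m α → Con α Y M →
  ∃ i j : Fin m, (j : ℕ) = 0 ∧ M i j ≠ (1 : Mat m) i j

/-- the form of the monodromy -/
def T_MSTR : Prop := ∀ (m : ℕ) (M : Mat m), 2 ≤ m → M.transpose * Jm m * M = Jm m →
  (∃ a b : Fin m → ℂ, M = 1 + Matrix.vecMulVec a b) →
  (∃ i j : Fin m, (j : ℕ) = 0 ∧ M i j ≠ (1 : Mat m) i j) →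
  ∃ (v : Fin m → ℂ) (κ : ℂ), M = 1 + κ • (Matrix.vecMulVec v v * Jm m) ∧ κ ≠ 0 ∧
    (∃ i : Fin m, (i : ℕ) + 1 = m ∧ v i ≠ 0) ∧
    (Odd m → κ * (v ⬝ᵥ (Jm m).mulVec v) = -2)

/-- `log` is transcendental over germs at `0`, on the positive real axis -/
def T_LOGR : Prop := ∀ (n : ℕ) (g : ℕ → ℂ → ℂ), (∀ k, AnalyticAt ℂ (g k) 0) →
  (∀ᶠ x : ℝ in 𝓝[>] (0 : ℝ), ∑ k ∈ range n, g k (x : ℂ) * (Real.log x : ℂ) ^ k = 0) →
  ∀ k < n, ∀ᶠ z in 𝓝 (0 : ℂ), g k z = 0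

/-! ## D. stabilisers -/

/-- the ring of polynomials in the entries of a matrix, over `ℂ[z]` -/
abbrev Pol (m : ℕ) : Type := MvPolynomial (Fin m × Fin m) (Polynomial ℂ)

/-- `Ψ` vanishes on `V` -/
def Rel {m : ℕ} (V : Set (ℂ × Mat m)) (Ψ : Pol m) : Prop := ∀ p ∈ V, evP p.1 p.2 Ψ = 0

/-- the stabiliser of the ideal of `V` -/
def Stab {m : ℕ} (V : Set (ℂ × Mat m)) : Set (Mat m) :=
  {g | ∀ Ψ, Rel V Ψ → ∀ p ∈ V, evP p.1 (p.2 * g) Ψ = 0}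

/-- its Lie algebra -/
def LieS {m : ℕ} (V : Set (ℂ × Mat m)) : Set (Mat m) := {A | ∀ Ψ, Rel V Ψ → Rel V (dM A Ψ)}

def T_ST1 : Prop := ∀ (m : ℕ) (V : Set (ℂ × Mat m)), (1 : Mat m) ∈ Stab V ∧
  (∀ g ∈ Stab V, ∀ h ∈ Stab V, g * h ∈ Stab V) ∧
  ∀ g ∈ Stab V, ∀ h ∈ Stab V, g * h = 1 → ∀ A ∈ LieS V, h * A * g ∈ LieS V

def T_ST2 : Prop := ∀ (m : ℕ) (V : Set (ℂ × Mat m)), (0 : Mat m) ∈ LieS V ∧
  (∀ A ∈ LieS V, ∀ B ∈ LieS V, A + B ∈ LieS V ∧ A * B - B * A ∈ LieS V) ∧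
  ∀ A ∈ LieS V, ∀ c : ℂ, c • A ∈ LieS V

/-- derivative of a curve in the stabiliser -/
def T_ST3 : Prop := ∀ (m : ℕ) (V : Set (ℂ × Mat m)) (γ : ℂ → Mat m) (A : Mat m), γ 0 = 1 →
  (∀ t, γ t ∈ Stab V) → (∀ i j, HasDerivAt (fun t => γ t i j) (A i j) 0) → A ∈ LieS V

/-- integration -/
def T_ST4 : Prop := ∀ (m : ℕ) (V : Set (ℂ × Mat m)) (γ : ℂ → Mat m) (A : Mat m), A ∈ LieS V →
  γ 0 = 1 → (∀ t i j, HasDerivAt (fun s => γ s i j) ((γ t * A) i j) t) → ∀ t, γ t ∈ Stab V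

/-- a polynomial family which is in the stabiliser at infinitely many points -/
def T_ST5 : Prop := ∀ (m : ℕ) (V : Set (ℂ × Mat m)) (A : Mat m) (κ : ℂ), κ ≠ 0 →
  (∀ k : ℕ, 1 + ((k : ℂ) * κ) • A ∈ Stab V) → ∀ c : ℂ, 1 + c • A ∈ Stab V

/-- the graph of `S` -/
def Gr {m : ℕ} (α : Fin m → ℚ) : Set (ℂ × Mat m) :=
  {p | p.1 ∈ Metric.ball (0 : ℂ) 1 ∧ p.2 = Sv α p.1}

/-- invariance under the conjugates of the monodromy (from T_AN, T_NJ, T_LOGR) -/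
def T_MINV : Prop := ∀ (m : ℕ) (α : Fin m → ℚ) (Y : ℂ → Mat m) (M : Mat m), Sym m α →
  Con α Y M → ∀ s : ℂ, eN m s * M * eN m (-s) ∈ Stab (Gr α)

/-! ## E. groups -/

/-- the translates of a cyclic vector span -/
def T_SPAN : Prop := ∀ (m : ℕ) (v : Fin m → ℂ), (∃ i : Fin m, (i : ℕ) + 1 = m ∧ v i ≠ 0) →
  (∀ W : Submodule ℂ (Fin m → ℂ), (∀ s : ℂ, (eN m s).mulVec v ∈ W) → W = ⊤) ∧
  (2 ≤ m → Even m → ∃ s : Fin m → ℂ, LinearIndependent ℂ (fun i => (eN m (s i)).mulVec v) ∧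
    ∀ i j, i ≠ j → (eN m (s i)).mulVec v ⬝ᵥ (Jm m).mulVec ((eN m (s j)).mulVec v) ≠ 0)

/-- even order: symplectic (from T_NJ, T_SPAN, T_ST1..T_ST5, HEP.T_TAY, HEP.T_SPG) -/
def T_EVEN : Prop := ∀ (m : ℕ) (V : Set (ℂ × Mat m)) (v : Fin m → ℂ) (κ : ℂ), 2 ≤ m → Even m →
  κ ≠ 0 → (∃ i : Fin m, (i : ℕ) + 1 = m ∧ v i ≠ 0) →
  (∀ s : ℂ, eN m s * (1 + κ • (Matrix.vecMulVec v v * Jm m)) * eN m (-s) ∈ Stab V) →
  ∀ g : Mat m, g.transpose * Jm m * g = Jm m → g ∈ Stab V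

/-- `a ∧ b` -/
def wd {m : ℕ} (J : Mat m) (a b : Fin m → ℂ) : Mat m :=
  (Matrix.vecMulVec a b - Matrix.vecMulVec b a) * J

/-- the reflection in `u` -/
noncomputable def rf {m : ℕ} (J : Mat m) (u : Fin m → ℂ) : Mat m :=
  1 - (2 / (u ⬝ᵥ J.mulVec u)) • (Matrix.vecMulVec u u * J)

/-- odd order: the Lie algebra (from T_NJ, T_SPAN, T_ST1, T_ST2, T_ST3) -/
def T_OLIE : Prop := ∀ (m : ℕ) (V : Set (ℂ × Mat m)) (v : Fin m → ℂ), 2 ≤ m → Odd m →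
  v ⬝ᵥ (Jm m).mulVec v ≠ 0 → (∃ i : Fin m, (i : ℕ) + 1 = m ∧ v i ≠ 0) →
  (∀ s : ℂ, eN m s * rf (Jm m) v * eN m (-s) ∈ Stab V) → ∀ a b, wd (Jm m) a b ∈ LieS V

/-- all reflections (from T_ST1, T_ST4) -/
def T_OREF : Prop := ∀ (m : ℕ) (V : Set (ℂ × Mat m)) (J : Mat m) (v : Fin m → ℂ), 2 ≤ m →
  J.transpose = J → J.det ≠ 0 → v ⬝ᵥ J.mulVec v ≠ 0 → rf J v ∈ Stab V →
  (∀ a b, wd J a b ∈ LieS V) → ∀ u : Fin m → ℂ, u ⬝ᵥ J.mulVec u ≠ 0 → rf J u ∈ Stab V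

/-- the orthogonal group is generated by reflections -/
def T_OGEN : Prop := ∀ (m : ℕ) (J g : Mat m), J.transpose = J → J.det ≠ 0 →
  g.transpose * J * g = J →
  g ∈ Submonoid.closure {T | ∃ u : Fin m → ℂ, u ⬝ᵥ J.mulVec u ≠ 0 ∧ T = rf J u}

/-- odd order: orthogonal (from T_OLIE, T_OREF, T_OGEN, T_NJ, T_ST1) -/
def T_ODD : Prop := ∀ (m : ℕ) (V : Set (ℂ × Mat m)) (v : Fin m → ℂ) (κ : ℂ), 2 ≤ m → Odd m →
  κ * (v ⬝ᵥ (Jm m).mulVec v) = -2 → (∃ i : Fin m, (i : ℕ) + 1 = m ∧ v i ≠ 0) →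
  (∀ s : ℂ, eN m s * (1 + κ • (Matrix.vecMulVec v v * Jm m)) * eN m (-s) ∈ Stab V) →
  ∀ g : Mat m, g.transpose * Jm m * g = Jm m → g ∈ Stab V

/-- the functional relations are invariant under the group of the pairing
(from T_YT, T_MJ, T_MR, T_ME0, T_MSTR, T_MINV, T_EVEN, T_ODD) -/
def T_CORE : Prop := ∀ (m : ℕ) (α : Fin m → ℚ), Sym m α → ∀ g : Mat m,
  g.transpose * Jm m * g = Jm m → g ∈ Stab (Gr α)

/-! ## F. pull-back by `z = c x ^ k` and conclusion -/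

/-- `f(c x ^ k)` -/
noncomputable def pb (c : ℚ) (k : ℕ) (f : PowerSeries ℚ) : PowerSeries ℚ :=
  PowerSeries.mk fun n => if k ∣ n then c ^ (n / k) * PowerSeries.coeff (n / k) f else 0

def T_PBG : Prop := ∀ (c : ℚ) (k : ℕ) (f : PowerSeries ℚ), 1 ≤ k → IsG f → IsG (pb c k f)

/-- the Fuchsian system of the pull-back (from T_REC) -/
def T_PBO : Prop := ∀ (m : ℕ) (α : Fin m → ℚ) (c : ℚ) (k : ℕ), Sym m α → c ≠ 0 → 1 ≤ k →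
  ∃ (T : Polynomial ℚ) (A : Fin m × Fin m → Fin m × Fin m → Polynomial ℚ), Squarefree T ∧
    (∀ p q, (A p q).degree < T.degree) ∧
    Hor T A (fun p : Fin m × Fin m => pb c k (Sf α p.1 p.2))

/-- the functional relations of the pull-back (from T_CORE, T_AN) -/
def T_PBR : Prop := ∀ (m : ℕ) (α : Fin m → ℚ) (c : ℚ) (k : ℕ), Sym m α → c ≠ 0 → 1 ≤ k →
  ∀ R : MvPolynomial (Fin m × Fin m) (Polynomial ℚ),
    MvPolynomial.eval₂ (Polynomial.coeToPowerSeries.ringHom)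
      (fun p => pb c k (Sf α p.1 p.2)) R = 0 →
    ∀ g : Mat m, g.transpose * Jm m * g = Jm m → ∀ N : ℕ, 1 ≤ N → |(c : ℝ)| < (N : ℝ) ^ k →
      MvPolynomial.eval₂ ((algebraMap ℚ ℂ).comp (Polynomial.evalRingHom (1 / (N : ℚ))))
        (fun p => (Sv α ((c : ℂ) / (N : ℂ) ^ k) * g) p.1 p.2) R = 0

/-- values of the pull-back -/
def T_PBV : Prop := ∀ (f : PowerSeries ℚ) (c : ℚ) (k N : ℕ), 1 ≤ k → 1 ≤ N →
  (ev (pb c k f) (1 / (N : ℝ)) : ℂ) = evC f ((c : ℂ) / (N : ℂ) ^ k)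

/-- the variables: the entries of `n` matrices of sizes `m_l` -/
abbrev Var {n : ℕ} (m : Fin n → ℕ) : Type := (l : Fin n) × (Fin (m l) × Fin (m l))

/-- the period matrices `Y(c_l / N_l ^ k_l)` satisfy a relation of total degree at most `D` over
`ℤ[θ]` that does not follow from the bilinear relations -/
def HasExtra {n k : ℕ} {m : Fin n → ℕ} (D : ℕ) (θ : Fin k → ℂ) (α : ∀ l, Fin (m l) → ℚ)
    (c : Fin n → ℚ) (e : Fin n → ℕ) (N : Fin n → ℕ) : Prop :=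
  ∃ P : MvPolynomial (Fin k ⊕ Var m) ℤ, P.totalDegree ≤ D ∧
    MvPolynomial.aeval (Sum.elim θ (fun p : Var m =>
      Yv (α p.1) ((c p.1 : ℂ) / (N p.1 : ℂ) ^ e p.1) p.2.1 p.2.2)) P = 0 ∧
    ∃ X : ∀ l, Mat (m l),
      (∀ l, (X l).transpose * Bz (α l) ((c l : ℂ) / (N l : ℂ) ^ e l) * X l = Jm (m l)) ∧
      MvPolynomial.aeval (Sum.elim θ (fun p : Var m => X p.1 p.2.1 p.2.2)) P ≠ 0

/-- the main theorem (from T_PBG, T_PBO, T_PBR, T_PBV, T_GS, T_AN, T_NJ and GFam.T_GFIN) -/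
def T_FIN : Prop := ∀ (n k D : ℕ) (m : Fin n → ℕ) (α : ∀ l, Fin (m l) → ℚ) (c : Fin n → ℚ)
  (e : Fin n → ℕ), (∀ l, Sym (m l) (α l)) → (∀ l, c l ≠ 0) → (∀ l, 1 ≤ e l) →
  ∃ K : ℕ, 1 ≤ K ∧ ∀ (T : ℕ) (θ : Fin k → ℂ), 1 ≤ T →
    (({N : Fin n → ℕ | (∀ l, 1 ≤ N l ∧ N l ≤ T) ∧
      HasExtra (m := m) D θ α c e N}).ncard : ℝ) ≤ K * (T : ℝ) ^ ((n : ℝ) - 1 / (K : ℝ))

end Pool.Agent.MUM
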